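import Pool.Agent.P.MP_767cd9_co.Q1.Defs

/-! Elementary facts on `uu`, `dd`, `dsp`, `cnt`, `rr`. -/

namespace Pool.Agent.P.MP_767cd9_co.Q1

open Real

noncomputable section

variable {τ τ' a t t' c : ℕ} {σ σ' : Path} {b : Bool} {sch sch' : ℕ → ℝ}

lemma uu_nonneg (τ t : ℕ) : 0 ≤ uu τ t := Real.sqrt_nonneg _

lemma uu_sq (h : t ≤ τ) : uu τ t ^ 2 = ss τ t := by
  have : (t : ℝ) ≤ τ := by exact_mod_cast h
  exact Real.sq_sqrt (by unfold ss; linarith)

lemma uu_pos (h : t < τ) : 0 < uu τ t := by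
  have : (t : ℝ) < τ := by exact_mod_cast h
  exact Real.sqrt_pos.2 (by unfold ss; linarith)

lemma lt_of_ss_pos (h : 0 < ss τ t) : t < τ := by
  have : (t : ℝ) < τ := by unfold ss at h; linarith
  exact_mod_cast this

lemma ss_succ (τ t : ℕ) : ss τ (t + 1) = ss τ t - 1 := by
  unfold ss; push_cast; ring

lemma ss_anti (h : t ≤ t') : ss τ t' ≤ ss τ t := by
  have : (t : ℝ) ≤ t' := by exact_mod_cast h
  unfold ss; linarith

lemma uu_succ (h : t < τ) : uu τ (t + 1) ^ 2 + 1 = uu τ t ^ 2 := by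
  rw [uu_sq h, uu_sq h.le, ss_succ]; ring

lemma uu_anti (h : t ≤ t') : uu τ t' ≤ uu τ t := by
  exact Real.sqrt_le_sqrt (ss_anti h)

lemma uu_mono (h : τ ≤ τ') : uu τ t ≤ uu τ' t := by
  have : (τ : ℝ) ≤ τ' := by exact_mod_cast h
  exact Real.sqrt_le_sqrt (by unfold ss; linarith)

lemma dd_nonneg (τ t : ℕ) : 0 ≤ dd τ t := by
  have := uu_anti (τ := τ) (Nat.le_succ t)
  unfold dd; linarith

lemma dd_mul (h : t < τ) : dd τ t * (uu τ t + uu τ (t + 1)) = 2 := by
  have := uu_succ h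
  unfold dd; linarith [this, mul_comm (uu τ t) (uu τ (t + 1)),
    (by ring : (2 * uu τ t - 2 * uu τ (t + 1)) * (uu τ t + uu τ (t + 1)) =
      2 * (uu τ t ^ 2 - uu τ (t + 1) ^ 2))]

lemma dsp_self : dsp τ σ b a a = 0 := by
  simp [dsp]

lemma dsp_succ (h : a ≤ t) :
    dsp τ σ b a (t + 1) = dsp τ σ b a t + if σ t = b then dd τ t else 0 := by
  exact Finset.sum_Ico_succ_top h _

lemma dsp_add (h : a ≤ t) (h' : t ≤ t') :
    dsp τ σ b a t' = dsp τ σ b a t + dsp τ σ b t t' := by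
  exact (Finset.sum_Ico_consecutive _ h h').symm

lemma dsp_nonneg : 0 ≤ dsp τ σ b a t := by
  refine Finset.sum_nonneg fun j _ => ?_
  split_ifs
  · exact dd_nonneg τ j
  · exact le_rfl

lemma dsp_mono (h : t ≤ t') : dsp τ σ b a t ≤ dsp τ σ b a t' := by
  refine Finset.sum_le_sum_of_subset_of_nonneg (Finset.Ico_subset_Ico_right h) fun j _ _ => ?_
  split_ifs
  · exact dd_nonneg τ j
  · exact le_rfl

lemma dsp_anti (h : t ≤ t') : dsp τ σ b t' c ≤ dsp τ σ b t c := by
  refine Finset.sum_le_sum_of_subset_of_nonneg (Finset.Ico_subset_Ico_left h) fun j _ _ => ?_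
  split_ifs
  · exact dd_nonneg τ j
  · exact le_rfl

lemma dsp_sum (h : a ≤ t) :
    dsp τ σ b a t + dsp τ σ (!b) a t = 2 * uu τ a - 2 * uu τ t := by
  induction t, h using Nat.le_induction with
  | base => rw [dsp_self, dsp_self]; ring
  | succ t h ih =>
    rw [dsp_succ h, dsp_succ h]
    have : ((if σ t = b then dd τ t else 0) + if σ t = !b then dd τ t else 0) = dd τ t := by
      cases σ t <;> cases b <;> simp
    unfold dd at this ⊢
    linarith

lemma Basic_cnt : cnt σ b a t = ∑ j ∈ Finset.Ico a t, if σ j = b then 1 else 0 :=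
  Finset.card_filter _ _

lemma cnt_self : cnt σ b a a = 0 := by
  simp [cnt]

lemma cnt_succ (h : a ≤ t) : cnt σ b a (t + 1) = cnt σ b a t + if σ t = b then 1 else 0 := by
  rw [Basic_cnt, Basic_cnt, Finset.sum_Ico_succ_top h]

lemma cnt_add (h : a ≤ t) (h' : t ≤ t') : cnt σ b a t' = cnt σ b a t + cnt σ b t t' := by
  rw [Basic_cnt, Basic_cnt, Basic_cnt, Finset.sum_Ico_consecutive _ h h']

lemma cnt_mono (h : t ≤ t') : cnt σ b a t ≤ cnt σ b a t' := by
  exact Finset.card_le_card (Finset.filter_subset_filter _ (Finset.Ico_subset_Ico_right h))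

lemma cnt_anti (h : t ≤ t') : cnt σ b t' c ≤ cnt σ b t c := by
  exact Finset.card_le_card (Finset.filter_subset_filter _ (Finset.Ico_subset_Ico_left h))

lemma cnt_sum (h : a ≤ t) : cnt σ b a t + cnt σ (!b) a t = t - a := by
  induction t, h using Nat.le_induction with
  | base => simp [cnt_self]
  | succ t h ih =>
    rw [cnt_succ h, cnt_succ h]
    have : ((if σ t = b then 1 else 0) + if σ t = !b then 1 else 0) = 1 := by
      cases σ t <;> cases b <;> simp
    omega

lemma cnt_exists_left {m : ℕ} (h : a ≤ c) (hm : m ≤ cnt σ b a c) :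
    ∃ t, a ≤ t ∧ t ≤ c ∧ cnt σ b a t = m := by
  induction c, h using Nat.le_induction with
  | base => exact ⟨a, le_rfl, le_rfl, by rw [cnt_self] at hm ⊢; omega⟩
  | succ c h ih =>
    by_cases h1 : m ≤ cnt σ b a c
    · obtain ⟨t, h2, h3, h4⟩ := ih h1
      exact ⟨t, h2, by omega, h4⟩
    · refine ⟨c + 1, by omega, le_rfl, ?_⟩
      rw [cnt_succ h] at hm ⊢
      split_ifs at hm ⊢ <;> omega

lemma cnt_exists_right {m : ℕ} (h : a ≤ c) (hm : m ≤ cnt σ b a c) :
    ∃ t, a ≤ t ∧ t ≤ c ∧ cnt σ b t c = m := by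
  obtain ⟨t, h1, h2, h3⟩ := cnt_exists_left (σ := σ) (b := b) h
    (Nat.sub_le (cnt σ b a c) m)
  have := cnt_add (σ := σ) (b := b) h1 h2
  exact ⟨t, h1, h2, by omega⟩

/-- every step has `1 / uu τ a ≤ dd` -/
lemma cnt_le_dsp (h : c ≤ τ) : (cnt σ b a c : ℝ) ≤ uu τ a * dsp τ σ b a c := by
  rw [Basic_cnt, dsp, Finset.mul_sum]
  push_cast
  refine Finset.sum_le_sum fun j hj => ?_
  obtain ⟨h1, h2⟩ := Finset.mem_Ico.1 hj
  split_ifs
  · have h3 := dd_mul (τ := τ) (t := j) (by omega)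
    have h4 := uu_anti (τ := τ) h1
    have h5 := uu_anti (τ := τ) (show a ≤ j + 1 by omega)
    nlinarith [dd_nonneg τ j]
  · simp

/-- every step has `dd ≤ 1 / uu τ c` -/
lemma dsp_le_cnt (h : c ≤ τ) : uu τ c * dsp τ σ b a c ≤ cnt σ b a c := by
  rw [Basic_cnt, dsp, Finset.mul_sum]
  push_cast
  refine Finset.sum_le_sum fun j hj => ?_
  obtain ⟨h1, h2⟩ := Finset.mem_Ico.1 hj
  split_ifs
  · have h3 := dd_mul (τ := τ) (t := j) (by omega)
    have h4 := uu_anti (τ := τ) h2.le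
    have h5 := uu_anti (τ := τ) (show j + 1 ≤ c by omega)
    nlinarith [dd_nonneg τ j]
  · simp

/-- each `b` step contributes `4 = dd * (2 uu j + 2 uu (j+1))` -/
lemma cnt_lower (h : t ≤ t') (h' : t' ≤ τ) :
    dsp τ σ b t t' ^ 2 + 4 * uu τ t' * dsp τ σ b t t' ≤ 4 * (cnt σ b t t' : ℝ) := by
  induction t', h using Nat.le_induction with
  | base => simp [dsp_self, cnt_self]
  | succ t' h ih =>
    have ih := ih (by omega)
    have h3 := dd_mul (τ := τ) (t := t') (by omega)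
    have h4 := uu_anti (τ := τ) (Nat.le_succ t')
    have h5 : 0 ≤ dsp τ σ b t t' := dsp_nonneg
    rw [dsp_succ h, cnt_succ h]
    split_ifs
    · push_cast
      unfold dd at h3 ⊢
      nlinarith
    · simp only [add_zero]
      nlinarith

lemma dsp_congr (h : Ag t σ σ') (hc : c ≤ t) : dsp τ σ' b a c = dsp τ σ b a c := by
  refine Finset.sum_congr rfl fun j hj => ?_
  rw [h j (by have := (Finset.mem_Ico.1 hj).2; omega)]

lemma cnt_congr (h : Ag t σ σ') (hc : c ≤ t) : cnt σ' b a c = cnt σ b a c := by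
  rw [Basic_cnt, Basic_cnt]
  refine Finset.sum_congr rfl fun j hj => ?_
  rw [h j (by have := (Finset.mem_Ico.1 hj).2; omega)]

lemma rr_congr (h : Ag t σ σ') (hc : c ≤ t) : rr sch τ σ' b c = rr sch τ σ b c := by
  induction c with
  | zero => rfl
  | succ c ih => simp only [rr, ih (by omega), h c (by omega)]

lemma rr_congr_sch (h : ∀ j, j < t → sch' j = sch j) : rr sch' τ σ b t = rr sch τ σ b t := by
  induction t with
  | zero => rfl
  | succ t ih => simp only [rr, ih fun j hj => h j (by omega), h t (by omega)]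

lemma rr_range (h1 : ∀ t, 1 ≤ sch t) (h : t < τ) : 0 < rr sch τ σ b t ∧ rr sch τ σ b t ≤ 1 := by
  induction t with
  | zero => exact ⟨one_pos, le_rfl⟩
  | succ t ih =>
    obtain ⟨h2, h3⟩ := ih (by omega)
    have h4 := uu_pos h
    have h5 := uu_pos (show t < τ by omega)
    have h6 := uu_anti (τ := τ) (Nat.le_succ t)
    simp only [rr]
    split_ifs
    · exact ⟨by positivity, (div_le_one h5).2 (by nlinarith)⟩
    · have h7 : 0 ≤ (1 - rr sch τ σ b t) / sch t :=
        div_nonneg (by linarith) (by linarith [h1 t])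
      have h8 : (1 - rr sch τ σ b t) / sch t ≤ 1 - rr sch τ σ b t :=
        div_le_self (by linarith) (h1 t)
      exact ⟨by linarith, by linarith⟩

/-- `rr / uu` does not decrease -/
lemma rr_div_mono (h1 : ∀ t, 1 ≤ sch t) (h : a ≤ t) (h' : t < τ) :
    rr sch τ σ b a * uu τ t ≤ rr sch τ σ b t * uu τ a := by
  induction t, h using Nat.le_induction with
  | base => exact le_rfl
  | succ t h ih =>
    have ih := ih (by omega)
    obtain ⟨h2, h3⟩ := rr_range (σ := σ) (b := b) h1 (show t < τ by omega)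
    obtain ⟨h2', -⟩ := rr_range (σ := σ) (b := b) h1 (show a < τ by omega)
    have h4 := uu_pos h'
    have h5 := uu_pos (show t < τ by omega)
    have h6 := uu_anti (τ := τ) (Nat.le_succ t)
    simp only [rr]
    split_ifs
    · rw [div_mul_eq_mul_div, le_div_iff₀ h5]
      nlinarith
    · have h7 : 0 ≤ (1 - rr sch τ σ b t) / sch t :=
        div_nonneg (by linarith) (by linarith [h1 t])
      nlinarith [uu_nonneg τ a]

/-- comparison of the states of two targets -/
lemma rr_cmp (h1 : ∀ t, 1 ≤ sch t) (h : τ ≤ τ') (h' : t < τ) :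
    rr sch τ σ b t ≤ rr sch τ' σ b t ∧
      rr sch τ' σ b t * uu τ t ≤ rr sch τ σ b t * uu τ' t := by
  induction t with
  | zero => exact ⟨le_rfl, by simpa [rr] using uu_mono h⟩
  | succ t ih =>
    obtain ⟨i1, i2⟩ := ih (by omega)
    obtain ⟨h2, h3⟩ := rr_range (σ := σ) (b := b) h1 (show t < τ by omega)
    obtain ⟨h2', h3'⟩ := rr_range (σ := σ) (b := b) h1 (show t < τ' by omega)
    have u1 := uu_pos h'
    have u0 := uu_pos (show t < τ by omega)
    have v1 := uu_pos (show t + 1 < τ' by omega)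
    have v0 := uu_pos (show t < τ' by omega)
    have m0 : uu τ t ≤ uu τ' t := uu_mono h
    have m1 : uu τ (t + 1) ≤ uu τ' (t + 1) := uu_mono h
    have key : uu τ (t + 1) * uu τ' t ≤ uu τ' (t + 1) * uu τ t := by
      refine (abs_le_of_sq_le_sq' ?_ (by positivity)).2
      have e1 := uu_succ (show t < τ by omega)
      have e2 := uu_succ (show t < τ' by omega)
      have e3 : uu τ t ^ 2 ≤ uu τ' t ^ 2 := by gcongr
      rw [mul_pow, mul_pow, (by linarith : uu τ (t + 1) ^ 2 = uu τ t ^ 2 - 1),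
        (by linarith : uu τ' (t + 1) ^ 2 = uu τ' t ^ 2 - 1)]
      nlinarith
    simp only [rr]
    split_ifs
    · constructor
      · rw [div_le_div_iff₀ u0 v0]
        calc rr sch τ σ b t * uu τ (t + 1) * uu τ' t
            = rr sch τ σ b t * (uu τ (t + 1) * uu τ' t) := by ring
          _ ≤ rr sch τ' σ b t * (uu τ' (t + 1) * uu τ t) := by gcongr
          _ = _ := by ring
      · rw [div_mul_eq_mul_div, div_mul_eq_mul_div, div_le_div_iff₀ v0 u0]
        have := mul_le_mul_of_nonneg_right i2 (mul_pos u1 v1).le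
        nlinarith
    · have hq0 : 0 < (sch t)⁻¹ := inv_pos.2 (by linarith [h1 t])
      have hq1 : (sch t)⁻¹ ≤ 1 := inv_le_one_of_one_le₀ (h1 t)
      have k2 : rr sch τ' σ b t * uu τ (t + 1) ≤ rr sch τ σ b t * uu τ' (t + 1) := by
        refine le_of_mul_le_mul_right ?_ u0
        have a1 := mul_le_mul_of_nonneg_right i2 u1.le
        have a2 := mul_le_mul_of_nonneg_left key h2.le
        nlinarith
      rw [div_eq_mul_inv, div_eq_mul_inv]
      constructor
      · nlinarith [mul_nonneg (sub_nonneg.2 i1) (sub_nonneg.2 hq1)]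
      · nlinarith [mul_nonneg (sub_nonneg.2 k2) (sub_nonneg.2 hq1),
          mul_nonneg (sub_nonneg.2 m1) hq0.le]

lemma Basic_near {T0 : ℝ} (h1 : ∀ t, 1 ≤ sch t) (h : a ≤ t) (h' : t < τ) (hT : 1 ≤ T0)
    (hs : ∀ j, a ≤ j → j < t → sch j = T0) :
    1 - rr sch τ σ b t ≤ (1 - 1 / T0) ^ cnt σ (!b) a t + cnt σ b a t / (2 * ss τ t) := by
  have hq0 : 0 ≤ 1 - 1 / T0 := by
    have : 1 / T0 ≤ 1 := (div_le_one (by linarith)).2 hT
    linarith
  have hq1 : 1 - 1 / T0 ≤ 1 := by
    have : 0 ≤ 1 / T0 := by positivity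
    linarith
  induction t, h using Nat.le_induction with
  | base =>
    have := (rr_range (σ := σ) (b := b) h1 h').1
    simp only [cnt_self, pow_zero, Nat.cast_zero, zero_div]
    linarith
  | succ t h ih =>
    have ih := ih (by omega) fun j hj hj' => hs j hj (by omega)
    obtain ⟨h2, h3⟩ := rr_range (σ := σ) (b := b) h1 (show t < τ by omega)
    have u1 := uu_pos h'
    have u0 := uu_pos (show t < τ by omega)
    have h6 := uu_anti (τ := τ) (Nat.le_succ t)
    have e1 := uu_succ (show t < τ by omega)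
    have e2 := uu_sq h'.le
    have s1 : 0 < ss τ (t + 1) := by rw [← e2]; positivity
    have s2 : (cnt σ b a t : ℝ) / (2 * ss τ t) ≤ cnt σ b a t / (2 * ss τ (t + 1)) := by
      have := ss_anti (τ := τ) (Nat.le_succ t)
      gcongr
    have s3 : (0 : ℝ) ≤ cnt σ b a t / (2 * ss τ t) := by
      have := ss_anti (τ := τ) (Nat.le_succ t)
      exact div_nonneg (Nat.cast_nonneg _) (by linarith)
    rw [cnt_succ h, cnt_succ h]
    simp only [rr]
    by_cases hb : σ t = b
    · have hb' : ¬ σ t = !b := by rw [hb]; cases b <;> simp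
      rw [if_pos hb, if_pos hb, if_neg hb', add_zero]
      push_cast
      have k1 : (uu τ t - uu τ (t + 1)) / uu τ t ≤ 1 / (2 * ss τ (t + 1)) := by
        rw [div_le_div_iff₀ u0 (by positivity), ← e2]
        have k : 2 * uu τ (t + 1) ^ 2 ≤ uu τ t * (uu τ t + uu τ (t + 1)) := by nlinarith
        have k' := mul_le_mul_of_nonneg_left k (sub_nonneg.2 h6)
        have k'' : (uu τ t - uu τ (t + 1)) * (uu τ t * (uu τ t + uu τ (t + 1))) = uu τ t := by
          have : (uu τ t - uu τ (t + 1)) * (uu τ t + uu τ (t + 1)) = 1 := by linarith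
          calc _ = uu τ t * ((uu τ t - uu τ (t + 1)) * (uu τ t + uu τ (t + 1))) := by ring
            _ = _ := by rw [this, mul_one]
        linarith
      have k2 : 1 - rr sch τ σ b t * uu τ (t + 1) / uu τ t =
          1 - rr sch τ σ b t + rr sch τ σ b t * ((uu τ t - uu τ (t + 1)) / uu τ t) := by
        field_simp
        ring
      have k3 : rr sch τ σ b t * ((uu τ t - uu τ (t + 1)) / uu τ t) ≤
          (uu τ t - uu τ (t + 1)) / uu τ t :=
        mul_le_of_le_one_left (div_nonneg (sub_nonneg.2 h6) u0.le) h3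
      rw [k2, add_div]
      linarith
    · have hb' : σ t = !b := by cases b <;> simpa using hb
      rw [if_neg hb, if_neg hb, if_pos hb', add_zero, hs t h (by omega), pow_succ]
      have k1 : 1 - (rr sch τ σ b t + (1 - rr sch τ σ b t) / T0) =
          (1 - rr sch τ σ b t) * (1 - 1 / T0) := by ring
      have k2 := mul_le_mul_of_nonneg_right ih hq0
      have k3 := mul_le_of_le_one_right s3 hq1
      rw [k1]
      linarith [add_mul ((1 - 1 / T0) ^ cnt σ (!b) a t) ((cnt σ b a t : ℝ) / (2 * ss τ t))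
        (1 - 1 / T0)]

/-- `1 - rr` contracts by `1 - 1 / T0` on trailing steps and grows by at most
`dd / (2 uu) ≤ 1 / (2 ss τ t)` on leading steps -/
lemma rr_near {T0 : ℝ} {m : ℕ} (h1 : ∀ t, 1 ≤ sch t) (h : a ≤ t) (h' : t < τ) (hT : 1 ≤ T0)
    (hs : ∀ j, a ≤ j → j < t → sch j = T0) (hm : 0 < m) (hc : m ≤ cnt σ (!b) a t) :
    1 - rr sch τ σ b t ≤ 2 * (T0 / m) ^ 2 + cnt σ b a t / (2 * ss τ t) := by
  have hq0 : 0 ≤ 1 - 1 / T0 := by
    have : 1 / T0 ≤ 1 := (div_le_one (by linarith)).2 hT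
    linarith
  have hq1 : 1 - 1 / T0 ≤ 1 := by
    have : 0 ≤ 1 / T0 := by positivity
    linarith
  have hmR : (0 : ℝ) < m := by exact_mod_cast hm
  have hx : 0 < (m : ℝ) / T0 := by positivity
  have e1 : (1 - 1 / T0) ^ cnt σ (!b) a t ≤ (1 - 1 / T0) ^ m := pow_le_pow_of_le_one hq0 hq1 hc
  have e2 : (1 - 1 / T0) ^ m ≤ Real.exp (-(m / T0)) := by
    calc (1 - 1 / T0) ^ m ≤ Real.exp (-(1 / T0)) ^ m :=
          pow_le_pow_left₀ hq0 (Real.one_sub_le_exp_neg _) m
      _ = _ := by rw [← Real.exp_nat_mul]; congr 1; ring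
  have e3 : Real.exp (-(m / T0)) ≤ 2 * (T0 / m) ^ 2 := by
    have q := Real.quadratic_le_exp_of_nonneg hx.le
    rw [Real.exp_neg]
    calc (Real.exp (m / T0))⁻¹ ≤ (((m : ℝ) / T0) ^ 2 / 2)⁻¹ :=
          inv_anti₀ (by positivity) (by linarith)
      _ = _ := by field_simp
  linarith [Basic_near (σ := σ) (b := b) h1 h h' hT hs]

lemma dsp_cmp (h : τ ≤ τ') (hc : c ≤ τ) : dsp τ' σ b a c ≤ dsp τ σ b a c := by
  refine Finset.sum_le_sum fun j hj => ?_
  obtain ⟨h1, h2⟩ := Finset.mem_Ico.1 hj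
  split_ifs
  · have h3 := dd_mul (τ := τ) (t := j) (by omega)
    have h4 := dd_mul (τ := τ') (t := j) (by omega)
    have h5 : uu τ j ≤ uu τ' j := uu_mono h
    have h6 : uu τ (j + 1) ≤ uu τ' (j + 1) := uu_mono h
    have h7 := uu_pos (show j < τ by omega)
    refine le_of_mul_le_mul_right ?_ (add_pos_of_pos_of_nonneg h7 (uu_nonneg τ (j + 1)))
    nlinarith [dd_nonneg τ' j]
  · exact le_rfl

lemma dsp_cmp_ge {x : ℝ} (hx : 0 ≤ x) (hc : c ≤ τ) (hc' : c ≤ τ')
    (h : ∀ j, a ≤ j → j ≤ c → x * uu τ j ≤ uu τ' j) : x * dsp τ' σ b a c ≤ dsp τ σ b a c := by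
  rw [dsp, Finset.mul_sum]
  refine Finset.sum_le_sum fun j hj => ?_
  obtain ⟨h1, h2⟩ := Finset.mem_Ico.1 hj
  split_ifs
  · have h3 := dd_mul (τ := τ) (t := j) (by omega)
    have h4 := dd_mul (τ := τ') (t := j) (by omega)
    have h5 := h j h1 h2.le
    have h6 := h (j + 1) (by omega) h2
    have h7 := uu_pos (show j < τ by omega)
    refine le_of_mul_le_mul_right ?_ (add_pos_of_pos_of_nonneg h7 (uu_nonneg τ (j + 1)))
    nlinarith [mul_le_mul_of_nonneg_left (add_le_add h5 h6) (dd_nonneg τ' j)]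
  · simp

lemma dsp_cmp_le {x : ℝ} (hx : 0 ≤ x) (hc : c ≤ τ) (hc' : c ≤ τ')
    (h : ∀ j, a ≤ j → j ≤ c → uu τ' j ≤ x * uu τ j) : dsp τ σ b a c ≤ x * dsp τ' σ b a c := by
  rw [dsp, dsp, Finset.mul_sum]
  refine Finset.sum_le_sum fun j hj => ?_
  obtain ⟨h1, h2⟩ := Finset.mem_Ico.1 hj
  split_ifs
  · have h3 := dd_mul (τ := τ) (t := j) (by omega)
    have h4 := dd_mul (τ := τ') (t := j) (by omega)
    have h5 := h j h1 h2.le
    have h6 := h (j + 1) (by omega) h2
    have h7 := uu_pos (show j < τ' by omega)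
    refine le_of_mul_le_mul_right ?_ (add_pos_of_pos_of_nonneg h7 (uu_nonneg τ' (j + 1)))
    calc dd τ j * (uu τ' j + uu τ' (j + 1)) ≤ dd τ j * (x * uu τ j + x * uu τ (j + 1)) :=
          mul_le_mul_of_nonneg_left (add_le_add h5 h6) (dd_nonneg τ j)
      _ = x * (dd τ j * (uu τ j + uu τ (j + 1))) := by ring
      _ = x * (dd τ' j * (uu τ' j + uu τ' (j + 1))) := by rw [h3, h4]
      _ = _ := by ring
  · simp

end

end Pool.Agent.P.MP_767cd9_co.Q1
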