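import Pool.Agent.P.MP_767cd9_co.Q1.BetS

/-! The tilt bets. -/

namespace Pool.Agent.P.MP_767cd9_co.Q1

open Real

noncomputable section

variable {p : Par} {sch : ℕ → ℝ} {t1 t2 τ : ℕ} {b0 : Bool}

/-- conditions at the creation time -/
structure LCre (p : Par) (t1 τ : ℕ) (σ : Path) (b0 : Bool) (f tC : ℕ) (ub : ℝ) : Prop where
  hub : ub ≤ uu τ f
  hub' : uu τ f ≤ (1 + p.ε / 500) * ub
  fc : FC p σ (!b0) t1 t1 f
  hc : cnt σ b0 f tC ≤ p.H
  hP : 49 / 100 * uu τ f ≤ dsp τ σ (!b0) f tC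
  hP' : dsp τ σ (!b0) f tC ≤ 51 / 100 * uu τ f

/-- conditions at the resolution time: no move, left resolution, or right resolution -/
def LRes (p : Par) (t1 τ : ℕ) (σ : Path) (b0 : Bool) (f tC tR : ℕ) (ub z1 z2 : ℝ) : Prop :=
  z1 < z2 ∧ ub ≤ 5 * (z2 - z1) ∧
  (((-((1 / 2 - 2 * p.ε) * ub) ≤ z1 ∧ z2 ≤ (1 / 2 - 2 * p.ε) * ub) ∨
      (1 / 2 + 2 * p.ε) * ub ≤ z1) ∨
    (∃ pv, FC p σ b0 t1 tC tR ∧ pv ≤ (1 + 2 * p.ε) * uu τ tR ∧
      z1 = 2 * uu τ f - dsp τ σ (!b0) f tR - pv ∧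
      z2 = 2 * uu τ f - dsp τ σ (!b0) f tR + p.yb ∧
      dsp τ σ b0 f tR + (1 + 3 * p.ε) * uu τ tR ≤ (1 / 2 - 2 * p.ε) * ub) ∨
    (∃ pv, FC p σ (!b0) t1 tC tR ∧ pv ≤ (1 + 2 * p.ε) * uu τ tR ∧
      z1 = dsp τ σ b0 f tR - p.yb ∧ z2 = dsp τ σ b0 f tR + pv ∧
      (1 / 2 + 2 * p.ε) * ub ≤ dsp τ σ b0 f tR + (1 - 3 * p.ε) * uu τ tR))

/-- the final window lies in `[z1, z2]` -/
def okL (p : Par) (τ : ℕ) (σ : Path) (b0 : Bool) (f t2 : ℕ) (z1 z2 : ℝ) : Prop :=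
  z1 ≤ dsp τ σ b0 f t2 - p.yb ∧ 2 * uu τ f - dsp τ σ (!b0) f t2 + p.yb ≤ z2

open Classical in
def zetaL (p : Par) (t1 t2 τ : ℕ) (σ : Path) (b0 : Bool) (s : ℝ) (f tC tR : ℕ) (ub z1 z2 : ℝ)
    (t : ℕ) (x : ℝ) : ℝ :=
  if t < tC then x
  else if t < tR then Function.invFun (Th p (Phi p ub) s (dsp τ σ b0 t1 f)) x
  else if t < t2 ∨ okL p τ σ b0 f t2 z1 z2 then
    Function.invFun (Th p (PhiR p ub z1 z2) s (dsp τ σ b0 t1 f)) x
  else ctr τ σ b0 t1 t2 +
    (x - ctr τ σ b0 t1 t2) / (1 - 2 * (10 * p.lam * p.ε * p.U) / uu τ t2)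

lemma BetL_lam_pos (p : Par) : 0 < p.lam := by
  have := p.M_pos
  have := p.hε
  unfold Par.lam
  positivity

lemma BetL_lam_le (p : Par) : p.lam ≤ p.ε := by
  have hM := p.hM
  have hε := p.hε
  unfold Par.lam
  have h1 : (1 : ℝ) ≤ p.M := le_trans (by norm_num) hM
  exact div_le_self hε.le (one_le_pow₀ h1)

lemma BetL_ub_pos {σ : Path} {f tC : ℕ} {ub : ℝ} (hr : Rng p t2 τ) (hf : f ≤ t2)
    (hC : LCre p t1 τ σ b0 f tC ub) : 0 < ub := by
  have hu : 0 < uu τ f := uu_pos (lt_of_le_of_lt hf hr.lt)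
  have h1 := hC.hub'
  have hε := p.hε
  by_contra hn
  push Not at hn
  have : (1 + p.ε / 500) * ub ≤ 0 := mul_nonpos_of_nonneg_of_nonpos (by positivity) hn
  linarith

lemma BetL_XL_same {σ : Path} {a t : ℕ} {z : ℝ} :
    XL τ σ b0 a z b0 t = z - dsp τ σ b0 a t := by
  simp [XL]

lemma BetL_XL_not {σ : Path} {a t : ℕ} {z : ℝ} :
    XL τ σ b0 a z (!b0) t = (2 * uu τ a - z) - dsp τ σ (!b0) a t := by
  cases b0 <;> simp [XL]

lemma BetL_cases (b b0 : Bool) : b = b0 ∨ b = !b0 := by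
  cases b <;> cases b0 <;> simp

lemma BetL_w128 (p : Par) : 0 ≤ 128 * p.w ∧ 128 * p.w ≤ p.W ∧ p.w ≤ 128 * p.w ∧ p.w ≤ p.W := by
  have h1 := p.w_ge
  have h2 := p.w_le_W
  refine ⟨by linarith, by linarith, by linarith, by linarith⟩

/-- a natural segment -/
lemma BetL_seg {σ : Path} {z cc e : ℝ} {t t' : ℕ} {b : Bool} {X V : ℕ → ℝ} (h : Cx p sch t1 t2)
    (hr : Rng p t2 τ) (hc0 : 0 ≤ cc) (hc1 : cc ≤ 1) (he : 0 ≤ e) (ht : t1 ≤ t) (htt : t ≤ t')
    (ht' : t' ≤ t2) (hH : HT τ σ b t t' X V)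
    (hX : ∀ j, t ≤ j → j < t' → X j = XL τ σ b0 t1 z b j)
    (hw : WL (128 * p.w) sch τ σ b0 t1 z t')
    (hI : GI cc p.w p.e1 e sch τ σ b t (XL τ σ b0 t1 z b t) (V t)) :
    GI cc p.w p.e1 e sch τ σ b t' (XL τ σ b0 t1 z b t') (V t') := by
  have hw' : WS p.W sch τ σ b t' (XL τ σ b0 t1 z b t') :=
    (hw b).mono h.h1 (lt_of_le_of_lt ht' hr.lt) (BetL_w128 p).2.1
  exact HT_G (y := if b = b0 then z else 2 * uu τ t1 - z) (h.ok hr) hc0 hc1 he ht ht htt ht' hH hX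
    hw' hI

/-- the switch at the resolution time -/
lemma BetL_res {σ : Path} {s ub z1 z2 z0 z e : ℝ} {f tC tR : ℕ} (h : Cx p sch t1 t2)
    (hr : Rng p t2 τ) (hs : s = 1 ∨ s = -1) (h1 : t1 ≤ f) (h2 : f ≤ tC) (h3 : tC ≤ tR)
    (h4 : tR ≤ t2) (hC : LCre p t1 τ σ b0 f tC ub) (hR : LRes p t1 τ σ b0 f tC tR ub z1 z2)
    (he : 0 ≤ e)
    (hx : Th p (Phi p ub) s (dsp τ σ b0 t1 f) z0 = Th p (PhiR p ub z1 z2) s (dsp τ σ b0 t1 f) z)
    (hz : WL p.w sch τ σ b0 t1 z tR) :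
    WL (128 * p.w) sch τ σ b0 t1 z0 tR ∧ ∀ b X V, HT τ σ b tC tR X V →
      (∀ j, tC ≤ j → j < tR → X j = XL τ σ b0 t1 z0 b j) →
      GI (5 / 8) p.w p.e1 e sch τ σ b tC (XL τ σ b0 t1 z0 b tC) (V tC) →
      GI (1 / 2) p.w p.e1 (e + 2 ^ 29 * p.M * p.lam * p.w) sch τ σ b tR
        (XL τ σ b0 t1 z b tR) (V tR) := by
  have hub : 0 < ub := BetL_ub_pos hr (by omega) hC
  have hlt : tR < τ := lt_of_le_of_lt h4 hr.lt
  have huR : 0 < uu τ tR := uu_pos hlt
  have hlam := BetL_lam_pos p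
  have hε := p.hε
  have hεs := p.eps_le
  have hM := p.M_pos
  have hw1 := p.w_ge
  obtain ⟨hz12, hub5, hcase⟩ := hR
  -- no move
  have nomove : z0 = z → WL (128 * p.w) sch τ σ b0 t1 z0 tR ∧ ∀ b X V, HT τ σ b tC tR X V →
      (∀ j, tC ≤ j → j < tR → X j = XL τ σ b0 t1 z0 b j) →
      GI (5 / 8) p.w p.e1 e sch τ σ b tC (XL τ σ b0 t1 z0 b tC) (V tC) →
      GI (1 / 2) p.w p.e1 (e + 2 ^ 29 * p.M * p.lam * p.w) sch τ σ b tR
        (XL τ σ b0 t1 z b tR) (V tR) := by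
    intro hzz
    subst hzz
    have hw : WL (128 * p.w) sch τ σ b0 t1 z0 tR := fun b =>
      (hz b).mono h.h1 hlt (BetL_w128 p).2.2.1
    refine ⟨hw, fun b X V hH hX hI => ?_⟩
    have h5 := BetL_seg h hr (by norm_num) (by norm_num) he (by omega) h3 h4 hH hX hw hI
    have h6 : GG (1 / 2) p.w p.e1 (uu τ tR) (rr sch τ σ b tR) (XL τ σ b0 t1 z0 b tR) ≤
        GG (5 / 8) p.w p.e1 (uu τ tR) (rr sch τ σ b tR) (XL τ σ b0 t1 z0 b tR) :=
      GG_mono (by norm_num) le_rfl huR (rr_range h.h1 hlt).2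
    have h7 : 0 ≤ 2 ^ 29 * p.M * p.lam * p.w := by positivity
    unfold GI at h5 ⊢
    linarith
  obtain ⟨hout, hin⟩ := res_move hs hub.le hz12 hub5 hx
  by_cases hmem : z1 ≤ z - dsp τ σ b0 t1 f ∧ z - dsp τ σ b0 t1 f ≤ z2
  swap
  · exact nomove (hout hmem)
  obtain ⟨ha1, ha2, hη0, hη1, hη1', hη2, hη2'⟩ := hin hmem.1 hmem.2
  have hadd : dsp τ σ b0 t1 tR = dsp τ σ b0 t1 f + dsp τ σ b0 f tR :=
    dsp_add h1 (by omega)
  have hsum : dsp τ σ b0 f tR + dsp τ σ (!b0) f tR = 2 * uu τ f - 2 * uu τ tR :=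
    dsp_sum (by omega)
  have hsum1 : dsp τ σ b0 t1 tR + dsp τ σ (!b0) t1 tR = 2 * uu τ t1 - 2 * uu τ tR :=
    dsp_sum (by omega)
  have hdn : 0 ≤ dsp τ σ b0 f tR := dsp_nonneg
  have hubU : ub ≤ p.U := le_trans hC.hub (h.uu_le hr h1)
  have hη0' : |z - z0| ≤ 10 * p.lam * p.ε * p.U :=
    le_trans hη0 (mul_le_mul_of_nonneg_left hubU (by positivity))
  rcases hcase with hA | ⟨pv, fc, hpv, e1, e2, e3⟩ | ⟨pv, fc, hpv, e1, e2, e3⟩
  · -- the profile is already affine on `[z1, z2]`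
    apply nomove
    have hF : PhiR p ub z1 z2 = Phi p ub := funext fun y => PhiR_eq hub.le hz12 hA
    rw [hF] at hx
    have hT := (Th_facts (p := p) (o := dsp τ σ b0 t1 f) hs (Phi_lip (p := p) (ub := ub))
      (fun y => Phi_abs (z := y) hub.le)).2.1
    rw [← hT z0, hx, hT z]
  · -- left resolution
    have hd : z - dsp τ σ b0 t1 tR - (z0 - dsp τ σ b0 t1 tR) = z - z0 := by ring
    obtain ⟨r1, r2, r3, r4⟩ := resolve_sw (b := b0) (σ := σ) (a := tC) (f := tR) (y := z0)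
      (y' := 2 * uu τ t1 - z0) (Z := z - dsp τ σ b0 t1 tR) (pv := pv) (e := e) h hr (by omega) h3
      h4 fc he (by ring) hpv (by linarith [hmem.2]) (by linarith [hmem.1]) (by linarith)
      (by linarith) (by rw [hd]; exact hη0')
      (by
        rw [hd]
        refine le_trans hη1' (le_of_eq ?_)
        congr 1
        linarith)
      (by
        intro hh
        rw [hd]
        have hz1 : 0 ≤ z1 := by nlinarith
        refine le_trans (hη2 hz1 (by linarith)) (le_of_eq ?_)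
        congr 1
        linarith)
    refine ⟨fun b => ?_, fun b X V hH hX hI => ?_⟩
    · rcases BetL_cases b b0 with rfl | rfl
      · rw [BetL_XL_same]; exact r1
      · rw [BetL_XL_not]; exact r2
    · rcases BetL_cases b b0 with rfl | rfl
      · simp only [BetL_XL_same] at hX hI ⊢
        exact r3 X V hH hX hI
      · simp only [BetL_XL_not] at hX hI ⊢
        have h5 := r4 X V hH hX hI
        have h6 : 2 * uu τ tR - (z - dsp τ σ b0 t1 tR) =
            2 * uu τ t1 - z - dsp τ σ (!b0) t1 tR := by linarith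
        rwa [h6] at h5
  · -- right resolution
    have hd : |2 * uu τ t1 - z - dsp τ σ (!b0) t1 tR -
        (2 * uu τ t1 - z0 - dsp τ σ (!b0) t1 tR)| = |z - z0| := by
      rw [← abs_neg]
      congr 1
      ring
    obtain ⟨r1, r2, r3, r4⟩ := resolve_sw (b := !b0) (σ := σ) (a := tC) (f := tR)
      (y := 2 * uu τ t1 - z0) (y' := z0) (Z := 2 * uu τ t1 - z - dsp τ σ (!b0) t1 tR) (pv := pv)
      (e := e) h hr (by omega) h3
      h4 fc he (by ring) hpv (by linarith [hmem.1]) (by linarith [hmem.2]) (by linarith)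
      (by linarith) (by rw [hd]; exact hη0')
      (by
        rw [hd]
        refine le_trans hη1 (le_of_eq ?_)
        congr 1
        linarith)
      (by
        intro hh
        rw [hd]
        refine le_trans (hη2' (by linarith)) (le_of_eq ?_)
        congr 1
        linarith)
    simp only [Bool.not_not] at r2 r4
    refine ⟨fun b => ?_, fun b X V hH hX hI => ?_⟩
    · rcases BetL_cases b b0 with rfl | rfl
      · rw [BetL_XL_same]; exact r2
      · rw [BetL_XL_not]; exact r1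
    · rcases BetL_cases b b0 with rfl | rfl
      · simp only [BetL_XL_same] at hX hI ⊢
        have h5 := r4 X V hH hX hI
        have h6 : 2 * uu τ tR - (2 * uu τ t1 - z - dsp τ σ (!b) t1 tR) =
            z - dsp τ σ b t1 tR := by linarith
        rwa [h6] at h5
      · simp only [BetL_XL_not] at hX hI ⊢
        exact r3 X V hH hX hI

/-- the chain up to the final time: `x` master label, `z0` after creation, `z` after resolution -/
lemma L_chain {σ : Path} {s ub z1 z2 x z0 z : ℝ} {f tC tR : ℕ} (h : Cx p sch t1 t2)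
    (hr : Rng p t2 τ) (hs : s = 1 ∨ s = -1) (h1 : t1 ≤ f) (h2 : f ≤ tC) (h3 : tC ≤ tR)
    (h4 : tR ≤ t2) (hC : LCre p t1 τ σ b0 f tC ub) (hR : LRes p t1 τ σ b0 f tC tR ub z1 z2)
    (hx : x = Th p (Phi p ub) s (dsp τ σ b0 t1 f) z0)
    (hx' : x = Th p (PhiR p ub z1 z2) s (dsp τ σ b0 t1 f) z)
    (hz : WL p.w sch τ σ b0 t1 z t2) :
    WL p.W sch τ σ b0 t1 x t1 ∧ ∀ b X V, HT τ σ b t1 t2 X V →
      (∀ j, t1 ≤ j → j < tC → X j = XL τ σ b0 t1 x b j) →
      (∀ j, tC ≤ j → j < tR → X j = XL τ σ b0 t1 z0 b j) →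
      (∀ j, tR ≤ j → j < t2 → X j = XL τ σ b0 t1 z b j) →
      GI (3 / 4) p.w p.e1 0 sch τ σ b t1 (XL τ σ b0 t1 x b t1) (V t1) →
      GI (1 / 2) p.w p.e1 (2 ^ 30 * p.M * p.lam * p.w) sch τ σ b t2 (XL τ σ b0 t1 z b t2)
        (V t2) := by
  have hw128 := BetL_w128 p
  have hlam := BetL_lam_pos p
  have hM := p.hM
  have hw1 := p.w_ge
  have hok := h.ok hr
  have hzR : WL p.w sch τ σ b0 t1 z tR :=
    WL_back hok (by omega) h4 le_rfl (by linarith) hw128.2.2.2 hz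
  have he : 0 ≤ p.lam * p.w := by positivity
  obtain ⟨r1, r2⟩ := BetL_res (z0 := z0) (z := z) (e := p.lam * p.w) h hr hs h1 h2 h3 h4 hC hR he
    (by rw [← hx, ← hx']) hzR
  have hz0 : WL (128 * p.w) sch τ σ b0 t1 z0 tC :=
    WL_back hok (by omega) h3 h4 hw128.1 hw128.2.1 r1
  obtain ⟨c1, c2⟩ := create_sw h hr hs h1 h2 (by omega) hC.hub hC.hub' hC.fc hC.hc hC.hP hC.hP'
    hx hz0
  refine ⟨WL_back hok le_rfl (by omega) (show tC ≤ t2 by omega) (by linarith) le_rfl c1,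
    fun b X V hH hX1 hX2 hX3 hI => ?_⟩
  have g1 := c2 b X V (hH.mono le_rfl (by omega)) hX1 hI
  have g2 := r2 b X V (hH.mono (by omega) h4) hX2 g1
  have he2 : 0 ≤ 2 ^ 29 * p.M * p.lam * p.w := by
    have := p.M_pos
    positivity
  have hz128 : WL (128 * p.w) sch τ σ b0 t1 z t2 := fun b =>
    (hz b).mono h.h1 hr.lt hw128.2.2.1
  have g3 := BetL_seg h hr (by norm_num) (by norm_num) (by linarith) (by omega) h4 le_rfl
    (hH.mono (by omega) le_rfl) hX3 hz128 g2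
  have h7 : p.lam * p.w ≤ 2 ^ 29 * p.M * p.lam * p.w := by
    have : (1 : ℝ) ≤ 2 ^ 29 * p.M := by linarith
    nlinarith
  unfold GI at g3 ⊢
  linarith

lemma BetL_Th_cont {F : ℝ → ℝ} {s o : ℝ} (hF : ∀ z z', |F z - F z'| ≤ |z - z'|) :
    Continuous (Th p F s o) := by
  have hFc : Continuous F := by
    have : LipschitzWith 1 F := LipschitzWith.of_dist_le_mul fun x y => by
      simpa [Real.dist_eq] using hF x y
    exact this.continuous
  unfold Th
  fun_prop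

open Classical in
lemma L_core {σ : Path} {s ub z1 z2 : ℝ} {f tC tR : ℕ} (h : Cx p sch t1 t2)
    (hr : Rng p t2 τ) (hs : s = 1 ∨ s = -1) (h1 : t1 ≤ f) (h2 : f ≤ tC) (h3 : tC ≤ tR)
    (h4 : tR ≤ t2) (hC : LCre p t1 τ σ b0 f tC ub) (hR : LRes p t1 τ σ b0 f tC tR ub z1 z2) :
    BetCore p sch t1 t2 τ σ b0 (zetaL p t1 t2 τ σ b0 s f tC tR ub z1 z2)
      (if okL p τ σ b0 f t2 z1 z2 then 1 + s * p.lam * chi p ub z1 z2
        else 1 - 1280 * p.lam * p.ε)
      (if okL p τ σ b0 f t2 z1 z2 then 2 ^ 30 * p.M * p.lam * p.w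
        else 2 ^ 30 * p.M * p.lam * p.w + 300 * p.lam * p.ε * p.U ^ 2) := by
  have hub : 0 < ub := BetL_ub_pos hr (by omega) hC
  have hz12 : z1 < z2 := hR.1
  have hlam := BetL_lam_pos p
  have hlam' := BetL_lam_le p
  have hε := p.hε
  have hεs := p.eps_le
  have hU := p.hU
  obtain ⟨T1, T2, -, -⟩ := Th_facts (p := p) (o := dsp τ σ b0 t1 f) hs
    (Phi_lip (p := p) (ub := ub)) (fun y => Phi_abs (z := y) hub.le)
  obtain ⟨R1, R2, R3, -⟩ := Th_facts (p := p) (o := dsp τ σ b0 t1 f) hs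
    (PhiR_lip (p := p) (ub := ub) hz12) (fun y => PhiR_abs (z := y) hub.le hz12)
  -- the relabelling maps before the final time
  have key : ∀ x z : ℝ, x = Th p (PhiR p ub z1 z2) s (dsp τ σ b0 t1 f) z →
      WL p.w sch τ σ b0 t1 z t2 → WL p.W sch τ σ b0 t1 x t1 ∧ ∀ b V,
        HT τ σ b t1 t2
          (fun t => XL τ σ b0 t1 (zetaL p t1 t2 τ σ b0 s f tC tR ub z1 z2 t x) b t) V →
        GI (3 / 4) p.w p.e1 0 sch τ σ b t1 (XL τ σ b0 t1 x b t1) (V t1) →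
        GI (1 / 2) p.w p.e1 (2 ^ 30 * p.M * p.lam * p.w) sch τ σ b t2 (XL τ σ b0 t1 z b t2)
          (V t2) := by
    intro x z hx hz
    obtain ⟨c1, c2⟩ := L_chain (x := x) (z := z)
      (z0 := Function.invFun (Th p (Phi p ub) s (dsp τ σ b0 t1 f)) x) h hr hs h1 h2 h3 h4 hC hR
      (T1 x).symm hx hz
    refine ⟨c1, fun b V hH hI => c2 b _ V hH ?_ ?_ ?_ hI⟩
    · intro j _ hj
      simp only [zetaL, if_pos hj]
    · intro j hj hj'
      simp only [zetaL, if_neg (not_lt.mpr hj), if_pos hj']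
    · intro j hj hj'
      have hj1 : ¬ j < tC := by omega
      simp only [zetaL, if_neg hj1, if_neg (not_lt.mpr hj), if_pos (Or.inl hj')]
      rw [hx, R2]
  have hn1 : ¬ t2 < tC := by omega
  have hn2 : ¬ t2 < tR := by omega
  by_cases hok : okL p τ σ b0 f t2 z1 z2
  · rw [if_pos hok, if_pos hok]
    have hwin : ∀ z, WL p.w sch τ σ b0 t1 z t2 →
        z1 ≤ z - dsp τ σ b0 t1 f ∧ z - dsp τ σ b0 t1 f ≤ z2 := by
      intro z hz
      have a1 := h.ws_yb hr le_rfl (k := 1) (by norm_num) (by rw [one_mul]; exact hz b0)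
      have a2 := h.ws_yb hr le_rfl (k := 1) (by norm_num) (by rw [one_mul]; exact hz (!b0))
      rw [BetL_XL_same] at a1
      rw [BetL_XL_not] at a2
      have hadd : dsp τ σ b0 t1 t2 = dsp τ σ b0 t1 f + dsp τ σ b0 f t2 :=
        dsp_add h1 (by omega)
      have hsum : dsp τ σ b0 f t2 + dsp τ σ (!b0) f t2 = 2 * uu τ f - 2 * uu τ t2 :=
        dsp_sum (by omega)
      have hsum1 : dsp τ σ b0 t1 t2 + dsp τ σ (!b0) t1 t2 = 2 * uu τ t1 - 2 * uu τ t2 :=
        dsp_sum (by omega)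
      obtain ⟨o1, o2⟩ := hok
      constructor <;> linarith
    refine ⟨Th p (PhiR p ub z1 z2) s (dsp τ σ b0 t1 f), BetL_Th_cont (PhiR_lip hz12), ?_, ?_⟩
    · intro z z' hz hz'
      have e1 : Th p (PhiR p ub z1 z2) s (dsp τ σ b0 t1 f) z -
          Th p (PhiR p ub z1 z2) s (dsp τ σ b0 t1 f) z' =
          (1 + s * p.lam * chi p ub z1 z2) * (z - z') := by
        simp only [Th, PhiR, if_pos (hwin z hz), if_pos (hwin z' hz')]
        ring
      rw [e1, abs_mul]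
      exact mul_le_mul_of_nonneg_right (le_abs_self _) (abs_nonneg _)
    · intro z hz
      refine ⟨?_, key _ z rfl hz⟩
      simp only [zetaL, if_neg hn1, if_neg hn2, if_pos (Or.inr hok)]
      exact R2 z
  · rw [if_neg hok, if_neg hok]
    have hu2 : p.U / 64 ≤ uu τ t2 := Cx.uu_ge hr le_rfl
    have hu2' : 0 < uu τ t2 := lt_of_lt_of_le (by positivity) hu2
    have hle : p.lam * p.ε ≤ 1 / 2 ^ 100 := by
      have : p.lam * p.ε ≤ p.ε * 1 :=
        mul_le_mul hlam' (le_trans hεs (by norm_num)) hε.le hε.le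
      linarith
    have hq : 2 * (10 * p.lam * p.ε * p.U) / uu τ t2 ≤ 1280 * p.lam * p.ε := by
      rw [div_le_iff₀ hu2']
      have : 0 < p.lam * p.ε := by positivity
      nlinarith
    have hq1 : 0 < 1 - 1280 * p.lam * p.ε := by nlinarith
    have hq2 : 0 < 1 - 2 * (10 * p.lam * p.ε * p.U) / uu τ t2 := by linarith
    refine ⟨fun z => ctr τ σ b0 t1 t2 +
      (1 - 2 * (10 * p.lam * p.ε * p.U) / uu τ t2) * (z - ctr τ σ b0 t1 t2), by fun_prop, ?_, ?_⟩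
    · intro z z' _ _
      have e1 : ctr τ σ b0 t1 t2 +
          (1 - 2 * (10 * p.lam * p.ε * p.U) / uu τ t2) * (z - ctr τ σ b0 t1 t2) -
          (ctr τ σ b0 t1 t2 +
          (1 - 2 * (10 * p.lam * p.ε * p.U) / uu τ t2) * (z' - ctr τ σ b0 t1 t2)) =
          (1 - 2 * (10 * p.lam * p.ε * p.U) / uu τ t2) * (z - z') := by ring
      simp only []
      rw [e1, abs_mul, abs_of_pos hq2]
      exact mul_le_mul_of_nonneg_right (by linarith) (abs_nonneg _)
    · intro z hz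
      set x := ctr τ σ b0 t1 t2 +
        (1 - 2 * (10 * p.lam * p.ε * p.U) / uu τ t2) * (z - ctr τ σ b0 t1 t2) with hxdef
      set z' := Function.invFun (Th p (PhiR p ub z1 z2) s (dsp τ σ b0 t1 f)) x with hz'def
      have hxz : x = Th p (PhiR p ub z1 z2) s (dsp τ σ b0 t1 f) z' := (R1 x).symm
      have hubU : ub ≤ p.U := le_trans hC.hub (h.uu_le hr h1)
      have hd : |z' - x| ≤ 10 * p.lam * p.ε * p.U := by
        have a1 := R3 z'
        rw [← hxz, abs_sub_comm] at a1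
        have a2 : p.lam * p.ε * ub ≤ p.lam * p.ε * p.U :=
          mul_le_mul_of_nonneg_left hubU (by positivity)
        have a3 : 0 ≤ p.lam * p.ε * p.U := by positivity
        nlinarith
      obtain ⟨f1, f2⟩ := fb_final (b0 := b0) (σ := σ) (η := 10 * p.lam * p.ε * p.U) (z := z)
        (z' := z') (cc := 1 / 2) (e := 2 ^ 30 * p.M * p.lam * p.w) h hr (by positivity)
        (by nlinarith) le_rfl (by norm_num) hz hd
      obtain ⟨k1, k2⟩ := key x z' hxz f1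
      refine ⟨?_, k1, fun b V hH hI => ?_⟩
      · have hn3 : ¬ (t2 < t2 ∨ okL p τ σ b0 f t2 z1 z2) := by
          rintro (a | a)
          · exact lt_irrefl _ a
          · exact hok a
        simp only [zetaL, if_neg hn1, if_neg hn2, if_neg hn3]
        rw [add_sub_cancel_left, mul_div_cancel_left₀ _ hq2.ne']
        ring
      · have g := f2 b (V t2) (k2 b V hH hI)
        have e2 : 2 ^ 30 * p.M * p.lam * p.w + 30 * p.U * (10 * p.lam * p.ε * p.U) =
            2 ^ 30 * p.M * p.lam * p.w + 300 * p.lam * p.ε * p.U ^ 2 := by ring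
        rwa [e2] at g

open Classical in
lemma L_plan {s : ℝ} {f tC tR : Path → ℕ} {ub z1 z2 : Path → ℝ} {act : Path → Prop}
    (h : Cx p sch t1 t2) (hr : Rng p t2 τ) (hs : s = 1 ∨ s = -1)
    (hf : At tC f) (hC : At tC tC) (hR : At tR tR) (ha : At tC act) (hub : At tC ub)
    (hz1 : At tR z1) (hz2 : At tR z2) (h1 : ∀ σ, t1 ≤ f σ) (h2 : ∀ σ, f σ ≤ tC σ)
    (h3 : ∀ σ, tC σ ≤ tR σ) (h4 : ∀ σ, tR σ ≤ t2)
    (hq : ∀ σ, act σ → LCre p t1 τ σ b0 (f σ) (tC σ) (ub σ) ∧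
      LRes p t1 τ σ b0 (f σ) (tC σ) (tR σ) (ub σ) (z1 σ) (z2 σ)) :
    BetPlan p sch t1 t2 τ
      (fun σ => if act σ then (if okL p τ σ b0 (f σ) t2 (z1 σ) (z2 σ) then
        1 + s * p.lam * chi p (ub σ) (z1 σ) (z2 σ) else 1 - 1280 * p.lam * p.ε) else 1)
      (fun σ => if act σ then (if okL p τ σ b0 (f σ) t2 (z1 σ) (z2 σ) then
        2 ^ 30 * p.M * p.lam * p.w
        else 2 ^ 30 * p.M * p.lam * p.w + 300 * p.lam * p.ε * p.U ^ 2) else 0) := by
  have hlam := BetL_lam_pos p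
  have hε := p.hε
  have hM := p.M_pos
  have hw : 0 < p.w := lt_of_lt_of_le one_pos p.w_ge
  refine bet_of_core (b0 := b0) (ζ := fun σ t x => if act σ ∧ tC σ ≤ t then
    zetaL p t1 t2 τ σ b0 s (f σ) (tC σ) (tR σ) (ub σ) (z1 σ) (z2 σ) t x else x) h hr ?_ ?_ ?_
  · intro σ
    split_ifs <;> positivity
  · intro t σ σ' hag
    funext x
    by_cases ht : tC σ ≤ t
    swap
    · have ht' : ¬ tC σ' ≤ t := fun a => ht ((hC.le_iff hag).mp a)
      simp only [ht, ht', and_false, if_false]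
    have e1 : tC σ' = tC σ := hC.eq_of_le hag ht
    have e2 : f σ' = f σ := hf.eq_of_le hag ht
    have e3 : act σ' = act σ := ha.eq_of_le hag ht
    have e4 : ub σ' = ub σ := hub.eq_of_le hag ht
    have e5 : dsp τ σ' b0 t1 (f σ) = dsp τ σ b0 t1 (f σ) := dsp_congr hag (le_trans (h2 σ) ht)
    simp only [e1, e2, e3, e4]
    congr 1
    by_cases htR : tR σ ≤ t
    swap
    · have htR' : ¬ tR σ' ≤ t := fun a => htR ((hR.le_iff hag).mp a)
      simp only [zetaL, if_neg (not_lt.mpr ht), if_pos (not_le.mp htR), if_pos (not_le.mp htR'),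
        e5]
    have e6 : tR σ' = tR σ := hR.eq_of_le hag htR
    have e7 : z1 σ' = z1 σ := hz1.eq_of_le hag htR
    have e8 : z2 σ' = z2 σ := hz2.eq_of_le hag htR
    simp only [e6, e7, e8]
    by_cases ht2 : t < t2
    · simp only [zetaL, if_pos (Or.inl ht2), e5]
    · have ht2' : t2 ≤ t := not_lt.mp ht2
      have e9 : ∀ b a, dsp τ σ' b a t2 = dsp τ σ b a t2 := fun b a => dsp_congr hag ht2'
      have e10 : okL p τ σ' b0 (f σ) t2 (z1 σ) (z2 σ) = okL p τ σ b0 (f σ) t2 (z1 σ) (z2 σ) := by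
        simp only [okL, e9]
      have e11 : ctr τ σ' b0 t1 t2 = ctr τ σ b0 t1 t2 := by
        simp only [ctr, e9]
      simp only [zetaL, e5, e10, e11]
  · intro σ
    by_cases hact : act σ
    · simp only [if_pos hact]
      have e1 : (fun t x => if act σ ∧ tC σ ≤ t then
          zetaL p t1 t2 τ σ b0 s (f σ) (tC σ) (tR σ) (ub σ) (z1 σ) (z2 σ) t x else x) =
          zetaL p t1 t2 τ σ b0 s (f σ) (tC σ) (tR σ) (ub σ) (z1 σ) (z2 σ) := by
        funext t x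
        by_cases ht : tC σ ≤ t
        · rw [if_pos ⟨hact, ht⟩]
        · rw [if_neg (fun a => ht a.2)]
          simp only [zetaL, if_pos (not_le.mp ht)]
      rw [e1]
      exact L_core h hr hs (h1 σ) (h2 σ) (h3 σ) (h4 σ) (hq σ hact).1 (hq σ hact).2
    · simp only [if_neg hact]
      exact bet_idle h hr fun t x => if_neg fun a => hact a.1

end

end Pool.Agent.P.MP_767cd9_co.Q1
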