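import Pool.Agent.P.MP_767cd9_co.Q1.BetT

/-! The counter bet: the run in direction `!b0` started at `f` will be interrupted early. -/

namespace Pool.Agent.P.MP_767cd9_co.Q1

open Real

noncomputable section

variable {p : Par} {sch : ℕ → ℝ} {t1 t2 τ : ℕ} {b0 : Bool}

/-- each `b0` step in `[f, te)` contracts the labels towards the end of the window -/
def zetaQ (p : Par) (sch : ℕ → ℝ) (t1 τ : ℕ) (σ : Path) (b0 : Bool) (f te t : ℕ) (x : ℝ) : ℝ :=
  edg p sch τ σ b0 t1 f +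
    (x - edg p sch τ σ b0 t1 f) / (1 + p.gQ / p.H) ^ cnt σ b0 f (min t te)

/-- a label path with small downward jumps at the `b0` steps of `[f, te)` -/
structure QPath (p : Par) (sch : ℕ → ℝ) (t1 t2 τ : ℕ) (σ : Path) (b0 : Bool) (f te : ℕ)
    (Z : ℕ → ℝ) : Prop where
  h1 : t1 ≤ f
  h2 : f ≤ te
  h3 : te ≤ t2
  fc : FC p σ (!b0) t1 t1 f
  hc : cnt σ b0 f te ≤ p.H
  hd : dsp τ σ (!b0) f te ≤ (1 - 3 / 4 * p.ε) * uu τ f
  pre : ∀ t, t ≤ f → Z t = Z f
  post : ∀ t, te ≤ t → Z t = Z te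
  keep : ∀ t, f ≤ t → t < te → σ t ≠ b0 → Z (t + 1) = Z t
  jump : ∀ t, f ≤ t → t < te → Z (t + 1) ≤ Z t ∧ Z t - Z (t + 1) ≤ 4 * p.gQ / p.H * p.U
  tot : Z f - Z te ≤ 8 * p.gQ * p.U
  win : WL p.w sch τ σ b0 t1 (Z te) t2

lemma BetQ_same (σ : Path) (z : ℝ) (t : ℕ) : XL τ σ b0 t1 z b0 t = z - dsp τ σ b0 t1 t := by
  simp [XL]

lemma BetQ_opp (σ : Path) (z : ℝ) (t : ℕ) :
    XL τ σ b0 t1 z (!b0) t = 2 * uu τ t1 - z - dsp τ σ (!b0) t1 t := by
  cases b0 <;> simp [XL]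

lemma BetQ_w (p : Par) : p.w ≤ 2 * p.w ∧ 0 ≤ 2 * p.w ∧ 2 * p.w ≤ p.W := by
  have h1 := p.w_ge
  have h2 := p.w_le_W
  refine ⟨by linarith, by linarith, by nlinarith⟩

lemma BetQ_weq (p : Par) : p.w = p.ε ^ 2 * p.U ^ 2 / 2 ^ 20 := by
  unfold Par.w Par.l; ring

lemma BetQ_Heq (p : Par) : (p.H : ℝ) = p.ε * p.U ^ 2 / 2 ^ 20 / p.M := by
  rw [p.H_eq]; unfold Par.l; ring

lemma BetQ_epsM (p : Par) : p.ε * p.M ≤ 1 / 2 ^ 50 := by
  have h1 := p.eps_M
  have h2 := p.hM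
  have h3 := p.hε
  have h4 := p.M_pos
  have h5 : (2 : ℝ) ^ 50 ≤ p.M ^ 5 :=
    h2.trans (le_self_pow₀ (by linarith [show (1 : ℝ) ≤ 2 ^ 50 by norm_num]) (by norm_num))
  rw [le_div_iff₀ (by positivity)]
  calc p.ε * p.M * 2 ^ 50 ≤ p.ε * p.M * p.M ^ 5 := by gcongr
    _ = p.M ^ 6 * p.ε := by ring
    _ ≤ 1 := h1

/-- `gQ ≤ ε ^ 2 / 2 ^ 100` -/
lemma BetQ_gQ (p : Par) : 0 < p.gQ ∧ p.gQ ≤ p.ε ^ 2 / 2 ^ 100 := by
  have h2 := p.hM
  have h3 := p.hε
  have h4 := p.M_pos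
  unfold Par.gQ
  refine ⟨by positivity, ?_⟩
  have : (2 : ℝ) ^ 100 ≤ p.M ^ 2 := by
    calc (2 : ℝ) ^ 100 = (2 ^ 50) ^ 2 := by norm_num
      _ ≤ p.M ^ 2 := by gcongr
  gcongr

lemma BetQ_anti {σ : Path} {f te : ℕ} {Z : ℕ → ℝ} (hq : QPath p sch t1 t2 τ σ b0 f te Z) :
    Antitone Z := by
  refine antitone_nat_of_succ_le fun t => ?_
  rcases lt_or_ge t f with h | h
  · rw [hq.pre t h.le, hq.pre (t + 1) h]
  · rcases lt_or_ge t te with h' | h'
    · exact (hq.jump t h h').1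
    · rw [hq.post t h', hq.post (t + 1) (by omega)]

lemma BetQ_range {σ : Path} {f te : ℕ} {Z : ℕ → ℝ} (hq : QPath p sch t1 t2 τ σ b0 f te Z)
    (t : ℕ) : Z te ≤ Z t ∧ Z t ≤ Z f := by
  constructor
  · rcases le_total t te with h | h
    · exact BetQ_anti hq h
    · exact (hq.post t h).ge
  · rcases le_total t f with h | h
    · exact (hq.pre t h).le
    · exact BetQ_anti hq h

lemma BetQ_rr {σ : Path} {f te t' : ℕ} {Z : ℕ → ℝ} (h : Cx p sch t1 t2) (hr : Rng p t2 τ)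
    (hq : QPath p sch t1 t2 τ σ b0 f te Z) (h1 : f ≤ t') (h2 : t' ≤ te) :
    1 - rr sch τ σ b0 t' ≤ p.ε := by
  obtain ⟨t0, t'', -, -, a3, a4, -, a6, a7, -⟩ := hq.fc
  rw [Bool.not_not] at a7
  refine h.rr_near hr a3 (a4.trans h1) (h2.trans hq.h3) (a6.trans (cnt_mono h1)) ?_
  rw [cnt_add a4 h1]
  have := cnt_mono (σ := σ) (b := b0) (a := f) h2
  have := hq.hc
  have := p.H_le
  omega

/-- all labels on the path stay in the doubled window -/
lemma QPath.wl {σ : Path} {f te t t' : ℕ} {Z : ℕ → ℝ} (h : Cx p sch t1 t2) (hr : Rng p t2 τ)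
    (hq : QPath p sch t1 t2 τ σ b0 f te Z) (h1 : f ≤ t') (h2 : t' ≤ te) :
    WL (2 * p.w) sch τ σ b0 t1 (Z t) t' := by
  obtain ⟨w1, w2, w3⟩ := BetQ_w p
  have ht : t' ≤ t2 := h2.trans hq.h3
  have ht1 : t1 ≤ t' := hq.h1.trans h1
  have hτ : t' < τ := ht.trans_lt hr.lt
  have hw := WL_back (h.ok hr) ht1 ht le_rfl (by linarith) (by linarith) hq.win
  obtain ⟨z1, z2⟩ := BetQ_range hq t
  have htot := hq.tot
  intro b
  rcases Bool.eq_or_eq_not b b0 with rfl | rfl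
  · have h3 := hw b
    have h4 := BetQ_rr h hr hq h1 h2
    have h5 := p.eps_le
    have hu := uu_pos hτ
    have hu' := h.uu_le hr ht1
    have hU := p.hU
    obtain ⟨g1, g2⟩ := BetQ_gQ p
    have h6 : 8 * p.gQ * p.U ≤ 2 * p.w * rr sch τ σ b t' / uu τ t' := by
      rw [le_div_iff₀ hu]
      have h7 : 8 * p.gQ * p.U * uu τ t' ≤ 8 * (p.ε ^ 2 / 2 ^ 100) * p.U * p.U := by gcongr
      have h8 : p.w * 1 ≤ p.w * (2 * rr sch τ σ b t') :=
        mul_le_mul_of_nonneg_left (by norm_num at h5; linarith) (by linarith)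
      have h9 := BetQ_weq p
      have h10 : 0 ≤ p.ε ^ 2 * p.U ^ 2 := by positivity
      nlinarith
    unfold WS at h3 ⊢
    rw [BetQ_same] at h3 ⊢
    have h7 : 2 * (2 * p.w) * rr sch τ σ b t' / uu τ t' =
        2 * (2 * p.w * rr sch τ σ b t' / uu τ t') := by ring
    rw [h7]
    linarith
  · refine WS.mono (R := p.w) ?_ h.h1 hτ w1
    have h3 := hw (!b0)
    unfold WS at h3 ⊢
    rw [BetQ_opp] at h3 ⊢
    linarith

/-- the leading side -/
lemma QPath.lead {σ : Path} {f te : ℕ} {Z V : ℕ → ℝ} (h : Cx p sch t1 t2) (hr : Rng p t2 τ)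
    (hq : QPath p sch t1 t2 τ σ b0 f te Z)
    (hH : HT τ σ (!b0) t1 t2 (fun t => XL τ σ b0 t1 (Z t) (!b0) t) V)
    (hI : GI (3 / 4) p.w p.e1 0 sch τ σ (!b0) t1 (XL τ σ b0 t1 (Z f) (!b0) t1) (V t1)) :
    GI (3 / 4) p.w p.e1 0 sch τ σ (!b0) t2 (XL τ σ b0 t1 (Z te) (!b0) t2) (V t2) := by
  obtain ⟨w1, w2, w3⟩ := BetQ_w p
  have ok := h.ok hr
  have hws : ∀ t t', f ≤ t' → t' ≤ te →
      WS p.W sch τ σ (!b0) t' (2 * uu τ t1 - Z t - dsp τ σ (!b0) t1 t') := fun t t' h1 h2 => by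
    rw [← BetQ_opp]
    exact (hq.wl h hr h1 h2 (!b0)).mono h.h1 ((h2.trans hq.h3).trans_lt hr.lt) w3
  have key : ∀ t, f ≤ t → t ≤ te → GI (3 / 4) p.w p.e1 0 sch τ σ (!b0) t
      (2 * uu τ t1 - Z t - dsp τ σ (!b0) t1 t) (V t) := by
    intro t ht
    induction t, ht using Nat.le_induction with
    | base =>
      intro _
      rw [BetQ_opp] at hI
      exact HT_G ok (by norm_num) (by norm_num) le_rfl le_rfl le_rfl hq.h1 (hq.h2.trans hq.h3)
        (hH.mono le_rfl (hq.h2.trans hq.h3)) (fun j _ hj => by rw [BetQ_opp, hq.pre j hj.le])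
        (hws f f le_rfl hq.h2) hI
    | succ t ht ih =>
      intro ht'
      have ht1 : t1 ≤ t := hq.h1.trans ht
      have ht2 : t + 1 ≤ t2 := ht'.trans hq.h3
      have h1 := HT_G ok (by norm_num) (by norm_num) le_rfl ht1 ht1 (Nat.le_succ t) ht2
        (hH.mono ht1 ht2) (fun j hj hj' => by rw [BetQ_opp, show j = t by omega])
        (hws t (t + 1) (by omega) ht') (ih (by omega))
      obtain ⟨u1, -, u3, -⟩ := ok.uu_sq ht2
      obtain ⟨r1, r2⟩ := rr_range (τ := τ) (σ := σ) (b := !b0) h.h1 (ht2.trans_lt hr.lt)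
      have h2 := ok.ws_small ht2 w2 w3 (hq.wl (t := t) h hr (by omega) ht' b0)
      have h3 := XL_add (τ := τ) (σ := σ) (b0 := b0) (b := b0) (z := Z t)
        (show t1 ≤ t + 1 by omega)
      rw [BetQ_opp] at h3
      have h4 := (hq.jump t ht ht').1
      have h5 := sw_up (c := 3 / 4) (e1 := p.e1)
        (X := 2 * uu τ t1 - Z t - dsp τ σ (!b0) t1 (t + 1))
        (Z := 2 * uu τ t1 - Z (t + 1) - dsp τ σ (!b0) t1 (t + 1)) (by norm_num) u1 r1 r2
        ok.hW0 u3 (by linarith) (by linarith)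
      unfold GI at h1 ⊢
      linarith
  have ht1 : t1 ≤ te := hq.h1.trans hq.h2
  rw [BetQ_opp]
  refine HT_G ok (by norm_num) (by norm_num) le_rfl ht1 ht1 hq.h3 le_rfl (hH.mono ht1 le_rfl)
    (fun j hj _ => by rw [BetQ_opp, hq.post j hj]) ?_ (key te hq.h2 le_rfl)
  rw [← BetQ_opp]
  exact (hq.win (!b0)).mono h.h1 hr.lt (w1.trans w3)

lemma BetQ_num1 (p : Par) {u Y : ℝ} (hu : p.U / 64 ≤ u) (hY : p.ε * p.U / 512 ≤ Y) :
    2 * p.w ≤ u * Y := by
  have h1 := p.hε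
  have h2 := p.hU
  have h3 := p.eps_le
  have h4 : p.U / 64 * (p.ε * p.U / 512) ≤ u * Y :=
    mul_le_mul hu hY (by positivity) (le_trans (by positivity) hu)
  have h5 : p.ε * (p.ε * p.U ^ 2) ≤ 1 * (p.ε * p.U ^ 2) :=
    mul_le_mul_of_nonneg_right (by norm_num at h3; linarith) (by positivity)
  rw [BetQ_weq]
  nlinarith [mul_pos h1 (pow_pos h2 2)]

lemma BetQ_num2 (p : Par) :
    6 * p.U * (4 * p.gQ / p.H * p.U) ≤ p.ε / 512 ∧ 4 * p.gQ / p.H * p.U ≤ p.U / 64 := by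
  have h1 := p.hε
  have h2 := p.hU
  have h3 := p.M_pos
  have h4 := p.hM
  constructor
  · have : 6 * p.U * (4 * p.gQ / p.H * p.U) = p.ε * (24 * 2 ^ 20 / p.M) := by
      rw [BetQ_Heq]; unfold Par.gQ; field_simp; norm_num
    rw [this, div_eq_mul_one_div p.ε]
    refine mul_le_mul_of_nonneg_left ?_ h1.le
    rw [div_le_div_iff₀ h3 (by norm_num)]
    norm_num at h4 ⊢
    linarith
  · obtain ⟨g1, g2⟩ := BetQ_gQ p
    have h5 : (1 : ℝ) ≤ p.H := by exact_mod_cast p.H_pos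
    have h6 : 4 * p.gQ / p.H ≤ 4 * p.gQ := div_le_self (by positivity) h5
    have h7 := p.eps_le
    have h8 : p.ε ^ 2 ≤ 1 := pow_le_one₀ h1.le (by norm_num at h7; linarith)
    have h9 : 4 * p.gQ / p.H ≤ 1 / 64 := by norm_num at g2; linarith
    nlinarith

/-- the counter side, labels that stay away from the edge: each jump is paid by the margin -/
lemma QPath.one {σ : Path} {f te : ℕ} {Z V : ℕ → ℝ} (h : Cx p sch t1 t2) (hr : Rng p t2 τ)
    (hq : QPath p sch t1 t2 τ σ b0 f te Z)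
    (hH : HT τ σ b0 t1 t2 (fun t => XL τ σ b0 t1 (Z t) b0 t) V)
    (hI : GI (3 / 4) p.w p.e1 0 sch τ σ b0 t1 (XL τ σ b0 t1 (Z f) b0 t1) (V t1))
    (hY : ∀ t, f ≤ t → t < te → p.ε * p.U / 512 ≤ XL τ σ b0 t1 (Z t) (!b0) t) :
    GI (3 / 4) p.w p.e1 0 sch τ σ b0 te (XL τ σ b0 t1 (Z te) b0 te) (V te) := by
  obtain ⟨w1, w2, w3⟩ := BetQ_w p
  have ok := h.ok hr
  have hws : ∀ t t', f ≤ t' → t' ≤ te →
      WS p.W sch τ σ b0 t' (Z t - dsp τ σ b0 t1 t') := fun t t' h1 h2 => by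
    rw [← BetQ_same]
    exact (hq.wl h hr h1 h2 b0).mono h.h1 ((h2.trans hq.h3).trans_lt hr.lt) w3
  have key : ∀ t, f ≤ t → t ≤ te → GI (3 / 4) p.w p.e1 0 sch τ σ b0 t
      (Z t - dsp τ σ b0 t1 t) (V t) := by
    intro t ht
    induction t, ht using Nat.le_induction with
    | base =>
      intro _
      rw [BetQ_same] at hI
      exact HT_G ok (by norm_num) (by norm_num) le_rfl le_rfl le_rfl hq.h1 (hq.h2.trans hq.h3)
        (hH.mono le_rfl (hq.h2.trans hq.h3)) (fun j _ hj => by rw [BetQ_same, hq.pre j hj.le])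
        (hws f f le_rfl hq.h2) hI
    | succ t ht ih =>
      intro ht'
      have ht1 : t1 ≤ t := hq.h1.trans ht
      have ht2 : t + 1 ≤ t2 := ht'.trans hq.h3
      have ih := ih (by omega)
      by_cases hσ : σ t = b0
      · have hτ : t + 1 < τ := ht2.trans_lt hr.lt
        have hτ' : t < τ := by omega
        obtain ⟨u1, u2, -, -⟩ := ok.uu_sq ht2
        obtain ⟨v1, -, -, v4⟩ := ok.uu_sq (show t ≤ t2 by omega)
        obtain ⟨r1, r2⟩ := rr_range (τ := τ) (σ := σ) (b := b0) h.h1 hτ'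
        obtain ⟨s1, s2⟩ := rr_range (τ := τ) (σ := σ) (b := b0) h.h1 hτ
        have hW := ok.hW
        have hu1 : 1 ≤ uu τ (t + 1) := by nlinarith
        have huu := uu_succ hτ'
        have hsq := uu_sq hτ'.le
        have hdm := dd_mul hτ'
        have hd0 := dd_nonneg τ t
        have hU := p.hU
        have hε := p.hε
        have a1 := Cx.uu_ge hr (show t ≤ t2 by omega)
        have a2 := Cx.uu_ge hr ht2
        have a3 := h.uu_le hr ht1
        have a4 := h.uu_le hr (show t1 ≤ t + 1 by omega)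
        have hy := hY t ht ht'
        have hadd := XL_add (τ := τ) (σ := σ) (b0 := b0) (b := b0) (z := Z t) ht1
        have hH' := hH t ht1 ht2
        rw [BetQ_same] at hadd
        simp only [BetQ_same, if_pos hσ] at hH'
        have hrr : rr sch τ σ b0 (t + 1) = rr sch τ σ b0 t * uu τ (t + 1) / uu τ t := by
          rw [rr, if_pos hσ]
        have hds : dsp τ σ b0 t1 (t + 1) = dsp τ σ b0 t1 t + (2 * uu τ t - 2 * uu τ (t + 1)) := by
          rw [dsp_succ ht1, if_pos hσ]; rfl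
        have hsm := ok.ws_small ht2 w2 w3 (hq.wl (t := t + 1) h hr (by omega) ht' (!b0))
        have hadd' := XL_add (τ := τ) (σ := σ) (b0 := b0) (b := b0) (z := Z (t + 1))
          (show t1 ≤ t + 1 by omega)
        rw [BetQ_same, hds] at hadd'
        obtain ⟨j1, j2⟩ := hq.jump t ht ht'
        obtain ⟨n1, n2⟩ := BetQ_num2 p
        unfold dd at hdm hd0
        unfold GI at ih ⊢
        rw [hds]
        set X := Z t - dsp τ σ b0 t1 t with hX
        set u := uu τ t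
        set u' := uu τ (t + 1)
        have hY' : p.ε * p.U / 512 ≤ 2 * u - X := by linarith
        have b1 := G_lead_margin (c := 3 / 4) (e1 := p.e1) (X := X) (by norm_num) (by norm_num)
          hu1 v1 huu r1 r2 ok.hW0 (BetQ_num1 p a1 hY')
        rw [← hrr] at b1
        have b2 := GG_le_sq (c := 3 / 4) (X := X) (by norm_num) v1 r1 r2 ok.hW0 v4
        have b3 : GG (3 / 4) p.w p.e1 u (rr sch τ σ b0 t) X - X ^ 2 + 4 ≤ V (t + 1) := by
          refine le_trans (add_le_add_left (le_min ?_ ?_) 4) hH'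
          · linarith
          · rw [← hsq]; nlinarith
        have b4 : (X - (2 * u - 2 * u')) ^ 2 - X ^ 2 + 4 = 2 * (2 * u - X) * (2 * u - 2 * u') := by
          linear_combination (-2) * hdm
        have b5 : p.ε / 512 ≤ (2 * u - X) * (2 * u - 2 * u') := by
          have c1 : 1 ≤ p.U * (2 * u - 2 * u') := by nlinarith
          have c2 : p.ε * p.U / 512 * (2 * u - 2 * u') ≤ (2 * u - X) * (2 * u - 2 * u') :=
            mul_le_mul_of_nonneg_right hY' hd0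
          nlinarith
        have b6 : 6 * u' * (Z t - Z (t + 1)) ≤ p.ε / 512 :=
          le_trans (mul_le_mul (by linarith) j2 (by linarith) (by positivity)) n1
        have b7 : GG (3 / 4) p.w p.e1 u' (rr sch τ σ b0 (t + 1))
              (Z (t + 1) - (dsp τ σ b0 t1 t + (2 * u - 2 * u')))
            - (Z (t + 1) - (dsp τ σ b0 t1 t + (2 * u - 2 * u'))) ^ 2 - 6 * u' * (Z t - Z (t + 1))
            ≤ GG (3 / 4) p.w p.e1 u' (rr sch τ σ b0 (t + 1)) (X - (2 * u - 2 * u'))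
              - (X - (2 * u - 2 * u')) ^ 2 := by
          have e1 : Z (t + 1) - (dsp τ σ b0 t1 t + (2 * u - 2 * u')) - (X - (2 * u - 2 * u'))
              = -(Z t - Z (t + 1)) := by rw [hX]; ring
          rcases le_or_gt (Z (t + 1) - (dsp τ σ b0 t1 t + (2 * u - 2 * u'))) u' with hc | hc
          · have := sw_in (c := 3 / 4) (e1 := p.e1) (X := X - (2 * u - 2 * u')) (by norm_num)
              (by norm_num) u1 s1 s2 ok.hW0 hc (by linarith) (by linarith)
              (by rw [e1, abs_neg, abs_of_nonneg (by linarith)]; linarith)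
            rwa [e1, abs_neg, abs_of_nonneg (by linarith)] at this
          · have e2 := BetQ_num1 p a2 hY'
            have := sw_mid (c := 3 / 4) (e1 := p.e1) (X := X - (2 * u - 2 * u')) u1 s1 s2 ok.hW0
              hc (by linarith)
              (by rw [show 2 * u' - (X - (2 * u - 2 * u')) = 2 * u - X by ring]; linarith)
            have e3 : X - (2 * u - 2 * u') - (Z (t + 1) - (dsp τ σ b0 t1 t + (2 * u - 2 * u')))
              = Z t - Z (t + 1) := by linarith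
            rw [e3] at this
            nlinarith [mul_nonneg u1.le (sub_nonneg.2 j1)]
        linarith
      · rw [hq.keep t ht ht' hσ]
        exact HT_G ok (by norm_num) (by norm_num) le_rfl ht1 ht1 (Nat.le_succ t) ht2
          (hH.mono ht1 ht2) (fun j hj hj' => by rw [BetQ_same, show j = t by omega])
          (hws t (t + 1) (by omega) ht') ih
  rw [BetQ_same]
  exact key te hq.h2 le_rfl

lemma BetQ_num3 (p : Par) :
    (p.E : ℝ) / p.U = p.ε * p.U / 2 ^ 20 ∧ (p.H : ℝ) / p.U ≤ p.ε * p.U / 2 ^ 70 ∧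
      4 * p.yb ≤ (p.H : ℝ) / p.U ∧ 0 ≤ p.yb ∧ p.gQ * p.U ≤ p.ε * p.U / 2 ^ 100 ∧
      p.ε * p.U ≤ p.U ∧
      4 * p.w * p.ε + 4 * p.yb * (p.ε * p.U / 2 ^ 13) + 8 * p.gQ * p.U * (5 * p.U)
        ≤ (p.H : ℝ) / p.U * (p.ε * p.U / 2 ^ 20) := by
  have h1 := p.hε
  have h2 := p.hU
  have h3 := p.M_pos
  have h4 := p.hM
  have h5 := BetQ_epsM p
  have h6 := p.eps_le
  have h7 : p.ε ≤ 1 := h6.trans (by norm_num)
  have hH : (p.H : ℝ) / p.U = p.ε * p.U / 2 ^ 20 / p.M := by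
    rw [BetQ_Heq]; field_simp
  obtain ⟨g1, g2⟩ := BetQ_gQ p
  refine ⟨by rw [p.hE]; field_simp, ?_, ?_, ?_, ?_, by nlinarith, ?_⟩
  · rw [hH]
    calc p.ε * p.U / 2 ^ 20 / p.M ≤ p.ε * p.U / 2 ^ 20 / 2 ^ 50 := by gcongr
      _ = p.ε * p.U / 2 ^ 70 := by ring
  · rw [hH, p.yb_eq, le_div_iff₀ h3]
    have : p.ε * p.U * (p.ε * p.M) ≤ p.ε * p.U * (1 / 2 ^ 50) := by gcongr
    nlinarith [mul_pos h1 h2]
  · rw [p.yb_eq]; positivity
  · have : p.ε ^ 2 ≤ p.ε := by nlinarith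
    calc p.gQ * p.U ≤ p.ε / 2 ^ 100 * p.U := by
          gcongr
          exact g2.trans (by gcongr)
      _ = p.ε * p.U / 2 ^ 100 := by ring
  · have e1 : 4 * p.w * p.ε + 4 * p.yb * (p.ε * p.U / 2 ^ 13) + 8 * p.gQ * p.U * (5 * p.U)
        = p.ε ^ 2 * p.U ^ 2 / p.M ^ 2 * (p.ε * p.M ^ 2 * (1 / 2 ^ 18 + 1 / 2 ^ 24) + 40) := by
      rw [BetQ_weq, p.yb_eq]; unfold Par.gQ; field_simp; norm_num; ring
    have e2 : (p.H : ℝ) / p.U * (p.ε * p.U / 2 ^ 20)
        = p.ε ^ 2 * p.U ^ 2 / p.M ^ 2 * (p.M / 2 ^ 40) := by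
      rw [hH]; field_simp
    rw [e1, e2]
    refine mul_le_mul_of_nonneg_left ?_ (by positivity)
    have h8 : p.ε * p.M ^ 2 ≤ 1 := by
      refine le_trans ?_ p.eps_M
      rw [mul_comm]
      gcongr
      · linarith [show (1 : ℝ) ≤ 2 ^ 50 by norm_num]
      · norm_num
    norm_num at h4 ⊢
    linarith

lemma BetQ_gam {u X P J c yb a g U : ℝ} (hc : P ^ 2 + 4 * u * P ≤ 4 * c) (hP0 : 0 ≤ P)
    (hP : P ≤ a) (hJ0 : 0 ≤ J) (hJ : J ≤ g) (hyb : 0 ≤ yb) (hY : -(2 * yb) ≤ 2 * u - X)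
    (hX : 2 * X + 2 * P + J ≤ 5 * U) (hU : 0 ≤ U) :
    -(4 * yb * a + g * (5 * U)) ≤ X ^ 2 - (X + P + J) ^ 2 + 4 * c := by
  have h1 : -(2 * yb) * P ≤ (2 * u - X) * P := mul_le_mul_of_nonneg_right hY hP0
  have h2 : yb * P ≤ yb * a := mul_le_mul_of_nonneg_left hP hyb
  have h3 : J * (2 * X + 2 * P + J) ≤ J * (5 * U) := mul_le_mul_of_nonneg_left hX hJ0
  have h4 : J * (5 * U) ≤ g * (5 * U) := mul_le_mul_of_nonneg_right hJ (by positivity)
  nlinarith

/-- the counter side, labels that come close to the edge: the jumps are paid by stored slack -/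
lemma QPath.two {σ : Path} {f te t : ℕ} {Z V : ℕ → ℝ} (h : Cx p sch t1 t2) (hr : Rng p t2 τ)
    (hq : QPath p sch t1 t2 τ σ b0 f te Z)
    (hH : HT τ σ b0 t1 t2 (fun t => XL τ σ b0 t1 (Z t) b0 t) V)
    (hI : GI (3 / 4) p.w p.e1 0 sch τ σ b0 t1 (XL τ σ b0 t1 (Z f) b0 t1) (V t1))
    (h1 : f ≤ t) (h2 : t < te) (hY : XL τ σ b0 t1 (Z t) (!b0) t < p.ε * p.U / 512) :
    GI (3 / 4) p.w p.e1 0 sch τ σ b0 te (XL τ σ b0 t1 (Z te) b0 te) (V te) := by
  obtain ⟨w1, w2, w3⟩ := BetQ_w p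
  have ok := h.ok hr
  obtain ⟨t0, t'', a1, a2, a3, a4, a5, a6, a7, a8⟩ := hq.fc
  rw [Bool.not_not] at a5 a7
  obtain ⟨n1, n2, n3, n4, n5, n6, n7⟩ := BetQ_num3 p
  have hU := p.hU
  have hε := p.hε
  have hεU : 0 < p.ε * p.U := mul_pos hε hU
  have hf2 : f ≤ t2 := hq.h2.trans hq.h3
  have hte1 : t1 ≤ te := hq.h1.trans hq.h2
  have htot := hq.tot
  have hcn : ∀ {b : Bool} {a c m : ℕ}, c ≤ t2 → cnt σ b a c ≤ m →
      dsp τ σ b a c ≤ 64 * ((m : ℝ) / p.U) := fun {b a c m} hc hm => by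
    refine (Cx.dsp_le hr hc).trans ?_
    rw [mul_div_assoc]
    gcongr
  have hcl : ∀ {b : Bool} {a c m : ℕ}, t1 ≤ a → c ≤ t2 → m ≤ cnt σ b a c →
      (m : ℝ) / p.U ≤ dsp τ σ b a c := fun {b a c m} ha hc hm => by
    refine le_trans ?_ (h.le_dsp hr ha hc)
    gcongr
  have hmf : 5 * (p.ε * p.U) / 512 ≤ Z f - dsp τ σ b0 t1 f - uu τ f := by
    have b1 := XL_add (τ := τ) (σ := σ) (b0 := b0) (b := b0) (z := Z f) hq.h1
    rw [BetQ_same, BetQ_opp] at b1
    rw [BetQ_opp, dsp_add hq.h1 h1] at hY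
    have b2 := dsp_mono (τ := τ) (σ := σ) (b := !b0) (a := f) h2.le
    have b3 := hq.hd
    have b4 := (BetQ_range hq t).2
    have b5 := mul_le_mul_of_nonneg_left (Cx.uu_ge hr hf2) hε.le
    linarith
  have hm : ∀ j, t0 ≤ j → j ≤ te → p.ε * p.U / 128 ≤ Z j - dsp τ σ b0 t1 j - uu τ j := by
    intro j hj hj'
    have hj1 : t1 ≤ j := a1.trans hj
    rcases le_total j f with hjf | hjf
    · have b1 := dsp_sum (τ := τ) (σ := σ) (b := b0) hjf
      have b2 := dsp_add (τ := τ) (σ := σ) (b := b0) hj1 hjf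
      have b3 := hcn hf2 ((cnt_anti hj).trans a8)
      have b4 := dsp_nonneg (τ := τ) (σ := σ) (b := b0) (a := j) (t := f)
      rw [hq.pre j hjf]
      push_cast at b3
      rw [mul_div_assoc, n1] at b3
      norm_num at b3
      linarith
    · have b1 := dsp_sum (τ := τ) (σ := σ) (b := b0) hjf
      have b2 := dsp_add (τ := τ) (σ := σ) (b := b0) hq.h1 hjf
      have b3 := hcn (hj'.trans hq.h3) ((cnt_mono hj').trans hq.hc)
      have b4 := dsp_nonneg (τ := τ) (σ := σ) (b := !b0) (a := f) (t := j)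
      have b5 := (BetQ_range hq j).1
      norm_num at n2 n5
      linarith
  have hYte := h.ws_yb hr hq.h3 (by norm_num) (hq.wl (t := te) h hr hq.h2 le_rfl b0)
  have hXte := ok.ws_small hq.h3 w2 w3 (hq.wl (t := te) h hr hq.h2 le_rfl b0)
  have hYf := h.ws_yb hr hf2 (by norm_num) (hq.wl (t := f) h hr le_rfl hq.h2 b0)
  rw [BetQ_same] at hYte hXte hYf
  have hute := h.uu_le hr hte1
  have hτ : te < τ := hq.h3.trans_lt hr.lt
  have hG : ∀ j, t'' ≤ j → j ≤ te →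
      -(4 * p.yb * (p.ε * p.U / 2 ^ 13) + 8 * p.gQ * p.U * (5 * p.U)) ≤
        (Z te - dsp τ σ b0 t1 te) ^ 2 - (Z j - dsp τ σ b0 t1 j) ^ 2 + 4 * (cnt σ b0 j te : ℝ) := by
    intro j hj hj'
    have b1 := dsp_add (τ := τ) (σ := σ) (b := b0) (a3.trans hj) hj'
    have b2 : cnt σ b0 j te ≤ 2 * p.E := by
      have c1 := cnt_anti (σ := σ) (b := b0) (c := te) hj
      have c2 := cnt_add (σ := σ) (b := b0) a4 hq.h2
      have c3 := hq.hc
      have c4 := p.H_le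
      omega
    have b3 := hcn hq.h3 b2
    push_cast at b3
    rw [mul_div_assoc, n1] at b3
    obtain ⟨b4, b5⟩ := BetQ_range hq j
    have b6 : dsp τ σ b0 j te ≤ p.ε * p.U / 2 ^ 13 := by norm_num at b3 ⊢; linarith
    have := BetQ_gam (X := Z te - dsp τ σ b0 t1 te) (J := Z j - Z te) (g := 8 * p.gQ * p.U)
      (U := p.U) (cnt_lower (σ := σ) (b := b0) hj' hτ.le) dsp_nonneg b6 (by linarith)
      (by linarith) n4 hYte (by norm_num at n5 b6; linarith) hU.le
    rwa [show Z te - dsp τ σ b0 t1 te + dsp τ σ b0 j te + (Z j - Z te)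
      = Z j - dsp τ σ b0 t1 j by linarith] at this
  have hY'' : (p.H : ℝ) / p.U / 2 ≤ 2 * uu τ t'' - (Z f - dsp τ σ b0 t1 t'') := by
    have b1 := dsp_sum (τ := τ) (σ := σ) (b := b0) a4
    have b2 := dsp_add (τ := τ) (σ := σ) (b := b0) a3 a4
    have b3 := hcl a3 hf2 a6
    linarith
  have hH0 : 0 ≤ (p.H : ℝ) / p.U := by positivity
  have hG' : ∀ j, t0 ≤ j → j ≤ t'' →
      (p.H : ℝ) / p.U * dsp τ σ b0 j t''
        - (4 * p.yb * (p.ε * p.U / 2 ^ 13) + 8 * p.gQ * p.U * (5 * p.U)) ≤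
        (Z te - dsp τ σ b0 t1 te) ^ 2 - (Z j - dsp τ σ b0 t1 j) ^ 2 + 4 * (cnt σ b0 j te : ℝ) := by
    intro j hj hj'
    have b1 := hG t'' le_rfl (a4.trans hq.h2)
    have b2 := dsp_add (τ := τ) (σ := σ) (b := b0) (a1.trans hj) hj'
    have b3 := cnt_lower (τ := τ) (σ := σ) (b := b0) hj' ((a4.trans hq.h2).trans hτ.le)
    have b4 := mul_le_mul_of_nonneg_right hY''
      (dsp_nonneg (τ := τ) (σ := σ) (b := b0) (a := j) (t := t''))
    rw [cnt_add hj' (a4.trans hq.h2), hq.pre j (hj'.trans a4)]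
    rw [hq.pre t'' a4] at b1
    push_cast
    rw [show Z f - dsp τ σ b0 t1 j = Z f - dsp τ σ b0 t1 t'' + dsp τ σ b0 j t'' by linarith]
    nlinarith
  have ht0f : t0 ≤ f := a2.trans a4
  have hI0 : GI (3 / 4) p.w p.e1 0 sch τ σ b0 t0 (Z f - dsp τ σ b0 t1 t0) (V t0) := by
    rw [BetQ_same] at hI
    refine HT_G ok (by norm_num) (by norm_num) le_rfl le_rfl le_rfl a1 (ht0f.trans hf2)
      (hH.mono le_rfl (ht0f.trans hf2))
      (fun j _ hj => by rw [BetQ_same, hq.pre j (hj.le.trans ht0f)]) ?_ hI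
    rw [← BetQ_same]
    exact (WL_back ok a1 ht0f hf2 w2 w3 (hq.wl (t := f) h hr le_rfl hq.h2) b0).mono h.h1
      ((ht0f.trans hf2).trans_lt hr.lt) w3
  have hV0 : 0 ≤ V t0 + (Z f - dsp τ σ b0 t1 t0) ^ 2 := by
    obtain ⟨r1, r2⟩ := rr_range (τ := τ) (σ := σ) (b := b0) h.h1 ((ht0f.trans hf2).trans_lt hr.lt)
    have b1 := dsp_sum (τ := τ) (σ := σ) (b := b0) a2
    have b2 := dsp_add (τ := τ) (σ := σ) (b := b0) a1 a2
    have b3 := dsp_nonneg (τ := τ) (σ := σ) (b := !b0) (a := t0) (t := t'')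
    have b4 := GG_nonneg (c := 3 / 4) (e1 := p.e1) (X := Z f - dsp τ σ b0 t1 t0) (by norm_num)
      (ok.uu_sq (ht0f.trans hf2)).1 r1 r2 ok.hW0 (by linarith)
    unfold GI at hI0
    linarith
  have hfin : 4 * p.w * p.ε ≤ V te + (Z te - dsp τ σ b0 t1 te) ^ 2 := by
    rcases HT_lower (hH.mono a1 hq.h3) (ht0f.trans hq.h2) with hc | ⟨j, j1, j2, hc⟩
    · have b1 := hG' t0 le_rfl a2
      have b2 := hcl a1 (a4.trans hf2) a5
      rw [n1] at b2
      have b3 := mul_le_mul_of_nonneg_left b2 hH0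
      rw [hq.pre t0 ht0f] at b1
      linarith
    · have b1 : -(4 * p.yb * (p.ε * p.U / 2 ^ 13) + 8 * p.gQ * p.U * (5 * p.U)) ≤
          (Z te - dsp τ σ b0 t1 te) ^ 2 - (Z j - dsp τ σ b0 t1 j) ^ 2
            + 4 * (cnt σ b0 j te : ℝ) := by
        rcases le_total j t'' with hj | hj
        · have c1 := hG' j j1 hj
          have c2 := mul_nonneg hH0 (dsp_nonneg (τ := τ) (σ := σ) (b := b0) (a := j) (t := t''))
          linarith
        · exact hG j hj j2.le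
      have b2 := pow_le_pow_left₀ (by positivity) (hm j j1 j2.le) 2
      have b3 := uu_sq (j2.trans hτ).le
      have b4 : (p.H : ℝ) / p.U * (p.ε * p.U / 2 ^ 20)
          ≤ p.ε * p.U / 128 * (p.ε * p.U / 128) :=
        mul_le_mul (by norm_num at n2; linarith) (by norm_num; linarith) (by positivity)
          (by positivity)
      simp only [BetQ_same] at hc
      nlinarith
  obtain ⟨r1, r2⟩ := rr_range (τ := τ) (σ := σ) (b := b0) h.h1 hτ
  have b1 := hm te (ht0f.trans hq.h2) le_rfl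
  have b2 := GG_le_of_gt (c := 3 / 4) (e1 := p.e1) (X := Z te - dsp τ σ b0 t1 te)
    (uu_pos hτ) r1 r2 ok.hW0 (by linarith)
  have b3 := mul_le_mul_of_nonneg_left (BetQ_rr h hr hq hq.h2 le_rfl)
    (show 0 ≤ 4 * p.w by linarith)
  unfold GI
  rw [BetQ_same]
  linarith

lemma BetQ_cnt0 {σ : Path} {b : Bool} {a t : ℕ} (h : t ≤ a) : cnt σ b a t = 0 := by
  have := cnt_mono (σ := σ) (b := b) (a := a) h
  rw [cnt_self] at this
  omega

lemma BetQ_pow (p : Par) {n : ℕ} (hn : n ≤ p.H) : (1 + p.gQ / p.H) ^ n ≤ 1 + 2 * p.gQ := by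
  obtain ⟨g1, g2⟩ := BetQ_gQ p
  have h5 : (1 : ℝ) ≤ p.H := by exact_mod_cast p.H_pos
  have h7 := p.eps_le
  have h8 : p.ε ^ 2 ≤ 1 := pow_le_one₀ p.hε.le (by norm_num at h7; linarith)
  have g3 : p.gQ ≤ 1 / 2 := by norm_num at g2; linarith
  have hx0 : 0 ≤ p.gQ / p.H := by positivity
  have hx1 : p.gQ / p.H ≤ p.gQ := div_le_self g1.le h5
  have hn' : (n : ℝ) * (p.gQ / p.H) ≤ p.gQ := by
    rw [← mul_div_assoc, div_le_iff₀ (by linarith), mul_comm]
    gcongr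
  set x := p.gQ / p.H
  have b1 := one_add_mul_le_pow (a := -x) (by linarith) n
  have b2 : (1 + x) ^ n * (1 + -x) ^ n ≤ 1 := by
    rw [← mul_pow]
    exact pow_le_one₀ (mul_nonneg (by linarith) (by linarith)) (by nlinarith)
  have b3 : 0 ≤ (1 + x) ^ n := by positivity
  have b4 : (1 + x) ^ n * (1 - p.gQ) ≤ 1 :=
    le_trans (mul_le_mul_of_nonneg_left (by linarith) b3) b2
  by_contra hc
  have b5 := mul_lt_mul_of_pos_right (not_le.1 hc) (show 0 < 1 - p.gQ by linarith)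
  nlinarith

lemma Q_core {σ : Path} {f te : ℕ} (h : Cx p sch t1 t2) (hr : Rng p t2 τ) (h1 : t1 ≤ f)
    (h2 : f ≤ te) (h3 : te ≤ t2) (fc : FC p σ (!b0) t1 t1 f) (hc : cnt σ b0 f te ≤ p.H)
    (hd : dsp τ σ (!b0) f te ≤ (1 - 3 / 4 * p.ε) * uu τ f) :
    BetCore p sch t1 t2 τ σ b0 (zetaQ p sch t1 τ σ b0 f te)
      (if p.H ≤ cnt σ b0 f te then 1 + p.gQ else 1) 0 := by
  obtain ⟨w1, w2, w3⟩ := BetQ_w p
  have ok := h.ok hr
  obtain ⟨g1, g2⟩ := BetQ_gQ p
  have hU := p.hU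
  have hH1 : (1 : ℝ) ≤ p.H := by exact_mod_cast p.H_pos
  have hx0 : 0 < p.gQ / p.H := by positivity
  have hf2 : f ≤ t2 := h2.trans h3
  have hqn := BetQ_pow p hc
  have h7 := p.eps_le
  have h8 : p.ε ^ 2 ≤ 1 := pow_le_one₀ p.hε.le (by norm_num at h7; linarith)
  have g3 : p.gQ ≤ 1 / 8 := by norm_num at g2; linarith
  have hone : ∀ m : ℕ, 1 ≤ (1 + p.gQ / p.H) ^ m := fun m => one_le_pow₀ (by linarith)
  refine ⟨fun z => edg p sch τ σ b0 t1 f +
    (1 + p.gQ / p.H) ^ cnt σ b0 f te * (z - edg p sch τ σ b0 t1 f), by fun_prop,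
    fun z z' _ _ => ?_, fun z hz => ?_⟩
  · rw [add_sub_add_left_eq_sub, ← mul_sub, abs_mul, sub_sub_sub_cancel_right,
      abs_of_nonneg (by positivity : 0 ≤ (1 + p.gQ / p.H) ^ cnt σ b0 f te)]
    refine mul_le_mul_of_nonneg_right ?_ (abs_nonneg _)
    split_ifs with hh
    · refine le_trans ?_ (one_add_mul_le_pow (by linarith) _)
      have : (p.H : ℝ) * (p.gQ / p.H) ≤ cnt σ b0 f te * (p.gQ / p.H) := by gcongr
      rw [mul_div_cancel₀ _ (by linarith)] at this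
      linarith
    · exact hone _
  have hzf := WL_back ok h1 hf2 le_rfl (by linarith) (by linarith) hz
  have hd0 : 0 ≤ z - edg p sch τ σ b0 t1 f := by
    have b1 := hzf (!b0)
    have b2 := XL_add (τ := τ) (σ := σ) (b0 := b0) (b := b0) (z := z) h1
    rw [BetQ_same] at b2
    unfold WS at b1
    unfold edg
    linarith
  have hd1 : z - edg p sch τ σ b0 t1 f ≤ 3 * p.U := by
    have b1 := ok.ws_small hf2 (by linarith) (w1.trans w3) (hzf b0)
    obtain ⟨u1, u2, -, -⟩ := ok.uu_sq hf2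
    obtain ⟨r1, r2⟩ := rr_range (τ := τ) (σ := σ) (b := !b0) h.h1 (hf2.trans_lt hr.lt)
    have b2 : 2 * p.w * rr sch τ σ (!b0) f / uu τ f ≤ uu τ f / 2 := by
      rw [div_le_iff₀ u1]
      have := mul_le_mul_of_nonneg_left r2 w2
      nlinarith
    have b3 := h.uu_le hr h1
    rw [BetQ_same] at b1
    unfold edg
    linarith
  set zp := edg p sch τ σ b0 t1 f with hzp
  set q := 1 + p.gQ / p.H with hqdef
  have hq0 : 0 < q := by linarith
  let Z : ℕ → ℝ := fun t => zetaQ p sch t1 τ σ b0 f te t (zp + q ^ cnt σ b0 f te * (z - zp))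
  have hZ : ∀ t, Z t = zp + q ^ cnt σ b0 f te * (z - zp) / q ^ cnt σ b0 f (min t te) :=
    fun t => by simp only [Z, zetaQ, ← hzp, ← hqdef, add_sub_cancel_left]
  have hZf : ∀ t, t ≤ f → Z t = zp + q ^ cnt σ b0 f te * (z - zp) := fun t ht => by
    rw [hZ, BetQ_cnt0 ((min_le_left _ _).trans ht), pow_zero, div_one]
  have hZe : ∀ t, te ≤ t → Z t = z := fun t ht => by
    rw [hZ, min_eq_right ht, mul_div_cancel_left₀ _ (by positivity)]
    ring
  have hA0 : 0 ≤ q ^ cnt σ b0 f te * (z - zp) := by positivity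
  have hA1 : q ^ cnt σ b0 f te * (z - zp) ≤ 4 * p.U :=
    le_trans (mul_le_mul (show _ ≤ 4 / 3 by linarith) hd1 hd0 (by norm_num)) (by linarith)
  have hq : QPath p sch t1 t2 τ σ b0 f te Z :=
    { h1 := h1, h2 := h2, h3 := h3, fc := fc, hc := hc, hd := hd
      pre := fun t ht => by rw [hZf t ht, hZf f le_rfl]
      post := fun t ht => by rw [hZe t ht, hZe te le_rfl]
      keep := fun t ht ht' hσ => by
        rw [hZ, hZ, min_eq_left ht'.le, min_eq_left ht', cnt_succ ht, if_neg hσ, add_zero]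
      jump := fun t ht ht' => by
        rw [hZ, hZ, min_eq_left ht'.le, min_eq_left ht', cnt_succ ht]
        split_ifs
        · have e1 : zp + q ^ cnt σ b0 f te * (z - zp) / q ^ cnt σ b0 f t -
              (zp + q ^ cnt σ b0 f te * (z - zp) / q ^ (cnt σ b0 f t + 1))
              = q ^ cnt σ b0 f te * (z - zp) * (p.gQ / p.H) / q ^ (cnt σ b0 f t + 1) := by
            rw [show p.gQ / p.H = q - 1 by linarith]
            field_simp
            ring
          have e2 : 0 ≤ q ^ cnt σ b0 f te * (z - zp) * (p.gQ / p.H) / q ^ (cnt σ b0 f t + 1) := by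
            positivity
          refine ⟨by linarith, ?_⟩
          rw [e1]
          refine (div_le_self (by positivity) (hone _)).trans ?_
          calc q ^ cnt σ b0 f te * (z - zp) * (p.gQ / p.H) ≤ 4 * p.U * (p.gQ / p.H) := by gcongr
            _ = 4 * p.gQ / p.H * p.U := by ring
        · refine ⟨le_rfl, ?_⟩
          rw [add_zero, sub_self]
          positivity
      tot := by
        rw [hZf f le_rfl, hZe te le_rfl]
        have := mul_le_mul (show q ^ cnt σ b0 f te - 1 ≤ 2 * p.gQ by linarith) hd1 hd0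
          (by positivity)
        nlinarith [mul_pos g1 hU]
      win := by rw [hZe te le_rfl]; exact hz }
  have hχ := hZf f le_rfl
  have hz' := hZe te le_rfl
  refine ⟨hZe t2 h3, ?_, fun b V hH hI => ?_⟩
  · intro b
    have := WL_back ok le_rfl h1 hf2 w2 w3 (hq.wl (t := f) h hr le_rfl h2) b
    rw [hχ] at this
    exact this.mono h.h1 (h.le.trans_lt hr.lt) w3
  · have hI' : GI (3 / 4) p.w p.e1 0 sch τ σ b t1 (XL τ σ b0 t1 (Z f) b t1) (V t1) := by
      rw [hχ]; exact hI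
    have hH' : HT τ σ b t1 t2 (fun t => XL τ σ b0 t1 (Z t) b t) V := hH
    have key : GI (3 / 4) p.w p.e1 0 sch τ σ b t2 (XL τ σ b0 t1 (Z te) b t2) (V t2) := by
      rcases Bool.eq_or_eq_not b b0 with rfl | rfl
      · have k1 : GI (3 / 4) p.w p.e1 0 sch τ σ b te (XL τ σ b t1 (Z te) b te) (V te) := by
          by_cases hY : ∀ t, f ≤ t → t < te → p.ε * p.U / 512 ≤ XL τ σ b t1 (Z t) (!b) t
          · exact hq.one h hr hH' hI' hY
          · push Not at hY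
            obtain ⟨t, k1, k2, k3⟩ := hY
            exact hq.two h hr hH' hI' k1 k2 k3
        have ht1 : t1 ≤ te := h1.trans h2
        rw [BetQ_same] at k1 ⊢
        refine HT_G ok (by norm_num) (by norm_num) le_rfl ht1 ht1 h3 le_rfl (hH'.mono ht1 le_rfl)
          (fun j hj _ => by rw [BetQ_same, hq.post j hj]) ?_ k1
        rw [← BetQ_same]
        exact (hq.win b).mono h.h1 hr.lt (w1.trans w3)
      · exact hq.lead h hr hH' hI'
    rw [hz'] at key
    have := GG_mono (c := 1 / 2) (c' := 3 / 4) (W := p.w) (e1 := p.e1)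
      (X := XL τ σ b0 t1 z b t2) (by norm_num) le_rfl (uu_pos hr.lt)
      (rr_range (σ := σ) (b := b) h.h1 hr.lt).2
    unfold GI at key ⊢
    linarith

open Classical in
lemma Q_plan {f te : Path → ℕ} {act : Path → Prop} (h : Cx p sch t1 t2) (hr : Rng p t2 τ)
    (hf : At f f) (hte : At te te) (ha : At f act) (h1 : ∀ σ, t1 ≤ f σ) (h2 : ∀ σ, f σ ≤ te σ)
    (h3 : ∀ σ, te σ ≤ t2)
    (hq : ∀ σ, act σ → FC p σ (!b0) t1 t1 (f σ) ∧ cnt σ b0 (f σ) (te σ) ≤ p.H ∧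
      dsp τ σ (!b0) (f σ) (te σ) ≤ (1 - 3 / 4 * p.ε) * uu τ (f σ)) :
    BetPlan p sch t1 t2 τ
      (fun σ => if act σ ∧ p.H ≤ cnt σ b0 (f σ) (te σ) then 1 + p.gQ else 1) (fun _ => 0) := by
  refine bet_of_core (b0 := b0) (ζ := fun σ t x => if f σ ≤ t ∧ act σ then
    zetaQ p sch t1 τ σ b0 (f σ) (te σ) t x else x) h hr (fun _ => le_rfl)
    (fun t σ σ' hag => ?_) fun σ => ?_
  · funext x
    by_cases hft : f σ ≤ t
    · have e1 := hf.eq_of_le hag hft
      have e2 := ha.eq_of_le hag hft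
      have e3 : min t (te σ') = min t (te σ) := by
        by_cases hte' : te σ ≤ t
        · rw [hte.eq_of_le hag hte']
        · rw [min_eq_left (not_le.1 hte').le,
            min_eq_left (not_le.1 fun hh => hte' ((hte.le_iff hag).1 hh)).le]
      simp only [e1, e2, zetaQ, edg, e3, dsp_congr hag hft, rr_congr hag hft,
        cnt_congr hag (min_le_left t (te σ))]
    · rw [if_neg fun hh => hft ((hf.le_iff hag).1 hh.1), if_neg fun hh => hft hh.1]
  · by_cases hs : act σ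
    · obtain ⟨q1, q2, q3⟩ := hq σ hs
      have e1 : (fun t x => if f σ ≤ t ∧ act σ then zetaQ p sch t1 τ σ b0 (f σ) (te σ) t x else x)
          = zetaQ p sch t1 τ σ b0 (f σ) (te σ) := by
        funext t x
        split_ifs with hh
        · rfl
        · have : t ≤ f σ := (not_le.1 fun h' => hh ⟨h', hs⟩).le
          rw [zetaQ, BetQ_cnt0 ((min_le_left _ _).trans this), pow_zero, div_one]
          ring
      have := Q_core h hr (h1 σ) (h2 σ) (h3 σ) q1 q2 q3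
      simp only [e1]
      simpa only [hs, true_and] using this
    · simp only [hs, false_and, and_false, if_false]
      exact bet_idle h hr fun _ _ => rfl

end

end Pool.Agent.P.MP_767cd9_co.Q1
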