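import Pool.Agent.P.MP_767cd9_co.Q1.PlanGen

/-! Recovery: the error in the invariant is traded for a small loss of density. -/

namespace Pool.Agent.P.MP_767cd9_co.Q1

open Real

noncomputable section

/-- odd cut-off, `0` on `[-1/4, 1/4]`, `1` on `[1/2, ∞)` -/
def cut (y : ℝ) : ℝ := max 0 (min 1 (4 * y - 1)) - max 0 (min 1 (-4 * y - 1))

lemma cut_neg (y : ℝ) : cut (-y) = -cut y := by
  unfold cut
  have e1 : 4 * -y - 1 = -4 * y - 1 := by ring
  have e2 : -4 * -y - 1 = 4 * y - 1 := by ring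
  rw [e1, e2]
  ring

lemma Recov_mono {y y' : ℝ} (h : y ≤ y') : cut y ≤ cut y' ∧ cut y' - cut y ≤ 4 * (y' - y) := by
  unfold cut
  simp only [max_def, min_def]
  split_ifs <;> constructor <;> linarith

lemma Recov_range (y : ℝ) : -1 ≤ cut y ∧ cut y ≤ 1 := by
  unfold cut
  simp only [max_def, min_def]
  split_ifs <;> constructor <;> linarith

lemma Recov_zero {y : ℝ} (h1 : -(1 / 4) ≤ y) (h2 : y ≤ 1 / 4) : cut y = 0 := by
  unfold cut
  simp only [max_def, min_def]
  split_ifs <;> linarith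

lemma Recov_one {y : ℝ} (h : 1 / 2 ≤ y) : cut y = 1 := by
  unfold cut
  simp only [max_def, min_def]
  split_ifs <;> linarith

lemma Recov_cont : Continuous cut := by
  unfold cut
  fun_prop

lemma cut_lip (y y' : ℝ) : |cut y - cut y'| ≤ 4 * |y - y'| := by
  rcases le_total y y' with h | h
  · obtain ⟨h1, h2⟩ := Recov_mono h
    rw [abs_of_nonpos (by linarith), abs_of_nonpos (by linarith)]
    linarith
  · obtain ⟨h1, h2⟩ := Recov_mono h
    rw [abs_of_nonneg (by linarith), abs_of_nonneg (by linarith)]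
    linarith

/-- position of the old label relative to the new one -/
lemma Recov_pos {u η X X' : ℝ} (hu : 0 < u) (hη0 : 0 ≤ η) (hη : η ≤ u / 160)
    (hX' : X' = X - η * cut ((X - u) / u)) :
    X - η ≤ X' ∧ X' ≤ X + η ∧ (u < X → u < X' ∧ X' ≤ X) ∧ (3 / 2 * u ≤ X → X' = X - η) ∧
      (X ≤ u → X ≤ X' ∧ X' ≤ u ∧ (3 / 4 * u ≤ X → X' = X)) := by
  obtain ⟨r1, r2⟩ := Recov_range ((X - u) / u)
  have h0 : cut 0 = 0 := Recov_zero (by norm_num) (by norm_num)
  have b1 : X - η ≤ X' := by rw [hX']; nlinarith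
  have b2 : X' ≤ X + η := by rw [hX']; nlinarith
  have hz : 3 / 4 * u ≤ X → X ≤ 5 / 4 * u → X' = X := by
    intro h1 h2
    rw [hX', Recov_zero (by rw [le_div_iff₀ hu]; linarith) (by rw [div_le_iff₀ hu]; linarith)]
    ring
  refine ⟨b1, b2, fun h => ⟨?_, ?_⟩, fun h => ?_, fun h => ⟨?_, ?_, fun h' => hz h' (by linarith)⟩⟩
  · rcases le_total X (5 / 4 * u) with h' | h'
    · rw [hz (by linarith) h']
      exact h
    · linarith
  · have := (Recov_mono (div_nonneg (sub_nonneg.2 h.le) hu.le)).1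
    rw [h0] at this
    rw [hX']
    nlinarith
  · rw [hX', Recov_one (by rw [le_div_iff₀ hu]; linarith), mul_one]
  · have := (Recov_mono (div_nonpos_of_nonpos_of_nonneg (sub_nonpos.2 h) hu.le)).1
    rw [h0] at this
    rw [hX']
    nlinarith
  · rcases le_total (3 / 4 * u) X with h' | h'
    · rw [hz h' (by linarith)]
      exact h
    · linarith

lemma Recov_eta {u e : ℝ} (hu : 0 < u) (he0 : 0 ≤ e) (he : e ≤ u ^ 2 / 80) :
    0 ≤ e / (2 * u) ∧ e / (2 * u) ≤ u / 160 ∧ 2 * u * (e / (2 * u)) = e := by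
  refine ⟨by positivity, ?_, by field_simp⟩
  rw [div_le_iff₀ (by positivity)]
  nlinarith

/-- the final relabelling, one side; `X` is the new label, `X'` the old one -/
lemma recov_half {W e1 e u r X X' v : ℝ} (hu : 0 < u) (hr : 0 < r) (hr1 : r ≤ 1) (hW : 0 ≤ W)
    (hs : 16 * W ≤ u ^ 2) (he0 : 0 ≤ e) (he : e ≤ u ^ 2 / 80) (hX : -(u / 4) ≤ X)
    (hX' : X' = X - e / (2 * u) * cut ((X - u) / u))
    (h1 : GG (1 / 2) W e1 u r X' - e ≤ v + X' ^ 2)
    (h2 : X' ≤ 3 / 2 * u → GG 1 W e1 u r X' ≤ v + X' ^ 2) :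
    GG (3 / 4) W e1 u r X ≤ v + X ^ 2 := by
  obtain ⟨hη0, hη, hηe⟩ := Recov_eta hu he0 he
  obtain ⟨-, b2, b3, b4, b5⟩ := Recov_pos hu hη0 hη hX'
  generalize e / (2 * u) = η at hη0 hη hηe b2 b4
  rcases lt_or_ge u X with h | h
  · obtain ⟨c1, c2⟩ := b3 h
    rcases le_or_gt X' (3 / 2 * u) with h' | h'
    · have h3 := sw_up (c := 1) (e1 := e1) (by norm_num) hu hr hr1 hW hs
        (show -(u / 4) ≤ X' by linarith) c2
      have h4 : GG (3 / 4) W e1 u r X ≤ GG 1 W e1 u r X := GG_mono (by norm_num) le_rfl hu hr1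
      linarith [h2 h']
    · have e1' := b4 (by linarith)
      have hm : ∀ Y, 3 / 2 * u ≤ Y → min 1 (2 * (Y - u) / u) = 1 := fun Y hY =>
        min_eq_left (by rw [le_div_iff₀ hu]; linarith)
      have h3 : hh W u r X ≤ hh W u r X' + 0 := by
        unfold hh
        rw [hm X (by linarith), hm X' h'.le, add_zero]
        refine mul_le_mul_of_nonneg_left (min_le_min ?_ le_rfl) (by linarith)
        exact div_le_div_of_nonneg_right (by nlinarith) hr.le
      have h4 := th_lip (e := e1) le_rfl h3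
      unfold GG at h1 ⊢
      rw [if_neg (not_le.2 c1)] at h1
      rw [if_neg (not_le.2 h)]
      have h5 : e ≤ X ^ 2 - X' ^ 2 := by
        rw [← hηe, e1']
        rw [e1'] at h'
        nlinarith
      linarith
  · obtain ⟨c1, c2, c3⟩ := b5 h
    have h3 := h2 (by linarith)
    unfold GG at h3 ⊢
    rw [if_pos c2] at h3
    rw [if_pos h]
    rcases le_total (3 / 4 * u) X with h' | h'
    · rw [c3 h'] at h3
      nlinarith [sq_nonneg (X - u)]
    · have h4 : (u / 4) ^ 2 ≤ (u - X) ^ 2 := pow_le_pow_left₀ (by positivity) (by linarith) 2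
      have h5 : u * (X' - X) ≤ u * (u / 160) := mul_le_mul_of_nonneg_left (by linarith) hu.le
      nlinarith

/-- the relabelling map -/
def Recov_chi (η D u z : ℝ) : ℝ := z - η * cut ((z - D - u) / u)

lemma Recov_expand {η D u : ℝ} (hu : 0 < u) (hη : 0 ≤ η) (z z' : ℝ) :
    (1 - 4 * η / u) * |z - z'| ≤ |Recov_chi η D u z - Recov_chi η D u z'| := by
  have h1 := cut_lip ((z - D - u) / u) ((z' - D - u) / u)
  have e1 : (z - D - u) / u - (z' - D - u) / u = (z - z') / u := by ring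
  rw [e1, abs_div, abs_of_pos hu] at h1
  have e2 : z - z' = (Recov_chi η D u z - Recov_chi η D u z')
      + η * (cut ((z - D - u) / u) - cut ((z' - D - u) / u)) := by
    unfold Recov_chi
    ring
  have h2 := abs_add_le (Recov_chi η D u z - Recov_chi η D u z')
    (η * (cut ((z - D - u) / u) - cut ((z' - D - u) / u)))
  rw [← e2, abs_mul, abs_of_nonneg hη] at h2
  have h3 := mul_le_mul_of_nonneg_left h1 hη
  have e3 : (1 - 4 * η / u) * |z - z'| = |z - z'| - η * (4 * (|z - z'| / u)) := by ring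
  rw [e3]
  linarith

lemma Recov_XL {τ a c : ℕ} {σ : Path} (hac : a ≤ c) (η z : ℝ) (b : Bool) :
    XL τ σ true a (Recov_chi η (dsp τ σ true a c) (uu τ c) z) b c =
      XL τ σ true a z b c - η * cut ((XL τ σ true a z b c - uu τ c) / uu τ c) := by
  have ht : ∀ x, XL τ σ true a x true c = x - dsp τ σ true a c := fun x => by simp [XL]
  cases b
  · have hf : ∀ x, XL τ σ true a x false c = 2 * uu τ c - (x - dsp τ σ true a c) := fun x => by
      have := XL_add (τ := τ) (σ := σ) (b0 := true) (b := true) (z := x) hac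
      rw [ht] at this
      simp only [Bool.not_true] at this
      linarith
    rw [hf, hf]
    have e : (2 * uu τ c - (z - dsp τ σ true a c) - uu τ c) / uu τ c
        = -((z - dsp τ σ true a c - uu τ c) / uu τ c) := by ring
    rw [e, cut_neg]
    unfold Recov_chi
    ring
  · rw [ht, ht]
    unfold Recov_chi
    ring

lemma recov_plan {W W1 e1 R : ℝ} {sch : ℕ → ℝ} {τ a c : ℕ} {e : Path → ℝ}
    (h : Ok W W1 e1 sch τ a c) (hac : a ≤ c) (hu : 8 * uu τ c ≤ uu τ a) (hR0 : 0 ≤ R)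
    (hR : R ≤ W) (he : ∀ σ, 0 ≤ e σ ∧ e σ ≤ ss τ c / 80)
    (hea : ∀ σ σ', Ag c σ σ' → e σ' = e σ) :
    Plan a c (fun σ => Inv (1 / 2) W1 e1 (e σ) sch τ a σ) (Inv (3 / 4) W1 e1 0 sch τ c)
      (Win R sch τ a) (Win R sch τ c) (fun σ => 1 - 2 * e σ / ss τ c) := by
  obtain ⟨hu0, -, hs16, hs16'⟩ := h.uu_sq (le_refl c)
  have hsq : uu τ c ^ 2 = ss τ c := uu_sq h.lt.le
  refine plan_of_core (b0 := true) (e0 := e) (e := fun _ => 0)
    (ζ := fun σ t => if t < c then id else
      Function.invFun (Recov_chi (e σ / (2 * uu τ c)) (dsp τ σ true a c) (uu τ c)))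
    hac h.lt h.h1 (by norm_num) h.hW0 hs16' (fun _ => le_rfl) ?_ ?_
  · intro t σ σ' hag
    by_cases ht : t < c
    · simp only [if_pos ht]
    · have hc : Ag c σ σ' := fun j hj => hag j (lt_of_lt_of_le hj (not_lt.1 ht))
      simp only [if_neg ht, hea σ σ' hc, dsp_congr hc le_rfl]
  intro σ
  obtain ⟨he0, he1⟩ := he σ
  have he2 : e σ ≤ uu τ c ^ 2 / 80 := by rw [hsq]; exact he1
  obtain ⟨hη0, hη, -⟩ := Recov_eta hu0 he0 he2
  have hexp := Recov_expand (D := dsp τ σ true a c) hu0 hη0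
  have hρ : 1 - 4 * (e σ / (2 * uu τ c)) / uu τ c = 1 - 2 * e σ / ss τ c := by
    rw [← hsq]
    field_simp
    ring
  have hinj : Function.Injective
      (Recov_chi (e σ / (2 * uu τ c)) (dsp τ σ true a c) (uu τ c)) := by
    intro z z' hz
    have h1 := hexp z z'
    rw [hz, sub_self, abs_zero] at h1
    have h2 : 4 * (e σ / (2 * uu τ c)) / uu τ c ≤ 1 / 2 := by
      rw [div_le_iff₀ hu0]
      linarith
    have h3 : |z - z'| ≤ 0 := by nlinarith [abs_nonneg (z - z')]
    exact sub_eq_zero.1 (abs_nonpos_iff.1 h3)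
  refine ⟨Recov_chi (e σ / (2 * uu τ c)) (dsp τ σ true a c) (uu τ c), ?_, fun z z' _ _ => ?_,
    fun z hz => ?_⟩
  · unfold Recov_chi
    have := Recov_cont
    fun_prop
  · rw [← hρ]
    exact hexp z z'
  have hw : WL R sch τ σ true a
      (Recov_chi (e σ / (2 * uu τ c)) (dsp τ σ true a c) (uu τ c) z) c := by
    intro b
    obtain ⟨-, -, b3, -, b5⟩ := Recov_pos hu0 hη0 hη (Recov_XL (τ := τ) (σ := σ) hac _ z b)
    have h1 := hz b
    unfold WS at h1 ⊢
    rcases lt_or_ge (uu τ c) (XL τ σ true a z b c) with h2 | h2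
    · linarith [(b3 h2).2]
    · have h3 := (rr_range (σ := σ) (b := b) h.h1 h.lt).1
      have h4 : 0 ≤ 2 * R * rr sch τ σ b c / uu τ c := by positivity
      linarith [(b5 h2).2.1]
  refine ⟨?_, WL_back h le_rfl hac le_rfl hR0 hR hw, fun b V hH hI => ?_⟩
  · simp only [lt_irrefl, if_false]
    exact Function.leftInverse_invFun hinj z
  obtain ⟨hr0, hr1⟩ := rr_range (σ := σ) (b := b) h.h1 h.lt
  have hXl := Recov_XL (τ := τ) (σ := σ) hac (e σ / (2 * uu τ c)) z b
  obtain ⟨b1, -⟩ := Recov_pos hu0 hη0 hη hXl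
  have hlow : -(uu τ c / 100) ≤ XL τ σ true a z b c := by
    have h1 := h.ws_small le_rfl hR0 hR (hz (!b))
    have h2 := XL_add (τ := τ) (σ := σ) (b0 := true) (b := b) (z := z) hac
    linarith
  have hwb := (hw b).mono h.h1 h.lt hR
  set x := Recov_chi (e σ / (2 * uu τ c)) (dsp τ σ true a c) (uu τ c) z with hx
  have hXj : ∀ j, a ≤ j → j < c → (fun t => XL τ σ true a ((if t < c then id else
      Function.invFun (Recov_chi (e σ / (2 * uu τ c)) (dsp τ σ true a c) (uu τ c))) x) b t) j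
      = (if b = true then x else 2 * uu τ a - x) - dsp τ σ b a j := by
    intro j _ hj
    simp only [if_pos hj, id, XL]
  have g1 : GI (1 / 2) W1 e1 (e σ) sch τ σ b c (XL τ σ true a x b c) (V c) :=
    HT_G h (by norm_num) (by norm_num) he0 le_rfl le_rfl hac le_rfl hH hXj hwb hI
  have g2 : XL τ σ true a x b c ≤ 3 / 2 * uu τ c →
      GI 1 W1 e1 0 sch τ σ b c (XL τ σ true a x b c) (V c) := by
    intro hY
    refine recov_strong h hac hu he0 he1 hH hXj hY ?_ ?_
    · change -uu τ c ≤ XL τ σ true a x b c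
      linarith
    · rw [XL_self] at hI
      exact hI
  unfold GI at g1 g2 ⊢
  rw [sub_zero] at g2 ⊢
  exact recov_half hu0 hr0 hr1 h.hW0 hs16 he0 he2 (by linarith) hXl g1 g2

/-- a continuous map at bounded distance from the identity is onto -/
lemma surj_of_near {f : ℝ → ℝ} {C : ℝ} (hf : Continuous f) (h : ∀ x, |f x - x| ≤ C) :
    Function.Surjective f := by
  intro y
  have h1 := (abs_le.1 (h (y - C))).2
  have h2 := (abs_le.1 (h (y + C))).1
  exact intermediate_value_univ (y - C) (y + C) hf ⟨by linarith, by linarith⟩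

end

end Pool.Agent.P.MP_767cd9_co.Q1
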