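import Pool.Agent.P.MP_767cd9_co.Q1.Stop
import Pool.Agent.P.MP_767cd9_co.Q1.Recov

/-! The tilt profile and the tilt maps. -/

namespace Pool.Agent.P.MP_767cd9_co.Q1

open Real

noncomputable section

variable {p : Par} {ub z z' z1 z2 s o x : ℝ}

lemma Tilt_eps (p : Par) : p.ε ≤ 1 / 1000 := p.eps_le.trans (by norm_num)

lemma Tilt_kap (p : Par) : 0 < p.kap ∧ p.kap ≤ 1 := by
  have h := p.kap_bounds
  have h1 := Tilt_eps p
  have h2 := p.hε
  constructor <;> linarith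

lemma Tilt_lam (p : Par) : 0 < p.lam ∧ p.lam ≤ 1 / 50 := by
  have h1 : 1 ≤ p.M := le_trans (by norm_num) p.hM
  have h2 := Tilt_eps p
  have h3 := div_le_self p.hε.le (one_le_pow₀ (n := 3) h1)
  exact ⟨div_pos p.hε (pow_pos p.M_pos 3), h3.trans (by linarith)⟩

lemma Tilt_kap_le (h : z ≤ (1 / 2 - 2 * p.ε) * ub) : p.kap * z ≤ 4 * p.ε * ub := by
  have h1 : (1 / 2 - 2 * p.ε) ≠ 0 := by linarith [Tilt_eps p]
  have h2 := mul_le_mul_of_nonneg_left h (Tilt_kap p).1.le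
  rwa [← mul_assoc, Par.kap, div_mul_cancel₀ _ h1] at h2

lemma Tilt_low (h : z ≤ (1 / 2 - 2 * p.ε) * ub) :
    Phi p ub z = max (-(4 * p.ε * ub)) (p.kap * z) := by
  have h1 := Tilt_kap_le h
  rw [Phi, min_eq_left (le_max_of_le_right (by linarith))]

lemma Tilt_mm {A a a' b b' d : ℝ} (h1 : a' - a ≤ d) (h2 : b' - b ≤ d) (h3 : 0 ≤ d) :
    max A (min a' (max 0 b')) - max A (min a (max 0 b)) ≤ d := by
  have h4 : max 0 b' ≤ max 0 b + d :=
    max_le (by linarith [le_max_left 0 b]) (by linarith [le_max_right 0 b])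
  have h5 : min a' (max 0 b') ≤ min a (max 0 b) + d := by
    rw [← min_add_add_right]
    exact min_le_min (by linarith) h4
  have h6 : max A (min a' (max 0 b')) ≤ max A (min a (max 0 b)) + d := by
    rw [← max_add_add_right]
    exact max_le_max (by linarith) h5
  linarith

lemma Phi_abs (hub : 0 ≤ ub) : |Phi p ub z| ≤ 4 * p.ε * ub := by
  have hA : 0 ≤ 4 * p.ε * ub := mul_nonneg (by linarith [p.hε]) hub
  refine abs_le.2 ⟨le_max_left _ _, max_le (by linarith) ?_⟩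
  rcases le_total z ((1 / 2 - 2 * p.ε) * ub) with h | h
  · exact (min_le_left _ _).trans (Tilt_kap_le h)
  · exact (min_le_right _ _).trans (max_le hA (by linarith))

lemma Phi_abs' (hub : 0 ≤ ub) : |Phi p ub z| ≤ p.kap * |z| := by
  have hA : 0 ≤ 4 * p.ε * ub := mul_nonneg (by linarith [p.hε]) hub
  have h0 := le_max_left 0 ((1 / 2 + 2 * p.ε) * ub - z)
  have h1 : |p.kap * z| = p.kap * |z| := by rw [abs_mul, abs_of_pos (Tilt_kap p).1]
  have h2 := le_abs_self (p.kap * z)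
  have h3 := neg_abs_le (p.kap * z)
  have h4 := abs_nonneg (p.kap * z)
  rw [← h1]
  exact abs_le.2 ⟨le_max_of_le_right (le_min h3 (by linarith)),
    max_le (by linarith) ((min_le_left _ _).trans h2)⟩

lemma Phi_lip (z z' : ℝ) : |Phi p ub z - Phi p ub z'| ≤ |z - z'| := by
  have h0 : |p.kap * (z - z')| ≤ |z - z'| := by
    rw [abs_mul, abs_of_pos (Tilt_kap p).1]
    exact mul_le_of_le_one_left (abs_nonneg _) (Tilt_kap p).2
  have h1 := abs_le.1 h0
  have h2 := le_abs_self (z - z')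
  have h3 := neg_abs_le (z - z')
  refine abs_sub_le_iff.2 ⟨Tilt_mm (by linarith) (by linarith) (abs_nonneg _),
    Tilt_mm (by linarith) (by linarith) (abs_nonneg _)⟩

lemma Phi_up (h : z ≤ z') : Phi p ub z' - Phi p ub z ≤ p.kap * (z' - z) := by
  have h0 : 0 ≤ p.kap * (z' - z) := mul_nonneg (Tilt_kap p).1.le (sub_nonneg.2 h)
  exact Tilt_mm (by linarith) (by linarith) h0

lemma Phi_low (h1 : -((1 / 2 - 2 * p.ε) * ub) ≤ z) (h2 : z ≤ (1 / 2 - 2 * p.ε) * ub) :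
    Phi p ub z = p.kap * z := by
  rw [Tilt_low h2]
  have := Tilt_kap_le (p := p) (ub := ub) (z := -z) (by linarith)
  exact max_eq_right (by linarith)

lemma Phi_low_mono (h : z ≤ z') (h2 : z' ≤ (1 / 2 - 2 * p.ε) * ub) :
    Phi p ub z ≤ Phi p ub z' := by
  rw [Tilt_low h2, Tilt_low (h.trans h2)]
  exact max_le_max le_rfl (mul_le_mul_of_nonneg_left h (Tilt_kap p).1.le)

lemma Phi_zone (hub : 0 ≤ ub) (h1 : (1 / 2 - 2 * p.ε) * ub ≤ z)
    (h2 : z ≤ (1 / 2 + 2 * p.ε) * ub) : Phi p ub z = (1 / 2 + 2 * p.ε) * ub - z := by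
  have hA : 0 ≤ 4 * p.ε * ub := mul_nonneg (by linarith [p.hε]) hub
  have := Tilt_kap_le (p := p) (ub := -ub) (z := -z) (by linarith)
  rw [Phi, max_eq_right (sub_nonneg.2 h2), min_eq_right (by linarith), max_eq_right (by linarith)]

lemma Phi_high (hub : 0 ≤ ub) (h : (1 / 2 + 2 * p.ε) * ub ≤ z) : Phi p ub z = 0 := by
  have hA : 0 ≤ 4 * p.ε * ub := mul_nonneg (by linarith [p.hε]) hub
  have h0 : 0 ≤ p.kap * z := mul_nonneg (Tilt_kap p).1.le (by linarith)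
  rw [Phi, max_eq_left (sub_nonpos.2 h), min_eq_right h0, max_eq_right (by linarith)]

lemma chi_abs (h : z1 < z2) : |chi p ub z1 z2| ≤ 1 := by
  have h0 := sub_pos.2 h
  rw [chi, abs_div, abs_of_pos h0, div_le_one h0]
  exact (Phi_lip z2 z1).trans (abs_of_pos h0).le

lemma chi_abs' (hub : 0 ≤ ub) (h : z1 < z2) (h' : ub ≤ 5 * (z2 - z1)) :
    |chi p ub z1 z2| ≤ 40 * p.ε := by
  have h0 := sub_pos.2 h
  have h1 := abs_le.1 (Phi_abs (p := p) (z := z1) hub)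
  have h2 := abs_le.1 (Phi_abs (p := p) (z := z2) hub)
  have h3 := mul_le_mul_of_nonneg_left h' p.hε.le
  rw [chi, abs_div, abs_of_pos h0, div_le_iff₀ h0]
  exact abs_le.2 ⟨by linarith, by linarith⟩

lemma Tilt_in1 (hz : z1 ≤ z ∧ z ≤ z2) :
    PhiR p ub z1 z2 z = Phi p ub z1 + chi p ub z1 z2 * (z - z1) := if_pos hz

lemma Tilt_in2 (h : z1 < z2) (hz : z1 ≤ z ∧ z ≤ z2) :
    PhiR p ub z1 z2 z = Phi p ub z2 - chi p ub z1 z2 * (z2 - z) := by
  have h1 : chi p ub z1 z2 * (z2 - z1) = Phi p ub z2 - Phi p ub z1 :=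
    div_mul_cancel₀ _ (sub_pos.2 h).ne'
  rw [Tilt_in1 hz]
  linarith

lemma Tilt_chi_mul (h : z1 < z2) (y : ℝ) : |chi p ub z1 z2 * y| ≤ |y| := by
  rw [abs_mul]
  exact mul_le_of_le_one_left (abs_nonneg _) (chi_abs h)

lemma Tilt_in_out (h : z1 < z2) (hz : z1 ≤ z ∧ z ≤ z2) (hz' : ¬ (z1 ≤ z' ∧ z' ≤ z2)) :
    |PhiR p ub z1 z2 z - PhiR p ub z1 z2 z'| ≤ |z - z'| := by
  rw [PhiR.eq_1 p ub z1 z2 z', if_neg hz']
  rcases lt_or_ge z' z1 with h1 | h1
  · have h2 := Tilt_chi_mul (p := p) (ub := ub) h (z - z1)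
    have h3 := Phi_lip (p := p) (ub := ub) z1 z'
    rw [abs_of_nonneg (sub_nonneg.2 hz.1), abs_le] at h2
    rw [abs_of_nonneg (sub_nonneg.2 h1.le), abs_le] at h3
    rw [Tilt_in1 hz, abs_of_nonneg (sub_nonneg.2 (h1.le.trans hz.1))]
    exact abs_le.2 ⟨by linarith, by linarith⟩
  · have h0 : z2 ≤ z' := (not_le.1 fun h4 => hz' ⟨h1, h4⟩).le
    have h2 := Tilt_chi_mul (p := p) (ub := ub) h (z2 - z)
    have h3 := Phi_lip (p := p) (ub := ub) z' z2
    rw [abs_of_nonneg (sub_nonneg.2 hz.2), abs_le] at h2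
    rw [abs_of_nonneg (sub_nonneg.2 h0), abs_le] at h3
    rw [Tilt_in2 h hz, abs_sub_comm z, abs_of_nonneg (sub_nonneg.2 (hz.2.trans h0))]
    exact abs_le.2 ⟨by linarith, by linarith⟩

lemma PhiR_abs (hub : 0 ≤ ub) (h : z1 < z2) : |PhiR p ub z1 z2 z| ≤ 4 * p.ε * ub := by
  by_cases hz : z1 ≤ z ∧ z ≤ z2
  · have h1 := abs_le.1 (Phi_abs (p := p) (z := z1) hub)
    have h2 := abs_le.1 (Phi_abs (p := p) (z := z2) hub)
    have h3 := Tilt_in1 (p := p) (ub := ub) hz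
    have h4 := Tilt_in2 (p := p) (ub := ub) h hz
    rcases le_total 0 (chi p ub z1 z2) with h0 | h0
    · have h5 := mul_nonneg h0 (sub_nonneg.2 hz.1)
      have h6 := mul_nonneg h0 (sub_nonneg.2 hz.2)
      exact abs_le.2 ⟨by linarith, by linarith⟩
    · have h5 := mul_nonpos_of_nonpos_of_nonneg h0 (sub_nonneg.2 hz.1)
      have h6 := mul_nonpos_of_nonpos_of_nonneg h0 (sub_nonneg.2 hz.2)
      exact abs_le.2 ⟨by linarith, by linarith⟩
  · rw [PhiR, if_neg hz]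
    exact Phi_abs hub

lemma PhiR_lip (h : z1 < z2) (z z' : ℝ) :
    |PhiR p ub z1 z2 z - PhiR p ub z1 z2 z'| ≤ |z - z'| := by
  by_cases hz : z1 ≤ z ∧ z ≤ z2 <;> by_cases hz' : z1 ≤ z' ∧ z' ≤ z2
  · rw [Tilt_in1 hz, Tilt_in1 hz', add_sub_add_left_eq_sub, ← mul_sub, sub_sub_sub_cancel_right]
    exact Tilt_chi_mul h _
  · exact Tilt_in_out h hz hz'
  · rw [abs_sub_comm, abs_sub_comm z]
    exact Tilt_in_out h hz' hz
  · rw [PhiR, PhiR, if_neg hz, if_neg hz']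
    exact Phi_lip z z'

/-- nothing changes where the profile is already affine -/
lemma PhiR_eq (hub : 0 ≤ ub) (h : z1 < z2)
    (hA : (-((1 / 2 - 2 * p.ε) * ub) ≤ z1 ∧ z2 ≤ (1 / 2 - 2 * p.ε) * ub) ∨
      (1 / 2 + 2 * p.ε) * ub ≤ z1) : PhiR p ub z1 z2 z = Phi p ub z := by
  by_cases hz : z1 ≤ z ∧ z ≤ z2
  · have h0 := (sub_pos.2 h).ne'
    rw [Tilt_in1 hz, chi]
    rcases hA with ⟨h1, h2⟩ | h1
    · rw [Phi_low h1 (h.le.trans h2), Phi_low (h1.trans h.le) h2,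
        Phi_low (h1.trans hz.1) (hz.2.trans h2), ← mul_sub, mul_div_assoc, div_self h0]
      ring
    · rw [Phi_high hub h1, Phi_high hub (h1.trans h.le), Phi_high hub (h1.trans hz.1)]
      simp
  · exact if_neg hz

/-- the tilt map with profile `F`, sign `s` and origin `o` -/
def Th (p : Par) (F : ℝ → ℝ) (s o z : ℝ) : ℝ := z + s * p.lam * F (z - o)

lemma Tilt_abs_s (hs : s = 1 ∨ s = -1) (y : ℝ) : |s * p.lam * y| = p.lam * |y| := by
  rw [abs_mul, abs_mul, abs_of_pos (Tilt_lam p).1]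
  rcases hs with rfl | rfl <;> simp

lemma Tilt_mono {F : ℝ → ℝ} (hs : s = 1 ∨ s = -1) (hF : ∀ z z', |F z - F z'| ≤ |z - z'|)
    (z z' : ℝ) (h : z ≤ z') : (1 - p.lam) * (z' - z) ≤ Th p F s o z' - Th p F s o z := by
  have h1 := hF (z' - o) (z - o)
  rw [sub_sub_sub_cancel_right, abs_of_nonneg (sub_nonneg.2 h)] at h1
  have h2 := neg_abs_le (s * p.lam * (F (z' - o) - F (z - o)))
  rw [Tilt_abs_s hs] at h2
  have h3 := mul_le_mul_of_nonneg_left h1 (Tilt_lam p).1.le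
  unfold Th
  linarith

lemma Tilt_strict {F : ℝ → ℝ} (hs : s = 1 ∨ s = -1) (hF : ∀ z z', |F z - F z'| ≤ |z - z'|) :
    StrictMono (Th p F s o) := fun z z' h => by
  have h1 := Tilt_mono (p := p) (o := o) hs hF z z' h.le
  have h2 : 0 < (1 - p.lam) * (z' - z) :=
    mul_pos (by linarith [(Tilt_lam p).2]) (sub_pos.2 h)
  linarith

lemma Tilt_abs_mono {F : ℝ → ℝ} (hs : s = 1 ∨ s = -1) (hF : ∀ z z', |F z - F z'| ≤ |z - z'|)
    (z z' : ℝ) : (1 - p.lam) * |z' - z| ≤ |Th p F s o z' - Th p F s o z| := by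
  rcases le_total z z' with h | h
  · rw [abs_of_nonneg (sub_nonneg.2 h)]
    exact (Tilt_mono hs hF z z' h).trans (le_abs_self _)
  · rw [abs_sub_comm z', abs_sub_comm _ (Th p F s o z), abs_of_nonneg (sub_nonneg.2 h)]
    exact (Tilt_mono hs hF z' z h).trans (le_abs_self _)

lemma Th_facts {F : ℝ → ℝ} {C : ℝ} (hs : s = 1 ∨ s = -1)
    (hF : ∀ z z', |F z - F z'| ≤ |z - z'|) (hC : ∀ z, |F z| ≤ C) :
    (∀ x, Th p F s o (Function.invFun (Th p F s o) x) = x) ∧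
      (∀ z, Function.invFun (Th p F s o) (Th p F s o z) = z) ∧
      (∀ z, |Th p F s o z - z| ≤ p.lam * C) ∧
      (∀ z z', z ≤ z' → (1 - p.lam) * (z' - z) ≤ Th p F s o z' - Th p F s o z) := by
  have h3 : ∀ z, |Th p F s o z - z| ≤ p.lam * C := fun z => by
    rw [Th, add_sub_cancel_left, Tilt_abs_s hs]
    exact mul_le_mul_of_nonneg_left (hC _) (Tilt_lam p).1.le
  have hc : Continuous F := (LipschitzWith.of_dist_le_mul (K := 1) fun z z' => by
    rw [Real.dist_eq, Real.dist_eq, NNReal.coe_one, one_mul]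
    exact hF z z').continuous
  have h1 : Function.Surjective (Th p F s o) := surj_of_near (by unfold Th; fun_prop) h3
  exact ⟨Function.rightInverse_invFun h1,
    Function.leftInverse_invFun (Tilt_strict hs hF).injective, h3, Tilt_mono hs hF⟩

/-- The move made by the resolution: `z` is the old label and `z'` the new one. -/
lemma res_move (hs : s = 1 ∨ s = -1) (hub : 0 ≤ ub) (h : z1 < z2) (h' : ub ≤ 5 * (z2 - z1))
    (he : Th p (Phi p ub) s o z = Th p (PhiR p ub z1 z2) s o z') :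
    (¬ (z1 ≤ z' - o ∧ z' - o ≤ z2) → z = z') ∧
      (z1 ≤ z' - o → z' - o ≤ z2 → z1 ≤ z - o ∧ z - o ≤ z2 ∧ |z' - z| ≤ 10 * p.lam * p.ε * ub ∧
        |z' - z| ≤ 2 * p.lam * (z' - o - z1) ∧ |z' - z| ≤ 2 * p.lam * (z2 - (z' - o)) ∧
        (0 ≤ z1 → z' - o ≤ (1 / 2 - 2 * p.ε) * ub →
          |z' - z| ≤ 50 * p.lam * p.ε * (z' - o - z1)) ∧
        ((1 / 2 + 2 * p.ε) * ub ≤ z' - o → |z' - z| ≤ 50 * p.lam * p.ε * (z2 - (z' - o)))) := by
  have hm := Tilt_strict (p := p) (o := o) hs (Phi_lip (p := p) (ub := ub))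
  have hm' := Tilt_strict (p := p) (o := o) hs (PhiR_lip (p := p) (ub := ub) h)
  refine ⟨fun hz => hm.injective (by rw [he, Th, Th, PhiR, if_neg hz]), fun a1 a2 => ?_⟩
  have e1 := Tilt_in1 (p := p) (ub := ub) ⟨a1, a2⟩
  have e2 := Tilt_in2 (p := p) (ub := ub) h ⟨a1, a2⟩
  have b1 : Th p (Phi p ub) s o (z1 + o) = Th p (PhiR p ub z1 z2) s o (z1 + o) := by
    rw [Th, Th, add_sub_cancel_right, Tilt_in1 ⟨le_rfl, h.le⟩, sub_self, mul_zero, add_zero]
  have b2 : Th p (Phi p ub) s o (z2 + o) = Th p (PhiR p ub z1 z2) s o (z2 + o) := by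
    rw [Th, Th, add_sub_cancel_right, Tilt_in2 h ⟨h.le, le_rfl⟩, sub_self, mul_zero, sub_zero]
  have c1 : z1 + o ≤ z := hm.le_iff_le.1 (by rw [he, b1]; exact hm'.monotone (by linarith))
  have c2 : z ≤ z2 + o := hm.le_iff_le.1 (by rw [he, b2]; exact hm'.monotone (by linarith))
  have key : ∀ K : ℝ, |Phi p ub (z' - o) - PhiR p ub z1 z2 (z' - o)| ≤ 49 / 50 * K →
      |z' - z| ≤ p.lam * K := fun K hK => by
    have d1 := Tilt_abs_mono (p := p) (o := o) hs (Phi_lip (p := p) (ub := ub)) z z'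
    rw [he, Th, Th, add_sub_add_left_eq_sub, ← mul_sub, Tilt_abs_s hs] at d1
    have d2 := mul_le_mul_of_nonneg_left hK (Tilt_lam p).1.le
    have d3 := mul_le_mul_of_nonneg_right (Tilt_lam p).2 (abs_nonneg (z' - z))
    linarith
  have hε := p.hε
  have hε' := Tilt_eps p
  have f0 := chi_abs' (p := p) hub h h'
  have f1 : |chi p ub z1 z2 * (z' - o - z1)| ≤ 40 * p.ε * (z' - o - z1) := by
    rw [abs_mul, abs_of_nonneg (sub_nonneg.2 a1)]
    exact mul_le_mul_of_nonneg_right f0 (sub_nonneg.2 a1)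
  have f2 : |chi p ub z1 z2 * (z2 - (z' - o))| ≤ 40 * p.ε * (z2 - (z' - o)) := by
    rw [abs_mul, abs_of_nonneg (sub_nonneg.2 a2)]
    exact mul_le_mul_of_nonneg_right f0 (sub_nonneg.2 a2)
  have g1 := mul_le_mul_of_nonneg_right hε' (sub_nonneg.2 a1)
  have g2 := mul_le_mul_of_nonneg_right hε' (sub_nonneg.2 a2)
  have g3 := mul_nonneg hε.le (sub_nonneg.2 a1)
  have g4 := mul_nonneg hε.le (sub_nonneg.2 a2)
  rw [abs_le] at f1 f2
  refine ⟨by linarith, by linarith, ?_, ?_, ?_, fun k1 k2 => ?_, fun k1 => ?_⟩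
  · have l1 := abs_le.1 (Phi_abs (p := p) (z := z' - o) hub)
    have l2 := abs_le.1 (PhiR_abs (p := p) (z := z' - o) hub h)
    have l3 := mul_nonneg hε.le hub
    have := key (10 * p.ε * ub) (abs_le.2 ⟨by linarith, by linarith⟩)
    linarith
  · have l1 := Phi_lip (p := p) (ub := ub) (z' - o) z1
    rw [abs_of_nonneg (sub_nonneg.2 a1), abs_le] at l1
    have := key (2 * (z' - o - z1)) (abs_le.2 ⟨by linarith, by linarith⟩)
    linarith
  · have l1 := Phi_lip (p := p) (ub := ub) z2 (z' - o)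
    rw [abs_of_nonneg (sub_nonneg.2 a2), abs_le] at l1
    have := key (2 * (z2 - (z' - o))) (abs_le.2 ⟨by linarith, by linarith⟩)
    linarith
  · have l0 : -((1 / 2 - 2 * p.ε) * ub) ≤ z1 := by linarith
    have l1 := Phi_low l0 (a1.trans k2)
    have l2 := Phi_low (l0.trans a1) k2
    have l3 := mul_le_mul_of_nonneg_right p.kap_bounds.2 (sub_nonneg.2 a1)
    have l4 := mul_nonneg (Tilt_kap p).1.le (sub_nonneg.2 a1)
    have := key (50 * p.ε * (z' - o - z1)) (abs_le.2 ⟨by linarith, by linarith⟩)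
    linarith
  · have l1 := Phi_high hub k1
    have l2 := Phi_high hub (k1.trans a2)
    have := key (50 * p.ε * (z2 - (z' - o))) (abs_le.2 ⟨by linarith, by linarith⟩)
    linarith

end

end Pool.Agent.P.MP_767cd9_co.Q1
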