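import Pool.Agent.P.MP_767cd9_co.Q1.BetT
import Pool.Agent.P.MP_767cd9_co.Q1.Tilt

/-! The two switches of the tilt bets. -/

namespace Pool.Agent.P.MP_767cd9_co.Q1

open Real

noncomputable section

variable {p : Par} {sch : ℕ → ℝ} {t1 t2 τ : ℕ} {b0 b : Bool} {σ : Path}

lemma BetS_w (p : Par) : p.w = p.ε ^ 2 * p.U ^ 2 / 2 ^ 20 := by
  unfold Par.w Par.l
  ring

lemma BetS_HU (p : Par) : (p.H : ℝ) / p.U = p.ε * p.U / (2 ^ 20 * p.M) := by
  have h1 := p.M_pos
  have h2 := p.hU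
  rw [p.H_eq]
  unfold Par.l
  field_simp

lemma BetS_EU (p : Par) : (p.E : ℝ) / p.U = p.ε * p.U / 2 ^ 20 := by
  have h2 := p.hU
  rw [p.E_eq]
  unfold Par.l
  field_simp

lemma BetS_lam_pos (p : Par) : 0 < p.lam := by
  have h1 := p.M_pos
  have h2 := p.hε
  unfold Par.lam
  positivity

lemma BetS_lamM (p : Par) : p.lam * p.M ^ 3 = p.ε := by
  have h1 := p.M_pos
  unfold Par.lam
  field_simp

lemma BetS_lam_le (p : Par) : 2 ^ 100 * p.lam ≤ p.ε := by
  have h1 := BetS_lam_pos p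
  have h2 : (2 : ℝ) ^ 100 ≤ p.M ^ 3 :=
    le_trans (by norm_num) (pow_le_pow_left₀ (by norm_num) p.hM 3)
  rw [← BetS_lamM p]
  nlinarith

lemma BetS_Meps (p : Par) : 2 ^ 100 * (p.M * p.ε) ≤ 1 := by
  have h1 := p.M_pos
  have h2 := p.hε
  have h3 : (2 : ℝ) ^ 100 ≤ p.M ^ 5 :=
    le_trans (by norm_num) (pow_le_pow_left₀ (by norm_num) p.hM 5)
  have h4 := p.eps_M
  have h5 : 0 < p.M * p.ε := by positivity
  have e : p.M ^ 6 * p.ε = p.M ^ 5 * (p.M * p.ε) := by ring
  nlinarith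

/-- `H / U` in terms of `lam`. -/
lemma BetS_lam_HU (p : Par) : 2 ^ 80 * (p.lam * p.U) ≤ (p.H : ℝ) / p.U := by
  have h1 := p.M_pos
  have h2 := p.hU
  have h3 := BetS_lam_pos p
  have h4 : (2 : ℝ) ^ 100 ≤ p.M ^ 2 :=
    le_trans (by norm_num) (pow_le_pow_left₀ (by norm_num) p.hM 2)
  have e : (p.H : ℝ) / p.U = p.lam * p.U * p.M ^ 2 / 2 ^ 20 := by
    rw [BetS_HU, ← BetS_lamM p]
    field_simp
  rw [e, le_div_iff₀ (by norm_num)]
  have h5 : 0 < p.lam * p.U := by positivity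
  nlinarith

lemma BetS_HU_le (p : Par) : 2 ^ 70 * ((p.H : ℝ) / p.U) ≤ p.ε * p.U := by
  have h1 := p.M_pos
  have h2 := p.hU
  have h3 := p.hε
  have h4 := p.hM
  rw [BetS_HU, ← mul_div_assoc, div_le_iff₀ (by positivity)]
  have h5 : 0 < p.ε * p.U := by positivity
  nlinarith

lemma BetS_sw {c c' W e1 e e' k X Z v : ℝ} {t : ℕ} (h : GI c W e1 e sch τ σ b t X v)
    (hs : GG c' W e1 (uu τ t) (rr sch τ σ b t) Z - Z ^ 2 - k ≤
      GG c W e1 (uu τ t) (rr sch τ σ b t) X - X ^ 2) (he : e + k ≤ e') :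
    GI c' W e1 e' sch τ σ b t Z v := by
  unfold GI at h ⊢
  linarith

lemma BetS_mono {c c' W e1 e e' X v : ℝ} {t : ℕ} (h : GI c W e1 e sch τ σ b t X v)
    (h1 : ∀ t, 1 ≤ sch t) (ht : t < τ) (hc : c' ≤ c) (he : e ≤ e') :
    GI c' W e1 e' sch τ σ b t X v := by
  have h2 := GG_mono (e1 := e1) (X := X) hc (le_refl W) (uu_pos ht)
    (rr_range (σ := σ) (b := b) h1 ht).2
  unfold GI at h ⊢
  linarith

/-- A label on the inner side of the edge lies in every window. -/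
lemma BetS_ws {R X : ℝ} {t : ℕ} (h1 : ∀ t, 1 ≤ sch t) (ht : t < τ) (hR : 0 ≤ R)
    (hX : 0 ≤ 2 * uu τ t - X) : WS R sch τ σ b t X := by
  have h2 := uu_pos ht
  have h3 := (rr_range (σ := σ) (b := b) h1 ht).1
  have h4 : 0 ≤ 2 * R * rr sch τ σ b t / uu τ t := by positivity
  unfold WS
  linarith

/-- The state of the side that has just become leading is close to one. -/
lemma BetS_rr {a f : ℕ} (h : Cx p sch t1 t2) (hr : Rng p t2 τ) (h3 : f ≤ t2)
    (fc : FC p σ b t1 a f) : 1 - rr sch τ σ b f ≤ p.ε := by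
  obtain ⟨t0, t', a1, a2, -, a4, a5, -, -, a8⟩ := fc
  have hHE : p.H ≤ p.E := by have := p.H_le; omega
  exact h.rr_near hr a1 (a2.trans a4) h3 (hHE.trans (a5.trans (cnt_mono a4))) a8

/-- Creation of the tilt at time `tC`: `x` is the old label and `z` the new one. -/
lemma create_sw {f tC : ℕ} {ub s x z : ℝ} (h : Cx p sch t1 t2) (hr : Rng p t2 τ)
    (hs : s = 1 ∨ s = -1) (h1 : t1 ≤ f) (h2 : f ≤ tC) (h3 : tC ≤ t2)
    (hub : ub ≤ uu τ f) (hub' : uu τ f ≤ (1 + p.ε / 500) * ub)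
    (fc : FC p σ (!b0) t1 t1 f) (hc : cnt σ b0 f tC ≤ p.H)
    (hP : 49 / 100 * uu τ f ≤ dsp τ σ (!b0) f tC) (hP' : dsp τ σ (!b0) f tC ≤ 51 / 100 * uu τ f)
    (hx : x = Th p (Phi p ub) s (dsp τ σ b0 t1 f) z)
    (hz : WL (128 * p.w) sch τ σ b0 t1 z tC) :
    WL p.W sch τ σ b0 t1 x tC ∧ ∀ b X V, HT τ σ b t1 tC X V →
      (∀ j, t1 ≤ j → j < tC → X j = XL τ σ b0 t1 x b j) →
      GI (3 / 4) p.w p.e1 0 sch τ σ b t1 (XL τ σ b0 t1 x b t1) (V t1) →
      GI (5 / 8) p.w p.e1 (p.lam * p.w) sch τ σ b tC (XL τ σ b0 t1 z b tC) (V tC) := by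
  have hok := h.ok hr
  have hτ : tC < τ := h3.trans_lt hr.lt
  have hτf : f < τ := h2.trans_lt hτ
  have hε := p.hε
  have hε1 := p.eps_le
  have hU := p.hU
  have hl := BetS_lam_pos p
  have hl1 := BetS_lam_le p
  have hw1 := p.w_ge
  have hwW := p.w_le_W
  have hWH := p.W_le_H
  have hW128 : 128 * p.w ≤ p.W := by linarith
  have hlw : 0 ≤ p.lam * p.w := by positivity
  have huf := uu_pos hτf
  have huC := uu_pos hτ
  have hufU := h.uu_le hr h1
  have hufL : p.U / 64 ≤ uu τ f := Cx.uu_ge hr (h2.trans h3)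
  have huCL : p.U / 64 ≤ uu τ tC := Cx.uu_ge hr h3
  have hub0 : 0 ≤ ub := by
    by_contra hneg
    have : (1 + p.ε / 500) * ub ≤ 0 :=
      mul_nonpos_of_nonneg_of_nonpos (by positivity) (not_le.1 hneg).le
    linarith
  have hN0 : 0 ≤ dsp τ σ b0 f tC := dsp_nonneg
  have hN : dsp τ σ b0 f tC ≤ 64 * ((p.H : ℝ) / p.U) := by
    refine (Cx.dsp_le hr h3).trans ?_
    rw [mul_div_assoc]
    have : (cnt σ b0 f tC : ℝ) ≤ p.H := by exact_mod_cast hc
    gcongr
  have hq := BetS_HU_le p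
  have hq0 : 0 ≤ (p.H : ℝ) / p.U := by positivity
  have hεU : p.ε * p.U ≤ p.U / 2 ^ 100 := by nlinarith only [hε1, hU]
  have hsum := dsp_sum (τ := τ) (σ := σ) (b := b0) h2
  have hadd := dsp_add (τ := τ) (σ := σ) (b := b0) h1 h2
  have hsum1 := dsp_sum (τ := τ) (σ := σ) (b := b0) (h1.trans h2)
  set N := dsp τ σ b0 f tC with hNdef
  set a := z - dsp τ σ b0 t1 f with ha
  clear_value N a
  have huC1 : 74 / 100 * uu τ f ≤ uu τ tC := by linarith
  have huC2 : uu τ tC ≤ uu τ f := uu_anti h2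
  have hXb : ∀ v : ℝ, ∀ j, XL τ σ b0 t1 v b0 j = v - dsp τ σ b0 t1 j := fun v j => by
    simp [XL]
  have hXn : ∀ v : ℝ, ∀ j, XL τ σ b0 t1 v (!b0) j = (2 * uu τ t1 - v) - dsp τ σ (!b0) t1 j :=
    fun v j => by simp [XL]
  by_cases hB : (1 / 2 + 2 * p.ε) * ub ≤ a
  · have hxz : x = z := by
      rw [hx]
      unfold Th
      rw [← ha, Phi_high hub0 hB]
      ring
    subst hxz
    have hWL : WL p.W sch τ σ b0 t1 x tC := fun b => (hz b).mono h.h1 hτ hW128
    refine ⟨hWL, fun b X V hH hX hI => ?_⟩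
    have h4 := HT_G (cc := 3 / 4) hok (by norm_num) (by norm_num) le_rfl le_rfl le_rfl
      (h1.trans h2) h3 hH hX (hWL b) hI
    exact BetS_mono h4 h.h1 hτ (by norm_num) hlw
  rw [not_le] at hB
  set δ := x - z with hδ
  clear_value δ
  have hδe : |δ| = p.lam * |Phi p ub a| := by
    have e : δ = s * p.lam * Phi p ub a := by
      rw [hδ, hx, ha]
      unfold Th
      ring
    rw [e, abs_mul, abs_mul, abs_of_pos hl]
    rcases hs with rfl | rfl <;> simp
  have hδ1 : |δ| ≤ 4 * (p.lam * p.ε) * uu τ f := by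
    rw [hδe]
    have h5 := Phi_abs (p := p) (z := a) hub0
    have h6 : 4 * p.ε * ub ≤ 4 * p.ε * uu τ f := by gcongr
    calc p.lam * |Phi p ub a| ≤ p.lam * (4 * p.ε * uu τ f) := by gcongr; exact h5.trans h6
      _ = _ := by ring
  have hδ2 : |δ| ≤ 9 * (p.lam * p.ε) * |a| := by
    rw [hδe]
    have h5 := Phi_abs' (p := p) (z := a) hub0
    have h6 : p.kap * |a| ≤ 9 * p.ε * |a| := by
      have := p.kap_bounds.2
      gcongr
    calc p.lam * |Phi p ub a| ≤ p.lam * (9 * p.ε * |a|) := by gcongr; exact h5.trans h6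
      _ = _ := by ring
  have hlε : p.lam * p.ε ≤ 1 / 2 ^ 100 := by nlinarith only [hl, hl1, hε, hε1]
  have hlε0 : 0 < p.lam * p.ε := by positivity
  have hδ3 : |δ| ≤ uu τ f / 2 ^ 90 := by nlinarith only [hδ1, hlε, huf]
  have hδ4 := abs_le.1 hδ3
  have haU : a ≤ 51 / 100 * uu τ f := by
    have h5 : (1 / 2 + 2 * p.ε) * ub ≤ (1 / 2 + 2 * p.ε) * uu τ f := by gcongr
    nlinarith only [h5, hB, hε1, huf]
  have hzb : XL τ σ b0 t1 z b0 tC = a - N := by rw [hXb]; linarith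
  have hxb : XL τ σ b0 t1 x b0 tC = a - N + δ := by rw [hXb]; linarith
  have hzn : XL τ σ b0 t1 z (!b0) tC = 2 * uu τ tC - (a - N) := by rw [hXn]; linarith
  have hxn : XL τ σ b0 t1 x (!b0) tC = 2 * uu τ tC - (a - N + δ) := by rw [hXn]; linarith
  have hyb : -(128 * p.yb) ≤ a - N := by
    have h5 := h.ws_yb hr h3 (by norm_num) (hz (!b0))
    rw [hzn] at h5
    linarith
  have hybe := p.yb_eq
  have hyb1 : 128 * p.yb ≤ p.U / 2 ^ 100 := by
    have h5 : p.ε * (p.ε * p.U) ≤ 1 * (p.U / 2 ^ 100) := by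
      gcongr
      linarith only [hε1]
    rw [hybe]
    linarith only [h5, hU]
  have hrf := BetS_rr h hr (h2.trans h3) fc
  have hrm := rr_div_mono (σ := σ) (b := !b0) h.h1 h2 hτ
  have hrC := rr_range (σ := σ) (b := !b0) h.h1 hτ
  have hrf1 : 9 / 10 ≤ rr sch τ σ (!b0) f := by linarith
  have hrC1 : 9 / 10 * uu τ tC ≤ rr sch τ σ (!b0) tC * uu τ f := by
    nlinarith only [hrm, hrf1, huC]
  have hrC2 : 1 / 2 ≤ rr sch τ σ (!b0) tC := by
    by_contra hneg
    have h5 : rr sch τ σ (!b0) tC * uu τ f ≤ 1 / 2 * uu τ f := by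
      gcongr
      exact (not_le.1 hneg).le
    linarith
  have hWb : WS p.W sch τ σ b0 tC (XL τ σ b0 t1 x b0 tC) := by
    refine BetS_ws h.h1 hτ (by linarith) ?_
    rw [hxb]
    linarith
  have hWn : WS p.W sch τ σ (!b0) tC (XL τ σ b0 t1 x (!b0) tC) := by
    unfold WS
    rw [hxn]
    have h5 : p.W / p.U ≤ 2 * p.W * rr sch τ σ (!b0) tC / uu τ tC := by
      rw [div_le_div_iff₀ hU huC]
      have h6 : uu τ tC ≤ 2 * rr sch τ σ (!b0) tC * p.U := by
        nlinarith only [hrC2, huC2, hufU, hU]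
      have h7 : 0 ≤ p.W := by linarith only [hw1, hwW]
      nlinarith only [h6, h7]
    have h6 : 2 ^ 50 * (p.w / p.U) ≤ p.W / p.U := by
      rw [← mul_div_assoc]
      gcongr
    have h7 : p.yb = 128 * (p.w / p.U) := by
      unfold Par.yb
      ring
    have h8 : p.w / p.U = p.ε ^ 2 * p.U / 2 ^ 20 := by
      rw [BetS_w]
      field_simp
    have h9 : 4 * (p.lam * p.ε) * uu τ f ≤ p.w / p.U := by
      rw [h8]
      have h10 : 4 * (p.lam * p.ε) * uu τ f ≤ 4 * (p.lam * p.ε) * p.U := by gcongr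
      have h11 : 0 < p.ε * p.U := by positivity
      have h12 := mul_le_mul_of_nonneg_right hl1 h11.le
      have h13 := mul_pos hε h11
      linarith only [h10, h12, h13]
    have h10 : 0 ≤ p.w / p.U := by positivity
    have h11 := abs_le.1 (hδ1.trans h9)
    linarith
  refine ⟨fun b => ?_, fun b X V hH hX hI => ?_⟩
  · rcases Bool.eq_or_eq_not b b0 with rfl | rfl
    · exact hWb
    · exact hWn
  rcases Bool.eq_or_eq_not b b0 with rfl | rfl
  · have h4 : GI (3 / 4) p.w p.e1 0 sch τ σ b tC (XL τ σ b t1 x b tC) (V tC) :=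
      HT_G (cc := 3 / 4) hok (by norm_num) (by norm_num) le_rfl le_rfl le_rfl
        (h1.trans h2) h3 hH hX hWb hI
    have hrb := rr_range (σ := σ) (b := b) h.h1 hτ
    have h5 := sw_abs (c := 3 / 4) (W := p.w) (e1 := p.e1) (X := a - N + δ) (Z := a - N)
      (by norm_num) (by norm_num) huC hrb.1 hrb.2 (by linarith) (by linarith) (by linarith)
      (by linarith) (by
        have e : a - N - (a - N + δ) = -δ := by ring
        rw [e, abs_neg]
        have h6 : 1 / 5 * uu τ f ≤ uu τ tC - (a - N) := by linarith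
        have h7 : (1 / 5 * uu τ f) ^ 2 ≤ (uu τ tC - (a - N)) ^ 2 := by gcongr
        have h8 : uu τ tC * |δ| ≤ uu τ f * (uu τ f / 2 ^ 90) := by gcongr
        linarith only [h7, h8, sq_nonneg (uu τ f)])
    rw [hxb] at h4
    rw [hzb]
    refine BetS_sw (k := 0) h4 ?_ (by linarith)
    norm_num at h5 ⊢
    linarith
  · have hWn' := hWn
    rw [hXn] at hWn'
    have hWf := win_back hok h1 h1 h2 h3 (by linarith) le_rfl hWn'
    have h4 := HT_G (cc := 3 / 4) (y := 2 * uu τ t1 - x) hok (by norm_num) (by norm_num) le_rfl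
      le_rfl le_rfl h1 (h2.trans h3) (hH.mono le_rfl h2)
      (fun j hj hj' => by rw [hX j hj (hj'.trans_le h2), hXn]) hWf (by rw [← hXn]; exact hI)
    have hη : XL τ σ b0 t1 z (!b0) tC - (2 * uu τ t1 - x - dsp τ σ (!b0) t1 tC) = δ := by
      rw [← hXn, hzn, hxn]
      ring
    have huCU : uu τ tC ≤ p.U := huC2.trans hufU
    have h5 := lead_sw (cc := 3 / 4) (y := 2 * uu τ t1 - x) (Z := XL τ σ b0 t1 z (!b0) tC)
      (P0 := p.U / 200) (m0 := uu τ tC / 5) (g0 := 4 * p.w) (x2 := 64 * ((p.H : ℝ) / p.U))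
      (y0 := 64 * ((p.H : ℝ) / p.U)) (ν := 9 * (p.lam * p.ε)) hok (by norm_num) (by norm_num)
      le_rfl h1 h1 h2 h3 (hH.mono h1 le_rfl)
      (fun j hj hj' => by rw [hX j (h1.trans hj) hj', hXn]) hWn' h4 (by linarith) (by linarith)
      (by rw [hzn]; linarith) (by rw [Bool.not_not]; linarith) hrC2
      (by nlinarith only [hrC.1, hw1])
      (by
        have e : 64 * ((p.H : ℝ) / p.U) * (p.U / 200) = 64 / 200 * p.H := by field_simp
        rw [e]
        linarith)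
      (by linarith) le_rfl (by linarith) (by linarith)
      (by nlinarith only [hlε, hlε0, huC, huCU])
      (by
        rw [hη, BetS_w]
        have h6 : uu τ tC * |δ| ≤ uu τ tC * (uu τ tC / 2 ^ 89) := by
          gcongr
          linarith
        have h7 : (p.ε * p.U) ^ 2 ≤ (uu τ tC / 2 ^ 10) ^ 2 := by
          gcongr
          linarith only [hεU, huCL, hU]
        linarith only [h6, h7, sq_nonneg (uu τ tC)])
      (by
        rw [hη, hzn]
        refine hδ2.trans ?_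
        have e : 2 * uu τ tC - (2 * uu τ tC - (a - N)) = a - N := by ring
        rw [e]
        have h6 : |a| ≤ |a - N| + |N| := by
          have := abs_add_le (a - N) N
          rwa [sub_add_cancel] at this
        rw [abs_of_nonneg hN0] at h6
        gcongr
        linarith)
      (by
        rw [hzn]
        have h6 : 128 * p.yb ≤ 64 * ((p.H : ℝ) / p.U) := by
          have hM := p.M_pos
          have h7 := BetS_Meps p
          rw [hybe, BetS_HU, ← mul_div_assoc, ← mul_div_assoc,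
            div_le_div_iff₀ (by norm_num) (by positivity)]
          have h8 : 0 < p.ε * p.U := by positivity
          have h9 := mul_le_mul_of_nonneg_right h7 h8.le
          linarith only [h8, h9]
        linarith only [h6, hyb])
      (by linarith)
    refine BetS_mono h5 h.h1 hτ (by norm_num) ?_
    rw [BetS_w]
    have h6 : uu τ tC * ((p.H : ℝ) / p.U) ≤ p.U * (p.ε * p.U / 2 ^ 70) :=
      mul_le_mul huCU (by linarith only [hq]) hq0 hU.le
    have h7 : p.lam * p.ε * (uu τ tC * ((p.H : ℝ) / p.U))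
        ≤ p.lam * p.ε * (p.U * (p.ε * p.U / 2 ^ 70)) := by gcongr
    have h8 : 0 ≤ p.lam * p.ε * (p.U * (p.ε * p.U)) := by positivity
    linarith only [h7, h8]

/-- Resolution at a flip to direction `b` at time `f`. `y - dsp` is the old own label of side `b`,
`Z` the new one, `y' - dsp` and `2 u - Z` the labels of the other side. -/
lemma resolve_sw {a f : ℕ} {y y' Z pv e : ℝ} (h : Cx p sch t1 t2) (hr : Rng p t2 τ)
    (h1 : t1 ≤ a) (h2 : a ≤ f) (h3 : f ≤ t2) (fc : FC p σ b t1 a f) (he : 0 ≤ e)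
    (hy : y + y' = 2 * uu τ t1) (hpv : pv ≤ (1 + 2 * p.ε) * uu τ f)
    (hZ1 : -p.yb ≤ 2 * uu τ f - Z) (hZ2 : 2 * uu τ f - Z ≤ pv)
    (hX1 : -p.yb ≤ 2 * uu τ f - (y - dsp τ σ b t1 f))
    (hX2 : 2 * uu τ f - (y - dsp τ σ b t1 f) ≤ pv)
    (hη0 : |Z - (y - dsp τ σ b t1 f)| ≤ 10 * p.lam * p.ε * p.U)
    (hη1 : |Z - (y - dsp τ σ b t1 f)| ≤ 2 * p.lam * (2 * uu τ f - Z + p.yb))
    (hη2 : (1 - 3 * p.ε) * uu τ f ≤ 2 * uu τ f - Z →
      |Z - (y - dsp τ σ b t1 f)| ≤ 50 * p.lam * p.ε * (pv - (2 * uu τ f - Z))) :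
    WS (128 * p.w) sch τ σ b f (y - dsp τ σ b t1 f) ∧
    WS (128 * p.w) sch τ σ (!b) f (y' - dsp τ σ (!b) t1 f) ∧
    (∀ X V, HT τ σ b a f X V → (∀ j, a ≤ j → j < f → X j = y - dsp τ σ b t1 j) →
      GI (5 / 8) p.w p.e1 e sch τ σ b a (y - dsp τ σ b t1 a) (V a) →
      GI (1 / 2) p.w p.e1 (e + 2 ^ 29 * p.M * p.lam * p.w) sch τ σ b f Z (V f)) ∧
    (∀ X V, HT τ σ (!b) a f X V → (∀ j, a ≤ j → j < f → X j = y' - dsp τ σ (!b) t1 j) →
      GI (5 / 8) p.w p.e1 e sch τ σ (!b) a (y' - dsp τ σ (!b) t1 a) (V a) →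
      GI (1 / 2) p.w p.e1 (e + 2 ^ 29 * p.M * p.lam * p.w) sch τ σ (!b) f (2 * uu τ f - Z)
        (V f)) := by
  have hok := h.ok hr
  have hτ : f < τ := h3.trans_lt hr.lt
  have hε := p.hε
  have hε1 := p.eps_le
  have hU := p.hU
  have hM := p.hM
  have hM0 := p.M_pos
  have hl := BetS_lam_pos p
  have hl1 := BetS_lam_le p
  have hw1 := p.w_ge
  have hwW := p.w_le_W
  have hW128 : 128 * p.w ≤ p.W := by linarith
  have hlw : 0 < p.lam * p.w := by positivity
  have hu := uu_pos hτ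
  have huU := h.uu_le hr (h1.trans h2)
  have huL : p.U / 64 ≤ uu τ f := Cx.uu_ge hr h3
  have hεU : p.ε * p.U ≤ p.U / 2 ^ 100 := by nlinarith only [hε1, hU]
  have hεu : p.ε * uu τ f ≤ uu τ f / 2 ^ 100 := by nlinarith only [hε1, hu]
  have hεu0 : 0 < p.ε * uu τ f := by positivity
  have hsum := dsp_sum (τ := τ) (σ := σ) (b := b) (h1.trans h2)
  set X0 := y - dsp τ σ b t1 f with hX0
  have hX0' : y' - dsp τ σ (!b) t1 f = 2 * uu τ f - X0 := by linarith
  have hrf := BetS_rr h hr h3 fc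
  have hrb := rr_range (σ := σ) (b := b) h.h1 hτ
  have hrn := rr_range (σ := σ) (b := !b) h.h1 hτ
  have hr2 : 1 / 2 ≤ rr sch τ σ b f := by linarith
  have hybe := p.yb_eq
  have hyb0 : 0 ≤ p.yb := by rw [hybe]; positivity
  have hyb1 : p.yb ≤ p.U / 2 ^ 100 := by
    have h5 : p.ε * (p.ε * p.U) ≤ 1 * (p.U / 2 ^ 100) := by
      gcongr
      linarith only [hε1]
    rw [hybe]
    linarith only [h5, hU]
  have hs16 := (hok.uu_sq h3).2.2.1
  have hWb : WS (128 * p.w) sch τ σ b f X0 := by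
    unfold WS
    have h5 : p.yb ≤ 2 * (128 * p.w) * rr sch τ σ b f / uu τ f := by
      unfold Par.yb
      rw [div_le_div_iff₀ hU hu]
      have h6 : uu τ f ≤ 2 * rr sch τ σ b f * p.U := by nlinarith only [hr2, huU, hU]
      nlinarith only [h6, hw1]
    linarith
  have hWn : WS (128 * p.w) sch τ σ (!b) f (y' - dsp τ σ (!b) t1 f) := by
    refine BetS_ws h.h1 hτ (by linarith) ?_
    rw [hX0']
    linarith
  have hWb' := hWb.mono h.h1 hτ hW128
  have hWn' := hWn.mono h.h1 hτ hW128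
  have hk : 0 ≤ 2 ^ 29 * p.M * p.lam * p.w := by positivity
  have hlε : p.lam * p.ε ≤ 1 / 2 ^ 100 := by nlinarith only [hl, hl1, hε, hε1]
  have hlε0 : 0 < p.lam * p.ε := by positivity
  have hη3 : |Z - X0| ≤ uu τ f / 4 := by nlinarith only [hη0, hlε, huL, hU]
  have hη4 : uu τ f * |Z - X0| ≤ (p.ε * uu τ f) ^ 2 / 2 ^ 80 := by
    have h5 : p.lam * p.U ≤ p.ε / 2 ^ 100 * (64 * uu τ f) := by
      gcongr
      · linarith
      · linarith
    have h6 : p.ε * (p.lam * p.U) ≤ p.ε * (p.ε / 2 ^ 100 * (64 * uu τ f)) := by gcongr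
    have h7 : |Z - X0| ≤ p.ε * (p.ε * uu τ f) / 2 ^ 80 := by
      have h8 : 0 ≤ p.ε * (p.ε * uu τ f) := by positivity
      linarith only [hη0, h6, h8]
    calc uu τ f * |Z - X0| ≤ uu τ f * (p.ε * (p.ε * uu τ f) / 2 ^ 80) := by gcongr
      _ = _ := by ring
  have hsym : |2 * uu τ f - Z - (2 * uu τ f - X0)| = |Z - X0| := by
    rw [← abs_neg]
    congr 1
    ring
  refine ⟨hWb, hWn, ?_⟩
  by_cases hA : (1 - 3 * p.ε) * uu τ f ≤ 2 * uu τ f - Z
  · have h5 := hη2 hA
    have hcost : e + 6 * uu τ f * |Z - X0| ≤ e + 2 ^ 29 * p.M * p.lam * p.w := by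
      have h6 : pv - (2 * uu τ f - Z) ≤ 5 * (p.ε * p.U) := by
        nlinarith only [hpv, hA, huU, hε]
      have h7 : |Z - X0| ≤ 50 * p.lam * p.ε * (5 * (p.ε * p.U)) := h5.trans (by gcongr)
      have h8 : uu τ f * |Z - X0| ≤ p.U * (50 * p.lam * p.ε * (5 * (p.ε * p.U))) := by gcongr
      have h9 : p.U * (50 * p.lam * p.ε * (5 * (p.ε * p.U))) = 250 * 2 ^ 20 * (p.lam * p.w) := by
        rw [BetS_w]
        ring
      have h10 := mul_le_mul_of_nonneg_right hM hlw.le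
      linarith only [h8, h9, h10, hlw]
    refine ⟨fun X V hH hX hI => ?_, fun X V hH hX hI => ?_⟩
    · have h4 := HT_G (cc := 5 / 8) hok (by norm_num) (by norm_num) he h1 h1 h2 h3 hH hX hWb' hI
      have h6 := sw_any (c := 5 / 8) (W := p.w) (e1 := p.e1) (X := X0) (Z := Z) (by norm_num)
        (by norm_num) hu hrb.1 hrb.2 (by linarith) hs16 (abs_le.2 ⟨by linarith, by linarith⟩) hη3
      exact BetS_mono (BetS_sw h4 h6 hcost) h.h1 hτ (by norm_num) le_rfl
    · have h4 := HT_G (cc := 5 / 8) hok (by norm_num) (by norm_num) he h1 h1 h2 h3 hH hX hWn' hI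
      have h6 := sw_any (c := 5 / 8) (W := p.w) (e1 := p.e1) (X := 2 * uu τ f - X0)
        (Z := 2 * uu τ f - Z) (by norm_num) (by norm_num) hu hrn.1 hrn.2 (by linarith) hs16
        (abs_le.2 ⟨by linarith, by linarith⟩) (by rw [hsym]; exact hη3)
      rw [hsym] at h6
      rw [hX0'] at h4
      exact BetS_mono (BetS_sw h4 h6 hcost) h.h1 hτ (by norm_num) le_rfl
  rw [not_le] at hA
  refine ⟨fun X V hH hX hI => ?_, fun X V hH hX hI => ?_⟩
  · obtain ⟨t0, t', -, -, a3, a4, -, a6, a7, -⟩ := fc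
    have hWt := win_back hok (h1.trans a3) (h1.trans a3) a4 h3 (by linarith) le_rfl hWb'
    have h4 := HT_G (cc := 5 / 8) hok (by norm_num) (by norm_num) he h1 h1 a3 (a4.trans h3)
      (hH.mono le_rfl a4) (fun j hj hj' => hX j hj (hj'.trans_le a4)) hWt hI
    have hMe := BetS_Meps p
    have hq := BetS_lam_HU p
    have hx2 : 0 < p.ε ^ 2 * p.U := by positivity
    have hεU0 : 0 < p.ε * p.U := by positivity
    have hyx : p.yb ≤ 8 * p.ε ^ 2 * p.M * p.U := by
      rw [hybe]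
      have h5 := mul_le_mul_of_nonneg_right hM hx2.le
      linarith only [h5, hx2]
    have h5 := lead_sw (cc := 5 / 8) (Z := Z) (P0 := (p.H : ℝ) / p.U)
      (m0 := 3 * (p.ε * uu τ f)) (g0 := 4 * p.w * p.ε) (x2 := 8 * p.ε ^ 2 * p.M * p.U)
      (y0 := p.yb) (ν := 2 * p.lam) hok (by norm_num) (by norm_num) he (h1.trans a3)
      (h1.trans a3) a4 h3 (hH.mono a3 le_rfl) (fun j hj hj' => hX j (a3.trans hj) hj') hWb' h4
      (by
        refine le_trans ?_ (h.le_dsp hr (h1.trans a3) h3)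
        have : (p.H : ℝ) ≤ cnt σ b t' f := by exact_mod_cast a6
        gcongr)
      (by linarith) (by linarith)
      (by
        refine (Cx.dsp_le hr h3).trans ?_
        have h6 : (cnt σ (!b) t' f : ℝ) ≤ p.E := by exact_mod_cast a7
        have h7 : 64 * (cnt σ (!b) t' f : ℝ) / p.U ≤ 64 * ((p.E : ℝ) / p.U) := by
          rw [mul_div_assoc]
          gcongr
        rw [BetS_EU] at h7
        have h8 : p.ε * (p.U / 64) ≤ p.ε * uu τ f := by gcongr
        linarith)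
      hr2 (by gcongr)
      (by
        have e : 8 * p.ε ^ 2 * p.M * p.U * ((p.H : ℝ) / p.U) = 8 * p.w * p.ε := by
          rw [BetS_HU, BetS_w]
          field_simp
        rw [e]
        have : 0 < p.w * p.ε := by positivity
        linarith)
      hyb0 hyx (by linarith) (by linarith)
      (by
        have h6 : uu τ f * p.lam ≤ p.U * p.lam := by gcongr
        have h7 : 0 < p.U * p.lam := by positivity
        linarith only [h6, h7, hq])
      (by
        have h6 : (p.ε * p.U) ^ 2 ≤ (64 * (p.ε * uu τ f)) ^ 2 := by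
          have h8 : p.ε * (p.U / 64) ≤ p.ε * uu τ f := by gcongr
          exact pow_le_pow_left₀ hεU0.le (by linarith only [h8]) 2
        have h7 : p.w ≤ (p.ε * uu τ f) ^ 2 := by
          rw [BetS_w]
          linarith only [h6, sq_nonneg (p.ε * uu τ f)]
        have h8 : p.w * p.ε ≤ (p.ε * uu τ f) ^ 2 * (1 / 2 ^ 100) := by gcongr
        have h9 : 0 ≤ (p.ε * uu τ f) ^ 2 := by positivity
        change 4 * p.w * p.ε + 4 * uu τ f * |Z - X0| ≤ _
        linarith only [h8, h9, hη4])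
      (hη1.trans (by gcongr; exact le_abs_self _)) (by linarith)
      (by
        have h6 : p.M * p.ε * (p.ε * p.U) ≤ 1 / 2 ^ 100 * (p.U / 2 ^ 100) := by
          gcongr
          linarith only [hMe]
        linarith only [h6, huL, hU])
    refine BetS_mono h5 h.h1 hτ (by norm_num) ?_
    have h6 : uu τ f * (p.lam * (p.ε ^ 2 * p.M * p.U)) ≤ p.U * (p.lam * (p.ε ^ 2 * p.M * p.U)) := by
      gcongr
    have h7 : p.U * (p.lam * (p.ε ^ 2 * p.M * p.U)) = 2 ^ 20 * (p.M * p.lam * p.w) := by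
      rw [BetS_w]
      ring
    have h8 : 0 < p.M * p.lam * p.w := by positivity
    linarith only [h6, h7, h8]
  · have h4 := HT_G (cc := 5 / 8) hok (by norm_num) (by norm_num) he h1 h1 h2 h3 hH hX hWn' hI
    have h6 := sw_abs (c := 5 / 8) (W := p.w) (e1 := p.e1) (X := 2 * uu τ f - X0)
      (Z := 2 * uu τ f - Z) (by norm_num) (by norm_num) hu hrn.1 hrn.2 (by linarith)
      (by linarith) (by linarith) (by linarith) (by
        rw [hsym]
        have h7 : (3 * (p.ε * uu τ f)) ^ 2 ≤ (Z - uu τ f) ^ 2 := by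
          gcongr
          linarith
        have h9 : 0 ≤ (p.ε * uu τ f) ^ 2 := by positivity
        linarith only [h7, h9, hη4])
    rw [hX0'] at h4
    refine BetS_sw (k := 0) h4 ?_ (by linarith)
    norm_num at h6 ⊢
    linarith

end

end Pool.Agent.P.MP_767cd9_co.Q1
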