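import Pool.Agent.P.MP_767cd9_co.Q1.Basic

/-! Stopping times, and numerical facts on the parameters. -/

namespace Pool.Agent.P.MP_767cd9_co.Q1

open Real

noncomputable section

section
variable {α γ γ' γ'' : Type} {T T' : (ℕ → α) → ℕ}

lemma Ag.mono {t t' : ℕ} {σ σ' : ℕ → α} (h : Ag t σ σ') (ht : t' ≤ t) : Ag t' σ σ' := by
  exact fun j hj => h j (lt_of_lt_of_le hj ht)

lemma Ag.symm {t : ℕ} {σ σ' : ℕ → α} (h : Ag t σ σ') : Ag t σ' σ := by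
  exact fun j hj => (h j hj).symm

lemma At.mono {f : (ℕ → α) → γ} (h : At T f) (hT : ∀ σ, T σ ≤ T' σ) : At T' f := by
  exact fun σ σ' ha => h σ σ' (ha.mono (hT σ))

lemma At.const (T : (ℕ → α) → ℕ) (x : γ) : At T (fun _ => x) := by
  exact fun _ _ _ => rfl

lemma At.map {f : (ℕ → α) → γ} (h : At T f) (g : γ → γ') : At T (fun σ => g (f σ)) := by
  exact fun σ σ' ha => congrArg g (h σ σ' ha)

lemma At.map₂ {f : (ℕ → α) → γ} {f' : (ℕ → α) → γ'} (h : At T f) (h' : At T f')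
    (g : γ → γ' → γ'') : At T (fun σ => g (f σ) (f' σ)) := by
  intro σ σ' ha
  show g (f σ') (f' σ') = g (f σ) (f' σ)
  rw [h σ σ' ha, h' σ σ' ha]

/-- the event `T ≤ t` is known at time `t` -/
lemma At.le_iff (hT : At T T) {t : ℕ} {σ σ' : ℕ → α} (h : Ag t σ σ') : T σ' ≤ t ↔ T σ ≤ t := by
  constructor
  · intro h1
    rw [hT σ' σ (h.symm.mono h1)]
    exact h1
  · intro h1
    rw [hT σ σ' (h.mono h1)]
    exact h1

/-- a quantity known at `T` is known at any later time -/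
lemma At.eq_of_le {f : (ℕ → α) → γ} (hf : At T f) {t : ℕ} {σ σ' : ℕ → α} (h : Ag t σ σ')
    (ht : T σ ≤ t) : f σ' = f σ := by
  exact hf σ σ' (h.mono ht)

open Classical in
lemma At.ite_stop {q : (ℕ → α) → Prop} (hT : At T T) (hT' : At T' T') (hq : At T q)
    (h : ∀ σ, T σ ≤ T' σ) :
    At (fun σ => if q σ then T σ else T' σ) (fun σ => if q σ then T σ else T' σ) := by
  intro σ σ' ha
  by_cases h1 : q σ
  · simp only [h1, if_true] at ha ⊢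
    have h2 : q σ' := by rw [hq σ σ' ha]; exact h1
    simp only [h2, if_true]
    exact hT σ σ' ha
  · simp only [h1, if_false] at ha ⊢
    have h2 : ¬ q σ' := by rw [hq σ σ' (ha.mono (h σ))]; exact h1
    simp only [h2, if_false]
    exact hT' σ σ' ha

lemma first_ge {q : ℕ → Prop} {a c : ℕ} (h : a ≤ c) : a ≤ first q a c := by
  classical
  unfold first
  split_ifs with h1
  · exact (Nat.find_spec h1).1
  · exact h

lemma first_le {q : ℕ → Prop} {a c : ℕ} : first q a c ≤ c := by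
  classical
  unfold first
  split_ifs with h1
  · exact (Nat.find_spec h1).2.1
  · exact le_rfl

lemma first_min {q : ℕ → Prop} {a c t : ℕ} (h : a ≤ t) (h' : t < first q a c) : ¬ q t := by
  classical
  intro hq
  have hc : t ≤ c := h'.le.trans first_le
  have h1 : ∃ t, a ≤ t ∧ t ≤ c ∧ q t := ⟨t, h, hc, hq⟩
  unfold first at h'
  rw [dif_pos h1] at h'
  exact Nat.find_min h1 h' ⟨h, hc, hq⟩

lemma first_spec {q : ℕ → Prop} {a c : ℕ} (h : first q a c < c) : q (first q a c) := by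
  classical
  unfold first at h ⊢
  split_ifs at h ⊢ with h1
  · exact (Nat.find_spec h1).2.2
  · exact absurd h (lt_irrefl _)

lemma first_le_of {q : ℕ → Prop} {a c t : ℕ} (h : a ≤ t) (hq : q t) : first q a c ≤ t := by
  by_contra hn
  exact first_min h (not_le.1 hn) hq

lemma first_stop {q : (ℕ → α) → ℕ → Prop} {c : ℕ} (hT : At T T) (hc : ∀ σ, T σ ≤ c)
    (hq : ∀ σ σ' t, Ag t σ σ' → T σ ≤ t → (q σ' t ↔ q σ t)) :
    At (fun σ => first (q σ) (T σ) c) (fun σ => first (q σ) (T σ) c) := by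
  intro σ σ' ha
  have h1 : T σ ≤ first (q σ) (T σ) c := first_ge (hc σ)
  have h2 : T σ' = T σ := hT σ σ' (ha.mono h1)
  show first (q σ') (T σ') c = first (q σ) (T σ) c
  rw [h2]
  apply le_antisymm
  · rcases (first_le (q := q σ) (a := T σ) (c := c)).lt_or_eq with h3 | h3
    · exact first_le_of h1 ((hq σ σ' _ ha h1).2 (first_spec h3))
    · rw [h3]
      exact first_le
  · by_contra hn
    have h3 := not_le.1 hn
    have h4 : T σ ≤ first (q σ') (T σ) c := first_ge (hc σ)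
    exact first_min h4 h3 ((hq σ σ' _ (ha.mono h3.le) h4).1 (first_spec (h3.trans_le first_le)))

end

section
variable {T T0 T1 : Path → ℕ} {τ : ℕ} {b : Bool} {sch : ℕ → ℝ}

lemma At.dsp (h0 : At T T0) (h1 : At T T1) (h : ∀ σ, T1 σ ≤ T σ) :
    At T (fun σ => dsp τ σ b (T0 σ) (T1 σ)) := by
  intro σ σ' ha
  beta_reduce
  rw [h0 σ σ' ha, h1 σ σ' ha]
  exact dsp_congr ha (h σ)

lemma At.cnt (h0 : At T T0) (h1 : At T T1) (h : ∀ σ, T1 σ ≤ T σ) :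
    At T (fun σ => cnt σ b (T0 σ) (T1 σ)) := by
  intro σ σ' ha
  beta_reduce
  rw [h0 σ σ' ha, h1 σ σ' ha]
  exact cnt_congr ha (h σ)

lemma At.rr (h1 : At T T1) (h : ∀ σ, T1 σ ≤ T σ) : At T (fun σ => rr sch τ σ b (T1 σ)) := by
  intro σ σ' ha
  beta_reduce
  rw [h1 σ σ' ha]
  exact rr_congr ha (h σ)

lemma tQ_stop (p : Par) {c : ℕ} {θ : Path → ℝ} (hT : At T T) (hc : ∀ σ, T σ ≤ c) (hθ : At T θ) :
    At (fun σ => tQ p τ σ b (T σ) c (θ σ)) (fun σ => tQ p τ σ b (T σ) c (θ σ)) := by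
  refine first_stop
    (q := fun σ t => θ σ ≤ dsp τ σ b (T σ) t ∨ p.H ≤ cnt σ (!b) (T σ) t) hT hc ?_
  intro σ σ' t ha ht
  rw [hT.eq_of_le ha ht, hθ.eq_of_le ha ht, dsp_congr ha le_rfl, cnt_congr ha le_rfl]

lemma tF_stop (p : Par) {c : ℕ} {θ : Path → ℝ} (hT : At T T) (hc : ∀ σ, T σ ≤ c)
    (h0 : At T T0) (hθ : At T θ) :
    At (fun σ => tF p τ σ b (T0 σ) (T σ) c (θ σ)) (fun σ => tF p τ σ b (T0 σ) (T σ) c (θ σ)) := by
  refine first_stop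
    (q := fun σ t => θ σ ≤ dsp τ σ b (T0 σ) t ∨ Flip p σ b (T σ) t) hT hc ?_
  intro σ σ' t ha ht
  rw [hT.eq_of_le ha ht, hθ.eq_of_le ha ht, h0.eq_of_le ha ht, dsp_congr ha le_rfl]
  unfold Flip
  simp only [cnt_congr ha le_rfl]

end

section
variable (p : Par)

lemma Par.M_pos : 0 < p.M := by
  exact lt_of_lt_of_le (by norm_num) p.hM

lemma Par.l_pos : 0 < p.l := by
  have := p.hU
  unfold Par.l
  positivity

lemma Par.U_sq : p.U ^ 2 = 2 ^ 20 * p.l := by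
  unfold Par.l
  ring

lemma Par.w_ge : 1 ≤ p.w := by
  exact p.hw

lemma Par.E_eq : (p.E : ℝ) = p.ε * p.l := by
  exact p.hE

lemma Par.H_eq : (p.H : ℝ) = p.ε * p.l / p.M := by
  rw [eq_div_iff p.M_pos.ne', p.hH, p.E_eq]

lemma Par.eps_M : p.M ^ 6 * p.ε ≤ 1 := by
  have h1 : p.M ^ 2 ≤ p.B ^ 2 := pow_le_pow_left₀ p.M_pos.le p.hB 2
  have h2 : 0 ≤ p.M ^ 4 * p.ε := mul_nonneg (pow_nonneg p.M_pos.le 4) p.hε.le
  have h3 := mul_le_mul_of_nonneg_right h1 h2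
  have h4 := p.hBε
  linarith [show p.M ^ 6 * p.ε = p.M ^ 2 * (p.M ^ 4 * p.ε) by ring,
    show p.B ^ 2 * p.M ^ 4 * p.ε = p.B ^ 2 * (p.M ^ 4 * p.ε) by ring]

lemma Par.eps_B : p.B * p.M ^ 5 * p.ε ≤ 1 := by
  have hB : 0 ≤ p.B := p.M_pos.le.trans p.hB
  have h2 : 0 ≤ p.B * p.M ^ 4 * p.ε :=
    mul_nonneg (mul_nonneg hB (pow_nonneg p.M_pos.le 4)) p.hε.le
  have h3 := mul_le_mul_of_nonneg_right p.hB h2
  have h4 := p.hBε
  linarith [show p.B * p.M ^ 5 * p.ε = p.M * (p.B * p.M ^ 4 * p.ε) by ring,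
    show p.B ^ 2 * p.M ^ 4 * p.ε = p.B * (p.B * p.M ^ 4 * p.ε) by ring]

lemma Par.eps_le : p.ε ≤ 1 / 2 ^ 100 := by
  have h1 : (2 ^ 50 : ℝ) ^ 6 ≤ p.M ^ 6 := pow_le_pow_left₀ (by norm_num) p.hM 6
  have h2 := mul_le_mul_of_nonneg_right h1 p.hε.le
  have h3 := p.eps_M
  have h4 := p.hε
  rw [le_div_iff₀ (by norm_num)]
  linarith

lemma Par.H_pos : 0 < p.H := by
  have h : (0 : ℝ) < p.H := by
    rw [p.H_eq]
    exact div_pos (mul_pos p.hε p.l_pos) p.M_pos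
  exact_mod_cast h

lemma Par.H_le : 4 * p.H ≤ p.E := by
  have h1 : (4 : ℝ) ≤ p.M := le_trans (by norm_num) p.hM
  have h2 : (p.H : ℝ) * 4 ≤ p.H * p.M := mul_le_mul_of_nonneg_left h1 (Nat.cast_nonneg _)
  have h3 : (4 : ℝ) * p.H ≤ p.E := by linarith [p.hH]
  exact_mod_cast h3

lemma Par.M_le_H : p.M ≤ p.H := by
  have h0 : (1 : ℝ) ≤ p.M := le_trans (by norm_num) p.hM
  have h1 : p.M ^ 6 * p.ε ≤ p.ε * p.l * p.ε := by
    have h2 := p.eps_M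
    have h3 : 1 ≤ p.ε ^ 2 * p.l := p.hw
    linarith [show p.ε * p.l * p.ε = p.ε ^ 2 * p.l by ring]
  have h2 : p.M ^ 6 ≤ p.ε * p.l := le_of_mul_le_mul_right h1 p.hε
  have h3 : p.M ^ 2 ≤ p.M ^ 6 := pow_le_pow_right₀ h0 (by norm_num)
  rw [p.H_eq, le_div_iff₀ p.M_pos]
  linarith [show p.M * p.M = p.M ^ 2 by ring]

lemma Par.w_le_W : 2 ^ 50 * p.w ≤ p.W := by
  exact mul_le_mul_of_nonneg_right (p.hM.trans p.hB) (zero_le_one.trans p.w_ge)

lemma Par.W_le_H : 2 ^ 50 * p.W ≤ p.H := by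
  have h0 : (1 : ℝ) ≤ p.M := le_trans (by norm_num) p.hM
  have hB : 0 ≤ p.B := p.M_pos.le.trans p.hB
  have h1 : 2 ^ 50 * p.M ≤ p.M ^ 5 := by
    have h2 : p.M ^ 2 ≤ p.M ^ 5 := pow_le_pow_right₀ h0 (by norm_num)
    have h3 := mul_le_mul_of_nonneg_right p.hM p.M_pos.le
    linarith [show p.M * p.M = p.M ^ 2 by ring]
  have h2 : 2 ^ 50 * p.M * (p.B * p.ε) ≤ 1 := by
    have h3 := mul_le_mul_of_nonneg_right h1 (mul_nonneg hB p.hε.le)
    have h4 := p.eps_B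
    linarith [show p.M ^ 5 * (p.B * p.ε) = p.B * p.M ^ 5 * p.ε by ring]
  have h3 := mul_le_mul_of_nonneg_right h2 (mul_pos p.hε p.l_pos).le
  rw [p.H_eq, le_div_iff₀ p.M_pos]
  unfold Par.W Par.w
  linarith [show 2 ^ 50 * (p.B * (p.ε ^ 2 * p.l)) * p.M
    = 2 ^ 50 * p.M * (p.B * p.ε) * (p.ε * p.l) by ring]

lemma Par.kap_bounds : 8 * p.ε ≤ p.kap ∧ p.kap ≤ 9 * p.ε := by
  have h0 := p.hε
  have h1 : p.ε ≤ 1 / 100 := p.eps_le.trans (by norm_num)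
  have h2 : 0 < 1 / 2 - 2 * p.ε := by linarith
  unfold Par.kap
  rw [le_div_iff₀ h2, div_le_iff₀ h2]
  constructor <;> nlinarith

lemma Par.yb_eq : p.yb = p.ε ^ 2 * p.U / 2 ^ 13 := by
  have := p.hU.ne'
  unfold Par.yb Par.w Par.l
  field_simp
  ring

/-- one step moves a label by at most `64 / U` -/
lemma Par.step_small : 64 / p.U ≤ p.ε * p.U / 2 ^ 14 * p.ε := by
  have h := p.hw
  rw [div_le_iff₀ p.hU]
  linarith [show p.ε * p.U / 2 ^ 14 * p.ε * p.U = 64 * (p.ε ^ 2 * (p.U ^ 2 / 2 ^ 20)) by ring]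

variable {p} {sch : ℕ → ℝ} {t1 t2 τ t a c : ℕ} {σ : Path} {b : Bool}

lemma Cx.le (h : Cx p sch t1 t2) : t1 ≤ t2 := by
  have h1 := h.ht
  have h2 := p.l_pos
  have h3 : (t1 : ℝ) ≤ t2 := by nlinarith
  exact_mod_cast h3

lemma Rng.lt (h : Rng p t2 τ) : t2 < τ := by
  have h1 := h.1
  have h2 := p.l_pos
  have h3 : (t2 : ℝ) < τ := by linarith
  exact_mod_cast h3

lemma Stop_ss_ge (hr : Rng p t2 τ) (ht : t ≤ t2) : 256 * p.l ≤ ss τ t := by
  have h1 := hr.1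
  have h2 : (t : ℝ) ≤ t2 := by exact_mod_cast ht
  unfold ss
  linarith

lemma Stop_ss_le (h : Cx p sch t1 t2) (hr : Rng p t2 τ) (ht : t1 ≤ t) : ss τ t ≤ p.U ^ 2 := by
  have h1 := hr.2
  have h2 : (t1 : ℝ) ≤ t := by exact_mod_cast ht
  have h3 := h.ht
  have h4 := p.U_sq
  have h5 := p.l_pos
  unfold ss
  linarith

lemma Stop_H_le (p : Par) : (p.H : ℝ) ≤ p.l := by
  have h0 : (1 : ℝ) ≤ p.M := le_trans (by norm_num) p.hM
  have h1 : p.ε ≤ 1 := p.eps_le.trans (by norm_num)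
  have h2 := p.l_pos
  rw [p.H_eq, div_le_iff₀ p.M_pos]
  nlinarith

lemma Cx.ok (h : Cx p sch t1 t2) (hr : Rng p t2 τ) : Ok p.W p.w p.e1 sch τ t1 t2 := by
  have hw := p.w_ge
  have hW := p.w_le_W
  have hH := p.W_le_H
  have hl := p.l_pos
  have hs := Stop_ss_ge hr le_rfl
  have hHl := Stop_H_le p
  refine ⟨by linarith, by linarith, by linarith, by linarith, ?_, h.h1, h.hsch⟩
  unfold Par.e1
  rw [div_mul_eq_mul_div, le_div_iff₀ hl]
  nlinarith [sq_nonneg p.W, mul_le_mul_of_nonneg_left hs (sq_nonneg p.W)]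

lemma Cx.uu_ge (hr : Rng p t2 τ) (ht : t ≤ t2) : p.U / 64 ≤ uu τ t := by
  apply Real.le_sqrt_of_sq_le
  have h1 := Stop_ss_ge hr ht
  have h2 := p.U_sq
  linarith [show (p.U / 64) ^ 2 = p.U ^ 2 / 4096 by ring]

lemma Cx.uu_le (h : Cx p sch t1 t2) (hr : Rng p t2 τ) (ht : t1 ≤ t) : uu τ t ≤ p.U := by
  exact Real.sqrt_le_iff.2 ⟨p.hU.le, Stop_ss_le h hr ht⟩

lemma Cx.uu_t1 (h : Cx p sch t1 t2) (hr : Rng p t2 τ) : 7 / 10 * p.U ≤ uu τ t1 := by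
  apply Real.le_sqrt_of_sq_le
  have h1 := hr.1
  have h2 := p.U_sq
  have h3 := h.ht
  have h4 := p.l_pos
  unfold ss
  linarith [show (7 / 10 * p.U) ^ 2 = 49 / 100 * p.U ^ 2 by ring]

lemma Cx.uu_t2 (hr : Rng p t2 τ) : uu τ t2 ≤ p.U / 63 := by
  have hU := p.hU
  refine Real.sqrt_le_iff.2 ⟨by positivity, ?_⟩
  have h1 := hr.2
  have h2 := p.U_sq
  have h4 := p.l_pos
  unfold ss
  linarith [show (p.U / 63) ^ 2 = p.U ^ 2 / 3969 by ring]

lemma Cx.dsp_le (hr : Rng p t2 τ) (hc : c ≤ t2) :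
    dsp τ σ b a c ≤ 64 * (cnt σ b a c : ℝ) / p.U := by
  have h1 := dsp_le_cnt (σ := σ) (b := b) (a := a) (hc.trans hr.lt.le)
  have h2 := mul_le_mul_of_nonneg_right (Cx.uu_ge hr hc)
    (dsp_nonneg (τ := τ) (σ := σ) (b := b) (a := a) (t := c))
  rw [le_div_iff₀ p.hU]
  linarith

lemma Cx.le_dsp (h : Cx p sch t1 t2) (hr : Rng p t2 τ) (ha : t1 ≤ a) (hc : c ≤ t2) :
    (cnt σ b a c : ℝ) / p.U ≤ dsp τ σ b a c := by
  have h1 := cnt_le_dsp (σ := σ) (b := b) (a := a) (hc.trans hr.lt.le)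
  have h2 := mul_le_mul_of_nonneg_right (h.uu_le hr ha)
    (dsp_nonneg (τ := τ) (σ := σ) (b := b) (a := a) (t := c))
  rw [div_le_iff₀ p.hU]
  linarith

/-- the state is close to `1` after `H` trailing and at most `2 E` leading steps -/
lemma Cx.rr_near (h : Cx p sch t1 t2) (hr : Rng p t2 τ) (ha : t1 ≤ a) (hat : a ≤ t) (ht : t ≤ t2)
    (h1 : p.H ≤ cnt σ (!b) a t) (h2 : cnt σ b a t ≤ 2 * p.E) : 1 - rr sch τ σ b t ≤ p.ε := by
  have hw := p.w_ge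
  have hW := p.w_le_W
  have hl := p.l_pos
  have hε := p.hε
  have hM := p.M_pos
  have h3 := Q1.rr_near (T0 := 4 * p.W) (m := p.H) (σ := σ) (b := b) h.h1 hat
    (lt_of_le_of_lt ht hr.lt) (by linarith)
    (fun j hj hj' => h.hsch j (ha.trans hj) (lt_of_lt_of_le hj' ht)) p.H_pos h1
  have hs := Stop_ss_ge hr ht
  have h4 : 4 * p.W / p.H = 4 * (p.B * p.M * p.ε) := by
    rw [p.H_eq]
    unfold Par.W Par.w
    field_simp
  have h5 : 2 * (4 * (p.B * p.M * p.ε)) ^ 2 ≤ p.ε / 2 := by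
    have h6 : (64 : ℝ) ≤ p.M ^ 2 := by nlinarith [p.hM]
    have h7 : 0 ≤ p.B ^ 2 * p.M ^ 2 * p.ε := by positivity
    have h8 := mul_le_mul_of_nonneg_right h6 h7
    have h9 : 64 * (p.B ^ 2 * p.M ^ 2 * p.ε) ≤ 1 := by
      linarith [p.hBε, show p.M ^ 2 * (p.B ^ 2 * p.M ^ 2 * p.ε) = p.B ^ 2 * p.M ^ 4 * p.ε by ring]
    have h10 := mul_le_mul_of_nonneg_right h9 hε.le
    linarith [show 2 * (4 * (p.B * p.M * p.ε)) ^ 2
      = 64 * (p.B ^ 2 * p.M ^ 2 * p.ε) * p.ε / 2 by ring]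
  have h6 : (cnt σ b a t : ℝ) / (2 * ss τ t) ≤ p.ε / 2 := by
    have h7 : (cnt σ b a t : ℝ) ≤ 2 * p.E := by exact_mod_cast h2
    rw [p.E_eq] at h7
    rw [div_le_iff₀ (by linarith)]
    nlinarith [mul_le_mul_of_nonneg_left hs hε.le, mul_pos hε hl]
  rw [h4] at h3
  linarith

/-- the window lies within `yb` of the edge -/
lemma Cx.ws_yb (h : Cx p sch t1 t2) (hr : Rng p t2 τ) (ht : t ≤ t2) {X k : ℝ} (hk : 0 ≤ k)
    (hw : WS (k * p.w) sch τ σ b t X) : -(k * p.yb) ≤ 2 * uu τ t - X := by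
  have hU := p.hU
  have hw : 0 ≤ k * p.w := mul_nonneg hk (zero_le_one.trans p.w_ge)
  have hlt : t < τ := lt_of_le_of_lt ht hr.lt
  have h1 := rr_range (σ := σ) (b := b) h.h1 hlt
  have h2 := Cx.uu_ge hr ht
  have h3 := uu_pos hlt
  have h4 : 2 * (k * p.w) * rr sch τ σ b t / uu τ t ≤ k * p.yb := by
    have e : k * p.yb = 2 * (k * p.w) * 1 / (p.U / 64) := by
      unfold Par.yb
      field_simp
      ring
    rw [e]
    exact div_le_div₀ (by positivity) (mul_le_mul_of_nonneg_left h1.2 (by positivity))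
      (by positivity) h2
  unfold WS at *
  linarith

/-- two targets of the same sub-block -/
lemma Cx.cmp (hr : Rng p t2 τ) {τ' : ℕ} (h1 : τ ≤ τ') (h2 : τ' ≤ τ + p.E) :
    (∀ t, t ≤ t2 → uu τ t ≤ uu τ' t ∧ uu τ' t ≤ (1 + p.ε / 500) * uu τ t) ∧
      ∀ σ b a c, c ≤ t2 → dsp τ' σ b a c ≤ dsp τ σ b a c ∧
        (1 - p.ε / 500) * dsp τ σ b a c ≤ dsp τ' σ b a c := by
  have hε := p.hε
  have hε1 : p.ε ≤ 1 := p.eps_le.trans (by norm_num)
  have key : ∀ t, t ≤ t2 → uu τ' t ≤ (1 + p.ε / 500) * uu τ t := by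
    intro t ht
    have hs := Stop_ss_ge hr ht
    have h3 : (τ' : ℝ) ≤ τ + p.E := by exact_mod_cast h2
    have h4 : ss τ' t ≤ ss τ t + p.ε * p.l := by
      rw [← p.E_eq]
      unfold ss
      linarith
    refine Real.sqrt_le_iff.2 ⟨mul_nonneg (by positivity) (uu_nonneg _ _), ?_⟩
    rw [mul_pow, uu_sq (ht.trans hr.lt.le)]
    have h5 := mul_le_mul_of_nonneg_left hs hε.le
    have h6 : 0 ≤ ss τ t := by linarith [p.l_pos]
    nlinarith [mul_nonneg (sq_nonneg p.ε) h6, mul_nonneg hε.le h6]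
  refine ⟨fun t ht => ⟨uu_mono h1, key t ht⟩, fun σ b a c hc => ?_⟩
  have hcτ : c ≤ τ := hc.trans hr.lt.le
  refine ⟨dsp_cmp h1 hcτ, ?_⟩
  have h3 := dsp_cmp_le (σ := σ) (b := b) (a := a) (x := 1 + p.ε / 500) (by positivity) hcτ
    (hcτ.trans h1) fun j _ hj => key j (hj.trans hc)
  have h4 := dsp_nonneg (τ := τ') (σ := σ) (b := b) (a := a) (t := c)
  have h5 := mul_le_mul_of_nonneg_left h3 (show 0 ≤ 1 - p.ε / 500 by linarith)
  nlinarith [mul_nonneg (sq_nonneg p.ε) h4]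

/-- sensitivity of the displacement to the target -/
lemma Cx.sens (h : Cx p sch t1 t2) (hr : Rng p t2 τ) {τ' : ℕ} (hr' : Rng p t2 τ') {δ : ℝ}
    (hδ : 0 ≤ δ) (h1 : (τ : ℝ) + δ ≤ τ') (ha : t1 ≤ a) (hc : c ≤ t2) :
    (1 + δ / (3 * p.U ^ 2)) * dsp τ' σ b a c ≤ dsp τ σ b a c := by
  have hU := p.hU
  have hl := p.l_pos
  have hU2 := p.U_sq
  have hδl : δ ≤ 3 * p.l := by linarith [hr.1, hr'.2]
  set y := δ / (3 * p.U ^ 2) with hy
  have hy0 : 0 ≤ y := by positivity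
  have hy1 : y ≤ 1 := by
    rw [hy, div_le_one (by positivity)]
    linarith
  have hy2 : y * (3 * p.U ^ 2) = δ := div_mul_cancel₀ _ (by positivity)
  refine dsp_cmp_ge (by positivity) (hc.trans hr.lt.le) (hc.trans hr'.lt.le) fun j hj hj' => ?_
  apply Real.le_sqrt_of_sq_le
  rw [mul_pow, uu_sq ((hj'.trans hc).trans hr.lt.le)]
  have h3 := Stop_ss_le h hr (ha.trans hj)
  have h4 : ss τ j + δ ≤ ss τ' j := by
    unfold ss
    linarith
  have h5 : 2 * y + y ^ 2 ≤ 3 * y := by nlinarith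
  have h6 : (2 * y + y ^ 2) * ss τ j ≤ 3 * y * p.U ^ 2 :=
    mul_le_mul h5 h3 (by linarith [Stop_ss_ge hr (hj'.trans hc)]) (by positivity)
  linarith [show (1 + y) ^ 2 * ss τ j = ss τ j + (2 * y + y ^ 2) * ss τ j by ring]

end

end

end Pool.Agent.P.MP_767cd9_co.Q1
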