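import Pool.Agent.P.MP_767cd9_co.Q1.PlanGen
import Pool.Agent.P.MP_767cd9_co.Q1.Stop

/-! The threshold bet: the run in direction `!b0` started at `ts` will be long. -/

namespace Pool.Agent.P.MP_767cd9_co.Q1

open Real

noncomputable section

variable {p : Par} {sch : ℕ → ℝ} {t1 t2 τ : ℕ} {b0 : Bool}

lemma bet_of_core {ρ e : Path → ℝ} {ζ : Path → ℕ → ℝ → ℝ} (h : Cx p sch t1 t2)
    (hr : Rng p t2 τ) (he : ∀ σ, 0 ≤ e σ) (hζ : ∀ t σ σ', Ag t σ σ' → ζ σ' t = ζ σ t)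
    (hc : ∀ σ, BetCore p sch t1 t2 τ σ b0 (ζ σ) (ρ σ) (e σ)) : BetPlan p sch t1 t2 τ ρ e :=
  plan_of_core (e0 := fun _ => 0) h.le hr.lt h.h1 (by norm_num) (h.ok hr).hW0
    ((h.ok hr).uu_sq le_rfl).2.2.2 he hζ hc

lemma BetT_w_nonneg (p : Par) : 0 ≤ p.w := zero_le_one.trans p.w_ge

lemma BetT_w_le (p : Par) : p.w ≤ p.W := by
  have h1 := p.w_le_W
  have h2 := BetT_w_nonneg p
  nlinarith

lemma bet_idle {σ : Path} {ζ : ℕ → ℝ → ℝ} (h : Cx p sch t1 t2) (hr : Rng p t2 τ)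
    (hζ : ∀ t x, ζ t x = x) : BetCore p sch t1 t2 τ σ b0 ζ 1 0 :=
  idle_core (h.ok hr) h.le (by norm_num) (by norm_num) (by norm_num) le_rfl (BetT_w_nonneg p)
    (BetT_w_le p) (BetT_w_le p) hζ

lemma BetT_XL0 {σ : Path} {a t : ℕ} (z : ℝ) : XL τ σ b0 a z b0 t = z - dsp τ σ b0 a t := by
  simp [XL]

lemma BetT_XL1 {σ : Path} {a t : ℕ} (h : a ≤ t) (z : ℝ) :
    XL τ σ b0 a z (!b0) t = 2 * uu τ t - (z - dsp τ σ b0 a t) := by
  have := XL_add (τ := τ) (σ := σ) (b0 := b0) (b := b0) (z := z) h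
  rw [BetT_XL0] at this
  linarith

lemma BetT_cases (b b0 : Bool) : b = b0 ∨ b = !b0 := by cases b <;> cases b0 <;> simp

lemma BetT_gT (p : Par) : 0 < p.gT ∧ p.gT ≤ p.ε ^ 2 / 2 ^ 50 ∧ p.gT ≤ 1 / 2 ^ 50 := by
  have h1 := p.hε
  have h2 := p.eps_le
  have h3 : p.gT ≤ p.ε ^ 2 / 2 ^ 50 :=
    div_le_div_of_nonneg_left (by positivity) (by positivity) p.hM
  refine ⟨div_pos (by positivity) p.M_pos, h3, h3.trans ?_⟩
  exact div_le_div_of_nonneg_right (by nlinarith) (by positivity)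

/-- Lagrangian position of the centre at time `t` -/
def ctr (τ : ℕ) (σ : Path) (b0 : Bool) (a t : ℕ) : ℝ := uu τ t + dsp τ σ b0 a t

/-- fallback at the final time: `z` is the final label, `z'` the current one -/
lemma fb_final {σ : Path} {η z z' cc e : ℝ} (h : Cx p sch t1 t2) (hr : Rng p t2 τ) (hη : 0 ≤ η)
    (hη' : η ≤ p.U / 6400) (hc0 : 1 / 2 ≤ cc) (hc1 : cc ≤ 1) (hz : WL p.w sch τ σ b0 t1 z t2)
    (hd : |z' - (ctr τ σ b0 t1 t2 + (1 - 2 * η / uu τ t2) * (z - ctr τ σ b0 t1 t2))| ≤ η) :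
    WL p.w sch τ σ b0 t1 z' t2 ∧ ∀ b v,
      GI cc p.w p.e1 e sch τ σ b t2 (XL τ σ b0 t1 z' b t2) v →
      GI cc p.w p.e1 (e + 30 * p.U * η) sch τ σ b t2 (XL τ σ b0 t1 z b t2) v := by
  have ok := h.ok hr
  obtain ⟨hu, -, hs, -⟩ := ok.uu_sq (le_refl t2)
  have hU := Cx.uu_ge hr (le_refl t2)
  have hU' := h.uu_le hr h.le
  have key : ∀ b, GG cc p.w p.e1 (uu τ t2) (rr sch τ σ b t2) (XL τ σ b0 t1 z b t2) -
      XL τ σ b0 t1 z b t2 ^ 2 - 30 * uu τ t2 * η ≤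
      GG cc p.w p.e1 (uu τ t2) (rr sch τ σ b t2) (XL τ σ b0 t1 z' b t2) -
        XL τ σ b0 t1 z' b t2 ^ 2 ∧ ∀ y, 0 ≤ y → -y ≤ 2 * uu τ t2 - XL τ σ b0 t1 z b t2 →
          -y ≤ 2 * uu τ t2 - XL τ σ b0 t1 z' b t2 := fun b => by
    obtain ⟨r0, r1⟩ := rr_range (σ := σ) (b := b) h.h1 hr.lt
    have s1 := ok.ws_small le_rfl (BetT_w_nonneg p) (BetT_w_le p) (hz b)
    have s2 := ok.ws_small le_rfl (BetT_w_nonneg p) (BetT_w_le p) (hz (!b))
    have s3 := XL_add (τ := τ) (σ := σ) (b0 := b0) (b := b) (z := z) h.le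
    refine sw_fb hc0 hc1 hu r0 r1 (BetT_w_nonneg p) hs hη (by linarith) (by linarith)
      (by linarith) ?_
    rcases BetT_cases b b0 with rfl | rfl
    · rw [BetT_XL0, BetT_XL0]
      convert hd using 2
      rw [ctr]; ring
    · rw [BetT_XL1 h.le, BetT_XL1 h.le, ← abs_neg]
      convert hd using 2
      rw [ctr]; ring
  refine ⟨fun b => ?_, fun b v hI => ?_⟩
  · obtain ⟨r0, -⟩ := rr_range (σ := σ) (b := b) h.h1 hr.lt
    have := BetT_w_nonneg p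
    exact (key b).2 _ (by positivity) (hz b)
  · have h1 := (key b).1
    have h2 : 30 * uu τ t2 * η ≤ 30 * p.U * η := by gcongr
    unfold GI at hI ⊢
    linarith

/-- Lagrangian position at time `t` of the end of the window on side `!b0` -/
def edg (p : Par) (sch : ℕ → ℝ) (τ : ℕ) (σ : Path) (b0 : Bool) (a t : ℕ) : ℝ :=
  dsp τ σ b0 a t - 2 * p.w * rr sch τ σ (!b0) t / uu τ t

/-- the labels between the end `zp` of the window and `zh` are contracted towards `zp` -/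
def XiT (γ zp zh x : ℝ) : ℝ := if zp ≤ x ∧ x ≤ zh then zp + (x - zp) / (1 + γ) else x

def winT (p : Par) (τ : ℕ) (σ : Path) (b0 : Bool) (ts t2 : ℕ) : Prop :=
  (1 + 7 / 8 * p.ε) * uu τ ts ≤ dsp τ σ (!b0) ts t2

open Classical in
def zetaT (p : Par) (sch : ℕ → ℝ) (t1 t2 τ : ℕ) (σ : Path) (b0 : Bool) (ts t : ℕ) (x : ℝ) : ℝ :=
  if t < ts then x
  else if t < t2 ∨ winT p τ σ b0 ts t2 then
    XiT p.gT (edg p sch τ σ b0 t1 ts) (dsp τ σ b0 t1 ts + (1 - p.ε / 2) * uu τ ts) x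
  else ctr τ σ b0 t1 t2 + (x - ctr τ σ b0 t1 t2) / (1 - 2 * (2 * p.gT * p.U) / uu τ t2)

lemma BetT_Xi {γ zp zh x : ℝ} (hγ : 0 ≤ γ) (h1 : zp ≤ x) (h2 : x ≤ zh) :
    zp ≤ XiT γ zp zh x ∧ XiT γ zp zh x ≤ x ∧ x - XiT γ zp zh x ≤ γ * (zh - zp) := by
  rw [XiT, if_pos ⟨h1, h2⟩]
  obtain ⟨d, hd⟩ : ∃ d, d = (x - zp) / (1 + γ) := ⟨_, rfl⟩
  have h3 : d * (1 + γ) = x - zp := by rw [hd]; field_simp
  have h4 : 0 ≤ d := by rw [hd]; exact div_nonneg (by linarith) (by linarith)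
  have h5 : 0 ≤ d * γ := mul_nonneg h4 hγ
  rw [← hd]
  refine ⟨by linarith, by nlinarith, ?_⟩
  have h6 : d ≤ zh - zp := by nlinarith
  nlinarith [mul_le_mul_of_nonneg_left h6 hγ]

lemma BetT_edg {σ : Path} {ts : ℕ} (h : Cx p sch t1 t2) (hr : Rng p t2 τ) (h2 : ts ≤ t2) :
    dsp τ σ b0 t1 ts - uu τ ts / 8 ≤ edg p sch τ σ b0 t1 ts := by
  obtain ⟨hu, -, hs, -⟩ := (h.ok hr).uu_sq h2
  obtain ⟨r0, r1⟩ := rr_range (σ := σ) (b := !b0) h.h1 (h2.trans_lt hr.lt)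
  have hw := BetT_w_nonneg p
  have : 2 * p.w * rr sch τ σ (!b0) ts / uu τ ts ≤ uu τ ts / 8 := by
    rw [div_le_iff₀ hu]
    nlinarith
  rw [edg]
  linarith

lemma BetT_ws1 {σ : Path} {ts : ℕ} {x : ℝ} (h1 : t1 ≤ ts) :
    WS p.w sch τ σ (!b0) ts (XL τ σ b0 t1 x (!b0) ts) ↔ edg p sch τ σ b0 t1 ts ≤ x := by
  rw [WS, BetT_XL1 h1, edg]
  constructor <;> intro h <;> linarith

/-- the switch at time `ts` -/
lemma BetT_switch {σ : Path} {ts : ℕ} {x z : ℝ} (h : Cx p sch t1 t2) (hr : Rng p t2 τ)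
    (h1 : t1 ≤ ts) (h2 : ts ≤ t2)
    (hx : z = XiT p.gT (edg p sch τ σ b0 t1 ts) (dsp τ σ b0 t1 ts + (1 - p.ε / 2) * uu τ ts) x)
    (hz : WL p.w sch τ σ b0 t1 z ts) :
    WL p.w sch τ σ b0 t1 x ts ∧ ∀ b v,
      GI (3 / 4) p.w p.e1 0 sch τ σ b ts (XL τ σ b0 t1 x b ts) v →
      GI (5 / 8) p.w p.e1 0 sch τ σ b ts (XL τ σ b0 t1 z b ts) v := by
  obtain ⟨hu, -, hs, -⟩ := (h.ok hr).uu_sq h2
  have hw := BetT_w_nonneg p
  have hm : ∀ b X, GG (5 / 8) p.w p.e1 (uu τ ts) (rr sch τ σ b ts) X ≤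
      GG (3 / 4) p.w p.e1 (uu τ ts) (rr sch τ σ b ts) X := fun b X =>
    GG_mono (by norm_num) le_rfl hu (rr_range h.h1 (h2.trans_lt hr.lt)).2
  by_cases hc : edg p sch τ σ b0 t1 ts ≤ x ∧ x ≤ dsp τ σ b0 t1 ts + (1 - p.ε / 2) * uu τ ts
  · obtain ⟨g0, g1, -⟩ := BetT_gT p
    obtain ⟨x1, x2, x3⟩ := BetT_Xi g0.le hc.1 hc.2
    rw [← hx] at x1 x2 x3
    have e1 := BetT_edg (σ := σ) (b0 := b0) h hr h2
    have e2 : 0 < p.ε * uu τ ts := mul_pos p.hε hu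
    have e3 := hc.2
    refine ⟨fun b => ?_, fun b v hI => ?_⟩
    · rcases BetT_cases b b0 with rfl | rfl
      · obtain ⟨r0, -⟩ := rr_range (σ := σ) (b := b) h.h1 (h2.trans_lt hr.lt)
        have : 0 ≤ 2 * p.w * rr sch τ σ b ts / uu τ ts := by positivity
        rw [WS, BetT_XL0]
        linarith
      · exact (BetT_ws1 h1).2 hc.1
    · obtain ⟨r0, r1⟩ := rr_range (σ := σ) (b := b) h.h1 (h2.trans_lt hr.lt)
      unfold GI at hI ⊢
      rcases BetT_cases b b0 with rfl | rfl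
      · rw [BetT_XL0] at hI ⊢
        have := sw_abs (c := 3 / 4) (W := p.w) (e1 := p.e1) (Z := z - dsp τ σ b t1 ts)
          (X := x - dsp τ σ b t1 ts) (by norm_num) (by norm_num) hu r0 r1 hw (by linarith)
          (by linarith) (by linarith) (by
            rw [abs_sub_comm, abs_of_nonneg (by linarith)]
            have a1 : x - z ≤ p.gT * (2 * uu τ ts) :=
              x3.trans (mul_le_mul_of_nonneg_left (by linarith) g0.le)
            have a2 : (p.ε * uu τ ts / 2) ^ 2 ≤ (uu τ ts - (z - dsp τ σ b t1 ts)) ^ 2 :=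
              pow_le_pow_left₀ (by positivity) (by linarith) 2
            have a3 : p.gT * uu τ ts ^ 2 ≤ p.ε ^ 2 / 2 ^ 50 * uu τ ts ^ 2 := by gcongr
            have a4 : 0 ≤ p.ε ^ 2 * uu τ ts ^ 2 := by positivity
            nlinarith [mul_le_mul_of_nonneg_left a1 hu.le])
        norm_num at this ⊢
        linarith
      · rw [BetT_XL1 h1] at hI ⊢
        have := sw_up (c := 3 / 4) (W := p.w) (e1 := p.e1)
          (Z := 2 * uu τ ts - (z - dsp τ σ b0 t1 ts)) (X := 2 * uu τ ts - (x - dsp τ σ b0 t1 ts))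
          (by norm_num) hu r0 r1 hw hs (by linarith) (by linarith)
        linarith [hm (!b0) (2 * uu τ ts - (z - dsp τ σ b0 t1 ts))]
  · rw [XiT, if_neg hc] at hx
    subst hx
    refine ⟨hz, fun b v hI => ?_⟩
    unfold GI at hI ⊢
    linarith [hm b (XL τ σ b0 t1 z b ts)]

/-- the chain through the switch -/
lemma BetT_chain {σ : Path} {ts : ℕ} {x z : ℝ} (h : Cx p sch t1 t2) (hr : Rng p t2 τ)
    (h1 : t1 ≤ ts) (h2 : ts ≤ t2)
    (hx : z = XiT p.gT (edg p sch τ σ b0 t1 ts) (dsp τ σ b0 t1 ts + (1 - p.ε / 2) * uu τ ts) x)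
    (hz : WL p.w sch τ σ b0 t1 z t2) :
    WL p.W sch τ σ b0 t1 x t1 ∧ ∀ b V,
      HT τ σ b t1 t2 (fun t => XL τ σ b0 t1 (zetaT p sch t1 t2 τ σ b0 ts t x) b t) V →
      GI (3 / 4) p.w p.e1 0 sch τ σ b t1 (XL τ σ b0 t1 x b t1) (V t1) →
      GI (1 / 2) p.w p.e1 0 sch τ σ b t2 (XL τ σ b0 t1 z b t2) (V t2) := by
  have ok := h.ok hr
  have hw := BetT_w_nonneg p
  have hW := BetT_w_le p
  obtain ⟨s1, s2⟩ := BetT_switch h hr h1 h2 hx (WL_back ok h1 h2 le_rfl hw hW hz)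
  refine ⟨fun b => (WL_back ok le_rfl h1 h2 hw hW s1 b).mono h.h1 (h.le.trans_lt hr.lt) hW,
    fun b V hH hI => ?_⟩
  have c1 : GI (3 / 4) p.w p.e1 0 sch τ σ b ts (XL τ σ b0 t1 x b ts) (V ts) :=
    HT_G ok (by norm_num) (by norm_num) le_rfl le_rfl le_rfl h1 h2 (hH.mono le_rfl h2)
      (fun j _ hj => by simp only [zetaT, if_pos hj]; rfl)
      ((s1 b).mono h.h1 (h2.trans_lt hr.lt) hW) hI
  have c2 : GI (5 / 8) p.w p.e1 0 sch τ σ b t2 (XL τ σ b0 t1 z b t2) (V t2) :=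
    HT_G ok (by norm_num) (by norm_num) le_rfl h1 h1 h2 le_rfl (hH.mono h1 le_rfl)
      (fun j hj hj' => by
        simp only [zetaT, if_neg (not_lt.2 hj), if_pos (Or.inl hj' : j < t2 ∨ _), ← hx]; rfl)
      ((hz b).mono h.h1 hr.lt hW) (s2 b _ c1)
  have c3 : GG (1 / 2) p.w p.e1 (uu τ t2) (rr sch τ σ b t2) (XL τ σ b0 t1 z b t2) ≤
      GG (5 / 8) p.w p.e1 (uu τ t2) (rr sch τ σ b t2) (XL τ σ b0 t1 z b t2) :=
    GG_mono (by norm_num) le_rfl (uu_pos hr.lt) (rr_range h.h1 hr.lt).2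
  unfold GI at c2 ⊢
  linarith

lemma BetT_win {σ : Path} {ts : ℕ} (h : Cx p sch t1 t2) (hr : Rng p t2 τ) (h1 : t1 ≤ ts)
    (h2 : ts ≤ t2) (hwin : winT p τ σ b0 ts t2) :
    BetCore p sch t1 t2 τ σ b0 (zetaT p sch t1 t2 τ σ b0 ts) (1 + p.gT) 0 := by
  obtain ⟨g0, g1, g2⟩ := BetT_gT p
  refine ⟨fun z => edg p sch τ σ b0 t1 ts + (1 + p.gT) * (z - edg p sch τ σ b0 t1 ts),
    by fun_prop, fun z z' _ _ => ?_, fun z hz => ?_⟩
  · rw [add_sub_add_left_eq_sub, ← mul_sub, sub_sub_sub_cancel_right, abs_mul,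
      abs_of_pos (by linarith : 0 < 1 + p.gT)]
  · have ok := h.ok hr
    have hu := uu_pos (h2.trans_lt hr.lt)
    have a1 : edg p sch τ σ b0 t1 ts ≤ z := (BetT_ws1 h1).1
      (WL_back ok h1 h2 le_rfl (BetT_w_nonneg p) (BetT_w_le p) hz (!b0))
    have a2 := h.ws_yb hr le_rfl zero_le_one (by rw [one_mul]; exact hz b0)
    rw [BetT_XL0, dsp_add h1 h2, one_mul, p.yb_eq] at a2
    have a3 := dsp_sum (τ := τ) (σ := σ) (b := b0) h2
    have a4 := BetT_edg (σ := σ) (b0 := b0) h hr h2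
    have a5 := Cx.uu_ge hr h2
    have a6 := p.hε
    have a7 := p.eps_le
    have a8 : p.ε ^ 2 * p.U ≤ p.ε ^ 2 * (64 * uu τ ts) := by gcongr; linarith
    have a9 : 0 < p.ε * uu τ ts := mul_pos a6 hu
    have a10 : p.ε ^ 2 * uu τ ts ≤ p.ε * uu τ ts / 100 := by nlinarith
    have a11 : p.ε * uu τ ts ≤ uu τ ts / 100 := by nlinarith
    rw [winT] at hwin
    have a12 : p.gT * (z - edg p sch τ σ b0 t1 ts) ≤ p.ε ^ 2 / 2 ^ 50 * (2 * uu τ ts) :=
      mul_le_mul g1 (by linarith) (by linarith) (by positivity)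
    have hx : z = XiT p.gT (edg p sch τ σ b0 t1 ts)
        (dsp τ σ b0 t1 ts + (1 - p.ε / 2) * uu τ ts)
        (edg p sch τ σ b0 t1 ts + (1 + p.gT) * (z - edg p sch τ σ b0 t1 ts)) := by
      rw [XiT, if_pos ⟨le_add_of_nonneg_right (mul_nonneg (by linarith) (by linarith)),
        by linarith⟩]
      field_simp
      ring
    refine ⟨?_, BetT_chain h hr h1 h2 hx hz⟩
    simp only [zetaT, if_neg (not_lt.2 h2), if_pos (Or.inr hwin : t2 < t2 ∨ winT p τ σ b0 ts t2),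
      ← hx]

lemma BetT_lose {σ : Path} {ts : ℕ} (h : Cx p sch t1 t2) (hr : Rng p t2 τ) (h1 : t1 ≤ ts)
    (h2 : ts ≤ t2) (hwin : ¬ winT p τ σ b0 ts t2) :
    BetCore p sch t1 t2 τ σ b0 (zetaT p sch t1 t2 τ σ b0 ts) (1 - 256 * p.gT)
      (2 ^ 26 * p.gT * p.l) := by
  obtain ⟨g0, -, g2⟩ := BetT_gT p
  have hU := p.hU
  have hu2 := uu_pos hr.lt
  have hk : 1 - 256 * p.gT ≤ 1 - 2 * (2 * p.gT * p.U) / uu τ t2 := by
    have := Cx.uu_ge hr (le_refl t2)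
    rw [sub_le_sub_iff_left, div_le_iff₀ hu2]
    nlinarith
  have hk0 : 0 < 1 - 2 * (2 * p.gT * p.U) / uu τ t2 := by linarith
  refine ⟨fun z => ctr τ σ b0 t1 t2 + (1 - 2 * (2 * p.gT * p.U) / uu τ t2) *
    (z - ctr τ σ b0 t1 t2), by fun_prop, fun z z' _ _ => ?_, fun z hz => ?_⟩
  · rw [add_sub_add_left_eq_sub, ← mul_sub, sub_sub_sub_cancel_right, abs_mul, abs_of_pos hk0]
    exact mul_le_mul_of_nonneg_right hk (abs_nonneg _)
  · obtain ⟨x, hx⟩ : ∃ x, x = ctr τ σ b0 t1 t2 + (1 - 2 * (2 * p.gT * p.U) / uu τ t2) *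
      (z - ctr τ σ b0 t1 t2) := ⟨_, rfl⟩
    obtain ⟨z', hz'⟩ : ∃ z', z' = XiT p.gT (edg p sch τ σ b0 t1 ts)
      (dsp τ σ b0 t1 ts + (1 - p.ε / 2) * uu τ ts) x := ⟨_, rfl⟩
    have hd : |z' - x| ≤ 2 * p.gT * p.U := by
      by_cases hc : edg p sch τ σ b0 t1 ts ≤ x ∧ x ≤ dsp τ σ b0 t1 ts + (1 - p.ε / 2) * uu τ ts
      · obtain ⟨-, x2, x3⟩ := BetT_Xi g0.le hc.1 hc.2
        rw [← hz'] at x2 x3
        have a1 := BetT_edg (σ := σ) (b0 := b0) h hr h2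
        have a2 := h.uu_le hr h1
        have a3 : 0 < p.ε * uu τ ts := mul_pos p.hε (uu_pos (h2.trans_lt hr.lt))
        rw [abs_sub_comm, abs_of_nonneg (by linarith)]
        refine x3.trans ((mul_le_mul_of_nonneg_left (show _ ≤ 2 * p.U by linarith) g0.le).trans ?_)
        linarith
      · rw [hz', XiT, if_neg hc, sub_self, abs_zero]
        positivity
    obtain ⟨f1, f2⟩ := fb_final (cc := 1 / 2) (e := 0) (z' := z') h hr
      (show 0 ≤ 2 * p.gT * p.U by positivity) (by nlinarith) le_rfl (by norm_num) hz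
      (by rw [← hx]; exact hd)
    obtain ⟨c1, c2⟩ := BetT_chain h hr h1 h2 hz' f1
    beta_reduce
    rw [← hx]
    refine ⟨?_, c1, fun b V hH hI => ?_⟩
    · simp only [zetaT, if_neg (not_lt.2 h2),
        if_neg (show ¬ (t2 < t2 ∨ winT p τ σ b0 ts t2) by simp [hwin])]
      rw [hx, add_sub_cancel_left, mul_div_cancel_left₀ _ hk0.ne', add_sub_cancel]
    · have c3 := f2 b _ (c2 b V hH hI)
      have c4 : 30 * p.U * (2 * p.gT * p.U) = 60 * 2 ^ 20 * (p.gT * p.l) := by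
        have := p.U_sq
        linear_combination 60 * p.gT * this
      have c5 := mul_pos g0 p.l_pos
      unfold GI at c3 ⊢
      linarith

open Classical in
lemma T_core {σ : Path} {ts : ℕ} (h : Cx p sch t1 t2) (hr : Rng p t2 τ) (h1 : t1 ≤ ts)
    (h2 : ts ≤ t2) :
    BetCore p sch t1 t2 τ σ b0 (zetaT p sch t1 t2 τ σ b0 ts)
      (if winT p τ σ b0 ts t2 then 1 + p.gT else 1 - 256 * p.gT)
      (if winT p τ σ b0 ts t2 then 0 else 2 ^ 26 * p.gT * p.l) := by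
  split_ifs with hwin
  · exact BetT_win h hr h1 h2 hwin
  · exact BetT_lose h hr h1 h2 hwin

lemma BetT_zeta_congr {σ σ' : Path} {ts t : ℕ} (h : Ag t σ σ') (ht : ts ≤ t) :
    zetaT p sch t1 t2 τ σ' b0 ts t = zetaT p sch t1 t2 τ σ b0 ts t := by
  funext x
  simp only [zetaT, edg, dsp_congr h ht, rr_congr h ht]
  by_cases h2 : t < t2
  · simp only [h2, true_or, if_true]
  · simp only [winT, ctr, dsp_congr h (not_lt.1 h2)]

open Classical in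
lemma T_plan {ts : Path → ℕ} {act : Path → Prop} (h : Cx p sch t1 t2) (hr : Rng p t2 τ)
    (hs : At ts ts) (ha : At ts act) (h1 : ∀ σ, t1 ≤ ts σ) (h2 : ∀ σ, ts σ ≤ t2) :
    BetPlan p sch t1 t2 τ
      (fun σ => if act σ then (if winT p τ σ b0 (ts σ) t2 then 1 + p.gT else 1 - 256 * p.gT)
        else 1)
      (fun σ => if act σ then (if winT p τ σ b0 (ts σ) t2 then 0 else 2 ^ 26 * p.gT * p.l)
        else 0) := by
  refine bet_of_core (b0 := b0) (ζ := fun σ t x =>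
    if ts σ ≤ t ∧ act σ then zetaT p sch t1 t2 τ σ b0 (ts σ) t x else x) h hr (fun σ => ?_)
    (fun t σ σ' hA => ?_) fun σ => ?_
  · have g0 := (BetT_gT p).1
    have l0 := p.l_pos
    split_ifs
    · exact le_rfl
    · positivity
    · exact le_rfl
  · funext x
    by_cases ht : ts σ ≤ t
    · simp only [hs.eq_of_le hA ht, ha.eq_of_le hA ht, BetT_zeta_congr hA ht]
    · rw [if_neg fun c => ht ((hs.le_iff hA).1 c.1), if_neg fun c => ht c.1]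
  · by_cases hσ : act σ
    · have : (fun t x => if ts σ ≤ t ∧ act σ then zetaT p sch t1 t2 τ σ b0 (ts σ) t x else x) =
          zetaT p sch t1 t2 τ σ b0 (ts σ) := by
        funext t x
        split_ifs with c
        · rfl
        · rw [zetaT, if_pos (not_le.1 fun c' => c ⟨c', hσ⟩)]
      simp only [this, if_pos hσ]
      exact T_core h hr (h1 σ) (h2 σ)
    · simp only [if_neg hσ]
      exact bet_idle h hr fun t x => if_neg fun c => hσ c.2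

end

end Pool.Agent.P.MP_767cd9_co.Q1
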