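import Pool.Agent.P.MP_767cd9_co.Q1.Pipe
import Pool.Agent.P.MP_767cd9_co.Q1.BetQ
import Pool.Agent.P.MP_767cd9_co.Q1.BetL

/-! The eight bets attached to a chain. -/

namespace Pool.Agent.P.MP_767cd9_co.Q1

open Real

noncomputable section

section
variable {p : Par} {t1 t2 τ τ' a c : ℕ} {σ : Path} {b : Bool}

lemma Bets_eps (p : Par) : p.ε ≤ 1 / 10 ^ 9 := p.eps_le.trans (by norm_num)

lemma Bets_sm (p : Par) {x : ℝ} (hx : 0 ≤ x) : 0 ≤ p.ε * x ∧ p.ε * x ≤ x / 10 ^ 9 :=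
  ⟨mul_nonneg p.hε.le hx, by linarith [mul_le_mul_of_nonneg_right (Bets_eps p) hx]⟩

lemma Bets_yb (p : Par) : 0 < p.yb ∧ p.yb ≤ p.ε * p.U / 10 ^ 9 := by
  have h1 := Bets_sm p (mul_pos p.hε p.hU).le
  have h2 := mul_pos p.hε (mul_pos p.hε p.hU)
  rw [p.yb_eq]
  constructor <;> linarith [h1.1, h1.2]

lemma Bets_div (p : Par) {x : ℝ} (hx : 0 ≤ x) (n : ℕ) : 0 ≤ x / p.M ^ n ∧ x / p.M ^ n ≤ x :=
  ⟨div_nonneg hx (pow_pos p.M_pos n).le,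
    div_le_self hx (one_le_pow₀ (le_trans (by norm_num) p.hM))⟩

lemma Bets_gT (p : Par) : 0 ≤ p.gT ∧ p.gT ≤ 1 / 10 ^ 18 := by
  have h1 := Bets_div p (sq_nonneg p.ε) 1
  have h2 := Bets_sm p p.hε.le
  rw [pow_one] at h1
  exact ⟨h1.1, h1.2.trans (by linarith [h2.2, Bets_eps p])⟩

lemma Bets_gQ (p : Par) : 0 ≤ p.gQ ∧ p.gQ ≤ 1 / 10 ^ 18 := by
  have h1 := Bets_div p (sq_nonneg p.ε) 2
  have h2 := Bets_sm p p.hε.le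
  exact ⟨h1.1, h1.2.trans (by linarith [h2.2, Bets_eps p])⟩

lemma Bets_lam (p : Par) : 0 ≤ p.lam ∧ p.lam ≤ p.ε ∧ 0 ≤ p.M * p.lam ∧ p.M * p.lam ≤ p.ε := by
  have h1 := Bets_div p p.hε.le 3
  have h2 := Bets_div p p.hε.le 2
  have h3 : p.M * p.lam = p.ε / p.M ^ 2 := by
    have := p.M_pos.ne'
    rw [Par.lam]
    field_simp
  rw [h3]
  exact ⟨h1.1, h1.2, h2⟩

lemma Bets_fc {a' f : ℕ} (h : FC p σ b t1 a f) (ha : a' ≤ a) : FC p σ b t1 a' f := by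
  obtain ⟨t0, t', h1, h2, h3, h4⟩ := h
  exact ⟨t0, t', h1, h2, ha.trans h3, h4⟩

/-- a lower bound for the reference displacement passes to the other target -/
lemma Bets_low (hr : Rng p t2 τ) (h1 : τ ≤ τ') (h2 : τ' ≤ τ + p.E) {x : ℝ} {a' c' : ℕ}
    (hx : x ≤ dsp τ σ b a c) (ha : a' ≤ a) (hc : c ≤ c') (hc' : c' ≤ t2) :
    (1 - p.ε / 500) * x ≤ dsp τ' σ b a' c' :=
  (mul_le_mul_of_nonneg_left (hx.trans ((dsp_mono hc).trans (dsp_anti ha)))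
    (by linarith [Bets_eps p])).trans ((Cx.cmp hr h1 h2).2 σ b a' c' hc').2

lemma Bets_up (hr : Rng p t2 τ) (h1 : τ ≤ τ') (h2 : τ' ≤ τ + p.E) (ha : a ≤ t2) (hc : c ≤ t2)
    (hx : dsp τ σ b a c ≤ (1 - 3 / 4 * p.ε) * uu τ a) :
    dsp τ' σ b a c ≤ (1 - 3 / 4 * p.ε) * uu τ' a :=
  ((Cx.cmp hr h1 h2).2 σ b a c hc).1.trans (hx.trans
    (mul_le_mul_of_nonneg_left ((Cx.cmp hr h1 h2).1 a ha).1 (by linarith [Bets_eps p])))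

lemma Bets_win (hr : Rng p t2 τ) (h1 : τ ≤ τ') (h2 : τ' ≤ τ + p.E) (ha : a ≤ t2) (hc : c ≤ t2)
    (hx : (1 + p.ε) * uu τ a ≤ dsp τ σ b a c) :
    (1 + 7 / 8 * p.ε) * uu τ' a ≤ dsp τ' σ b a t2 := by
  have h3 := Bets_low hr h1 h2 hx le_rfl hc le_rfl
  have h4 := mul_le_mul_of_nonneg_left ((Cx.cmp hr h1 h2).1 a ha).2
    (show 0 ≤ 1 + 7 / 8 * p.ε by linarith [p.hε])
  have h5 := Bets_sm p (uu_nonneg τ a)
  have h6 := Bets_sm p h5.1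
  linarith [h5.1, h6.1, h6.2]

lemma Bets_run (hr : Rng p t2 τ) (h1 : τ ≤ τ') (h2 : τ' ≤ τ + p.E) (ha : a ≤ t2) (hc : c ≤ t2)
    (hx : (1 - p.ε) * uu τ a ≤ dsp τ σ b a c) :
    2 * uu τ' a + p.yb ≤ (1 + 2 * p.ε) * uu τ a + dsp τ' σ b a t2 := by
  have h3 := Bets_low hr h1 h2 hx le_rfl hc le_rfl
  have h4 := ((Cx.cmp hr h1 h2).1 a ha).2
  have h5 := Bets_sm p (uu_nonneg τ a)
  have h6 := Bets_sm p h5.1
  have h7 := mul_le_mul_of_nonneg_left (Cx.uu_ge hr ha) p.hε.le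
  have h8 := mul_pos p.hε p.hU
  linarith [h5.1, h6.1, h6.2, (Bets_yb p).2]

end

namespace Ch

variable (k : Ch)

open Classical in
def rT (τ' : ℕ) (b0 : Bool) (ts : Path → ℕ) (act : Path → Prop) (σ : Path) : ℝ :=
  if act σ then (if winT k.p τ' σ b0 (ts σ) k.t2 then 1 + k.p.gT else 1 - 256 * k.p.gT) else 1

open Classical in
def eT (τ' : ℕ) (b0 : Bool) (ts : Path → ℕ) (act : Path → Prop) (σ : Path) : ℝ :=
  if act σ then (if winT k.p τ' σ b0 (ts σ) k.t2 then 0 else 2 ^ 26 * k.p.gT * k.p.l) else 0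

open Classical in
def rQ (act q : Path → Prop) (σ : Path) : ℝ := if act σ ∧ q σ then 1 + k.p.gQ else 1

open Classical in
def rL (s : ℝ) (τ' : ℕ) (σ : Path) : ℝ :=
  if k.aL σ then (if okL k.p τ' σ k.D (k.f1 σ) k.t2 (k.z1 σ τ') (k.z2 σ τ') then
    1 + s * k.p.lam * chi k.p (k.u1 σ) (k.z1 σ τ') (k.z2 σ τ') else 1 - 1280 * k.p.lam * k.p.ε)
  else 1

open Classical in
def eL (τ' : ℕ) (σ : Path) : ℝ :=
  if k.aL σ then (if okL k.p τ' σ k.D (k.f1 σ) k.t2 (k.z1 σ τ') (k.z2 σ τ') then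
    2 ^ 30 * k.p.M * k.p.lam * k.p.w
    else 2 ^ 30 * k.p.M * k.p.lam * k.p.w + 300 * k.p.lam * k.p.ε * k.p.U ^ 2)
  else 0

def aT2 (σ : Path) : Prop := k.a2 σ ∧ ¬ k.w1 σ

def rho (β : Fin 8) (τ' : ℕ) : Path → ℝ :=
  ![k.rT τ' (!k.D) k.g k.a0, k.rT τ' k.D k.f1 k.a1, k.rT τ' (!k.D) k.f2 k.aT2,
    k.rQ k.a1 k.q1, k.rQ k.a2 k.q2, k.rQ k.a3 k.q3, k.rL 1 τ', k.rL (-1) τ'] β

def err (β : Fin 8) (τ' : ℕ) : Path → ℝ :=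
  ![k.eT τ' (!k.D) k.g k.a0, k.eT τ' k.D k.f1 k.a1, k.eT τ' (!k.D) k.f2 k.aT2,
    fun _ => 0, fun _ => 0, fun _ => 0, k.eL τ', k.eL τ'] β

variable {k} {sch : ℕ → ℝ} {τ' : ℕ}

lemma Bets_zA {σ : Path} (hA : k.aLeft σ) (τ' : ℕ) : k.tR σ = k.f2 σ ∧
    k.z1 σ τ' = 2 * uu τ' (k.f1 σ) - dsp τ' σ (!k.D) (k.f1 σ) (k.f2 σ) -
      (1 + 2 * k.p.ε) * k.u2 σ ∧
    k.z2 σ τ' = 2 * uu τ' (k.f1 σ) - dsp τ' σ (!k.D) (k.f1 σ) (k.f2 σ) + k.p.yb :=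
  ⟨if_pos hA, if_pos hA, if_pos hA⟩

lemma Bets_zB {σ : Path} (hB : k.a3 σ) (τ' : ℕ) : k.tR σ = k.f3 σ ∧
    k.z1 σ τ' = dsp τ' σ k.D (k.f1 σ) (k.f3 σ) - k.p.yb ∧
    k.z2 σ τ' = dsp τ' σ k.D (k.f1 σ) (k.f3 σ) + (1 + 2 * k.p.ε) * k.u3 σ :=
  have hA : ¬ k.aLeft σ := fun hA => hB.2.1 hA.2
  ⟨if_neg hA, (if_neg hA).trans (if_pos hB), (if_neg hA).trans (if_pos hB)⟩

lemma Bets_zC {σ : Path} (hA : ¬ k.aLeft σ) (hB : ¬ k.a3 σ) (hC : k.fl2 σ) (τ' : ℕ) :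
    k.z1 σ τ' = (1 / 2 + 2 * k.p.ε) * k.u1 σ ∧
    k.z2 σ τ' = (1 / 2 + 2 * k.p.ε) * k.u1 σ + 4 * k.p.U :=
  ⟨(if_neg hA).trans ((if_neg hB).trans (if_pos hC)),
    (if_neg hA).trans ((if_neg hB).trans (if_pos hC))⟩

lemma Bets_zD {σ : Path} (hC : ¬ k.fl2 σ) (τ' : ℕ) :
    k.z1 σ τ' = -((1 / 2 - 2 * k.p.ε) * k.u1 σ) ∧ k.z2 σ τ' = (1 / 2 - 2 * k.p.ε) * k.u1 σ :=
  have hA : ¬ k.aLeft σ := fun hA => hC hA.1.2.2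
  have hB : ¬ k.a3 σ := fun hB => hC hB.1.2.2
  ⟨(if_neg hA).trans ((if_neg hB).trans (if_neg hC)),
    (if_neg hA).trans ((if_neg hB).trans (if_neg hC))⟩

/-- all times are at most `t2` -/
lemma Bets_ord (h : Cx k.p sch k.t1 k.t2) (σ : Path) : k.t1 ≤ k.f1 σ ∧ k.g σ ≤ k.t2 ∧
    k.f1 σ ≤ k.t2 ∧ k.tC σ ≤ k.t2 ∧ k.tP σ ≤ k.t2 ∧ k.f2 σ ≤ k.t2 ∧ k.tN σ ≤ k.t2 ∧
    k.f3 σ ≤ k.t2 ∧ k.f1 σ ≤ k.f2 σ ∧ k.f2 σ ≤ k.f3 σ ∧ k.f1 σ ≤ k.f3 σ := by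
  have := order σ h.le
  omega

/-- a flip on time leaves about half of `u1` -/
lemma Bets_u2 (h : Cx k.p sch k.t1 k.t2) (hr : Rng k.p k.t2 k.τ) {σ : Path} (hq : ¬ k.q1 σ)
    (hl : ¬ k.late σ) : (1 / 2 - 51 / 10 * k.p.ε) * k.u1 σ ≤ k.u2 σ := by
  have F := facts σ h hr
  have h1 := F.N2_le hq
  have h2 := F.u2_eq
  have h3 := (Bets_sm k.p (uu_nonneg k.τ (k.f1 σ))).1
  rw [late, not_le] at hl
  change 0 ≤ k.p.ε * k.u1 σ at h3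
  linarith

/-- the left resolution lies in the low zone -/
lemma Bets_left (h : Cx k.p sch k.t1 k.t2) (hr : Rng k.p k.t2 k.τ) (h1 : k.τ ≤ τ')
    (h2 : τ' ≤ k.τ + k.p.E) {σ : Path} (hA : k.aLeft σ) :
    dsp τ' σ k.D (k.f1 σ) (k.f2 σ) + (1 + 3 * k.p.ε) * uu τ' (k.f2 σ) ≤
      (1 / 2 - 2 * k.p.ε) * k.u1 σ := by
  have F := facts σ h hr
  obtain ⟨-, -, -, -, -, o, -⟩ := Bets_ord h σ
  have h3 := F.N2_le hA.1.2.1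
  have h4 := F.u2_eq
  have h5 : (1 + 10 * k.p.ε) * k.u1 σ ≤ k.P2 σ := hA.2
  have h6 := ((Cx.cmp hr h1 h2).2 σ k.D (k.f1 σ) _ o).1
  have h7 : uu τ' (k.f2 σ) ≤ (1 + k.p.ε / 500) * k.u2 σ := ((Cx.cmp hr h1 h2).1 _ o).2
  have h8 : 0 ≤ k.p.ε * k.u1 σ := (Bets_sm k.p (uu_nonneg k.τ (k.f1 σ))).1
  have h9 : 0 ≤ dsp k.τ σ k.D (k.f1 σ) (k.f2 σ) := dsp_nonneg
  have h10 := mul_le_mul_of_nonneg_left (show k.u2 σ ≤ k.u1 σ / 2 by linarith) k.p.hε.le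
  have h11 := mul_le_mul_of_nonneg_left h7 k.p.hε.le
  have h12 : 0 ≤ k.p.ε * k.u2 σ := (Bets_sm k.p (uu_nonneg k.τ (k.f2 σ))).1
  have h13 := (Bets_sm k.p h12).2
  linarith

/-- the right resolution reaches the high zone -/
lemma Bets_right (h : Cx k.p sch k.t1 k.t2) (hr : Rng k.p k.t2 k.τ) (h1 : k.τ ≤ τ')
    (h2 : τ' ≤ k.τ + k.p.E) {σ : Path} (hB : k.a3 σ) : 24 / 100 * k.u1 σ ≤ k.u3 σ ∧
    (1 / 2 + 2 * k.p.ε) * k.u1 σ ≤ dsp τ' σ k.D (k.f1 σ) (k.f3 σ) + (1 - 3 * k.p.ε) * k.u3 σ := by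
  have F := facts σ h hr
  obtain ⟨-, -, -, -, -, -, -, o1, o2, -⟩ := Bets_ord h σ
  have h3 := Bets_u2 h hr hB.1.2.1 hB.2.1
  have h4 := Bets_low hr h1 h2 (F.dN' hB.2.2.1) o2 (order σ h.le).2.2.2.2.2.2.1 o1
  have h5 := F.u3_ge
  have h6 : k.p.ε * k.u1 σ ≤ k.u1 σ / 10 ^ 9 := (Bets_sm k.p (uu_nonneg k.τ (k.f1 σ))).2
  have h7 : 0 ≤ k.p.ε * k.u2 σ ∧ k.p.ε * k.u2 σ ≤ k.u2 σ / 10 ^ 9 :=
    Bets_sm k.p (uu_nonneg k.τ (k.f2 σ))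
  have h8 : k.p.ε * k.u3 σ ≤ k.u3 σ / 10 ^ 9 := (Bets_sm k.p (uu_nonneg k.τ (k.f3 σ))).2
  have h9 := (Bets_sm k.p h7.1).1
  have h10 : 0 ≤ k.u1 σ := uu_nonneg _ _
  have h11 := F.u2_le
  have h12 := F.u3_le
  constructor <;> linarith [h7.2]

/-- conditions of the tilt bets -/
lemma L_cond (h : Cx k.p sch k.t1 k.t2) (hr : Rng k.p k.t2 k.τ) (hr' : Rng k.p k.t2 τ')
    (h1 : k.τ ≤ τ') (h2 : τ' ≤ k.τ + k.p.E) (σ : Path) (ha : k.aL σ) :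
    LCre k.p k.t1 τ' σ k.D (k.f1 σ) (k.tC σ) (k.u1 σ) ∧
      LRes k.p k.t1 τ' σ k.D (k.f1 σ) (k.tC σ) (k.tR σ) (k.u1 σ) (k.z1 σ τ') (k.z2 σ τ') := by
  have F := facts σ h hr
  obtain ⟨o1, -, o3, o4, -, o6, -, o8, -⟩ := Bets_ord h σ
  obtain ⟨-, -, -, r4, r5, r6, -⟩ := order σ h.le
  have c1 : k.u1 σ ≤ uu τ' (k.f1 σ) ∧ uu τ' (k.f1 σ) ≤ (1 + k.p.ε / 500) * k.u1 σ :=
    (Cx.cmp hr h1 h2).1 _ o3
  have e1 : 0 ≤ k.p.ε * k.u1 σ ∧ k.p.ε * k.u1 σ ≤ k.u1 σ / 10 ^ 9 :=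
    Bets_sm k.p (uu_nonneg k.τ (k.f1 σ))
  have hU := k.p.hU
  have hu := F.u1_ge
  have hy := (Bets_yb k.p).1
  have he : 0 ≤ 1 + 2 * k.p.ε := by linarith [k.p.hε]
  refine ⟨⟨c1.1, c1.2, F.fc1 ha.1, F.cC, ?_, ?_⟩, ?_⟩
  · linarith [Bets_low hr h1 h2 (F.dC' ha) le_rfl le_rfl o4, c1.2, e1.1, e1.2]
  · have h3 := ((Cx.cmp hr h1 h2).2 σ (!k.D) (k.f1 σ) _ o4).1
    have h4 := Bets_sm k.p hU.le
    have h5 := Bets_sm k.p h4.1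
    linarith [F.dC, k.p.step_small, c1.1, h4.2, h5.2]
  by_cases hA : k.aLeft σ
  · obtain ⟨z0, z1, z2⟩ := Bets_zA hA τ'
    have e2 : 0 ≤ k.p.ε * k.u2 σ := (Bets_sm k.p (uu_nonneg k.τ (k.f2 σ))).1
    have h3 := F.u2_ge
    rw [z0]
    refine ⟨by rw [z1, z2]; linarith, by rw [z1, z2]; linarith, Or.inr (Or.inl
      ⟨_, Bets_fc (F.fc2 hA.1) r4, ?_, z1, z2, Bets_left h hr h1 h2 hA⟩)⟩
    exact mul_le_mul_of_nonneg_left ((Cx.cmp hr h1 h2).1 _ o6).1 he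
  by_cases hB : k.a3 σ
  · obtain ⟨z0, z1, z2⟩ := Bets_zB hB τ'
    have e3 : 0 ≤ k.p.ε * k.u3 σ := (Bets_sm k.p (uu_nonneg k.τ (k.f3 σ))).1
    obtain ⟨h3, h4⟩ := Bets_right h hr h1 h2 hB
    have h5 : k.u3 σ ≤ uu τ' (k.f3 σ) := ((Cx.cmp hr h1 h2).1 _ o8).1
    rw [z0]
    refine ⟨by rw [z1, z2]; linarith, by rw [z1, z2]; linarith, Or.inr (Or.inr
      ⟨_, Bets_fc (F.fc3 hB) (r4.trans (r5.trans r6)), mul_le_mul_of_nonneg_left h5 he, z1, z2,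
        h4.trans ?_⟩)⟩
    linarith [mul_le_mul_of_nonneg_left h5 (show 0 ≤ 1 - 3 * k.p.ε by linarith [Bets_eps k.p])]
  by_cases hC : k.fl2 σ
  · obtain ⟨z1, z2⟩ := Bets_zC hA hB hC τ'
    have h3 : k.u1 σ ≤ k.p.U := h.uu_le hr o1
    exact ⟨by rw [z1, z2]; linarith, by rw [z1, z2]; linarith, Or.inl (Or.inr z1.ge)⟩
  · obtain ⟨z1, z2⟩ := Bets_zD hC τ'
    exact ⟨by rw [z1, z2]; linarith [e1.2], by rw [z1, z2]; linarith [e1.2],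
      Or.inl (Or.inl ⟨z1.ge, z2.le⟩)⟩

lemma bet_plan (h : Cx k.p sch k.t1 k.t2) (hr : Rng k.p k.t2 k.τ) (hr' : Rng k.p k.t2 τ')
    (h1 : k.τ ≤ τ') (h2 : τ' ≤ k.τ + k.p.E) (β : Fin 8) :
    BetPlan k.p sch k.t1 k.t2 τ' (k.rho β τ') (k.err β τ') := by
  obtain ⟨s1, s2, s3, s4, s5, s6, s7, s8, s9⟩ := stops h.le
  obtain ⟨g1, g2, g3, g4, g5, g6, g7, g8, g9⟩ := flags h.le τ'
  have o := fun σ => order σ h.le
  have o' := Bets_ord h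
  have F := fun σ => facts σ h hr
  have hL : ∀ s : ℝ, s = 1 ∨ s = -1 → BetPlan k.p sch k.t1 k.t2 τ' (k.rL s τ') (k.eL τ') :=
    fun s hs => L_plan h hr' hs (s2.mono fun σ => (o σ).2.2.1) s3 s9 g3 g7 g8 g9
      (fun σ => (o' σ).1) (fun σ => (o σ).2.2.1) (fun σ => by have := o σ; omega)
      (fun σ => by have := o σ; omega) (L_cond h hr hr' h1 h2)
  have hQ : ∀ (b : Bool) (f te : Path → ℕ) (act q : Path → Prop), At f f → At te te → At f act →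
      (∀ σ, k.t1 ≤ f σ ∧ f σ ≤ te σ ∧ te σ ≤ k.t2) → (∀ σ, q σ ↔ k.p.H ≤ cnt σ b (f σ) (te σ)) →
      (∀ σ, act σ → FC k.p σ (!b) k.t1 k.t1 (f σ)) → (∀ σ, cnt σ b (f σ) (te σ) ≤ k.p.H) →
      (∀ σ, dsp k.τ σ (!b) (f σ) (te σ) ≤ (1 - 3 / 4 * k.p.ε) * uu k.τ (f σ)) →
      BetPlan k.p sch k.t1 k.t2 τ' (k.rQ act q) fun _ => 0 := by
    intro b f te act q a1 a2 a3 a4 a5 a6 a7 a8
    have := Q_plan (b0 := b) h hr' a1 a2 a3 (fun σ => (a4 σ).1) (fun σ => (a4 σ).2.1)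
      (fun σ => (a4 σ).2.2) fun σ ha => ⟨a6 σ ha, a7 σ,
        Bets_up hr h1 h2 ((a4 σ).2.1.trans (a4 σ).2.2) (a4 σ).2.2 (a8 σ)⟩
    convert this using 2 with σ
    classical
    rw [rQ]
    exact if_congr (and_congr_right' (a5 σ)) rfl rfl
  fin_cases β
  · exact T_plan h hr' s1 g1 (fun σ => (o σ).1) fun σ => (o' σ).2.1
  · exact T_plan h hr' s2 g2 (fun σ => (o' σ).1) fun σ => (o' σ).2.2.1
  · exact T_plan h hr' s5 (g4.map₂ g5 fun x y => x ∧ ¬ y) (fun σ => by have := o σ; omega)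
      fun σ => by have := o σ; omega
  · exact hQ k.D k.f1 k.tP k.a1 k.q1 s2 s4 g2 (fun σ => by have := o σ; omega)
      (fun σ => Iff.rfl) (fun σ => (F σ).fc1) (fun σ => (F σ).cP) fun σ => (F σ).dP
  · exact hQ (!k.D) k.f2 k.tN k.a2 k.q2 s5 s6 g4 (fun σ => by have := o σ; omega)
      (fun σ => Iff.rfl)
      (fun σ ha => by
        rw [Bool.not_not]
        exact Bets_fc ((F σ).fc2 ha) (by have := o σ; omega))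
      (fun σ => (F σ).cN) fun σ => by rw [Bool.not_not]; exact (F σ).dN
  · exact hQ k.D k.f3 k.t4 k.a3 k.q3 s7 s8 g6 (fun σ => by have := o σ; omega)
      (fun σ => Iff.rfl) (fun σ ha => Bets_fc ((F σ).fc3 ha) (by have := o σ; omega))
      (fun σ => (F σ).c4) fun σ => (F σ).d4
  · exact hL 1 (Or.inl rfl)
  · exact hL (-1) (Or.inr rfl)

lemma bet_bounds (h : Cx k.p sch k.t1 k.t2) (hr : Rng k.p k.t2 k.τ) (hr' : Rng k.p k.t2 τ')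
    (h1 : k.τ ≤ τ') (h2 : τ' ≤ k.τ + k.p.E) (β : Fin 8) (σ : Path) :
    |k.rho β τ' σ - 1| ≤ 1 / 2 ∧ 0 ≤ k.err β τ' σ ∧ k.err β τ' σ ≤ k.p.l / 100 := by
  have hl := k.p.l_pos
  have hT : ∀ b ts act, |k.rT τ' b ts act σ - 1| ≤ 1 / 2 ∧ 0 ≤ k.eT τ' b ts act σ ∧
      k.eT τ' b ts act σ ≤ k.p.l / 100 := fun b ts act => by
    obtain ⟨a1, a2⟩ := Bets_gT k.p
    have a3 := mul_le_mul_of_nonneg_right a2 hl.le
    have a4 := mul_nonneg a1 hl.le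
    rw [rT, eT, abs_le]
    split_ifs <;> refine ⟨⟨?_, ?_⟩, ?_, ?_⟩ <;> linarith
  have hQ : ∀ act q, |k.rQ act q σ - 1| ≤ 1 / 2 ∧ (0 : ℝ) ≤ 0 ∧ 0 ≤ k.p.l / 100 := fun act q => by
    obtain ⟨a1, a2⟩ := Bets_gQ k.p
    rw [rQ, abs_le]
    split_ifs <;> refine ⟨⟨?_, ?_⟩, ?_, ?_⟩ <;> linarith
  have hL : ∀ s : ℝ, s = 1 ∨ s = -1 → |k.rL s τ' σ - 1| ≤ 1 / 2 ∧ 0 ≤ k.eL τ' σ ∧
      k.eL τ' σ ≤ k.p.l / 100 := fun s hs => by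
    obtain ⟨a1, a2, a3, a4⟩ := Bets_lam k.p
    have a5 := Bets_eps k.p
    have a6 := Bets_sm k.p a1
    have b1 := Bets_sm k.p hl.le
    have b2 := Bets_sm k.p b1.1
    have b3 := Bets_sm k.p b2.1
    have b4 := mul_le_mul_of_nonneg_right a4 b2.1
    have b5 := mul_nonneg a3 b2.1
    have b6 := mul_le_mul_of_nonneg_right a2 b1.1
    have b7 := mul_nonneg a1 b1.1
    rw [rL, eL, abs_le, k.p.U_sq, Par.w]
    split_ifs with ha hb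
    · obtain ⟨c1, c2⟩ := abs_le.1 (chi_abs (p := k.p) (ub := k.u1 σ)
        (L_cond h hr hr' h1 h2 σ ha).2.1)
      have c3 := mul_le_mul_of_nonneg_left c1 a1
      have c4 := mul_le_mul_of_nonneg_left c2 a1
      rcases hs with rfl | rfl <;> refine ⟨⟨?_, ?_⟩, ?_, ?_⟩ <;>
        linarith [b1.2, b2.2, b3.2]
    · refine ⟨⟨?_, ?_⟩, ?_, ?_⟩ <;> linarith [b1.2, b2.2, b3.2, a6.1, a6.2]
    · refine ⟨⟨?_, ?_⟩, ?_, ?_⟩ <;> linarith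
  fin_cases β
  exacts [hT _ _ _, hT _ _ _, hT _ _ _, hQ _ _, hQ _ _, hQ _ _, hL 1 (Or.inl rfl),
    hL (-1) (Or.inr rfl)]

/-- the threshold bets win when the reference thresholds are passed -/
lemma T_wins (h : Cx k.p sch k.t1 k.t2) (hr : Rng k.p k.t2 k.τ) (hr' : Rng k.p k.t2 τ')
    (h1 : k.τ ≤ τ') (h2 : τ' ≤ k.τ + k.p.E) (σ : Path) :
    (k.w0 σ → winT k.p τ' σ (!k.D) (k.g σ) k.t2) ∧ (k.w1 σ → winT k.p τ' σ k.D (k.f1 σ) k.t2) ∧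
      (k.w2 σ → winT k.p τ' σ (!k.D) (k.f2 σ) k.t2) := by
  obtain ⟨-, o2, o3, -, -, o6, -, o8, -⟩ := Bets_ord h σ
  simp only [winT, Bool.not_not]
  exact ⟨Bets_win hr h1 h2 o2 o3, Bets_win hr h1 h2 o3 o6, Bets_win hr h1 h2 o6 o8⟩

/-- no counter bet wins -/
def noQ (k : Ch) (σ : Path) : Prop :=
  k.a1 σ ∧ ¬ k.q1 σ ∧ ¬ (k.a2 σ ∧ k.q2 σ) ∧ ¬ (k.a3 σ ∧ k.q3 σ)

/-- unless a counter bet wins, the tilt bets are resolved -/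
lemma L_ok (h : Cx k.p sch k.t1 k.t2) (hr : Rng k.p k.t2 k.τ) (hr' : Rng k.p k.t2 τ')
    (h1 : k.τ ≤ τ') (h2 : τ' ≤ k.τ + k.p.E) (σ : Path) (hq : k.noQ σ) :
    okL k.p τ' σ k.D (k.f1 σ) k.t2 (k.z1 σ τ') (k.z2 σ τ') := by
  have F := facts σ h hr
  obtain ⟨o1, -, o3, -, -, o6, o7, o8, o9, o10, o11⟩ := Bets_ord h σ
  obtain ⟨q0, q1, q2, q3⟩ := hq
  have e1 : 0 ≤ k.p.ε * k.u1 σ ∧ k.p.ε * k.u1 σ ≤ k.u1 σ / 10 ^ 9 :=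
    Bets_sm k.p (uu_nonneg k.τ (k.f1 σ))
  have e2 := Bets_sm k.p e1.1
  have hU := Bets_sm k.p k.p.hU.le
  have hu := F.u1_ge
  have hu' := mul_le_mul_of_nonneg_left hu k.p.hε.le
  have hy := (Bets_yb k.p).2
  have hU' := k.p.hU
  by_cases hA : k.aLeft σ
  · obtain ⟨-, z1, z2⟩ := Bets_zA hA τ'
    have h3 : 2 * uu τ' (k.f2 σ) + k.p.yb ≤ (1 + 2 * k.p.ε) * k.u2 σ + _ :=
      Bets_run hr h1 h2 o6 o7 (F.dN' fun hq => q2 ⟨hA.1, hq⟩)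
    rw [okL, z1, z2]
    constructor
    · linarith [dsp_sum (τ := τ') (σ := σ) (b := k.D) o9,
        dsp_add (τ := τ') (σ := σ) (b := k.D) o9 o6]
    · linarith [dsp_mono (τ := τ') (σ := σ) (b := !k.D) (a := k.f1 σ) o6]
  by_cases hB : k.a3 σ
  · obtain ⟨-, z1, z2⟩ := Bets_zB hB τ'
    have h3 : 2 * uu τ' (k.f3 σ) + k.p.yb ≤ (1 + 2 * k.p.ε) * k.u3 σ + _ :=
      Bets_run hr h1 h2 o8 (order σ h.le).2.2.2.2.2.2.2.2.1 (F.d4' fun hq => q3 ⟨hB, hq⟩)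
    rw [okL, z1, z2]
    constructor
    · linarith [dsp_mono (τ := τ') (σ := σ) (b := k.D) (a := k.f1 σ) o8]
    · linarith [dsp_sum (τ := τ') (σ := σ) (b := k.D) o11,
        dsp_add (τ := τ') (σ := σ) (b := !k.D) o11 o8]
  by_cases hC : k.fl2 σ
  · obtain ⟨z1, z2⟩ := Bets_zC hA hB hC τ'
    have a2 : k.a2 σ := ⟨q0, q1, hC⟩
    have a3 : ¬ k.late σ := fun hl => hA ⟨a2, hl⟩
    have a4 : (1 + 20 * k.p.ε) * k.u2 σ ≤ k.N3 σ :=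
      not_lt.1 fun hf => hB ⟨a2, a3, fun hq => q2 ⟨a2, hq⟩, hf⟩
    have a5 := (mul_le_mul_of_nonneg_left (Bets_u2 h hr q1 a3)
      (show 0 ≤ 1 + 20 * k.p.ε by linarith [k.p.hε])).trans a4
    have a6 := Bets_low hr h1 h2 a5 o9 o8 le_rfl
    have a7 := Bets_sm k.p e2.1
    have a8 := h.uu_le hr' o1
    have a9 : 0 ≤ dsp τ' σ (!k.D) (k.f1 σ) k.t2 := dsp_nonneg
    rw [okL, z1, z2]
    constructor <;> linarith [e1.1, e2.1, e2.2, a7.1, hU.1, hU.2]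
  · obtain ⟨z1, z2⟩ := Bets_zD hC τ'
    have a1 := Bets_low hr h1 h2 (not_lt.1 hC) le_rfl o6 le_rfl
    have a2 : uu τ' (k.f1 σ) ≤ (1 + k.p.ε / 500) * k.u1 σ := ((Cx.cmp hr h1 h2).1 _ o3).2
    have a3 : 0 ≤ dsp τ' σ k.D (k.f1 σ) k.t2 := dsp_nonneg
    rw [okL, z1, z2]
    constructor <;> linarith [e1.1, e1.2, e2.1, e2.2, hU.1, hU.2]

/-- the two tilt bets together lose almost nothing, and gain when the path flips twice on time -/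
lemma L_diff {τ'' : ℕ} {δ : ℝ} (h : Cx k.p sch k.t1 k.t2) (hr : Rng k.p k.t2 k.τ)
    (hr' : Rng k.p k.t2 τ') (hr'' : Rng k.p k.t2 τ'') (h1 : k.τ ≤ τ') (hδ : 0 ≤ δ)
    (h2 : (τ' : ℝ) + δ ≤ τ'') (h3 : τ'' ≤ k.τ + k.p.E) (σ : Path) (hq : k.noQ σ) :
    -k.p.ε ^ 2 ≤ chi k.p (k.u1 σ) (k.z1 σ τ') (k.z2 σ τ') -
        chi k.p (k.u1 σ) (k.z1 σ τ'') (k.z2 σ τ'') ∧
      (¬ k.w1 σ → ¬ k.w2 σ → δ / (8 * k.p.U ^ 2) ≤ chi k.p (k.u1 σ) (k.z1 σ τ') (k.z2 σ τ') -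
        chi k.p (k.u1 σ) (k.z1 σ τ'') (k.z2 σ τ'')) := by
  have F := facts σ h hr
  obtain ⟨o1, -, o3, -, -, o6, o7, o8, o9, o10, o11⟩ := Bets_ord h σ
  obtain ⟨q0, q1, q2, q3⟩ := hq
  have t1 : τ' ≤ τ'' := by exact_mod_cast (le_add_of_nonneg_right hδ).trans h2
  have t2 : τ' ≤ k.τ + k.p.E := t1.trans h3
  have t3 : k.τ ≤ τ'' := h1.trans t1
  have t4 : τ'' ≤ τ' + k.p.E := by omega
  have hε := k.p.hε
  have e1 : 0 ≤ k.p.ε * k.u1 σ ∧ k.p.ε * k.u1 σ ≤ k.u1 σ / 10 ^ 9 :=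
    Bets_sm k.p (uu_nonneg k.τ (k.f1 σ))
  have e2 := Bets_sm k.p e1.1
  have hU := Bets_sm k.p k.p.hU.le
  have hu := F.u1_ge
  have hu' := mul_le_mul_of_nonneg_left hu hε.le
  obtain ⟨hy0, hy⟩ := Bets_yb k.p
  have hU' := k.p.hU
  have hu0 : 0 ≤ k.u1 σ := uu_nonneg _ _
  have hk := k.p.kap_bounds.2
  have good : ¬ k.w1 σ → ¬ k.w2 σ → k.a3 σ := fun w1 w2 => by
    rw [Ch.w1, not_le] at w1
    rw [Ch.w2, not_le] at w2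
    have e3 : 0 ≤ k.p.ε * k.u2 σ := (Bets_sm k.p (uu_nonneg k.τ (k.f2 σ))).1
    have a2 : k.a2 σ := ⟨q0, q1, by rw [fl2]; linarith [e1.1]⟩
    exact ⟨a2, by rw [late, not_le]; linarith [e1.1], fun hq => q2 ⟨a2, hq⟩,
      by rw [fl3]; linarith⟩
  by_cases hB : k.a3 σ
  · obtain ⟨-, z1, z2⟩ := Bets_zB hB τ'
    obtain ⟨-, z3, z4⟩ := Bets_zB hB τ''
    obtain ⟨a1, a2⟩ := Bets_right h hr h1 t2 hB
    have a3 := (Bets_right h hr t3 h3 hB).2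
    have e3 : 0 ≤ k.p.ε * k.u3 σ ∧ k.p.ε * k.u3 σ ≤ k.u3 σ / 10 ^ 9 :=
      Bets_sm k.p (uu_nonneg k.τ (k.f3 σ))
    obtain ⟨a4, a5⟩ := (Cx.cmp hr' t1 t4).2 σ k.D (k.f1 σ) _ o8
    have a6 := ((Cx.cmp hr h1 t2).2 σ k.D (k.f1 σ) _ o8).1
    have a7 : dsp k.τ σ k.D (k.f1 σ) (k.f3 σ) = dsp k.τ σ k.D (k.f1 σ) (k.f2 σ) + k.N3 σ :=
      dsp_add o9 o10
    have a8 := F.N2_le q1
    have hL : 0 < k.p.yb + (1 + 2 * k.p.ε) * k.u3 σ := by linarith [e3.1]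
    have key : chi k.p (k.u1 σ) (k.z1 σ τ') (k.z2 σ τ') -
        chi k.p (k.u1 σ) (k.z1 σ τ'') (k.z2 σ τ'') =
        (Phi k.p (k.u1 σ) (k.z1 σ τ'') - Phi k.p (k.u1 σ) (k.z1 σ τ')) /
          (k.p.yb + (1 + 2 * k.p.ε) * k.u3 σ) := by
      rw [chi, chi, Phi_high hu0 (z := k.z2 σ τ') (by rw [z2]; linarith [e3.1]),
        Phi_high hu0 (z := k.z2 σ τ'') (by rw [z4]; linarith [e3.1]),
        show k.z2 σ τ' - k.z1 σ τ' = k.p.yb + (1 + 2 * k.p.ε) * k.u3 σ by rw [z1, z2]; ring,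
        show k.z2 σ τ'' - k.z1 σ τ'' = k.p.yb + (1 + 2 * k.p.ε) * k.u3 σ by rw [z3, z4]; ring]
      ring
    rw [key]
    refine ⟨?_, fun w1 w2 => ?_⟩
    · have b1 := Phi_up (p := k.p) (ub := k.u1 σ)
        (show k.z1 σ τ'' ≤ k.z1 σ τ' by rw [z1, z3]; linarith)
      have b2 : dsp τ' σ k.D (k.f1 σ) (k.f3 σ) ≤ 3 * k.u1 σ := by
        linarith [F.P2_le, F.N3_le, F.u2_le, e1.2]
      have b3 := mul_le_mul_of_nonneg_left b2 hε.le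
      have b4 : k.p.kap * (k.z1 σ τ' - k.z1 σ τ'') ≤ 9 * k.p.ε * (k.p.ε * k.u1 σ / 100) :=
        mul_le_mul hk (by rw [z1, z3]; linarith [e1.1]) (by rw [z1, z3]; linarith) (by linarith)
      have b5 := mul_le_mul_of_nonneg_left (show 24 / 100 * k.u1 σ ≤
        k.p.yb + (1 + 2 * k.p.ε) * k.u3 σ by linarith [e3.1]) (sq_nonneg k.p.ε)
      rw [le_div_iff₀ hL]
      linarith [e2.1]
    · rw [Ch.w1, not_le] at w1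
      rw [Ch.w2, not_le] at w2
      have b1 := F.u2_eq
      have b2 : (1 - k.p.ε) * k.u1 σ ≤ k.P2 σ :=
        (F.dP' q1).trans (dsp_mono (order σ h.le).2.2.2.2.1)
      have b3 : 0 ≤ dsp k.τ σ k.D (k.f1 σ) (k.f2 σ) := dsp_nonneg
      have b4 := mul_le_mul_of_nonneg_left
        (show k.u2 σ ≤ (1 / 2 + k.p.ε / 2) * k.u1 σ by linarith) hε.le
      have b5 := (mul_le_mul_of_nonneg_left
        (show (1 / 2 - 6 / 10 * k.p.ε) * k.u1 σ ≤ k.u2 σ by linarith [e1.1])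
        (show 0 ≤ 1 - k.p.ε by linarith [Bets_eps k.p])).trans (F.dN' hB.2.2.1)
      have b6 := Bets_low hr t3 h3 b5 o9 (order σ h.le).2.2.2.2.2.2.1 o8
      have e4 := Bets_sm k.p e2.1
      have b7 : (1 / 2 - 2 * k.p.ε) * k.u1 σ ≤ k.z1 σ τ'' := by
        rw [z3]
        linarith [e1.1, e2.1, e2.2, e4.2]
      have b8 : k.z1 σ τ' ≤ (1 / 2 + 2 * k.p.ε) * k.u1 σ := by
        rw [z1]
        linarith [e1.1, e2.2]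
      have b9 : k.z1 σ τ'' ≤ k.z1 σ τ' := by rw [z1, z3]; linarith
      have c1 := h.sens (σ := σ) (b := k.D) hr' hr'' hδ h2 o1 o8
      have c2 : 0 ≤ δ / k.p.U ^ 2 := div_nonneg hδ (sq_nonneg _)
      have c3 := mul_le_mul_of_nonneg_left (show 49 / 100 * k.u1 σ ≤
        dsp τ'' σ k.D (k.f1 σ) (k.f3 σ) by rw [z3] at b7; linarith [e1.2]) c2
      have c4 := mul_le_mul_of_nonneg_left (show k.p.yb + (1 + 2 * k.p.ε) * k.u3 σ ≤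
        11 / 10 * k.u1 σ by linarith [e3.2, F.u2_le, F.u3_le, hU.2]) c2
      have c5 := mul_nonneg c2 hu0
      rw [Phi_zone hu0 b7 (b9.trans b8), Phi_zone hu0 (b7.trans b9) b8, le_div_iff₀ hL, z1, z3,
        show δ / (8 * k.p.U ^ 2) = δ / k.p.U ^ 2 / 8 by ring]
      rw [show δ / (3 * k.p.U ^ 2) = δ / k.p.U ^ 2 / 3 by ring] at c1
      linarith
  refine ⟨?_, fun w1 w2 => (hB (good w1 w2)).elim⟩
  by_cases hA : k.aLeft σ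
  · obtain ⟨-, z1, z2⟩ := Bets_zA hA τ'
    obtain ⟨-, z3, z4⟩ := Bets_zA hA τ''
    have e3 : 0 ≤ k.p.ε * k.u2 σ := (Bets_sm k.p (uu_nonneg k.τ (k.f2 σ))).1
    have a1 := F.u2_ge
    have hL : 0 < k.p.yb + (1 + 2 * k.p.ε) * k.u2 σ := by linarith
    obtain ⟨a2, a3⟩ := (Cx.cmp hr' t1 t4).1 _ o3
    obtain ⟨a4, a5⟩ := (Cx.cmp hr' t1 t4).2 σ (!k.D) (k.f1 σ) _ o6
    have a6 : uu τ' (k.f1 σ) ≤ (1 + k.p.ε / 500) * k.u1 σ := ((Cx.cmp hr h1 t2).1 _ o3).2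
    have a7 := mul_le_mul_of_nonneg_left a6 hε.le
    have a8 := mul_le_mul_of_nonneg_left
      (((Cx.cmp hr h1 t2).2 σ (!k.D) (k.f1 σ) _ o6).1.trans F.P2_le) hε.le
    have a9 := Bets_left h hr t3 h3 hA
    have a10 : uu τ'' (k.f2 σ) ≤ (1 + k.p.ε / 500) * k.u2 σ := ((Cx.cmp hr t3 h3).1 _ o6).2
    have a11 := (Bets_sm k.p (uu_nonneg τ'' (k.f2 σ))).1
    have b1 := Phi_up (p := k.p) (ub := k.u1 σ)
      (show k.z2 σ τ' ≤ k.z2 σ τ'' by rw [z2, z4]; linarith)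
    have b2 := Phi_low_mono (p := k.p) (ub := k.u1 σ)
      (show k.z1 σ τ' ≤ k.z1 σ τ'' by rw [z1, z3]; linarith)
      (by rw [z3]; linarith [dsp_sum (τ := τ'') (σ := σ) (b := k.D) o9])
    have b4 : k.p.kap * (k.z2 σ τ'' - k.z2 σ τ') ≤ 9 * k.p.ε * (k.p.ε * k.u1 σ / 100) :=
      mul_le_mul hk (by rw [z2, z4]; linarith [e1.1, e2.2]) (by rw [z2, z4]; linarith)
        (by linarith)
    have b5 := mul_le_mul_of_nonneg_left (show 24 / 100 * k.u1 σ ≤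
      k.p.yb + (1 + 2 * k.p.ε) * k.u2 σ by linarith) (sq_nonneg k.p.ε)
    rw [chi, chi,
      show k.z2 σ τ' - k.z1 σ τ' = k.p.yb + (1 + 2 * k.p.ε) * k.u2 σ by rw [z1, z2]; ring,
      show k.z2 σ τ'' - k.z1 σ τ'' = k.p.yb + (1 + 2 * k.p.ε) * k.u2 σ by rw [z3, z4]; ring,
      ← sub_div, le_div_iff₀ hL]
    linarith [e2.1]
  by_cases hC : k.fl2 σ
  · rw [(Bets_zC hA hB hC τ').1, (Bets_zC hA hB hC τ').2, (Bets_zC hA hB hC τ'').1,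
      (Bets_zC hA hB hC τ'').2, sub_self]
    exact neg_nonpos.2 (sq_nonneg _)
  · rw [(Bets_zD hC τ').1, (Bets_zD hC τ').2, (Bets_zD hC τ'').1, (Bets_zD hC τ'').2, sub_self]
    exact neg_nonpos.2 (sq_nonneg _)

end Ch

end

end Pool.Agent.P.MP_767cd9_co.Q1
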