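import Pool.Agent.P.MP_767cd9_co.Rec

/-! Covering on grids, first question: definitions for the fractional game. -/

namespace Pool.Agent.P.MP_767cd9_co.Q1

open Real MeasureTheory Set

noncomputable section

/-- Signs of the robber steps in one coordinate. -/
abbrev Path : Type := ℕ → Bool

/-- Agreement before time `t`. -/
def Ag {α : Type} (t : ℕ) (σ σ' : ℕ → α) : Prop := ∀ j, j < t → σ j = σ' j

/-- `f` is known at the time `T`; `At T T` says that `T` is a stopping time. -/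
def At {α γ : Type} (T : (ℕ → α) → ℕ) (f : (ℕ → α) → γ) : Prop :=
  ∀ σ σ', Ag (T σ) σ σ' → f σ' = f σ

/-- Time left until the target time `τ`. -/
def ss (τ t : ℕ) : ℝ := (τ : ℝ) - t

def uu (τ t : ℕ) : ℝ := √(ss τ t)

def dd (τ t : ℕ) : ℝ := 2 * uu τ t - 2 * uu τ (t + 1)

/-- Label displacement of the `b` steps in `[a, t)`. -/
def dsp (τ : ℕ) (σ : Path) (b : Bool) (a t : ℕ) : ℝ :=
  ∑ j ∈ Finset.Ico a t, if σ j = b then dd τ j else 0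

/-- Number of `b` steps in `[a, t)`. -/
def cnt (σ : Path) (b : Bool) (a t : ℕ) : ℕ := ((Finset.Ico a t).filter fun j => σ j = b).card

/-- The state of side `b`. -/
def rr (sch : ℕ → ℝ) (τ : ℕ) (σ : Path) (b : Bool) : ℕ → ℝ
  | 0 => 1
  | t + 1 => if σ t = b then rr sch τ σ b t * uu τ (t + 1) / uu τ t
      else rr sch τ σ b t + (1 - rr sch τ σ b t) / sch t

def th (e h : ℝ) : ℝ := min h (max 0 (h - e))

def hh (W u r X : ℝ) : ℝ :=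
  4 * (1 - r) * min (u * (2 * u - X) / r) (W * min 1 (2 * (X - u) / u))

/-- The slack required from a cop whose own label is `X`. -/
def GG (c W e1 u r X : ℝ) : ℝ := if X ≤ u then c * (X - u) ^ 2 else th e1 (hh W u r X)

/-- Invariant of one side; `v` stands for `- s - sg b * p`. -/
def GI (c W e1 e : ℝ) (sch : ℕ → ℝ) (τ : ℕ) (σ : Path) (b : Bool) (t : ℕ) (X v : ℝ) : Prop :=
  GG c W e1 (uu τ t) (rr sch τ σ b t) X - e ≤ v + X ^ 2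

/-- Window of one side. -/
def WS (R : ℝ) (sch : ℕ → ℝ) (τ : ℕ) (σ : Path) (b : Bool) (t : ℕ) (X : ℝ) : Prop :=
  -(2 * R * rr sch τ σ b t / uu τ t) ≤ 2 * uu τ t - X

/-- Own label of side `b`. -/
def lab (u : ℝ) (b : Bool) (x : ℝ) : ℝ := if b then x else 2 * u - x

def Inv (c W e1 e : ℝ) (sch : ℕ → ℝ) (τ t : ℕ) (σ : Path) (x p : ℝ) : Prop :=
  ∀ b, GI c W e1 e sch τ σ b t (lab (uu τ t) b x) (-ss τ t - sg b * p)

def Win (R : ℝ) (sch : ℕ → ℝ) (τ t : ℕ) (σ : Path) : Set ℝ :=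
  {x | ∀ b, WS R sch τ σ b t (lab (uu τ t) b x)}

/-- Half trajectory: what the balanced control guarantees on side `b`. -/
def HT (τ : ℕ) (σ : Path) (b : Bool) (a c : ℕ) (X V : ℕ → ℝ) : Prop :=
  ∀ t, a ≤ t → t < c →
    min (V t) (ss τ t - 2 * uu τ t * X t) + (if σ t = b then 4 else 0) ≤ V (t + 1)

/-- Side conditions for the step lemmas on `[a, c]`. -/
structure Ok (W W1 e1 : ℝ) (sch : ℕ → ℝ) (τ a c : ℕ) : Prop where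
  hW : 1 ≤ W
  hW0 : 0 ≤ W1
  hW1 : W1 ≤ W
  hs : 1000 * W ≤ ss τ c
  he : 72 * W ^ 2 ≤ e1 * ss τ c
  h1 : ∀ t, 1 ≤ sch t
  hsch : ∀ t, a ≤ t → t < c → sch t = 4 * W

/-- A one-dimensional plan on `[a, c]` with expansion factor `ρ`. -/
def Plan (a c : ℕ) (Pre Post : Path → ℝ → ℝ → Prop) (WA WB : Path → Set ℝ) (ρ : Path → ℝ) :
    Prop :=
  ∃ (pos : Path → ℝ → ℝ → ℕ → ℝ) (out : Path → ℝ → ℝ),
    (∀ t σ σ', Ag t σ σ' → ∀ x p, pos σ' x p t = pos σ x p t) ∧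
    (∀ σ σ', Ag c σ σ' → out σ' = out σ) ∧
    (∀ σ x p, pos σ x p a = p) ∧
    (∀ σ x p t, a ≤ t → |pos σ x p t - pos σ x p (t + 1) - 2 * sg (σ t)| ≤ 1) ∧
    ∀ σ, ∃ ψ : ℝ → ℝ, Continuous ψ ∧
      (∀ y ∈ WB σ, ∀ y' ∈ WB σ, ρ σ * |y - y'| ≤ |ψ y - ψ y'|) ∧
      ∀ y ∈ WB σ, ψ y ∈ WA σ ∧ out σ (ψ y) = y ∧
        ∀ p, Pre σ (ψ y) p → Post σ y (pos σ (ψ y) p c)

/-- Own label of side `b` at time `t` of the Lagrangian label `z` (side `b0`, from time `a`). -/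
def XL (τ : ℕ) (σ : Path) (b0 : Bool) (a : ℕ) (z : ℝ) (b : Bool) (t : ℕ) : ℝ :=
  (if b = b0 then z else 2 * uu τ a - z) - dsp τ σ b a t

def WL (R : ℝ) (sch : ℕ → ℝ) (τ : ℕ) (σ : Path) (b0 : Bool) (a : ℕ) (z : ℝ) (t : ℕ) : Prop :=
  ∀ b, WS R sch τ σ b t (XL τ σ b0 a z b t)

/-- The deterministic content of a plan given by relabelling maps `ζ t`. -/
def Core (c0 W0 e1 e0 R0 c1 W1 e R1 : ℝ) (sch : ℕ → ℝ) (τ : ℕ) (σ : Path) (b0 : Bool)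
    (a c : ℕ) (ζ : ℕ → ℝ → ℝ) (ρ : ℝ) : Prop :=
  ∃ χ : ℝ → ℝ, Continuous χ ∧
    (∀ z z', WL R1 sch τ σ b0 a z c → WL R1 sch τ σ b0 a z' c → ρ * |z - z'| ≤ |χ z - χ z'|) ∧
    ∀ z, WL R1 sch τ σ b0 a z c → ζ c (χ z) = z ∧ WL R0 sch τ σ b0 a (χ z) a ∧
      ∀ b V, HT τ σ b a c (fun t => XL τ σ b0 a (ζ t (χ z)) b t) V →
        GI c0 W0 e1 e0 sch τ σ b a (XL τ σ b0 a (χ z) b a) (V a) →
        GI c1 W1 e1 e sch τ σ b c (XL τ σ b0 a z b c) (V c)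

/-- Retargeting profile. -/
def Fr (u r n : ℝ) : ℝ := (1 + 3 * (1 - r) * max 0 (min 1 (2 * n / u - 1 / 2))) / (2 * (u + n))

def xi (u rA rB x : ℝ) : ℝ :=
  Fr u rA (max (x - u) 0) - Fr u rB (max (u - x) 0) + 1 / (2 * u)

def bz (u δ : ℝ) : ℝ := (2 * u - 2 * √(u ^ 2 - δ) - δ / u) / (2 * u)

def psi (u rA rB δ x : ℝ) : ℝ := (1 - bz u δ) * x - δ * xi u rA rB x

/-- Parameters of one round. -/
structure Par where
  M : ℝ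
  B : ℝ
  ε : ℝ
  U : ℝ
  E : ℕ
  H : ℕ
  hM : 2 ^ 50 ≤ M
  hB : M ≤ B
  hε : 0 < ε
  hBε : B ^ 2 * M ^ 4 * ε ≤ 1
  hU : 0 < U
  hE : (E : ℝ) = ε * (U ^ 2 / 2 ^ 20)
  hH : (H : ℝ) * M = E
  hw : 1 ≤ ε ^ 2 * (U ^ 2 / 2 ^ 20)

def Par.l (p : Par) : ℝ := p.U ^ 2 / 2 ^ 20
def Par.w (p : Par) : ℝ := p.ε ^ 2 * p.l
def Par.W (p : Par) : ℝ := p.B * p.w
def Par.e1 (p : Par) : ℝ := 100 * p.W ^ 2 / p.l
def Par.lam (p : Par) : ℝ := p.ε / p.M ^ 3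
def Par.gT (p : Par) : ℝ := p.ε ^ 2 / p.M
def Par.gQ (p : Par) : ℝ := p.ε ^ 2 / p.M ^ 2
def Par.yb (p : Par) : ℝ := 128 * p.w / p.U
def Par.kap (p : Par) : ℝ := 4 * p.ε / (1 / 2 - 2 * p.ε)

/-- The betting period `[t1, t2]`. -/
structure Cx (p : Par) (sch : ℕ → ℝ) (t1 t2 : ℕ) : Prop where
  ht : (t1 : ℝ) + (2 ^ 19 - 257) * p.l = t2
  h1 : ∀ t, 1 ≤ sch t
  hsch : ∀ t, t1 ≤ t → t < t2 → sch t = 4 * p.W

/-- Admissible target times. -/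
def Rng (p : Par) (t2 τ : ℕ) : Prop := (t2 : ℝ) + 256 * p.l ≤ τ ∧ (τ : ℝ) ≤ t2 + 259 * p.l

/-- Flip certificate: the path has just turned to direction `b` at time `f`. -/
def FC (p : Par) (σ : Path) (b : Bool) (a a' f : ℕ) : Prop :=
  ∃ t0 t', a ≤ t0 ∧ t0 ≤ t' ∧ a' ≤ t' ∧ t' ≤ f ∧ p.E ≤ cnt σ (!b) t0 t' ∧ p.H ≤ cnt σ b t' f ∧
    cnt σ (!b) t' f ≤ p.E ∧ cnt σ b t0 f ≤ 2 * p.E

/-- A bet: a plan on `[t1, t2]` with factor `ρ` and error `e`. -/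
def BetPlan (p : Par) (sch : ℕ → ℝ) (t1 t2 τ : ℕ) (ρ e : Path → ℝ) : Prop :=
  Plan t1 t2 (fun σ => Inv (3 / 4) p.w p.e1 0 sch τ t1 σ)
    (fun σ => Inv (1 / 2) p.w p.e1 (e σ) sch τ t2 σ) (Win p.W sch τ t1) (Win p.w sch τ t2) ρ

/-- The core of a bet. -/
def BetCore (p : Par) (sch : ℕ → ℝ) (t1 t2 τ : ℕ) (σ : Path) (b0 : Bool) (ζ : ℕ → ℝ → ℝ)
    (ρ e : ℝ) : Prop :=
  Core (3 / 4) p.w p.e1 0 p.W (1 / 2) p.w e p.w sch τ σ b0 t1 t2 ζ ρ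

/-- The tilt profile. -/
def Phi (p : Par) (ub z : ℝ) : ℝ :=
  max (-(4 * p.ε * ub)) (min (p.kap * z) (max 0 ((1 / 2 + 2 * p.ε) * ub - z)))

/-- Mean slope of the tilt profile on `[z1, z2]`. -/
def chi (p : Par) (ub z1 z2 : ℝ) : ℝ := (Phi p ub z2 - Phi p ub z1) / (z2 - z1)

/-- The tilt profile, made affine on `[z1, z2]`. -/
def PhiR (p : Par) (ub z1 z2 z : ℝ) : ℝ :=
  if z1 ≤ z ∧ z ≤ z2 then Phi p ub z1 + chi p ub z1 z2 * (z - z1) else Phi p ub z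

/-- Lower bound for the logarithm of the gain of a bet. -/
def val (p : Par) (ρ e : ℝ) : ℝ := (ρ - 1) - (ρ - 1) ^ 2 - 4 * e / p.l

open Classical in
/-- First time in `[a, c]` with `q`, or `c`. -/
def first (q : ℕ → Prop) (a c : ℕ) : ℕ :=
  if h : ∃ t, a ≤ t ∧ t ≤ c ∧ q t then Nat.find h else c

def tQ (p : Par) (τ : ℕ) (σ : Path) (b : Bool) (a c : ℕ) (θ : ℝ) : ℕ :=
  first (fun t => θ ≤ dsp τ σ b a t ∨ p.H ≤ cnt σ (!b) a t) a c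

def Flip (p : Par) (σ : Path) (b : Bool) (a t : ℕ) : Prop :=
  ∃ t', a ≤ t' ∧ t' ≤ t ∧ p.H ≤ cnt σ (!b) t' t ∧ cnt σ b t' t ≤ p.E

def tF (p : Par) (τ : ℕ) (σ : Path) (b : Bool) (a0 a c : ℕ) (θ : ℝ) : ℕ :=
  first (fun t => θ ≤ dsp τ σ b a0 t ∨ Flip p σ b a t) a c

abbrev PathD (n : ℕ) : Type := ℕ → Fin (n + 1) → Bool

abbrev Vec (n : ℕ) : Type := Fin (n + 1) → ℝ

/-- One coordinate of a path. -/
def co {n : ℕ} (σ : PathD n) (i : Fin (n + 1)) : Path := fun t => σ t i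

def cellOf {n : ℕ} (v : Vec n) : Pt n := fun i => ⌊v i / 4⌋

/-- A system of cop populations indexed by `I`, of density at most `D` at time `0`. -/
def Sys (n : ℕ) (I : Type) (T : I → ℕ) (Good : I → Path → ℝ → ℝ → Prop)
    (Wn : I → Path → Set ℝ) (lev : I → PathD n → ℝ) (D : ℝ) : Prop :=
  ∃ (Ω : Type) (_ : MeasurableSpace Ω) (μ : Measure Ω) (X : Ω → PathD n → ℕ → Vec n)
    (mem : I → PathD n → Ω → Prop) (lb : I → PathD n → Ω → Vec n),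
    Nonempty Ω ∧
    (∀ ω t σ σ', Ag t σ σ' → X ω σ' t = X ω σ t) ∧
    (∀ ω σ t i, |X ω σ t i - X ω σ (t + 1) i - 2 * sg (σ t i)| ≤ 1) ∧
    (∀ σ Z, MeasurableSet {ω | cellOf (X ω σ 0) = Z} ∧
      μ {ω | cellOf (X ω σ 0) = Z} ≤ ENNReal.ofReal D) ∧
    (∀ k k' σ ω, mem k σ ω → mem k' σ ω → k = k') ∧
    (∀ k σ σ', Ag (T k) σ σ' → mem k σ' = mem k σ ∧ lb k σ' = lb k σ) ∧
    ∀ k σ U, IsCompact U → (∀ x ∈ U, ∀ i, x i ∈ Wn k (co σ i)) →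
      ∃ S, MeasurableSet S ∧ ENNReal.ofReal (lev k σ) * volume U ≤ μ S ∧
        ∀ ω ∈ S, mem k σ ω ∧ lb k σ ω ∈ U ∧
          ∀ i, Good k (co σ i) (lb k σ ω i) (X ω σ (T k) i)

/-- Target `τ` lies in block `j` of length `l` extended by `m`. -/
def Ext (l m j τ : ℕ) : Prop := j * l ≤ τ + m ∧ τ < (j + 1) * l + m

/-- The state at one level: blocks `j ∈ [lo, hi)` of length `l`. -/
def Lv (n l w B lo hi : ℕ) (lev D : ℝ) : Prop :=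
  ∃ sch : ℕ → ℕ → ℝ, (∀ j t, 1 ≤ sch j t) ∧ (∀ j t, (j - 2) * l ≤ t → sch j t = 4 * (w : ℝ)) ∧
    Sys n (ℕ × ℕ) (fun k => (k.1 - 2) * l)
      (fun k σ => Inv (1 / 2) w (100 * B * (w : ℝ) ^ 2 / l) (500 * (B : ℝ) ^ 2 * (w : ℝ) ^ 2 / l)
        (sch k.1) k.2 ((k.1 - 2) * l) σ)
      (fun k σ => {x | lo ≤ k.1 ∧ k.1 < hi ∧ Ext l (2 * w) k.1 k.2 ∧
        x ∈ Win w (sch k.1) k.2 ((k.1 - 2) * l) σ})
      (fun _ _ => lev) D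

/-- The fractional delivery game at scale `L`. -/
def FG (n L K : ℕ) (lev D : ℝ) : Prop :=
  Sys n ℕ (fun i => 4 * i) (fun _ _ _ q => |q| ≤ K)
    (fun i _ => {x | L ≤ i ∧ i < 3 * L ∧ x ∈ Icc (0 : ℝ) 1}) (fun _ _ => lev) D

end

end Pool.Agent.P.MP_767cd9_co.Q1
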