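import Pool.Agent.P.MP_767cd9_co.Q1.Defs
import Pool.Agent.P.MP_767cd9_co.Top

/-! From the fractional game to the integral game (generalisation of `frac`, `PP_step`,
`levels`, `main`). -/

namespace Pool.Agent.P.MP_767cd9_co.Q1

open Real MeasureTheory Set

noncomputable section

/-- the conclusion of the delivery lemma -/
def Deliv (n L K m q : ℕ) : Prop :=
  ∃ (C : Pt n × Fin q → (ℕ → Pt n) → ℕ → Pt n) (slot : (ℕ → Pt n) → ℕ → Fin m → Pt n × Fin q),
    (∀ β Z Z' i, (∀ a ≤ i, Z a = Z' a) → C β Z i = C β Z' i) ∧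
    (∀ Z Z' i, (∀ a ≤ i, Z a = Z' a) → slot Z i = slot Z' i) ∧
    (∀ Z i i' l l', L ≤ i → i < 3 * L → L ≤ i' → i' < 3 * L → slot Z i l = slot Z i' l' →
      i = i' ∧ l = l') ∧
    ∀ Z i l, L ≤ i → i < 3 * L → C (slot Z i l) Z 0 = Z 0 + (slot Z i l).1 ∧
      Nr K (C (slot Z i l) Z i) (Z i) ∧
      ∀ a < i, Nr 2 (Z a) (Z (a + 1)) → Nr 1 (C (slot Z i l) Z a) (C (slot Z i l) Z (a + 1))

/-- the path cut at time `4 i` -/
def Glue_tr {n : ℕ} (i : ℕ) (σ : PathD n) : PathD n :=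
  fun t => if t < 4 * i then σ t else fun _ => true

lemma Glue_ag {n : ℕ} (i : ℕ) (σ : PathD n) : Ag (4 * i) σ (Glue_tr i σ) := fun j hj => by
  simp only [Glue_tr, if_pos hj]

lemma Glue_tr_congr {n i : ℕ} {σ σ' : PathD n} (h : ∀ t < 4 * i, σ t = σ' t) :
    Glue_tr i σ = Glue_tr i σ' := by
  funext t
  simp only [Glue_tr]
  split_ifs with ht
  · exact h t ht
  · rfl

lemma Glue_back {n : ℕ} {Y : ℕ → Vec n} {σ : PathD n}
    (h : ∀ t i, |Y t i - Y (t + 1) i - 2 * sg (σ t i)| ≤ 1) (t : ℕ) (i : Fin (n + 1)) :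
    |Y 0 i| ≤ |Y t i| + 3 * t := by
  induction t with
  | zero => simp
  | succ t ih =>
    have h1 := abs_le.mp (h t i)
    have h2 : |sg (σ t i)| ≤ 1 := by unfold sg; split_ifs <;> simp
    have h3 := abs_le.mp h2
    have h4 : |Y t i| ≤ |Y (t + 1) i| + 3 := by
      have a1 := le_abs_self (Y (t + 1) i)
      have a2 := neg_abs_le (Y (t + 1) i)
      rw [abs_le]
      constructor <;> linarith [h1.1, h1.2, h3.1, h3.2]
    push_cast
    linarith

lemma Glue_cell {n : ℕ} {v : Vec n} {B : ℤ} {i : Fin (n + 1)} (h : |v i| ≤ B) :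
    |cellOf v i| ≤ B := by
  obtain ⟨h4, h5⟩ := abs_le.mp h
  rw [abs_le]
  constructor
  · exact Int.le_floor.mpr (by push_cast; linarith)
  · have := Int.floor_le (v i / 4)
    have : ((cellOf v i : ℤ) : ℝ) ≤ B := by unfold cellOf; linarith
    exact_mod_cast this

lemma Glue_step {n : ℕ} {Z : ℕ → Pt n} {Y : ℕ → Vec n}
    (h : ∀ t i, |Y t i - Y (t + 1) i - 2 * sg (sgn Z t i)| ≤ 1) {a : ℕ}
    (hZ : Nr 2 (Z a) (Z (a + 1))) :
    Nr 1 (Z a + cellOf (Y (4 * a))) (Z (a + 1) + cellOf (Y (4 * (a + 1)))) := by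
  intro c
  have s0 := abs_le.mp (h (4 * a) c)
  have s1 := abs_le.mp (h (4 * a + 1) c)
  have s2 := abs_le.mp (h (4 * a + 1 + 1) c)
  have s3 := abs_le.mp (h (4 * a + 1 + 1 + 1) c)
  have hs := sgn_sum Z a c (hZ c)
  have e : 4 * (a + 1) = 4 * a + 1 + 1 + 1 + 1 := by ring
  unfold cellOf
  simp only [Pi.add_apply]
  rw [e]
  set p := Y (4 * a) c
  set p' := Y (4 * a + 1 + 1 + 1 + 1) c
  push_cast at hs
  have g1 := Int.floor_le (p / 4)
  have g2 := Int.lt_floor_add_one (p / 4)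
  have g3 := Int.floor_le (p' / 4)
  have g4 := Int.lt_floor_add_one (p' / 4)
  have k1 : ((Z a c + ⌊p / 4⌋ - (Z (a + 1) c + ⌊p' / 4⌋) : ℤ) : ℝ) < 2 := by
    push_cast; linarith [s0.1, s0.2, s1.1, s1.2, s2.1, s2.2, s3.1, s3.2]
  have k2 : (-2 : ℝ) < ((Z a c + ⌊p / 4⌋ - (Z (a + 1) c + ⌊p' / 4⌋) : ℤ) : ℝ) := by
    push_cast; linarith [s0.1, s0.2, s1.1, s1.2, s2.1, s2.2, s3.1, s3.2]
  have k1' : Z a c + ⌊p / 4⌋ - (Z (a + 1) c + ⌊p' / 4⌋) < 2 := by exact_mod_cast k1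
  have k2' : -2 < Z a c + ⌊p / 4⌋ - (Z (a + 1) c + ⌊p' / 4⌋) := by exact_mod_cast k2
  rw [abs_le]; omega

lemma frac' {n L K m q : ℕ} {lev D : ℝ} (hlev : 0 < lev) (hD : 0 ≤ D) (h : FG n L K lev D)
    (hq : D / lev * m + 2 ^ (3 * L * (2 ^ (n + 1)) ^ (12 * L)) ≤ q) : Deliv n L K m q := by
  classical
  obtain ⟨Ω, _, μ, X, mem, lb, hne, X1, X2, X3, X4, X5, X6⟩ := h
  have hS : ∀ (k : ℕ) (σ : PathD n), ∃ S : Set Ω, MeasurableSet S ∧ (L ≤ k → k < 3 * L →
      ENNReal.ofReal lev ≤ μ S ∧ ∀ ω ∈ S, mem k σ ω ∧ ∀ i, |X ω σ (4 * k) i| ≤ K) := by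
    intro k σ
    by_cases hk : L ≤ k ∧ k < 3 * L
    · obtain ⟨S, a1, a2, a3⟩ := X6 k σ (Icc 0 1) isCompact_Icc
        fun x hx i => ⟨hk.1, hk.2, hx.1 i, hx.2 i⟩
      refine ⟨S, a1, fun _ _ => ⟨?_, fun ω hω => ⟨(a3 ω hω).1, (a3 ω hω).2.2⟩⟩⟩
      rw [Real.volume_Icc_pi] at a2
      simpa using a2
    · exact ⟨∅, MeasurableSet.empty, fun a b => absurd ⟨a, b⟩ hk⟩
  choose SS hS1 hS2 using hS
  let cell : Ω → Pt n := fun ω => cellOf (X ω (fun _ _ => true) 0)
  have hcell : ∀ ω σ, cellOf (X ω σ 0) = cell ω := fun ω σ => by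
    simp only [cell]
    rw [X1 ω 0 σ (fun _ _ => true) fun j hj => absurd hj (Nat.not_lt_zero j)]
  obtain ⟨CS, hCS⟩ : ∃ CS : Pt n → Set Ω, ∀ Y, CS Y = {ω | cell ω = Y} := ⟨_, fun _ => rfl⟩
  have hC1 : ∀ Y, MeasurableSet (CS Y) := fun Y => hCS Y ▸ (X3 (fun _ _ => true) Y).1
  have hC2 : ∀ Y, μ (CS Y) ≤ ENNReal.ofReal D := fun Y => hCS Y ▸ (X3 (fun _ _ => true) Y).2
  let ext : (Fin (12 * L) → Fin (n + 1) → Bool) → PathD n :=
    fun w t => if h : t < 12 * L then w ⟨t, h⟩ else fun _ => true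
  let A : Fin (3 * L) × (Fin (12 * L) → Fin (n + 1) → Bool) → Set Ω :=
    fun h => SS h.1 (Glue_tr h.1 (ext h.2))
  have hr : ∀ Y : Pt n, ∃ lab : Fin q → Ω, ∀ h, (m / lev : ℝ) *
      (μ (A h ∩ CS Y)).toReal ≤
        (Finset.univ.filter fun l => lab l ∈ A h ∩ CS Y).card := by
    intro Y
    refine round_meas μ A (fun h => hS1 _ _) _ (hC1 Y) (m / lev) D
      (by positivity) hD (hC2 Y) q ?_
    simp only [Fintype.card_prod, Fintype.card_fin, Fintype.card_fun, Fintype.card_bool]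
    refine le_trans (le_of_eq ?_) hq
    ring
  choose lab hlab using hr
  have hs : ∀ (i : ℕ) (τ : PathD n), ∃ f : Fin m → Pt n × Fin q,
      (∃ σ, L ≤ i ∧ i < 3 * L ∧ τ = Glue_tr i σ) →
        Function.Injective f ∧ ∀ l, lab (f l).1 (f l).2 ∈ SS i τ ∧
          cell (lab (f l).1 (f l).2) = (f l).1 := by
    intro i τ
    by_cases hex : ∃ σ, L ≤ i ∧ i < 3 * L ∧ τ = Glue_tr i σ
    swap
    · have hq0 : 0 < q := by
        have : (0 : ℝ) < q := lt_of_lt_of_le (by positivity) hq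
        exact_mod_cast this
      exact ⟨fun _ => (0, ⟨0, hq0⟩), fun h => absurd h hex⟩
    obtain ⟨σ, h1, h2, hτ⟩ := hex
    have hA : A (⟨i, h2⟩, fun t => σ t) = SS i τ := by
      simp only [A]
      rw [hτ, Glue_tr_congr (σ' := σ)]
      intro t ht
      simp only [ext]
      rw [dif_pos (by omega)]
    obtain ⟨d1, d2⟩ := hS2 i τ h1 h2
    set S := SS i τ with hS
    set box : Finset (Pt n) :=
      Fintype.piFinset fun _ => Finset.Icc (-(K + 12 * i : ℤ)) (K + 12 * i)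
    have hcov : S ⊆ ⋃ Y ∈ box, S ∩ CS Y := by
      intro ω hω
      simp only [mem_iUnion]
      refine ⟨cell ω, ?_, hω, by rw [hCS]; rfl⟩
      simp only [box, Fintype.mem_piFinset, Finset.mem_Icc]
      intro c
      rw [← hcell ω τ]
      refine abs_le.mp (Glue_cell ?_)
      have a1 := Glue_back (X2 ω τ) (4 * i) c
      have a2 := (d2 ω hω).2 c
      push_cast at a1 ⊢
      linarith
    have hfin : ∀ Y ∈ box, μ (S ∩ CS Y) ≠ ⊤ := fun Y _ =>
      ne_top_of_le_ne_top ENNReal.ofReal_ne_top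
        ((measure_mono inter_subset_right).trans (hC2 Y))
    have hm1 : lev ≤ ∑ Y ∈ box, (μ (S ∩ CS Y)).toReal := by
      rw [← ENNReal.toReal_sum hfin]
      refine (ENNReal.ofReal_le_iff_le_toReal (ENNReal.sum_ne_top.mpr hfin)).mp ?_
      exact d1.trans ((measure_mono hcov).trans (measure_biUnion_finset_le _ _))
    set T : Finset (Σ _ : Pt n, Fin q) :=
      box.sigma fun Y => Finset.univ.filter fun l => lab Y l ∈ S ∩ CS Y
    have hT : m ≤ T.card := by
      have : (m : ℝ) ≤ T.card := by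
        rw [Finset.card_sigma]
        push_cast
        refine le_trans ?_ (Finset.sum_le_sum fun Y _ => hA ▸ hlab Y (⟨i, h2⟩, fun t => σ t))
        rw [← Finset.mul_sum]
        calc (m : ℝ) = m / lev * lev := by field_simp
          _ ≤ _ := mul_le_mul_of_nonneg_left hm1 (by positivity)
      exact_mod_cast this
    obtain ⟨e⟩ := Function.Embedding.nonempty_of_card_le (α := Fin m) (β := T) (by simpa using hT)
    refine ⟨fun l => ((e l).1.1, (e l).1.2), fun _ => ⟨fun l l' hl => e.injective ?_, fun l => ?_⟩⟩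
    · obtain ⟨g1, g2⟩ := Prod.mk.inj hl
      exact Subtype.ext (Sigma.ext g1 (heq_of_eq g2))
    · have := (Finset.mem_filter.mp (Finset.mem_sigma.mp (e l).2).2).2
      rw [hCS] at this
      exact ⟨this.1, this.2⟩
  choose f hf using hs
  refine ⟨fun β Z i => Z i + cellOf (X (lab β.1 β.2) (sgn Z) (4 * i)),
    fun Z i => f i (Glue_tr i (sgn Z)), ?_, ?_, ?_, ?_⟩
  · intro β Z Z' i h
    simp only
    rw [h i le_rfl, X1 _ _ _ _ (sgn_congr h)]
  · intro Z Z' i h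
    simp only
    rw [Glue_tr_congr (sgn_congr h)]
  · intro Z i i' l l' h1 h2 h3 h4 he
    obtain ⟨a1, a2⟩ := hf i _ ⟨sgn Z, h1, h2, rfl⟩
    obtain ⟨-, b2⟩ := hf i' _ ⟨sgn Z, h3, h4, rfl⟩
    simp only at he
    have c1 := ((hS2 i _ h1 h2).2 _ (a2 l).1).1
    have c2 := ((hS2 i' _ h3 h4).2 _ (b2 l').1).1
    rw [(X5 i _ _ (Glue_ag i (sgn Z))).1] at c1
    rw [(X5 i' _ _ (Glue_ag i' (sgn Z))).1, ← he] at c2
    obtain rfl : i = i' := X4 _ _ _ _ c1 c2
    exact ⟨rfl, a1 he⟩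
  · intro Z i l h1 h2
    obtain ⟨-, a2⟩ := hf i _ ⟨sgn Z, h1, h2, rfl⟩
    obtain ⟨b1, b2⟩ := a2 l
    refine ⟨?_, fun c => ?_, fun a _ hZ => Glue_step (X2 _ (sgn Z)) hZ⟩
    · simp only [mul_zero]; rw [hcell, b2]
    · have := ((hS2 i _ h1 h2).2 _ b1).2 c
      rw [X1 _ _ _ _ (Glue_ag i (sgn Z))] at this
      simp only [Pi.add_apply, add_sub_cancel_left]
      exact Glue_cell (by exact_mod_cast this)

lemma PP_step' {n K : ℕ} (s L q : ℕ) (ι : Type) [Fintype ι] (hs : 0 < s) (hL : K + 3 ≤ L)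
    (hd : Deliv n L K (Fintype.card ι) q) (h : PP n s ι) :
    PP n (L * s) ((Fin (n + 1) → Fin L) × (Fin (n + 1) → Fin (4 * K + 31)) × Fin q) := by
  obtain ⟨F, F1, F2, F3, F4⟩ := h
  obtain ⟨C, slot, C1, S1, S2, S3⟩ := hd
  have e := Fintype.equivFin ι
  have hsZ : (0 : ℤ) < s := by exact_mod_cast hs
  let B := Pt n × (Fin (n + 1) → Fin L) × (Fin (n + 1) → Fin (4 * K + 31)) × Fin q
  let X : B → Pt n := fun β c => L * β.1 c + (β.2.1 c : ℕ)
  let x : B → Pt n := fun β c => ((β.2.2.1 c : ℕ) : ℤ) - (2 * K + 15)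
  let Z : (ℕ → Pt n) → ℕ → Pt n := fun r a c => r ((L - 1 + a) * s) c / s
  let rel : B → (ℕ → Pt n) → Pt n × Fin q := fun β r => (X β - Z r 0 - x β, β.2.2.2)
  let P : B → (ℕ → Pt n) → ℕ → ℕ × ι → Prop := fun β r t p =>
    L ≤ p.1 ∧ p.1 < 3 * L ∧ (L + p.1) * s < t ∧ slot (Z r) p.1 (e p.2) = rel β r
  let T : B → (ℕ → Pt n) → ℕ → Pt n := fun β r t =>
    match pick (P β r t) with
    | some p => F (x β + Z r p.1, p.2) (fun a => r ((L + p.1 + K) * s + a))
        (t - (L + p.1 + K) * s)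
    | none => if t ≤ L * s then (s : ℤ) • X β else
        (s : ℤ) • (x β + C (rel β r) (Z r) ((t - 1) / s + 1 - L))
  have hZc : ∀ (r r' : ℕ → Pt n) (t i : ℕ), (∀ a < t, r a = r' a) → (L - 1 + i) * s < t →
      ∀ a ≤ i, Z r a = Z r' a := by
    intro r r' t i h hi a ha
    funext c
    simp only [Z]
    rw [h _ (lt_of_le_of_lt (Nat.mul_le_mul_right s (by omega)) hi)]
  have hTc : ∀ β r r' t, (∀ a < t, r a = r' a) → T β r t = T β r' t := by
    intro β r r' t h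
    have hP : P β r t = P β r' t := by
      funext p
      simp only [P]
      refine propext (and_congr_right fun _ => and_congr_right fun _ => and_congr_right fun h3 => ?_)
      have := hZc r r' t p.1 h (lt_of_le_of_lt (Nat.mul_le_mul_right s (by omega)) h3)
      simp only [rel]
      rw [S1 _ _ _ this, this 0 (Nat.zero_le _)]
    simp only [T]
    rw [← hP]
    cases hp : pick (P β r t) with
    | some p =>
      have h3 := (pick_some hp).2.2.1
      have := hZc r r' t p.1 h (lt_of_le_of_lt (Nat.mul_le_mul_right s (by omega)) h3)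
      simp only
      rw [this p.1 le_rfl]
      exact F1 _ _ _ _ fun a ha => h _ (by omega)
    | none =>
      simp only
      split_ifs with ht
      · rfl
      · have h4 : L ≤ (t - 1) / s := (Nat.le_div_iff_mul_le hs).mpr (by omega)
        have h5 : (t - 1) / s * s ≤ t - 1 := Nat.div_mul_le_self _ _
        have := hZc r r' t ((t - 1) / s + 1 - L) h (by
          rw [show L - 1 + ((t - 1) / s + 1 - L) = (t - 1) / s by omega]; omega)
        simp only [rel]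
        rw [this 0 (Nat.zero_le _), C1 _ _ _ _ this]
  refine ⟨fun β r t => chase (((L * s : ℕ) : ℤ) • β.1) (T β r) t, ?_, fun _ _ => rfl,
    fun β r t => chase_lip _ _ _, ?_⟩
  · intro β r r' t h
    exact chase_congr _ _ fun a ha => hTc β r r' a fun b hb => h b (by omega)
  intro r hr t ht1 ht2
  -- the launching time
  obtain ⟨i, hi1, hi2, hi3, hi4⟩ : ∃ i, L ≤ i ∧ i < 3 * L ∧ (L + i + K) * s + 3 * s ≤ t ∧
      t < (L + i + K) * s + 4 * s := by
    have h1 : 3 * L ≤ t / s := (Nat.le_div_iff_mul_le hs).mpr (by nlinarith)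
    have h2 : t / s < 4 * L := (Nat.div_lt_iff_lt_mul hs).mpr (by nlinarith)
    have h3 : t / s * s ≤ t := Nat.div_mul_le_self _ _
    have h4 : t < (t / s + 1) * s := by
      have := Nat.lt_div_mul_add (a := t) hs
      linarith
    refine ⟨t / s - (K + 3) - L, by omega, by omega, ?_, ?_⟩
    · rw [← add_mul, show L + (t / s - (K + 3) - L) + K + 3 = t / s by omega]; exact h3
    · rw [← add_mul, show L + (t / s - (K + 3) - L) + K + 4 = t / s + 1 by omega]; exact h4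
  set t0 := (L + i + K) * s with ht0
  set r' : ℕ → Pt n := fun a => r (t0 + a) with hr'
  obtain ⟨⟨X', l'⟩, hβ⟩ := F4 r' (fun a => hr (t0 + a)) (t - t0) (by omega) (by omega)
  have hZ2 : ∀ a, Nr 2 (Z r a) (Z r (a + 1)) := by
    intro a c
    have := Nr_path hr ((L - 1 + a) * s) s c
    rw [show (L - 1 + a) * s + s = (L - 1 + (a + 1)) * s by ring] at this
    exact div_near hsZ this
  have hoff : ∀ c, |X' c - Z r i c| ≤ 2 * K + 15 := by
    intro c
    have a1 := abs_le.mp (Nr_path (F3 (X', l') r') 0 (t - t0 + 1) c)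
    rw [zero_add, hβ, F2] at a1
    have a2 := abs_le.mp (Nr_path hr ((L - 1 + i) * s) (t - (L - 1 + i) * s) c)
    have hle : (L - 1 + i) * s + (K + 1) * s = t0 := by
      rw [ht0, ← add_mul]; congr 1; omega
    rw [show (L - 1 + i) * s + (t - (L - 1 + i) * s) = t by omega] at a2
    have a3 : r' (t - t0) = r t := by simp only [hr']; congr 1; omega
    rw [a3] at a1
    have a4 := Int.mul_ediv_add_emod (r ((L - 1 + i) * s) c) s
    have a5 := Int.emod_nonneg (r ((L - 1 + i) * s) c) hsZ.ne'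
    have a6 := Int.emod_lt_of_pos (r ((L - 1 + i) * s) c) hsZ
    have a7 : ((t - t0 + 1 : ℕ) : ℤ) ≤ 4 * s := by omega
    have a8 : ((t - (L - 1 + i) * s : ℕ) : ℤ) ≤ K * s + 5 * s := by
      have : t - (L - 1 + i) * s ≤ K * s + 5 * s := by
        rw [add_mul K 1 s] at hle
        omega
      exact_mod_cast this
    apply near_scale hsZ
    simp only [Pi.smul_apply, smul_eq_mul] at a1
    simp only [Z]
    rw [mul_sub, abs_le]
    constructor <;> linarith [a1.1, a1.2, a2.1, a2.2]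
  set γ := slot (Z r) i (e l') with hγ
  set Xa : Pt n := γ.1 + Z r 0 + (X' - Z r i) with hXa
  have hLZ : (0 : ℤ) < L := by exact_mod_cast (by omega : 0 < L)
  let β : B := (fun c => Xa c / L,
    fun c => ⟨(Xa c % L).toNat, by
      have := Int.emod_lt_of_pos (Xa c) hLZ
      have := Int.emod_nonneg (Xa c) hLZ.ne'
      omega⟩,
    fun c => ⟨(X' c - Z r i c + (2 * K + 15)).toNat, by have := abs_le.mp (hoff c); omega⟩, γ.2)
  have hX : X β = Xa := by
    funext c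
    have := Int.emod_nonneg (Xa c) hLZ.ne'
    have := Int.mul_ediv_add_emod (Xa c) L
    simp only [X, β]
    omega
  have hx : x β = X' - Z r i := by
    funext c
    have := abs_le.mp (hoff c)
    simp only [x, β, Pi.sub_apply]
    omega
  have hrel : rel β r = γ := by
    simp only [rel, hX, hx, hXa]
    exact Prod.ext (by simp only; abel) rfl
  have hU : ∀ a p, P β r a p → p = (i, l') := by
    intro a p hp
    obtain ⟨g1, g2⟩ := S2 (Z r) p.1 i (e p.2) (e l') hp.1 hp.2.1 hi1 hi2 (hp.2.2.2.trans hrel)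
    exact Prod.ext g1 (e.injective g2)
  have hnone : ∀ a, a ≤ (L + i) * s → pick (P β r a) = none := by
    intro a ha
    refine pick_none fun p hp => ?_
    have := hp.2.2.1
    rw [hU a p hp] at this
    simp only at this
    omega
  obtain ⟨G1, G2, G3⟩ := S3 (Z r) i (e l') hi1 hi2
  rw [← hγ] at G1 G2 G3
  have hB : ∀ a ≤ i, chase (((L * s : ℕ) : ℤ) • β.1) (T β r) ((L + a) * s) =
      (s : ℤ) • (x β + C γ (Z r) a) := by
    intro a
    induction a with
    | zero =>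
      intro _
      have e0 : x β + C γ (Z r) 0 = X β := by rw [G1, hX, hx, hXa]; abel
      rw [e0]
      have := chase_const (((L * s : ℕ) : ℤ) • β.1) (T β r) ((s : ℤ) • X β) (L * s) 0 ?_ ?_
      · simpa using this
      · intro a _ ha
        simp only [T]
        rw [hnone a (by nlinarith), if_pos (by omega)]
      · intro c
        have hlt : ((β.2.1 c : ℕ) : ℤ) ≤ L := by exact_mod_cast (β.2.1 c).2.le
        have e1 : chase (((L * s : ℕ) : ℤ) • β.1) (T β r) 0 c - ((s : ℤ) • X β) c =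
            -(((β.2.1 c : ℕ) : ℤ) * s) := by
          simp only [chase, X, Pi.smul_apply, smul_eq_mul]; push_cast; ring
        rw [e1, abs_neg, abs_of_nonneg (by positivity)]
        push_cast
        exact mul_le_mul_of_nonneg_right hlt hsZ.le
    | succ a ih =>
      intro ha
      rw [show (L + (a + 1)) * s = (L + a) * s + s by ring]
      apply chase_const
      · intro b hb1 hb2
        have hb3 : (L + a) * s + s ≤ (L + i) * s := by nlinarith
        simp only [T]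
        rw [hnone b (by omega), if_neg (by nlinarith), hrel]
        have : (b - 1) / s = L + a := by
          apply Nat.div_eq_of_lt_le (by omega)
          rw [add_mul (L + a) 1 s]; omega
        rw [this, show L + a + 1 - L = a + 1 by omega]
      · rw [ih (by omega)]
        simpa using Nr_smul (s := s) (x β) (G3 a (by omega) (hZ2 a))
  have hT : ∀ a, (L + i) * s < a → T β r a = F (X', l') r' (a - t0) := by
    intro a ha
    simp only [T]
    rw [pick_eq (p := (i, l')) ⟨hi1, hi2, ha, hrel.symm⟩ (hU a)]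
    simp only
    rw [hx, sub_add_cancel]
  have ht0' : t0 = (L + i) * s + K * s := by rw [ht0]; ring
  have hC : chase (((L * s : ℕ) : ℤ) • β.1) (T β r) t0 = F (X', l') r' 0 := by
    rw [ht0']
    apply chase_const
    · intro b hb1 hb2
      rw [hT b hb1, show b - t0 = 0 by omega]
    · rw [hB i le_rfl, F2]
      have := Nr_smul (s := s) (x β) G2
      rw [hx, sub_add_cancel, ← hx] at this
      simpa using this
  refine ⟨β, ?_⟩
  have := chase_follow' _ (T β r) (F (X', l') r') t0 (t - t0 + 1) hC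
    (fun a _ _ => by rw [hT _ (by omega), Nat.add_sub_cancel_left]) (F3 _ _) (t - t0 + 1) le_rfl
  rw [hβ, show t0 + (t - t0 + 1) = t + 1 by omega] at this
  simp only [hr'] at this
  rw [show t0 + (t - t0) = t by omega] at this
  exact this

lemma Glue_levels {n K : ℕ} {C c' : ℝ} (hc' : 0 < c')
    (h : ∀ L0 : ℕ, ∃ (L : ℕ) (lev D : ℝ), L0 ≤ L ∧ 0 < lev ∧ 0 ≤ D ∧ FG n L K lev D ∧
      D / lev ≤ C * (L : ℝ) ^ c' * (1 / √L) ^ (n + 1)) :
    ∃ (L : ℕ) (R : ℝ), 2 ≤ L ∧ 0 ≤ R ∧ ∀ ℓ : ℕ, ∃ (ι : Type) (_ : Fintype ι),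
    PP n (L ^ ℓ) ι ∧
      (Fintype.card ι : ℝ) ≤ R * ((L : ℝ) ^ ℓ) ^ (((n + 1 : ℕ) : ℝ) / 2 + 2 * c') := by
  have ht := (tendsto_rpow_atTop hc').comp tendsto_natCast_atTop_atTop
  obtain ⟨L0, hL0'⟩ := Filter.eventually_atTop.mp ((Filter.eventually_ge_atTop (K + 3)).and
    ((ht.eventually_ge_atTop (2 * C * ((4 * K + 31 : ℕ) : ℝ) ^ (n + 1))).and
      (ht.eventually_ge_atTop 2)))
  obtain ⟨L, lev, D, hLL, hlev, hD, hF, hDl⟩ := h L0
  obtain ⟨hL1, hL2, hL3⟩ := hL0' L hLL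
  simp only [Function.comp_apply] at hL2 hL3
  have hLR : (1 : ℝ) ≤ L := by exact_mod_cast (by omega : 1 ≤ L)
  have hL0 : (0 : ℝ) < L := by linarith
  set b : ℝ := ((n + 1 : ℕ) : ℝ) / 2 + 2 * c' with hb
  set A : ℝ := D / lev with hA
  set K0 : ℝ := 2 ^ (3 * L * (2 ^ (n + 1)) ^ (12 * L)) with hK0
  set c : ℝ := (L : ℝ) ^ (n + 1) * (4 * K + 31) ^ (n + 1) with hc
  have hA0 : 0 ≤ A := by positivity
  have hK00 : 0 ≤ K0 := by positivity
  have hc0 : 0 ≤ c := by positivity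
  have hg : 2 * (c * A) ≤ (L : ℝ) ^ b := by
    have e1 : (L : ℝ) ^ (n + 1) * (1 / √L) ^ (n + 1) = (L : ℝ) ^ (((n + 1 : ℕ) : ℝ) / 2) := by
      rw [← mul_pow, mul_one_div, Real.div_sqrt, Real.sqrt_eq_rpow, ← Real.rpow_natCast,
        ← Real.rpow_mul hL0.le]
      congr 1; ring
    have e2 : (L : ℝ) ^ b = (L : ℝ) ^ c' * ((L : ℝ) ^ (((n + 1 : ℕ) : ℝ) / 2) * (L : ℝ) ^ c') := by
      rw [← Real.rpow_add hL0, ← Real.rpow_add hL0]
      congr 1; rw [hb]; ring
    rw [e2, ← e1]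
    calc _ ≤ 2 * (c * (C * (L : ℝ) ^ c' * (1 / √L) ^ (n + 1))) := by gcongr
      _ = (2 * C * ((4 * K + 31 : ℕ) : ℝ) ^ (n + 1)) * ((L : ℝ) ^ (n + 1) * (1 / √L) ^ (n + 1) *
          (L : ℝ) ^ c') := by rw [hc]; push_cast; ring
      _ ≤ _ := mul_le_mul_of_nonneg_right hL2 (by positivity)
  have hg2 : 2 ≤ (L : ℝ) ^ b := by
    refine hL3.trans (Real.rpow_le_rpow_of_exponent_le hLR ?_)
    have := Nat.cast_nonneg (α := ℝ) (n + 1)
    rw [hb]; linarith
  refine ⟨L, c * (K0 + 1) + 1, by omega, by positivity, fun ℓ => ?_⟩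
  have e : ∀ ℓ : ℕ, ((L : ℝ) ^ ℓ) ^ b = ((L : ℝ) ^ b) ^ ℓ := fun ℓ => by
    rw [← Real.rpow_natCast, ← Real.rpow_natCast, ← Real.rpow_mul hL0.le, ← Real.rpow_mul hL0.le,
      mul_comm]
  rw [e]
  induction ℓ with
  | zero =>
    refine ⟨Unit, inferInstance, PP_base, ?_⟩
    have : 0 ≤ c * (K0 + 1) := by positivity
    simpa using this
  | succ ℓ ih =>
    obtain ⟨ι, _, h1, h2⟩ := ih
    refine ⟨_, inferInstance, pow_succ' L ℓ ▸ PP_step' (L ^ ℓ) L ⌈A * Fintype.card ι + K0⌉₊ ι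
      (pow_pos (by omega) _) (by omega) (frac' hlev hD hF (Nat.le_ceil _)) h1, ?_⟩
    simp only [Fintype.card_prod, Fintype.card_fun, Fintype.card_fin]
    push_cast
    have h3 : (⌈A * Fintype.card ι + K0⌉₊ : ℝ) ≤ A * Fintype.card ι + K0 + 1 :=
      (Nat.ceil_lt_add_one (by positivity)).le
    have h4 : (1 : ℝ) ≤ ((L : ℝ) ^ b) ^ ℓ := one_le_pow₀ (by linarith)
    set P := ((L : ℝ) ^ b) ^ ℓ
    set R := c * (K0 + 1) + 1 with hR
    have hK1 : 0 ≤ R := by positivity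
    calc _ = c * (⌈A * Fintype.card ι + K0⌉₊ : ℝ) := by rw [hc]; ring
      _ ≤ c * (A * (R * P) + K0 + 1) := by
          gcongr
          exact h3.trans (by gcongr)
      _ ≤ (c * A) * (R * P) + R * P := by nlinarith
      _ ≤ (L : ℝ) ^ b * (R * P) := by nlinarith [mul_nonneg hK1 (by linarith : 0 ≤ P)]
      _ = _ := by rw [pow_succ]; ring

/-- the fractional game at arbitrarily large scales gives the bound on the number of cops -/
lemma main' {n K : ℕ} {C c : ℝ} (hc : 0 < c)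
    (h : ∀ L0 : ℕ, ∃ (L : ℕ) (lev D : ℝ), L0 ≤ L ∧ 0 < lev ∧ 0 ≤ D ∧ FG n L K lev D ∧
      D / lev ≤ C * (L : ℝ) ^ c * (1 / √L) ^ (n + 1)) :
    ∃ N0 : ℕ, ∀ N ≥ N0, ∃ (k t0 : ℕ) (p : Fin k → Pt n) (G : Fin k → (ℕ → Pt n) → ℕ → Pt n),
      (k : ℝ) ≤ (N : ℝ) ^ (((n + 1 : ℕ) : ℝ) / 2 + 3 * c) ∧
      (∀ β r r' t, (∀ a < t, r a = r' a) → G β r t = G β r' t) ∧ (∀ β r, G β r 0 = p β) ∧
      (∀ β r t, Nr 1 (G β r t) (G β r (t + 1))) ∧
      ∀ r, (∀ t, Nr 2 (r t) (r (t + 1))) → (∀ t c, |r t c| ≤ (N : ℤ)) →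
        ∀ t, t0 ≤ t → ∃ β, G β r (t + 1) = r t := by
  replace h := Glue_levels hc h
  obtain ⟨L, R, hL, hK, h⟩ := h
  set b : ℝ := ((n + 1 : ℕ) : ℝ) / 2 + 2 * c with hb
  have hb0 : 0 ≤ b := by rw [hb]; have := Nat.cast_nonneg (α := ℝ) (n + 1); linarith
  have := ((tendsto_rpow_atTop hc).comp
    tendsto_natCast_atTop_atTop).eventually_ge_atTop (8 * 27 ^ (n + 1) * R * (L : ℝ) ^ b)
  obtain ⟨N0, hN0⟩ := Filter.eventually_atTop.mp ((Filter.eventually_ge_atTop 2).and this)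
  refine ⟨N0, fun N hN => ?_⟩
  obtain ⟨hN2, hN3⟩ := hN0 N hN
  obtain ⟨ι, _, h1, h2⟩ := h (Nat.clog L N)
  obtain ⟨p, G, G1, G2, G3, G4⟩ := top_level (by positivity) h1
  have e := (Fintype.equivFin (Fin 8 × (Fin (n + 1) → Fin 27) × ι)).symm
  have l1 : N ≤ L ^ Nat.clog L N := Nat.le_pow_clog (by omega) N
  have l2 : L ^ Nat.clog L N ≤ L * N := by
    have a1 := Nat.pow_pred_clog_lt_self (b := L) (by omega) (x := N) (by omega)
    have a2 : 0 < Nat.clog L N := Nat.clog_pos (by omega) (by omega)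
    rw [show Nat.clog L N = (Nat.clog L N).pred + 1 by rw [Nat.pred_eq_sub_one]; omega, pow_succ']
    exact Nat.mul_le_mul_left _ a1.le
  refine ⟨_, 3 * L ^ Nat.clog L N, fun i => p (e i), fun i => G (e i), ?_, fun β => G1 _,
    fun β => G2 _, fun β => G3 _, fun r hr hN t ht => ?_⟩
  · simp only [Fintype.card_prod, Fintype.card_fun, Fintype.card_fin]
    push_cast
    have hNR : (0 : ℝ) < N := by exact_mod_cast (by omega : 0 < N)
    have l3 : ((L : ℝ) ^ Nat.clog L N) ^ b ≤ (L : ℝ) ^ b * (N : ℝ) ^ b := by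
      rw [← Real.mul_rpow (by positivity) (by positivity)]
      exact Real.rpow_le_rpow (by positivity) (by exact_mod_cast l2) hb0
    calc _ ≤ 8 * (27 ^ (n + 1) * (R * ((L : ℝ) ^ b * (N : ℝ) ^ b))) := by
          gcongr
          exact h2.trans (by gcongr)
      _ = (8 * 27 ^ (n + 1) * R * (L : ℝ) ^ b) * (N : ℝ) ^ b := by ring
      _ ≤ (N : ℝ) ^ c * (N : ℝ) ^ b := by gcongr; exact hN3
      _ = _ := by rw [← Real.rpow_add hNR, hb]; push_cast; congr 1; ring
  · obtain ⟨β, hβ⟩ := G4 r hr (fun t c => (hN t c).trans (by exact_mod_cast l1)) t ht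
    exact ⟨e.symm β, by simpa using hβ⟩

end

end Pool.Agent.P.MP_767cd9_co.Q1
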