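import Pool.Agent.P.MP_767cd9_co.Q1.Basic

/-! The slack function along natural trajectories. -/

namespace Pool.Agent.P.MP_767cd9_co.Q1

open Real

noncomputable section

section
variable {c c' W W' W1 e1 e1' u u' r X h h' e : ℝ}

lemma th_le (e h : ℝ) : th e h ≤ h := by
  exact min_le_left _ _

lemma th_le_max (e h : ℝ) : th e h ≤ max 0 (h - e) := by
  exact min_le_right _ _

lemma le_th (he : 0 ≤ e) (h : ℝ) : h - e ≤ th e h := by
  exact le_min (by linarith) (le_max_right _ _)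

lemma th_nonneg (hh : 0 ≤ h) : 0 ≤ th e h := by
  exact le_min hh (le_max_left _ _)

lemma th_of_nonpos (hh : h ≤ 0) : th e h = h := by
  exact min_eq_left (hh.trans (le_max_left _ _))

lemma th_lip {x : ℝ} (hx : 0 ≤ x) (hh : h' ≤ h + x) : th e h' ≤ th e h + x := by
  unfold th
  rw [← min_add_add_right]
  refine min_le_min hh (max_le ?_ ?_)
  · have := le_max_left 0 (h - e)
    linarith
  · have := le_max_right 0 (h - e)
    linarith

lemma Gstep_th_mono (h0 : h' ≤ h) : th e h' ≤ th e h := by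
  have := th_lip (e := e) (h := h) (h' := h') (le_refl 0) (by linarith)
  linarith

lemma Gstep_mu0 (hu : 0 < u) (hX : u ≤ X) : 0 ≤ min 1 (2 * (X - u) / u) :=
  le_min zero_le_one (div_nonneg (by linarith) hu.le)

lemma Gstep_hh_fst (W u X : ℝ) (hr1 : r ≤ 1) :
    hh W u r X ≤ 4 * (1 - r) * (u * (2 * u - X) / r) :=
  mul_le_mul_of_nonneg_left (min_le_left _ _) (by linarith)

lemma Gstep_hh_snd (W u X : ℝ) (hr1 : r ≤ 1) :
    hh W u r X ≤ 4 * (1 - r) * (W * min 1 (2 * (X - u) / u)) :=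
  mul_le_mul_of_nonneg_left (min_le_right _ _) (by linarith)

lemma Gstep_hh_le (hu : 0 < u) (hr : 0 < r) (hr1 : r ≤ 1) (hW : 0 ≤ W) (hX : u < X) :
    hh W u r X ≤ 8 * W * (X - u) / u := by
  have h1 : W * min 1 (2 * (X - u) / u) ≤ W * (2 * (X - u) / u) :=
    mul_le_mul_of_nonneg_left (min_le_right _ _) hW
  have h0 := mul_nonneg hW (Gstep_mu0 hu hX.le)
  have h2 := Gstep_hh_snd W u X hr1
  have e : 8 * W * (X - u) / u = 4 * (W * (2 * (X - u) / u)) := by ring
  nlinarith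

lemma GG_le_sq (hc : c ≤ 1) (hu : 0 < u) (hr : 0 < r) (hr1 : r ≤ 1) (hW : 0 ≤ W)
    (he : 16 * W ^ 2 ≤ e1 * u ^ 2) : GG c W e1 u r X ≤ (X - u) ^ 2 := by
  unfold GG
  split_ifs with hX
  · nlinarith [sq_nonneg (X - u)]
  · refine (th_le_max _ _).trans (max_le (sq_nonneg _) ?_)
    have h1 := Gstep_hh_le (W := W) (r := r) hu hr hr1 hW (not_le.1 hX)
    have h2 : 8 * W * (X - u) / u ≤ (X - u) ^ 2 + e1 := by
      rw [div_le_iff₀ hu]
      refine le_of_mul_le_mul_right ?_ hu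
      nlinarith [sq_nonneg ((X - u) * u - 4 * W)]
    linarith

lemma GG_nonneg (hc : 0 ≤ c) (hu : 0 < u) (hr : 0 < r) (hr1 : r ≤ 1) (hW : 0 ≤ W)
    (hX : X ≤ 2 * u) : 0 ≤ GG c W e1 u r X := by
  unfold GG
  split_ifs with h
  · positivity
  · refine th_nonneg (mul_nonneg (by linarith) (le_min ?_ (mul_nonneg hW (Gstep_mu0 hu ?_))))
    · exact div_nonneg (mul_nonneg hu.le (by linarith)) hr.le
    · exact (not_le.1 h).le

lemma GG_le_of_gt (hu : 0 < u) (hr : 0 < r) (hr1 : r ≤ 1) (hW : 0 ≤ W) (hX : u < X) :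
    GG c W e1 u r X ≤ 4 * W * (1 - r) := by
  unfold GG
  rw [if_neg (not_le.2 hX)]
  refine (th_le _ _).trans ?_
  have h1 : W * min 1 (2 * (X - u) / u) ≤ W * 1 := mul_le_mul_of_nonneg_left (min_le_left _ _) hW
  have h2 := Gstep_hh_snd W u X hr1
  nlinarith

lemma GG_mono (hc : c ≤ c') (hW : W ≤ W') (hu : 0 < u) (hr1 : r ≤ 1) :
    GG c W e1 u r X ≤ GG c' W' e1 u r X := by
  unfold GG
  split_ifs with h
  · exact mul_le_mul_of_nonneg_right hc (sq_nonneg _)
  · refine Gstep_th_mono (mul_le_mul_of_nonneg_left (min_le_min le_rfl ?_) (by linarith))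
    exact mul_le_mul_of_nonneg_right hW (Gstep_mu0 hu (not_le.1 h).le)

lemma GG_e1 (he : 0 ≤ e1) : GG c W e1' u r X ≤ GG c W e1 u r X + e1 := by
  unfold GG
  split_ifs with h
  · linarith
  · have h1 := th_le e1' (hh W u r X)
    have h2 := le_th he (hh W u r X)
    linarith

lemma Gstep_d (hu' : 1 ≤ u') (hu : 0 < u) (huu : u' ^ 2 + 1 = u ^ 2) :
    0 < u - u' ∧ u - u' ≤ 1 / 2 ∧ (u - u') * (u + u') = 1 := by
  have h1 : (u - u') * (u + u') = 1 := by linarith
  have h2 : 0 < u - u' := by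
    by_contra hn
    nlinarith [not_lt.1 hn]
  refine ⟨h2, ?_, h1⟩
  nlinarith

lemma Gstep_lead_low (hc0 : 0 ≤ c) (hc : c ≤ 1) (hu' : 1 ≤ u') (hu : 0 < u)
    (huu : u' ^ 2 + 1 = u ^ 2) (hr : 0 < r) (hr1 : r ≤ 1) (hW : 0 ≤ W1)
    (hX' : X - (2 * u - 2 * u') ≤ u') :
    GG c W1 e1 u' (r * u' / u) (X - (2 * u - 2 * u')) ≤
      GG c W1 e1 u r X + (2 * u - X) * (2 * u - 2 * u') := by
  obtain ⟨hd, hd1, hdd⟩ := Gstep_d hu' hu huu
  have e : GG c W1 e1 u' (r * u' / u) (X - (2 * u - 2 * u')) =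
      c * (X - (2 * u - 2 * u') - u') ^ 2 := if_pos hX'
  rw [e]
  rcases le_or_gt X u with hX | hX
  · have e' : GG c W1 e1 u r X = c * (X - u) ^ 2 := if_pos hX
    rw [e']
    have h1 : 0 ≤ (X - (2 * u - 2 * u') - u') ^ 2 - (X - u) ^ 2 := by nlinarith
    have h2 := mul_le_mul_of_nonneg_right hc h1
    nlinarith
  · have h0 : 0 ≤ GG c W1 e1 u r X := GG_nonneg hc0 hu hr hr1 hW (by linarith)
    have h2 := mul_le_mul_of_nonneg_right hc (sq_nonneg (X - (2 * u - 2 * u') - u'))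
    have h3 : (X - (2 * u - 2 * u') - u') ^ 2 ≤ (u - u') ^ 2 := by nlinarith
    nlinarith

lemma Gstep_r' (hu' : 0 < u') (hu : 0 < u) (hd : 0 ≤ u - u') (hr1 : r ≤ 1) : r * u' / u ≤ 1 := by
  rw [div_le_one hu]
  nlinarith

lemma Gstep_lead_fst (W X : ℝ) (hu' : 0 < u') (hu : 0 < u) (hd : 0 ≤ u - u') (hr : 0 < r)
    (hr1 : r ≤ 1) :
    hh W u' (r * u' / u) (X - (2 * u - 2 * u')) ≤
      4 * (1 - r) * (u * (2 * u - X) / r) + 2 * (2 * u - X) * (2 * u - 2 * u') := by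
  refine (Gstep_hh_fst _ _ _ (Gstep_r' hu' hu hd hr1)).trans (le_of_eq ?_)
  field_simp
  ring

lemma Gstep_lead_snd (hu' : 0 < u') (hu : 0 < u) (hd : 0 ≤ u - u') (hr : 0 < r)
    (hr1 : r ≤ 1) (hW : 0 ≤ W) (hY : 0 ≤ 2 * u - X) :
    hh W u' (r * u' / u) (X - (2 * u - 2 * u')) ≤
      4 * (1 - r) * (W * min 1 (2 * (X - u) / u)) +
        4 * (u - u') * (W * min 1 (2 * (X - u) / u) * r / u) := by
  have h1 := Gstep_r' hu' hu hd hr1
  refine (Gstep_hh_snd _ _ _ h1).trans ?_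
  have h2 : min 1 (2 * (X - (2 * u - 2 * u') - u') / u') ≤ min 1 (2 * (X - u) / u) := by
    refine min_le_min le_rfl ?_
    rw [div_le_div_iff₀ hu' hu]
    nlinarith
  refine (mul_le_mul_of_nonneg_left (mul_le_mul_of_nonneg_left h2 hW) (by linarith)).trans
    (le_of_eq ?_)
  field_simp
  ring

/-- leading step; `k' = k + 2 Δ` for `k = 4 u (1 - r) / r` -/
lemma G_lead (hc0 : 0 ≤ c) (hc : c ≤ 1) (hu' : 1 ≤ u') (hu : 0 < u) (huu : u' ^ 2 + 1 = u ^ 2)
    (hr : 0 < r) (hr1 : r ≤ 1) (hW : 0 ≤ W1) :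
    GG c W1 e1 u' (r * u' / u) (X - (2 * u - 2 * u')) ≤
      GG c W1 e1 u r X + 2 * (2 * u - X) * (2 * u - 2 * u') := by
  obtain ⟨hd, hd1, hdd⟩ := Gstep_d hu' hu huu
  have hu0 : 0 < u' := by linarith
  by_cases hX' : X - (2 * u - 2 * u') ≤ u'
  · have := Gstep_lead_low (e1 := e1) hc0 hc hu' hu huu hr hr1 hW hX'
    have hY : 0 ≤ (2 * u - X) * (2 * u - 2 * u') := mul_nonneg (by linarith) (by linarith)
    linarith
  · have hX : u < X := by linarith [not_le.1 hX']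
    have hf := Gstep_lead_fst W1 X hu0 hu hd.le hr hr1
    have hmu := mul_nonneg hW (Gstep_mu0 hu hX.le)
    unfold GG
    rw [if_neg hX', if_neg (not_le.2 hX)]
    rcases le_total (2 * u - X) 0 with hY | hY
    · have hA : u * (2 * u - X) / r ≤ 0 :=
        div_nonpos_of_nonpos_of_nonneg (mul_nonpos_of_nonneg_of_nonpos hu.le hY) hr.le
      have e : hh W1 u r X = 4 * (1 - r) * (u * (2 * u - X) / r) := by
        unfold hh
        rw [min_eq_left (hA.trans hmu)]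
      rw [th_of_nonpos (h := hh W1 u r X)
        (by rw [e]; exact mul_nonpos_of_nonneg_of_nonpos (by linarith) hA), e]
      exact (th_le _ _).trans hf
    · refine th_lip (mul_nonneg (by linarith) (by linarith)) ?_
      rcases le_total (u * (2 * u - X) / r) (W1 * min 1 (2 * (X - u) / u)) with h | h
      · have e : hh W1 u r X = 4 * (1 - r) * (u * (2 * u - X) / r) := by
          unfold hh
          rw [min_eq_left h]
        rw [e]
        exact hf
      · have e : hh W1 u r X = 4 * (1 - r) * (W1 * min 1 (2 * (X - u) / u)) := by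
          unfold hh
          rw [min_eq_right h]
        have hs := Gstep_lead_snd hu0 hu hd.le hr hr1 hW hY
        have h3 : W1 * min 1 (2 * (X - u) / u) * r / u ≤ 2 * u - X := by
          rw [le_div_iff₀ hr] at h
          rw [div_le_iff₀ hu]
          linarith
        rw [e]
        nlinarith

/-- leading step away from the edge: half of the increment is left over -/
lemma G_lead_margin (hc0 : 0 ≤ c) (hc : c ≤ 1) (hu' : 1 ≤ u') (hu : 0 < u)
    (huu : u' ^ 2 + 1 = u ^ 2) (hr : 0 < r) (hr1 : r ≤ 1) (hW : 0 ≤ W1)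
    (hY : 2 * W1 ≤ u * (2 * u - X)) :
    GG c W1 e1 u' (r * u' / u) (X - (2 * u - 2 * u')) ≤
      GG c W1 e1 u r X + (2 * u - X) * (2 * u - 2 * u') := by
  obtain ⟨hd, hd1, hdd⟩ := Gstep_d hu' hu huu
  have hu0 : 0 < u' := by linarith
  by_cases hX' : X - (2 * u - 2 * u') ≤ u'
  · exact Gstep_lead_low hc0 hc hu' hu huu hr hr1 hW hX'
  · have hX : u < X := by linarith [not_le.1 hX']
    have hY0 : 0 ≤ 2 * u - X := by
      by_contra hn
      nlinarith [not_le.1 hn]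
    have hm0 := Gstep_mu0 hu hX.le
    have hm1 : W1 * min 1 (2 * (X - u) / u) ≤ W1 * 1 :=
      mul_le_mul_of_nonneg_left (min_le_left _ _) hW
    have hm2 : W1 * min 1 (2 * (X - u) / u) * r ≤ W1 * min 1 (2 * (X - u) / u) * 1 :=
      mul_le_mul_of_nonneg_left hr1 (mul_nonneg hW hm0)
    unfold GG
    rw [if_neg hX', if_neg (not_le.2 hX)]
    refine th_lip (mul_nonneg hY0 (by linarith)) ?_
    have h : W1 * min 1 (2 * (X - u) / u) ≤ u * (2 * u - X) / r := by
      rw [le_div_iff₀ hr]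
      linarith
    have e : hh W1 u r X = 4 * (1 - r) * (W1 * min 1 (2 * (X - u) / u)) := by
      unfold hh
      rw [min_eq_right h]
    have hs := Gstep_lead_snd hu0 hu hd.le hr hr1 hW hY0
    have h3 : W1 * min 1 (2 * (X - u) / u) * r / u ≤ (2 * u - X) / 2 := by
      rw [div_le_iff₀ hu]
      linarith
    rw [e]
    nlinarith

lemma Gstep_big (hu' : 0 < u') (hu : 0 < u) (huu : u' ^ 2 + 1 = u ^ 2) (hW : 1 ≤ W)
    (hs : 1000 * W ≤ u' ^ 2) :
    31 ≤ u' ∧ 0 < u - u' ∧ u - u' ≤ 1 / 60 ∧ 0.49 ≤ (u - u') * u' ∧ (u - u') * u' ≤ 1 / 2 := by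
  have h0 : 31 ≤ u' := by
    by_contra hn
    nlinarith [not_le.1 hn]
  obtain ⟨hd, -, hdd⟩ := Gstep_d (by linarith) hu huu
  have h1 : (u - u') * u' ≤ 1 / 2 := by nlinarith
  have h2 : u - u' ≤ 1 / 60 := by nlinarith
  refine ⟨h0, hd, h2, ?_, h1⟩
  nlinarith

lemma Gstep_trail_fst {τ : ℝ} (hu' : 31 ≤ u') (hd : 0 < u - u') (hlo : 0.49 ≤ (u - u') * u')
    (hhi : (u - u') * u' ≤ 1 / 2) (hr : 0 < r) (hr1 : r ≤ 1) (hW : 1 ≤ W)
    (hs : 1000 * W ≤ u' ^ 2) (hT : 0 < τ) (hT1 : τ ≤ 1 / 4) (hTW : τ * W = 1 / 4)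
    (hw : u * (X - 2 * u) ≤ 2 * W * r) :
    (1 - τ) * (u' * (2 * u' - X)) * r ≤ u * (2 * u - X) * (r + (1 - r) * τ) := by
  have hu0 : 0 < u' := by linarith
  have hu : 0 < u := by linarith
  rcases le_total 0 (2 * u - X) with hY | hY
  · have h1 : u' * (2 * u' - X) ≤ u * (2 * u - X) := by nlinarith
    have h2 : 0 ≤ u * (2 * u - X) := mul_nonneg hu.le hY
    have h3 : (1 - τ) * (u' * (2 * u' - X)) ≤ (1 - τ) * (u * (2 * u - X)) :=
      mul_le_mul_of_nonneg_left h1 (by linarith)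
    have h4 := mul_le_mul_of_nonneg_right h3 hr.le
    have h5 := mul_nonneg h2 hT.le
    nlinarith
  · have h1 : u * (X - 2 * u) * τ ≤ 2 * W * r * τ := mul_le_mul_of_nonneg_right hw hT.le
    have h2 : 2 * W * r * τ = r / 2 := by
      have : 2 * W * r * τ = 2 * r * (τ * W) := by ring
      rw [this, hTW]
      ring
    have h3 : u' * (X - 2 * u) ≤ 2 * W := by nlinarith
    have h4 : (u - u') * (X - 2 * u) ≤ 1 / 100 := by
      refine le_of_mul_le_mul_right ?_ (mul_pos hu0 hu0)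
      have : (u - u') * u' * (u' * (X - 2 * u)) ≤ 1 / 2 * (2 * W) :=
        mul_le_mul hhi h3 (mul_nonneg hu0.le (by linarith)) (by norm_num)
      nlinarith
    have h5 : 0.97 ≤ u * (2 * u - X) - u' * (2 * u' - X) := by nlinarith
    have h6 : 3 / 4 * 0.97 ≤ (1 - τ) * (u * (2 * u - X) - u' * (2 * u' - X)) :=
      mul_le_mul (by linarith) h5 (by norm_num) (by linarith)
    have h7 := mul_le_mul_of_nonneg_right h6 hr.le
    nlinarith

lemma Gstep_trail_snd {τ : ℝ} (hu' : 31 ≤ u') (hd : 0 < u - u') (hhi : (u - u') * u' ≤ 1 / 2)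
    (hW : 1 ≤ W) (hs : 1000 * W ≤ u' ^ 2) (hT : 0 < τ) (hT1 : τ ≤ 1 / 4) (hTW : τ * W = 1 / 4)
    (hm : 16 * W * (u - u') ≤ X - u) :
    (1 - τ) * (2 * (X - u')) * u ≤ 2 * (X - u) * u' := by
  have hu0 : 0 < u' := by linarith
  have hm0 : 0 ≤ X - u := le_trans (by positivity) hm
  have h1 : u - u' ≤ τ / 4 * (X - u) := by
    have := mul_le_mul_of_nonneg_left hm hT.le
    have e : τ * (16 * W * (u - u')) = 16 * (τ * W) * (u - u') := by ring
    rw [e, hTW] at this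
    linarith
  have h2 : u - u' ≤ τ / 4 * u' := by
    refine le_of_mul_le_mul_right ?_ hu0
    have := mul_le_mul_of_nonneg_left hs hT.le
    have e : τ * (1000 * W) = 1000 * (τ * W) := by ring
    rw [e, hTW] at this
    nlinarith
  have h3 : (X - u') * u ≤ ((1 + τ / 4) * (X - u)) * ((1 + τ / 4) * u') :=
    mul_le_mul (by linarith) (by linarith) (by linarith) (by positivity)
  have h4 : (1 - τ) * (1 + τ / 4) ^ 2 ≤ 1 := by nlinarith [mul_pos hT hT]
  have h5 := mul_le_mul_of_nonneg_left h3 (by linarith : 0 ≤ 1 - τ)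
  have h6 := mul_le_mul_of_nonneg_right h4 (mul_nonneg hm0 hu0.le)
  nlinarith

/-- trailing step -/
lemma G_trail (hc0 : 0 ≤ c) (hu' : 0 < u') (hu : 0 < u) (huu : u' ^ 2 + 1 = u ^ 2)
    (hr : 0 < r) (hr1 : r ≤ 1) (hW : 1 ≤ W) (hW0 : 0 ≤ W1) (hW1 : W1 ≤ W)
    (hs : 1000 * W ≤ u' ^ 2) (he : 72 * W ^ 2 ≤ e1 * u' ^ 2)
    (hw : -(2 * W * r / u) ≤ 2 * u - X) :
    GG c W1 e1 u' (r + (1 - r) / (4 * W)) X ≤ GG c W1 e1 u r X := by
  obtain ⟨hu31, hd, hd60, hlo, hhi⟩ := Gstep_big hu' hu huu hW hs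
  have hT : 0 < 1 / (4 * W) := by positivity
  have hT1 : 1 / (4 * W) ≤ 1 / 4 := one_div_le_one_div_of_le (by norm_num) (by linarith)
  have hTW : 1 / (4 * W) * W = 1 / 4 := by field_simp
  have er : r + (1 - r) / (4 * W) = r + (1 - r) * (1 / (4 * W)) := by ring
  rw [er]
  generalize 1 / (4 * W) = τ at hT hT1 hTW
  have hr' : 0 < r + (1 - r) * τ := by nlinarith
  have hr1' : r + (1 - r) * τ ≤ 1 := by nlinarith
  by_cases hX' : X ≤ u'
  · unfold GG
    rw [if_pos hX', if_pos (by linarith)]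
    refine mul_le_mul_of_nonneg_left ?_ hc0
    nlinarith
  have hX' := not_le.1 hX'
  rcases lt_or_ge (X - u) (16 * W * (u - u')) with hm | hm
  · have hWd : W * (u - u') * u' ≤ W / 2 := by nlinarith
    have hX2 : X ≤ 2 * u := by
      have : 16 * W * (u - u') ≤ u' := by
        refine le_of_mul_le_mul_right ?_ hu'
        nlinarith
      linarith
    refine le_trans ?_ (GG_nonneg hc0 hu hr hr1 hW0 hX2)
    unfold GG
    rw [if_neg (not_le.2 hX')]
    refine (th_le_max _ _).trans (max_le le_rfl ?_)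
    have h1 := Gstep_hh_le (W := W1) hu' hr' hr1' hW0 hX'
    have h2 : 8 * W1 * (X - u') / u' ≤ e1 := by
      rw [div_le_iff₀ hu']
      refine le_of_mul_le_mul_right ?_ hu'
      have h3 : X - u' ≤ 17 * W * (u - u') := by nlinarith
      have h4 : (X - u') * u' ≤ 9 * W := by nlinarith
      have h5 : W1 * ((X - u') * u') ≤ W * (9 * W) :=
        mul_le_mul hW1 h4 (mul_nonneg (by linarith) hu'.le) (by linarith)
      nlinarith
    linarith
  · have hX : u < X := by nlinarith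
    unfold GG
    rw [if_neg (not_le.2 hX'), if_neg (not_le.2 hX)]
    refine Gstep_th_mono ?_
    unfold hh
    have e1r : 4 * (1 - (r + (1 - r) * τ)) = 4 * (1 - r) * (1 - τ) := by ring
    rw [e1r, mul_assoc (4 * (1 - r))]
    refine mul_le_mul_of_nonneg_left (le_min ?_ ?_) (by linarith)
    · refine (mul_le_mul_of_nonneg_left (min_le_left _ _) (by linarith)).trans ?_
      rw [← mul_div_assoc, div_le_div_iff₀ hr' hr]
      have hw' : u * (X - 2 * u) ≤ 2 * W * r := by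
        have : -(2 * W * r) / u ≤ 2 * u - X := by rwa [neg_div]
        rw [div_le_iff₀ hu] at this
        linarith
      exact Gstep_trail_fst hu31 hd hlo hhi hr hr1 hW hs hT hT1 hTW hw'
    · refine (mul_le_mul_of_nonneg_left (min_le_right _ _) (by linarith)).trans ?_
      rw [mul_left_comm]
      refine mul_le_mul_of_nonneg_left (le_min ?_ ?_) hW0
      · have h1 : min 1 (2 * (X - u') / u') ≤ 1 := min_le_left _ _
        nlinarith
      · refine (mul_le_mul_of_nonneg_left (min_le_right _ _) (by linarith)).trans ?_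
        rw [← mul_div_assoc, div_le_div_iff₀ hu' hu]
        exact Gstep_trail_snd hu31 hd hhi hW hs hT hT1 hTW hm

lemma win_trail {R : ℝ} (hu' : 0 < u') (hu : 0 < u) (huu : u' ^ 2 + 1 = u ^ 2)
    (hr : 0 < r) (hr1 : r ≤ 1) (hW : 1 ≤ W) (hs : 1000 * W ≤ u' ^ 2) (hR0 : 0 ≤ R) (hR : R ≤ W)
    (hw : -(2 * R * (r + (1 - r) / (4 * W)) / u') ≤ 2 * u' - X) :
    -(2 * R * r / u) ≤ 2 * u - X := by
  obtain ⟨hu31, hd, hd60, hlo, hhi⟩ := Gstep_big hu' hu huu hW hs
  have hT : 0 < 1 / (4 * W) := by positivity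
  have hTW : 1 / (4 * W) * W = 1 / 4 := by field_simp
  have er : r + (1 - r) / (4 * W) = r + (1 - r) * (1 / (4 * W)) := by ring
  rw [er] at hw
  generalize 1 / (4 * W) = τ at hT hTW hw
  have key : 2 * R * (r + (1 - r) * τ) / u' ≤ 2 * R * r / u + 2 * (u - u') := by
    rw [div_add' _ _ _ hu.ne', div_le_div_iff₀ hu' hu]
    have h1 : R * τ ≤ 1 / 4 := by nlinarith
    have h2 : R * ((1 - r) * τ) ≤ 1 / 4 := by nlinarith [mul_nonneg hR0 hT.le]
    have h3 : R * r ≤ W := by nlinarith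
    have h4 : W * (u - u') ≤ u / 1000 := by
      refine le_of_mul_le_mul_right ?_ hu'
      nlinarith
    have h5 : R * r * (u - u') ≤ W * (u - u') := mul_le_mul_of_nonneg_right h3 hd.le
    have h6 : R * ((1 - r) * τ) * u ≤ 1 / 4 * u := mul_le_mul_of_nonneg_right h2 hu.le
    have h7 : 0.49 * u ≤ (u - u') * u' * u := mul_le_mul_of_nonneg_right hlo hu.le
    nlinarith
  linarith

end

end

end Pool.Agent.P.MP_767cd9_co.Q1
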