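import Pool.Agent.P.MP_767cd9_co.Q1.Pair

/-! The plans used in one round. -/

namespace Pool.Agent.P.MP_767cd9_co.Q1

open Real

noncomputable section

/-- integer parameters, in dimension `n + 1` -/
structure NP (n : ℕ) where
  M : ℕ
  B : ℕ
  P : ℕ
  hM : 2 ^ 50 ≤ M
  hB : M ≤ B
  h64 : 64 ∣ B
  hMP : M ∣ P
  hP : B ^ 2 * M ^ 4 ≤ P
  hd1 : 64 * B * P ^ 3 ≤ n + 1
  hd2 : 10 ^ 6 * (n + 1) * B ^ 2 ≤ P ^ 4

variable {n : ℕ}

lemma LevA_nat (q : NP n) : 2 ^ 50 ≤ q.B ∧ 2 ^ 50 * q.B ≤ q.P ∧ 2 ^ 50 ≤ q.P := by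
  have h1 : 2 ^ 50 ≤ q.B := q.hM.trans q.hB
  have h2 : 1 ≤ q.M ^ 4 := Nat.one_le_pow _ _ (lt_of_lt_of_le (by norm_num) q.hM)
  have h3 : 2 ^ 50 * q.B ≤ q.P := by
    calc 2 ^ 50 * q.B ≤ q.B * q.B := Nat.mul_le_mul_right _ h1
      _ = q.B ^ 2 * 1 := by ring
      _ ≤ q.B ^ 2 * q.M ^ 4 := Nat.mul_le_mul_left _ h2
      _ ≤ q.P := q.hP
  exact ⟨h1, h3, by omega⟩

lemma NP.ex_par (q : NP n) {w : ℕ} (hw : 0 < w) : ∃ p : Par, p.M = q.M ∧ p.B = q.B ∧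
    p.ε = 1 / q.P ∧ p.E = q.P * w ∧ p.l = (q.P ^ 2 * w : ℕ) ∧ p.w = w := by
  obtain ⟨hB, -, hP⟩ := LevA_nat q
  have hP0 : (0 : ℝ) < q.P := by exact_mod_cast lt_of_lt_of_le (by norm_num) hP
  have hw1 : (1 : ℝ) ≤ w := by exact_mod_cast hw
  have hU : (1024 * q.P * √(w : ℝ)) ^ 2 / 2 ^ 20 = (q.P : ℝ) ^ 2 * w := by
    rw [mul_pow, Real.sq_sqrt (by linarith)]
    ring
  have hl : (1 / (q.P : ℝ)) ^ 2 * ((q.P : ℝ) ^ 2 * w) = w := by field_simp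
  refine ⟨⟨q.M, q.B, 1 / q.P, 1024 * q.P * √(w : ℝ), q.P * w, q.P / q.M * w,
    by exact_mod_cast q.hM, by exact_mod_cast q.hB, by positivity, ?_, by positivity, ?_, ?_, ?_⟩,
    rfl, rfl, rfl, rfl, ?_, ?_⟩
  · rw [mul_one_div, div_le_one hP0]
    exact_mod_cast q.hP
  · rw [hU]
    push_cast
    field_simp
  · have h : q.P / q.M * w * q.M = q.P * w := by
      rw [mul_right_comm, Nat.div_mul_cancel q.hMP]
    exact_mod_cast h
  · rw [hU, hl]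
    exact hw1
  · show (1024 * q.P * √(w : ℝ)) ^ 2 / 2 ^ 20 = _
    rw [hU]
    push_cast
    ring
  · show (1 / (q.P : ℝ)) ^ 2 * ((1024 * q.P * √(w : ℝ)) ^ 2 / 2 ^ 20) = _
    rw [hU, hl]

/-- loss in the first recovery -/
def NP.k0 (q : NP n) : ℝ := 1 - 70000 * ((q.B : ℝ) / (q.P : ℝ) ^ 2) ^ 2

lemma NP.k0_facts (q : NP n) : 0 ≤ q.k0 ∧ 1 / 2 ≤ q.k0 ^ (n + 1) ∧
    1 / 2 ≤ (1 - 102 * ((q.B : ℝ) / (q.P : ℝ) ^ 2) ^ 2) ^ (n + 1) := by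
  obtain ⟨hB, -, hP⟩ := LevA_nat q
  have hP0 : (0 : ℝ) < q.P := by exact_mod_cast lt_of_lt_of_le (by norm_num) hP
  set x : ℝ := ((q.B : ℝ) / (q.P : ℝ) ^ 2) ^ 2 with hx
  have hx0 : 0 ≤ x := by positivity
  have h1 : 10 ^ 6 * (((n + 1 : ℕ) : ℝ) * x) ≤ 1 := by
    have h : (10 : ℝ) ^ 6 * ((n + 1 : ℕ) : ℝ) * (q.B : ℝ) ^ 2 ≤ (q.P : ℝ) ^ 4 := by
      exact_mod_cast q.hd2
    have e : 10 ^ 6 * (((n + 1 : ℕ) : ℝ) * x)
        = 10 ^ 6 * ((n + 1 : ℕ) : ℝ) * (q.B : ℝ) ^ 2 / (q.P : ℝ) ^ 4 := by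
      rw [hx]
      field_simp
    rw [e, div_le_one (by positivity)]
    exact h
  have h2 : x ≤ ((n + 1 : ℕ) : ℝ) * x :=
    le_mul_of_one_le_left hx0 (by exact_mod_cast Nat.succ_pos n)
  have h3 := one_add_mul_le_pow (a := -(70000 * x)) (by linarith) (n + 1)
  have h4 := one_add_mul_le_pow (a := -(102 * x)) (by linarith) (n + 1)
  rw [← sub_eq_add_neg] at h3 h4
  refine ⟨?_, le_trans ?_ h3, le_trans ?_ h4⟩
  · show 0 ≤ 1 - 70000 * x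
    linarith
  · linarith
  · linarith

lemma LevA_W (q : NP n) {w l : ℕ} (hw : 0 < w) (hl : l = q.P ^ 2 * w) :
    0 < l ∧ 1 ≤ q.B * w ∧ 10 ^ 6 * (q.B * w) ≤ l ∧ 2 * w + q.P * w ≤ l := by
  obtain ⟨hB, hBP, hP⟩ := LevA_nat q
  have hP0 : 0 < q.P := by omega
  have h1 : 10 ^ 6 * q.B ≤ q.P ^ 2 := by nlinarith
  have h2 : 2 + q.P ≤ q.P ^ 2 := by nlinarith
  subst hl
  refine ⟨by positivity, Nat.mul_pos (by omega) hw, ?_, ?_⟩
  · rw [← mul_assoc]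
    exact Nat.mul_le_mul_right _ h1
  · rw [← add_mul]
    exact Nat.mul_le_mul_right _ h2

lemma LevA_T (q : NP n) {l j : ℕ} (hj : 2 * q.B ≤ j) :
    (j / q.B - 2) * (q.B * l) + 2 * q.B * l ≤ j * l := by
  obtain ⟨hB, -, -⟩ := LevA_nat q
  have h1 : 2 ≤ j / q.B := (Nat.le_div_iff_mul_le (by omega)).2 hj
  obtain ⟨J, hJ⟩ := Nat.exists_eq_add_of_le h1
  have h2 : j / q.B * q.B ≤ j := Nat.div_mul_le_self _ _
  rw [hJ] at h2 ⊢
  rw [Nat.add_sub_cancel_left]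
  calc J * (q.B * l) + 2 * q.B * l = (2 + J) * q.B * l := by ring
    _ ≤ j * l := Nat.mul_le_mul_right _ h2

lemma LevA_T_le (q : NP n) {l j k : ℕ} (hj : 2 * q.B ≤ j) (hk : k ≤ 2 * q.B) :
    (j / q.B - 2) * (q.B * l) ≤ (j - k) * l := by
  have h1 := LevA_T q (l := l) hj
  have h2 : k * l ≤ 2 * q.B * l := Nat.mul_le_mul_right _ hk
  rw [Nat.sub_mul j k l]
  omega

lemma LevA_cast {j k l : ℕ} (h : k ≤ j) : (((j - k) * l : ℕ) : ℝ) = (j : ℝ) * l - (k : ℝ) * l := by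
  rw [Nat.cast_mul, Nat.cast_sub h, sub_mul]

/-- recovery, then idling up to time `t` -/
lemma pre_plan (q : NP n) {w l j τ t : ℕ} {sch : ℕ → ℝ} (hw : 0 < w) (hl : l = q.P ^ 2 * w)
    (hj : 2 * q.B ≤ j) (h1 : ∀ t, 1 ≤ sch t)
    (hs : ∀ t, (j / q.B - 2) * (q.B * l) ≤ t → sch t = 4 * ((q.B * w : ℕ) : ℝ))
    (hτ : Ext l (2 * (q.B * w)) j τ) (ht1 : (j - 2 ^ 19) * l ≤ t) (ht2 : t ≤ (j - 2) * l) :
    (j / q.B - 2) * (q.B * l) ≤ t ∧
    Plan ((j / q.B - 2) * (q.B * l)) t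
      (Inv (1 / 2) (q.B * w : ℕ) (100 * q.B * ((q.B * w : ℕ) : ℝ) ^ 2 / (q.B * l : ℕ))
        (500 * (q.B : ℝ) ^ 2 * ((q.B * w : ℕ) : ℝ) ^ 2 / (q.B * l : ℕ)) sch τ
        ((j / q.B - 2) * (q.B * l)))
      (Inv (3 / 4) (q.B * w : ℕ) (100 * ((q.B * w : ℕ) : ℝ) ^ 2 / l) 0 sch τ t)
      (Win (q.B * w : ℕ) sch τ ((j / q.B - 2) * (q.B * l))) (Win (q.B * w : ℕ) sch τ t)
      (fun _ => q.k0) := by
  obtain ⟨hB, hBP, hP⟩ := LevA_nat q
  obtain ⟨hl0, hW1, hWl, -⟩ := LevA_W q hw hl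
  obtain ⟨b, hb⟩ := q.h64
  have hTc : (j / q.B - 2) * (q.B * l) ≤ (j - b) * l := LevA_T_le q hj (by omega)
  have hct : (j - b) * l ≤ t := (Nat.mul_le_mul_right _ (by omega)).trans ht1
  refine ⟨hTc.trans hct, ?_⟩
  have hT := LevA_T q (l := l) hj
  generalize (j / q.B - 2) * (q.B * l) = T at *
  have hc : (((j - b) * l : ℕ) : ℝ) = (j : ℝ) * l - (b : ℝ) * l := LevA_cast (by omega)
  have ht : (t : ℝ) ≤ (j : ℝ) * l - 2 * l := by
    have h := LevA_cast (j := j) (k := 2) (l := l) (by omega)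
    have h' : (t : ℝ) ≤ (((j - 2) * l : ℕ) : ℝ) := by exact_mod_cast ht2
    rw [h] at h'
    exact_mod_cast h'
  generalize (j - b) * l = c at *
  have hL : (0 : ℝ) < l := by exact_mod_cast hl0
  have hB0 : (0 : ℝ) < q.B := by exact_mod_cast lt_of_lt_of_le (by norm_num) hB
  have hP0 : (0 : ℝ) < q.P := by exact_mod_cast lt_of_lt_of_le (by norm_num) hP
  have hw0 : (0 : ℝ) < w := by exact_mod_cast hw
  have hBl : ((q.B * l : ℕ) : ℝ) = (q.B : ℝ) * l := Nat.cast_mul _ _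
  have hbl : (q.B : ℝ) * l = 64 * ((b : ℝ) * l) := by
    rw [hb]
    push_cast
    ring
  have hb1 : 10 ^ 6 * (l : ℝ) ≤ (b : ℝ) * l := by
    have h : 10 ^ 6 ≤ b := by omega
    exact mul_le_mul_of_nonneg_right (by exact_mod_cast h) hL.le
  have hxW : ((q.B * w : ℕ) : ℝ) / l = (q.B : ℝ) / (q.P : ℝ) ^ 2 := by
    rw [hl]
    push_cast
    field_simp
  have hT' : (T : ℝ) + 2 * ((q.B : ℝ) * l) ≤ (j : ℝ) * l := by
    rw [← mul_assoc]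
    exact_mod_cast hT
  have hτ1 : (j : ℝ) * l ≤ τ + 2 * ((q.B * w : ℕ) : ℝ) := by exact_mod_cast hτ.1
  have hτ2 : (τ : ℝ) ≤ (j : ℝ) * l + l + 2 * ((q.B * w : ℕ) : ℝ) := by
    have h : τ ≤ j * l + l + 2 * (q.B * w) := by
      have := hτ.2
      rw [add_mul, one_mul] at this
      omega
    exact_mod_cast h
  have hW1' : (1 : ℝ) ≤ ((q.B * w : ℕ) : ℝ) := by exact_mod_cast hW1
  have hWl' : 10 ^ 6 * ((q.B * w : ℕ) : ℝ) ≤ l := by exact_mod_cast hWl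
  have hk0 : q.k0 = 1 - 70000 * (((q.B * w : ℕ) : ℝ) / l) ^ 2 := by rw [hxW, NP.k0]
  have hk00 := q.k0_facts.1
  clear hB hBP hP ht1 ht2 hτ hT hWl hW1 hj hb hl hw hl0 hxW
  generalize ((q.B * w : ℕ) : ℝ) = W at *
  have e1 : 100 * q.B * W ^ 2 / ((q.B * l : ℕ) : ℝ) = 100 * W ^ 2 / l := by
    rw [hBl]
    field_simp
  have e2 : 500 * (q.B : ℝ) ^ 2 * W ^ 2 / ((q.B * l : ℕ) : ℝ) = 500 * ((q.B : ℝ) * l) * (W / l) ^ 2 := by
    rw [hBl]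
    field_simp
  rw [e1, e2]
  have hok : ∀ a d : ℕ, T ≤ a → (l : ℝ) ≤ ss τ d → Ok W W (100 * W ^ 2 / l) sch τ a d := by
    intro a d ha hd
    refine ⟨hW1', by linarith, le_rfl, by linarith, ?_, h1, fun t h _ => hs t (ha.trans h)⟩
    have h2 : 100 * W ^ 2 / l * l ≤ 100 * W ^ 2 / l * ss τ d :=
      mul_le_mul_of_nonneg_left hd (by positivity)
    rw [div_mul_cancel₀ _ hL.ne'] at h2
    nlinarith [sq_nonneg W]
  have hsc : (q.B : ℝ) * l / 70 ≤ ss τ c := by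
    unfold ss
    linarith
  have hsc0 : 0 < ss τ c := lt_of_lt_of_le (by positivity) hsc
  have hy0 : 0 ≤ W / l := by positivity
  have hy1 : W / l ≤ 1 / 10 ^ 6 := by
    rw [div_le_div_iff₀ hL (by norm_num)]
    linarith
  have hy2 : (W / l) ^ 2 ≤ 1 / 10 ^ 12 := by nlinarith
  have hBL : 0 < (q.B : ℝ) * l := by positivity
  have P1 := recov_plan (W := W) (W1 := W) (e1 := 100 * W ^ 2 / l) (R := W) (sch := sch) (τ := τ)
    (a := T) (c := c) (e := fun _ => 500 * ((q.B : ℝ) * l) * (W / l) ^ 2)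
    (hok T c le_rfl (by unfold ss; linarith)) hTc
    (by
      unfold uu
      refine Real.le_sqrt_of_sq_le ?_
      rw [mul_pow, Real.sq_sqrt hsc0.le]
      unfold ss
      linarith)
    (by linarith) le_rfl
    (fun _ => ⟨by positivity, by nlinarith [mul_le_mul_of_nonneg_left hy2 hBL.le]⟩)
    fun _ _ _ => rfl
  have P2 := idle_plan (c0 := 3 / 4) (e := 0) (R0 := W)
    (hok c t hTc (by unfold ss; linarith)) hct (by norm_num) (by norm_num) le_rfl (by linarith)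
    le_rfl
  have hρ : q.k0 ≤ 1 - 2 * (500 * ((q.B : ℝ) * l) * (W / l) ^ 2) / ss τ c := by
    have h2 : 2 * (500 * ((q.B : ℝ) * l) * (W / l) ^ 2) / ss τ c ≤ 70000 * (W / l) ^ 2 := by
      rw [div_le_iff₀ hsc0]
      nlinarith [mul_le_mul_of_nonneg_left hsc (sq_nonneg (W / l))]
    linarith
  exact (P1.comp P2 hTc hct fun _ => hk00.trans hρ).mono (fun _ _ _ _ h => h)
    (fun _ _ _ _ h => h) (fun _ => subset_rfl) (fun _ => subset_rfl)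
    fun _ => by rw [mul_one]; exact hρ

/-- the final weakening of the invariant -/
lemma LevA_weak {w e1 e1' e : ℝ} {sch : ℕ → ℝ} {τ t : ℕ} {σ : Path} {x y : ℝ} (h1 : ∀ t, 1 ≤ sch t)
    (ht : t < τ) (he1 : 0 ≤ e1) (he : e1 ≤ e) (h : Inv (3 / 4) w e1 0 sch τ t σ x y) :
    Inv (1 / 2) w e1' e sch τ t σ x y := by
  intro b
  have h2 := h b
  unfold GI at h2 ⊢
  have h3 := GG_e1 (c := 1 / 2) (W := w) (e1' := e1') (u := uu τ t) (r := rr sch τ σ b t)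
    (X := lab (uu τ t) b x) he1
  have h4 := GG_mono (c := 1 / 2) (c' := 3 / 4) (W := w) (W' := w) (e1 := e1)
    (X := lab (uu τ t) b x) (by norm_num) le_rfl (uu_pos ht)
    (rr_range (σ := σ) (b := b) h1 ht).2
  linarith

lemma LevA_rng {p : Par} {w l j τ τ' E : ℕ} (hl : p.l = l) (hj : 257 ≤ j) (hE : 2 * w + E ≤ l)
    (hτ : Ext l (2 * w) j τ) (h1 : τ ≤ τ' + E) (h2 : τ' ≤ τ) : Rng p ((j - 257) * l) τ' := by
  have h3 : j * l ≤ τ' + l := by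
    have := hτ.1
    omega
  have h4 : τ' ≤ j * l + 2 * l := by
    have := hτ.2
    rw [add_mul, one_mul] at this
    omega
  have h5 : (j : ℝ) * l ≤ τ' + l := by exact_mod_cast h3
  have h6 : (τ' : ℝ) ≤ (j : ℝ) * l + 2 * l := by exact_mod_cast h4
  unfold Rng
  rw [LevA_cast hj, hl]
  push_cast
  constructor <;> linarith

/-- the pair inequality summed over the coordinates -/
lemma LevA_sum (q : NP n) {p : Par} (hε : p.ε = 1 / q.P) {f : Bool × Fin 8 → Fin (n + 1) → ℝ}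
    (h : ∀ i, p.ε ^ 3 / 2 ≤ ∑ β : Bool × Fin 8, wt p β.2 * f β i)
    (hf : ∀ β, ∑ i, f β i < q.B) : False := by
  obtain ⟨hB, -, hP⟩ := LevA_nat q
  obtain ⟨hw0, hw8⟩ := wt_facts p
  have hB0 : (0 : ℝ) < q.B := by exact_mod_cast lt_of_lt_of_le (by norm_num) hB
  have hP0 : (0 : ℝ) < q.P := by exact_mod_cast lt_of_lt_of_le (by norm_num) hP
  have h1 : ((n : ℝ) + 1) * (p.ε ^ 3 / 2) ≤ ∑ i, ∑ β : Bool × Fin 8, wt p β.2 * f β i := by
    have := Finset.sum_le_sum (s := Finset.univ) fun i _ => h i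
    simpa using this
  have h2 : ∑ i, ∑ β : Bool × Fin 8, wt p β.2 * f β i ≤ ∑ β : Bool × Fin 8, wt p β.2 * q.B := by
    rw [Finset.sum_comm]
    refine Finset.sum_le_sum fun β _ => ?_
    rw [← Finset.mul_sum]
    exact mul_le_mul_of_nonneg_left (hf β).le (hw0 _)
  have h3 : ∑ β : Bool × Fin 8, wt p β.2 * q.B = 2 * ((∑ β, wt p β) * q.B) := by
    rw [Fintype.sum_prod_type, Fintype.sum_bool, Finset.sum_mul, two_mul]
  have h4 : (∑ β, wt p β) * q.B ≤ 8 * q.B := mul_le_mul_of_nonneg_right hw8 hB0.le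
  have h5 : 64 * (q.B : ℝ) * (q.P : ℝ) ^ 3 ≤ n + 1 := by exact_mod_cast q.hd1
  have h6 : 64 * (q.B : ℝ) ≤ ((n : ℝ) + 1) * p.ε ^ 3 := by
    rw [hε, div_pow, one_pow, mul_one_div, le_div_iff₀ (by positivity)]
    exact h5
  linarith

/-- all bets of one round -/
lemma bets_all (q : NP n) {w l : ℕ} {sch : ℕ → ℕ → ℝ} (hw : 0 < w) (hl : l = q.P ^ 2 * w)
    (h1 : ∀ j t, 1 ≤ sch j t)
    (hs : ∀ j t, (j - 2) * (q.B * l) ≤ t → sch j t = 4 * ((q.B * w : ℕ) : ℝ)) :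
    ∃ v : ℕ → Bool × Fin 8 → ℕ → Path → ℝ,
      (∀ j β τ σ σ', Ag ((j - 2) * l) σ σ' → v j β τ σ' = v j β τ σ) ∧
      (∀ j β τ, 2 * q.B ≤ j → Ext l (2 * w) j τ →
        Plan ((j / q.B - 2) * (q.B * l)) ((j - 2) * l)
          (Inv (1 / 2) (q.B * w : ℕ) (100 * q.B * ((q.B * w : ℕ) : ℝ) ^ 2 / (q.B * l : ℕ))
            (500 * (q.B : ℝ) ^ 2 * ((q.B * w : ℕ) : ℝ) ^ 2 / (q.B * l : ℕ)) (sch (j / q.B)) τ
            ((j / q.B - 2) * (q.B * l)))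
          (Inv (1 / 2) w (100 * q.B * (w : ℝ) ^ 2 / l) (500 * (q.B : ℝ) ^ 2 * (w : ℝ) ^ 2 / l)
            (sch (j / q.B)) τ ((j - 2) * l))
          (Win (q.B * w : ℕ) (sch (j / q.B)) τ ((j / q.B - 2) * (q.B * l)))
          (Win w (sch (j / q.B)) τ ((j - 2) * l)) (fun σ => q.k0 * Real.exp (v j β τ σ))) ∧
      ∀ j τ τ' (σ : PathD n), 2 * q.B ≤ j → Ext l (2 * w) j τ → Ext l (2 * w) j τ' →
        τ / (q.P * w) = τ' / (q.P * w) → τ % (q.M ^ 7 * w) = τ' % (q.M ^ 7 * w) →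
        (∀ β, ∑ i, v j β τ (co σ i) < q.B) → (∀ β, ∑ i, v j β τ' (co σ i) < q.B) → τ = τ' := by
  obtain ⟨hB, hBP, hP⟩ := LevA_nat q
  obtain ⟨hl0, hW1, hWl, hEl⟩ := LevA_W q hw hl
  obtain ⟨p, hpM, hpB, hpε, hpE, hpl, hpw⟩ := q.ex_par hw
  rw [← hl] at hpl
  have hpW : p.W = ((q.B * w : ℕ) : ℝ) := by rw [Par.W, hpB, hpw, Nat.cast_mul]
  have hpe : p.e1 = 100 * ((q.B * w : ℕ) : ℝ) ^ 2 / l := by rw [Par.e1, hpW, hpl]
  have hE0 : 0 < q.P * w := Nat.mul_pos (by omega) hw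
  have key : ∀ j τ0 : ℕ, ∃ v : Bool × Fin 8 → ℕ → Path → ℝ,
      (∀ β τ σ σ', Ag ((j - 257) * l) σ σ' → v β τ σ' = v β τ σ) ∧
      (2 * q.B ≤ j → Rng p ((j - 257) * l) τ0 →
      (∀ β τ, Rng p ((j - 257) * l) τ → τ0 ≤ τ → τ ≤ τ0 + p.E →
        Plan ((j - 2 ^ 19) * l) ((j - 2) * l)
          (Inv (3 / 4) p.W p.e1 0 (sch (j / q.B)) τ ((j - 2 ^ 19) * l))
          (Inv (3 / 4) p.w p.e1 0 (sch (j / q.B)) τ ((j - 2) * l))
          (Win p.W (sch (j / q.B)) τ ((j - 2 ^ 19) * l))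
          (Win p.w (sch (j / q.B)) τ ((j - 2) * l)) (fun σ => Real.exp (v β τ σ))) ∧
      ∀ τ τ', Rng p ((j - 257) * l) τ → Rng p ((j - 257) * l) τ' → τ0 ≤ τ →
        (τ : ℝ) + p.M ^ 7 * p.w ≤ τ' → τ' ≤ τ0 + p.E → ∀ σ, p.ε ^ 3 / 2 ≤
          ∑ β : Bool × Fin 8, wt p β.2 * v β (if β.2 = 7 then τ' else τ) σ) := by
    intro j τ0
    by_cases H : 2 * q.B ≤ j ∧ Rng p ((j - 257) * l) τ0
    · obtain ⟨hj, hr⟩ := H
      have hC : Cx p (sch (j / q.B)) ((j - 2 ^ 19) * l) ((j - 257) * l) := by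
        refine ⟨?_, h1 _, fun t ht _ => ?_⟩
        · rw [LevA_cast (by omega), LevA_cast (by omega), hpl]
          push_cast
          ring
        · rw [hpW]
          exact hs _ _ ((LevA_T_le q hj (by omega)).trans ht)
      obtain ⟨v, hv1, hv2, hv3⟩ := bets (tb := (j - 2) * l) hC hr
        (by
          rw [LevA_cast (by omega), LevA_cast (by omega), hpl]
          push_cast
          ring)
        fun t ht _ => by
          rw [hpW]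
          exact hs _ _ ((LevA_T_le q hj (by omega)).trans ht)
      exact ⟨v, hv1, fun _ _ => ⟨hv2, hv3⟩⟩
    · exact ⟨fun _ _ _ => 0, fun _ _ _ _ _ => rfl, fun h h' => absurd ⟨h, h'⟩ H⟩
  choose V hV1 hV2 using key
  have hlo : ∀ τ, q.P * w * (τ / (q.P * w)) ≤ τ := fun τ => Nat.mul_div_le _ _
  have hhi : ∀ τ, τ ≤ q.P * w * (τ / (q.P * w)) + q.P * w := fun τ =>
    (Nat.lt_mul_div_succ τ hE0).le
  have hrng : ∀ j τ, 2 * q.B ≤ j → Ext l (2 * w) j τ → Rng p ((j - 257) * l) τ ∧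
      Rng p ((j - 257) * l) (q.P * w * (τ / (q.P * w))) := fun j τ hj hτ =>
    ⟨LevA_rng hpl (by omega) hEl hτ (Nat.le_add_right _ _) le_rfl,
      LevA_rng hpl (by omega) hEl hτ (hhi τ) (hlo τ)⟩
  refine ⟨fun j β τ σ => V j (q.P * w * (τ / (q.P * w))) β τ σ, fun j β τ σ σ' h =>
    hV1 j _ β τ σ σ' (h.mono (Nat.mul_le_mul_right _ (by omega))), fun j β τ hj hτ => ?_, ?_⟩
  · have hw' : w ≤ q.B * w := Nat.le_mul_of_pos_left _ (by omega)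
    have ht : (j - 2 ^ 19) * l ≤ (j - 2) * l := Nat.mul_le_mul_right _ (by omega)
    obtain ⟨hT, P1⟩ := pre_plan q (t := (j - 2 ^ 19) * l) (τ := τ) hw hl hj (h1 (j / q.B))
      (hs (j / q.B)) ⟨by have := hτ.1; omega, by have := hτ.2; omega⟩ le_rfl ht
    have P2 := (hV2 j _ hj (hrng j τ hj hτ).2).1 β τ (hrng j τ hj hτ).1 (hlo τ)
      (by rw [hpE]; exact hhi τ)
    rw [hpW, hpe, hpw] at P2
    have hlt : (j - 2) * l < τ := by
      have h2 := hτ.1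
      have h3 : 2 * l ≤ j * l := Nat.mul_le_mul_right _ (by omega)
      rw [Nat.sub_mul]
      omega
    refine (P1.comp P2 hT ht fun _ => q.k0_facts.1).mono (fun _ _ _ _ h => h)
      (fun _ _ _ _ h => LevA_weak (h1 _) hlt (by positivity) ?_ h) (fun _ => subset_rfl)
      (fun _ => subset_rfl) fun _ => le_rfl
    refine div_le_div_of_nonneg_right ?_ (Nat.cast_nonneg _)
    push_cast
    nlinarith only [sq_nonneg ((q.B : ℝ) * w)]
  · have main : ∀ j τ τ' (σ : PathD n), 2 * q.B ≤ j → Ext l (2 * w) j τ → Ext l (2 * w) j τ' →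
        τ / (q.P * w) = τ' / (q.P * w) → τ % (q.M ^ 7 * w) = τ' % (q.M ^ 7 * w) →
        (∀ β, ∑ i, V j (q.P * w * (τ / (q.P * w))) β τ (co σ i) < q.B) →
        (∀ β, ∑ i, V j (q.P * w * (τ' / (q.P * w))) β τ' (co σ i) < q.B) → ¬ τ < τ' := by
      intro j τ τ' σ hj hτ hτ' hd hm hs1 hs2 hlt
      have h2 : q.M ^ 7 * w ≤ τ' - τ :=
        Nat.le_of_dvd (by omega) ((Nat.modEq_iff_dvd' hlt.le).1 hm)
      have h3 : τ + q.M ^ 7 * w ≤ τ' := by omega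
      have h4 := (hV2 j _ hj (hrng j τ hj hτ).2).2 τ τ' (hrng j τ hj hτ).1 (hrng j τ' hj hτ').1
        (hlo τ) (by rw [hpM, hpw]; exact_mod_cast h3) (by rw [hpE, hd]; exact hhi τ')
      rw [← hd] at hs2
      refine LevA_sum q hpε (f := fun β i =>
        V j (q.P * w * (τ / (q.P * w))) β (if β.2 = 7 then τ' else τ) (co σ i))
        (fun i => h4 (co σ i)) fun β => ?_
      by_cases hβ : β.2 = 7
      · simp only [if_pos hβ]
        exact hs2 β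
      · simp only [if_neg hβ]
        exact hs1 β
    intro j τ τ' σ hj hτ hτ' hd hm hs1 hs2
    exact le_antisymm (not_lt.1 (main j τ' τ σ hj hτ' hτ hd.symm hm.symm hs2 hs1))
      (not_lt.1 (main j τ τ' σ hj hτ hτ' hd hm hs1 hs2))

end

end Pool.Agent.P.MP_767cd9_co.Q1
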