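import Pool.Agent.P.MP_767cd9_co.Q1.Traj

/-! General facts on plans. -/

namespace Pool.Agent.P.MP_767cd9_co.Q1

open Real

noncomputable section

variable {a c c' : ℕ} {Pre Pre' Mid Post Post' : Path → ℝ → ℝ → Prop}
  {WA WA' WM WB WB' : Path → Set ℝ} {ρ ρ' : Path → ℝ}

lemma PlanGen_ag {α : Type} {t t' : ℕ} {σ σ' : ℕ → α} (h : Ag t' σ σ') (ht : t ≤ t') : Ag t σ σ' :=
  fun j hj => h j (hj.trans_le ht)

lemma PlanGen_abs_sg (b : Bool) : |sg b| = 1 := by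
  cases b <;> simp [sg]

/-- the relative position of a cop that does not move -/
lemma PlanGen_still (a : ℕ) : ∃ pos : Path → ℝ → ℕ → ℝ,
    (∀ t σ σ', Ag t σ σ' → ∀ p, pos σ' p t = pos σ p t) ∧ (∀ σ p, pos σ p a = p) ∧
    (∀ σ p t, a ≤ t → |pos σ p t - pos σ p (t + 1) - 2 * sg (σ t)| ≤ 1) ∧
    ∀ σ p t, a ≤ t → |pos σ p t - p| ≤ 2 * ((t : ℝ) - a) := by
  refine ⟨fun σ p t => p - 2 * ∑ j ∈ Finset.Ico a t, sg (σ j), fun t σ σ' hg p => ?_,
    fun σ p => by simp, fun σ p t ht => ?_, fun σ p t ht => ?_⟩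
  · beta_reduce
    rw [Finset.sum_congr rfl fun j hj => by rw [← hg j (Finset.mem_Ico.1 hj).2]]
  · beta_reduce
    rw [Finset.sum_Ico_succ_top ht]
    ring_nf
    simp
  · beta_reduce
    have h1 := Finset.abs_sum_le_sum_abs (fun j => sg (σ j)) (Finset.Ico a t)
    simp only [PlanGen_abs_sg, Finset.sum_const, Nat.card_Ico, nsmul_eq_mul, mul_one,
      Nat.cast_sub ht] at h1
    rw [sub_sub_cancel_left, abs_neg, abs_mul, abs_two]
    linarith

/-- the position of a cop that moves as close as it can to a target -/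
def PlanGen_pos (a : ℕ) (σ : Path) (g : ℕ → ℝ) (p : ℝ) : ℕ → ℝ
  | 0 => p
  | t + 1 => if t < a then p else max (PlanGen_pos a σ g p t - 2 * sg (σ t) - 1)
      (min (PlanGen_pos a σ g p t - 2 * sg (σ t) + 1) (g (t + 1)))

lemma PlanGen_ctrl (a : ℕ) (g : Path → ℝ → ℕ → ℝ)
    (hg : ∀ t σ σ', Ag t σ σ' → ∀ x, g σ' x t = g σ x t) : ∃ pos : Path → ℝ → ℝ → ℕ → ℝ,
    (∀ t σ σ', Ag t σ σ' → ∀ x p, pos σ' x p t = pos σ x p t) ∧ (∀ σ x p, pos σ x p a = p) ∧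
    (∀ σ x p t, a ≤ t → |pos σ x p t - pos σ x p (t + 1) - 2 * sg (σ t)| ≤ 1) ∧
    ∀ σ x p t, a ≤ t → pos σ x p (t + 1) = max (pos σ x p t - 2 * sg (σ t) - 1)
      (min (pos σ x p t - 2 * sg (σ t) + 1) (g σ x (t + 1))) := by
  have key : ∀ σ x p t, a ≤ t → PlanGen_pos a σ (g σ x) p (t + 1) =
      max (PlanGen_pos a σ (g σ x) p t - 2 * sg (σ t) - 1)
        (min (PlanGen_pos a σ (g σ x) p t - 2 * sg (σ t) + 1) (g σ x (t + 1))) :=
    fun σ x p t ht => if_neg (not_lt.2 ht)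
  refine ⟨fun σ x p => PlanGen_pos a σ (g σ x) p, fun t => ?_, fun σ x p => ?_,
    fun σ x p t ht => ?_, key⟩
  · induction t with
    | zero => exact fun _ _ _ _ _ => rfl
    | succ t ih =>
      intro σ σ' h x p
      have h1 := ih σ σ' (PlanGen_ag h (Nat.le_succ t)) x p
      simp only [PlanGen_pos] at h1 ⊢
      rw [h1, hg _ σ σ' h, h t (Nat.lt_succ_self t)]
  · cases a with
    | zero => rfl
    | succ a => exact if_pos (Nat.lt_succ_self a)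
  · beta_reduce
    rw [key σ x p t ht, abs_le]
    have h1 := le_max_left (PlanGen_pos a σ (g σ x) p t - 2 * sg (σ t) - 1)
      (min (PlanGen_pos a σ (g σ x) p t - 2 * sg (σ t) + 1) (g σ x (t + 1)))
    have h2 : max (PlanGen_pos a σ (g σ x) p t - 2 * sg (σ t) - 1)
        (min (PlanGen_pos a σ (g σ x) p t - 2 * sg (σ t) + 1) (g σ x (t + 1))) ≤
        PlanGen_pos a σ (g σ x) p t - 2 * sg (σ t) + 1 := max_le (by linarith) (min_le_left _ _)
    constructor <;> linarith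

/-- one step of the balanced control -/
lemma PlanGen_step {P P' s s' u : ℝ} {X : Bool → ℝ} {x : ℝ} {b d : Bool}
    (h : P' = max (P - 2 * sg d - 1) (min (P - 2 * sg d + 1) (2 * u * X true - 2 * s')))
    (hs : s' = s - 1) (hu : u ^ 2 = s') (hX : X true + X (!true) = 2 * u) (hx : x = X b) :
    min (-s - sg b * P + if d = b then 4 else 0) (s' - 2 * u * x) ≤ -s' - sg b * P' := by
  rw [min_le_iff, hx]
  cases b
  · have h1 : min (P - 2 * sg d + 1) (2 * u * X true - 2 * s') ≤ P' := h ▸ le_max_right _ _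
    rcases min_le_iff.1 h1 with h2 | h2
    · left
      cases d <;> simp [sg] at h2 ⊢ <;> linarith
    · right
      have h3 : X true = 2 * u - X false := eq_sub_of_add_eq hX
      rw [h3] at h2
      simp only [sg, Bool.false_eq_true, if_false]
      nlinarith
  · have h1 : P' ≤ max (P - 2 * sg d - 1) (2 * u * X true - 2 * s') :=
      h ▸ max_le_max le_rfl (min_le_right _ _)
    rcases le_max_iff.1 h1 with h2 | h2
    · left
      cases d <;> simp [sg] at h2 ⊢ <;> linarith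
    · right
      simp only [sg, if_true]
      linarith

lemma PlanGen_lab_lab (u : ℝ) (b : Bool) (x : ℝ) : lab u b (lab u b x) = x := by
  cases b <;> simp [lab]

lemma PlanGen_lab_abs (u : ℝ) (b : Bool) (x y : ℝ) : |lab u b x - lab u b y| = |x - y| := by
  cases b
  · simp only [lab, Bool.false_eq_true, if_false]
    rw [sub_sub_sub_cancel_left, abs_sub_comm]
  · rfl

lemma PlanGen_lab_cont (u : ℝ) (b : Bool) : Continuous (lab u b) := by
  cases b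
  · exact continuous_const.sub continuous_id
  · exact continuous_id

lemma Plan.mono (h : Plan a c Pre Post WA WB ρ)
    (h1 : ∀ σ x q, x ∈ WA σ → Pre' σ x q → Pre σ x q)
    (h2 : ∀ σ x q, x ∈ WB' σ → Post σ x q → Post' σ x q)
    (h3 : ∀ σ, WA σ ⊆ WA' σ) (h4 : ∀ σ, WB' σ ⊆ WB σ) (h5 : ∀ σ, ρ' σ ≤ ρ σ) :
    Plan a c Pre' Post' WA' WB' ρ' := by
  obtain ⟨pos, out, k1, k2, k3, k4, k5⟩ := h
  refine ⟨pos, out, k1, k2, k3, k4, fun σ => ?_⟩
  obtain ⟨ψ, hψ, m1, m2⟩ := k5 σ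
  refine ⟨ψ, hψ, fun y hy y' hy' => ?_, fun y hy => ?_⟩
  · exact (mul_le_mul_of_nonneg_right (h5 σ) (abs_nonneg _)).trans (m1 y (h4 σ hy) y' (h4 σ hy'))
  · obtain ⟨n1, n2, n3⟩ := m2 y (h4 σ hy)
    exact ⟨h3 σ n1, n2, fun p hp => h2 σ y _ hy (n3 p (h1 σ _ p n1 hp))⟩

lemma Plan.comp (h : Plan a c Pre Mid WA WM ρ) (h' : Plan c c' Mid Post WM WB ρ')
    (hac : a ≤ c) (hc : c ≤ c') (hρ : ∀ σ, 0 ≤ ρ σ) :
    Plan a c' Pre Post WA WB (fun σ => ρ σ * ρ' σ) := by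
  obtain ⟨pos, out, k1, k2, k3, k4, k5⟩ := h
  obtain ⟨pos', out', l1, l2, l3, l4, l5⟩ := h'
  have key : ∀ σ x p t, c ≤ t → (if t ≤ c then pos σ x p t else
      pos' σ (out σ x) (pos σ x p c) t) = pos' σ (out σ x) (pos σ x p c) t := by
    intro σ x p t ht
    split_ifs with h
    · rw [le_antisymm h ht, l3]
    · rfl
  refine ⟨fun σ x p t => if t ≤ c then pos σ x p t else pos' σ (out σ x) (pos σ x p c) t,
    fun σ x => out' σ (out σ x), fun t σ σ' hg x p => ?_, fun σ σ' hg => ?_, fun σ x p => ?_,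
    fun σ x p t ht => ?_, fun σ => ?_⟩
  · beta_reduce
    split_ifs with h
    · exact k1 t σ σ' hg x p
    · have hg' : Ag c σ σ' := PlanGen_ag hg (not_le.1 h).le
      rw [k2 σ σ' hg', k1 c σ σ' hg', l1 t σ σ' hg]
  · beta_reduce
    rw [k2 σ σ' (PlanGen_ag hg hc), l2 σ σ' hg]
  · beta_reduce
    rw [if_pos hac, k3]
  · beta_reduce
    rcases lt_or_ge t c with h | h
    · rw [if_pos h.le, if_pos (Nat.succ_le_of_lt h)]
      exact k4 σ x p t ht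
    · rw [key σ x p t h, key σ x p (t + 1) (h.trans (Nat.le_succ t))]
      exact l4 σ _ _ t h
  · obtain ⟨ψ, hψ, m1, m2⟩ := k5 σ
    obtain ⟨ψ', hψ', n1, n2⟩ := l5 σ
    refine ⟨fun y => ψ (ψ' y), hψ.comp hψ', fun y hy y' hy' => ?_, fun y hy => ?_⟩
    · rw [mul_assoc]
      exact (mul_le_mul_of_nonneg_left (n1 y hy y' hy') (hρ σ)).trans
        (m1 _ (n2 y hy).1 _ (n2 y' hy').1)
    · obtain ⟨r1, r2, r3⟩ := n2 y hy
      obtain ⟨s1, s2, s3⟩ := m2 _ r1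
      refine ⟨s1, ?_, fun p hp => ?_⟩
      · beta_reduce
        rw [s2, r2]
      · beta_reduce
        rw [key σ _ p c' hc, s2]
        exact r3 _ (s3 p hp)

lemma Plan.empty (hB : ∀ σ, WB σ = ∅) : Plan a c Pre Post WA WB ρ := by
  obtain ⟨pos, k1, k2, k3, -⟩ := PlanGen_still a
  refine ⟨fun σ _ => pos σ, fun _ x => x, fun t σ σ' hg _ => k1 t σ σ' hg, fun _ _ _ => rfl,
    fun σ _ => k2 σ, fun σ _ => k3 σ, fun σ => ⟨id, continuous_id, ?_, ?_⟩⟩ <;>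
  · rw [hB σ]
    exact fun y hy => hy.elim

/-- the cop stands still -/
lemma Plan.drift {K : ℝ} (hac : a ≤ c) :
    Plan a c (fun _ _ q => |q| ≤ K) (fun _ _ q => |q| ≤ K + 2 * ((c : ℝ) - a)) WA WA
      (fun _ => 1) := by
  obtain ⟨pos, k1, k2, k3, k4⟩ := PlanGen_still a
  refine ⟨fun σ _ => pos σ, fun _ x => x, fun t σ σ' hg _ => k1 t σ σ' hg, fun _ _ _ => rfl,
    fun σ _ => k2 σ, fun σ _ => k3 σ, fun σ => ⟨id, continuous_id, fun y _ y' _ => ?_,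
      fun y hy => ⟨hy, rfl, fun p hp => ?_⟩⟩⟩
  · rw [one_mul]
    exact le_rfl
  · have h1 := k4 σ p c hac
    have h2 := abs_add_le p (pos σ p c - p)
    rw [add_sub_cancel] at h2
    change |pos σ p c| ≤ _
    linarith

/-- the path frozen from time `c` on -/
def trunc (c : ℕ) (σ : Path) : Path := fun t => if t < c then σ t else true

lemma trunc_ag (c : ℕ) (σ : Path) : Ag c σ (trunc c σ) := by
  exact fun j hj => (if_pos hj).symm

lemma trunc_congr {σ σ' : Path} (h : Ag c σ σ') : trunc c σ' = trunc c σ := by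
  funext t
  unfold trunc
  split_ifs with ht
  · exact (h t ht).symm
  · rfl

lemma Plan.trunc (h : Plan a c Pre Post WA WB ρ) (h1 : ∀ σ σ', Ag c σ σ' → Pre σ' = Pre σ)
    (h2 : ∀ σ σ', Ag c σ σ' → WA σ' = WA σ) (h3 : ∀ σ σ', Ag c σ σ' → WB σ' = WB σ) :
    Plan a c Pre (fun σ => Post (trunc c σ)) WA WB (fun σ => ρ (trunc c σ)) := by
  obtain ⟨pos, out, k1, k2, k3, k4, k5⟩ := h
  refine ⟨pos, out, k1, k2, k3, k4, fun σ => ?_⟩
  have hg := trunc_ag c σ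
  obtain ⟨ψ, hψ, m1, m2⟩ := k5 (Q1.trunc c σ)
  rw [h1 _ _ hg, h2 _ _ hg, h3 _ _ hg, k2 _ _ hg] at m2
  rw [h3 _ _ hg] at m1
  refine ⟨ψ, hψ, m1, fun y hy => ⟨(m2 y hy).1, (m2 y hy).2.1, fun p hp => ?_⟩⟩
  rw [← k1 c _ _ hg]
  exact (m2 y hy).2.2 p hp

section
variable {c0 W0 e1 e R0 c1 W1 R1 W : ℝ} {sch : ℕ → ℝ} {τ t t' : ℕ} {σ σ' : Path} {b b0 : Bool}

lemma Inv_congr (h : Ag t' σ σ') (ht : t ≤ t') :
    Inv c0 W0 e1 e sch τ t σ' = Inv c0 W0 e1 e sch τ t σ := by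
  funext x p
  simp only [Inv, GI, rr_congr h ht]

lemma Win_congr (h : Ag t' σ σ') (ht : t ≤ t') : Win R0 sch τ t σ' = Win R0 sch τ t σ := by
  simp only [Win, WS, rr_congr h ht]

lemma XL_self {z : ℝ} : XL τ σ b0 a z b a = if b = b0 then z else 2 * uu τ a - z := by
  rw [XL, dsp_self, sub_zero]

/-- the two own labels add up to `2 uu τ t` -/
lemma XL_add {z : ℝ} (h : a ≤ t) :
    XL τ σ b0 a z b t + XL τ σ b0 a z (!b) t = 2 * uu τ t := by
  have := dsp_sum (τ := τ) (σ := σ) (b := b) h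
  unfold XL
  cases b <;> cases b0 <;> simp at this ⊢ <;> linarith

lemma WL_back {z R : ℝ} (h : Ok W W1 e1 sch τ a c) (ha : a ≤ t) (ht : t ≤ t') (hc : t' ≤ c)
    (hR0 : 0 ≤ R) (hR : R ≤ W) (hw : WL R sch τ σ b0 a z t') : WL R sch τ σ b0 a z t := by
  exact fun b => win_back h ha ha ht hc hR0 hR (hw b)

lemma PlanGen_XL_start {z : ℝ} :
    XL τ σ b0 a z b a = lab (uu τ a) b (lab (uu τ a) b0 z) := by
  rw [XL_self]
  cases b <;> cases b0 <;> simp [lab]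

lemma PlanGen_XL_end {y : ℝ} (h : a ≤ t) :
    XL τ σ b0 a (lab (uu τ t) b0 y + dsp τ σ b0 a t) b t = lab (uu τ t) b y := by
  have := dsp_sum (τ := τ) (σ := σ) (b := b0) h
  unfold XL
  cases b <;> cases b0 <;> simp [lab] at this ⊢ <;> linarith

/-- balanced control: the cop moves as close as it can to `(A ^ 2 - B ^ 2) / 2` for the
labels `A, B` it has at the next time -/
lemma plan_of_core {e0 e : Path → ℝ} {ζ : Path → ℕ → ℝ → ℝ} (hac : a ≤ c) (hc : c < τ)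
    (h1 : ∀ t, 1 ≤ sch t) (hc1 : c1 ≤ 1) (hW1 : 0 ≤ W1) (he1 : 16 * W1 ^ 2 ≤ e1 * uu τ c ^ 2)
    (he : ∀ σ, 0 ≤ e σ) (hζ : ∀ t σ σ', Ag t σ σ' → ζ σ' t = ζ σ t)
    (h : ∀ σ, Core c0 W0 e1 (e0 σ) R0 c1 W1 (e σ) R1 sch τ σ b0 a c (ζ σ) (ρ σ)) :
    Plan a c (fun σ => Inv c0 W0 e1 (e0 σ) sch τ a σ) (fun σ => Inv c1 W1 e1 (e σ) sch τ c σ)
      (Win R0 sch τ a) (Win R1 sch τ c) ρ := by
  obtain ⟨pos, k1, k2, k3, k4⟩ := PlanGen_ctrl a
    (fun σ x t => 2 * uu τ t * XL τ σ b0 a (ζ σ t (lab (uu τ a) b0 x)) true t - 2 * ss τ t)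
    fun t σ σ' hg x => by simp only [XL, hζ t σ σ' hg, dsp_congr hg le_rfl]
  refine ⟨pos, fun σ x => XL τ σ b0 a (ζ σ c (lab (uu τ a) b0 x)) true c, k1, fun σ σ' hg => ?_,
    k2, k3, fun σ => ?_⟩
  · simp only [XL, hζ c σ σ' hg, dsp_congr hg le_rfl]
  obtain ⟨χ, hχ, m1, m2⟩ := h σ
  have hz : ∀ y b, XL τ σ b0 a (lab (uu τ c) b0 y + dsp τ σ b0 a c) b c = lab (uu τ c) b y :=
    fun y b => PlanGen_XL_end hac
  have hw : ∀ y ∈ Win R1 sch τ c σ, WL R1 sch τ σ b0 a (lab (uu τ c) b0 y + dsp τ σ b0 a c) c :=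
    fun y hy b => by
      rw [hz]
      exact hy b
  refine ⟨fun y => lab (uu τ a) b0 (χ (lab (uu τ c) b0 y + dsp τ σ b0 a c)),
    (PlanGen_lab_cont _ _).comp (hχ.comp ((PlanGen_lab_cont _ _).add continuous_const)),
    fun y hy y' hy' => ?_, fun y hy => ?_⟩
  · have := m1 _ _ (hw y hy) (hw y' hy')
    rwa [add_sub_add_right_eq_sub, PlanGen_lab_abs, ← PlanGen_lab_abs (uu τ a) b0 (χ _)] at this
  obtain ⟨n1, n2, n3⟩ := m2 _ (hw y hy)
  have hz' := hz y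
  beta_reduce
  generalize lab (uu τ c) b0 y + dsp τ σ b0 a c = z at n1 n2 n3 hz'
  refine ⟨fun b => ?_, ?_, fun p hp b => ?_⟩
  · rw [← PlanGen_XL_start (σ := σ)]
    exact n2 b
  · rw [PlanGen_lab_lab, n1, hz']
    rfl
  obtain ⟨P, hP⟩ : ∃ P : ℕ → ℝ, P = pos σ (lab (uu τ a) b0 (χ z)) p := ⟨_, rfl⟩
  obtain ⟨V, hV⟩ : ∃ V : ℕ → ℝ, V = fun t => if t ≤ a then -ss τ a - sg b * p else
    -ss τ (t - 1) - sg b * P (t - 1) + if σ (t - 1) = b then 4 else 0 := ⟨_, rfl⟩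
  have hVa : V a = -ss τ a - sg b * p := by
    rw [hV]
    exact if_pos le_rfl
  have hVs : ∀ t, a ≤ t → V (t + 1) = -ss τ t - sg b * P t + if σ t = b then 4 else 0 :=
    fun t ht => by
      rw [hV]
      exact if_neg (by omega)
  have key : ∀ t, a ≤ t → t ≤ c → min (V t)
      (ss τ t - 2 * uu τ t * XL τ σ b0 a (ζ σ t (χ z)) b t) ≤ -ss τ t - sg b * P t := by
    intro t ht htc
    rcases ht.eq_or_lt with rfl | ht'
    · rw [hVa, hP, k2]
      exact min_le_left _ _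
    obtain ⟨t, rfl⟩ : ∃ s, t = s + 1 := ⟨t - 1, by omega⟩
    have hat : a ≤ t := by omega
    have q := k4 σ (lab (uu τ a) b0 (χ z)) p t hat
    rw [← hP, PlanGen_lab_lab] at q
    rw [hVs t hat]
    exact PlanGen_step (X := fun b => XL τ σ b0 a (ζ σ (t + 1) (χ z)) b (t + 1)) q (ss_succ τ t)
      (uu_sq (htc.trans hc.le)) (XL_add (b := true) ht) rfl
  have hG := n3 b V (fun t ht htc => by
    rw [hVs t ht]
    exact add_le_add (key t ht htc.le) le_rfl) (by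
    rw [hVa, PlanGen_XL_start]
    exact hp b)
  have hk := key c hac le_rfl
  rw [n1, hz'] at hk
  rw [hz'] at hG
  rw [← hP]
  unfold GI at hG ⊢
  rcases min_le_iff.1 hk with hk | hk
  · linarith
  · have hr := rr_range (σ := σ) (b := b) h1 hc
    have h2 := GG_le_sq (X := lab (uu τ c) b y) hc1 (uu_pos hc) hr.1 hr.2 hW1 he1
    have h3 := uu_sq hc.le
    have h4 := he σ
    nlinarith

lemma idle_core {ζ : ℕ → ℝ → ℝ} (h : Ok W W1 e1 sch τ a c) (hac : a ≤ c) (hc0 : 0 ≤ c0)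
    (hc1 : c0 ≤ 1) (hc : c1 ≤ c0) (he : 0 ≤ e) (hR : 0 ≤ R1) (hR' : R1 ≤ R0) (hR'' : R1 ≤ W)
    (hζ : ∀ t x, ζ t x = x) : Core c0 W1 e1 e R0 c1 W1 e R1 sch τ σ b0 a c ζ 1 := by
  have hcτ := h.lt
  refine ⟨id, continuous_id, fun z z' _ _ => ?_, fun z hz => ⟨hζ c z, fun b => ?_,
    fun b V hH hI => ?_⟩⟩
  · rw [one_mul]
    exact le_rfl
  · exact (WL_back h le_rfl hac le_rfl hR hR'' hz b).mono h.h1 (hac.trans_lt hcτ) hR'
  · have h1 := HT_G h hc0 hc1 he le_rfl le_rfl hac le_rfl hH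
      (fun j _ _ => by rw [hζ]; rfl) ((hz b).mono h.h1 hcτ hR'') hI
    have h2 := GG_mono (e1 := e1) (X := XL τ σ b0 a z b c) hc (le_refl W1) (uu_pos hcτ)
      (rr_range (σ := σ) (b := b) h.h1 hcτ).2
    exact (sub_le_sub_right h2 e).trans h1

lemma idle_plan (h : Ok W W1 e1 sch τ a c) (hac : a ≤ c) (hc0 : 0 ≤ c0) (hc1 : c0 ≤ 1)
    (he : 0 ≤ e) (hR : 0 ≤ R0) (hR' : R0 ≤ W) :
    Plan a c (Inv c0 W1 e1 e sch τ a) (Inv c0 W1 e1 e sch τ c) (Win R0 sch τ a) (Win R0 sch τ c)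
      (fun _ => 1) := by
  exact plan_of_core (b0 := true) (e0 := fun _ => e) (e := fun _ => e) (ζ := fun _ _ x => x) hac
    h.lt h.h1 hc1 h.hW0 (h.uu_sq le_rfl).2.2.2 (fun _ => he) (fun _ _ _ _ => rfl)
    fun σ => idle_core h hac hc0 hc1 le_rfl he hR le_rfl hR' fun _ _ => rfl

end

end

end Pool.Agent.P.MP_767cd9_co.Q1
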