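import Pool.Agent.P.MP_767cd9_co.Q1.Vol
import Pool.Agent.P.MP_767cd9_co.Q1.PlanGen

/-! Operations on systems of populations. -/

namespace Pool.Agent.P.MP_767cd9_co.Q1

open Real MeasureTheory Set

noncomputable section

variable {n : ℕ} {I I' : Type} {T T' : I → ℕ} {Good Good' : I → Path → ℝ → ℝ → Prop}
  {Wn Wn' : I → Path → Set ℝ} {lev lev' : I → PathD n → ℝ} {D D' : ℝ}

lemma co_ag {t : ℕ} {σ σ' : PathD n} (h : Ag t σ σ') (i : Fin (n + 1)) :
    Ag t (co σ i) (co σ' i) := by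
  intro j hj
  simp only [co, h j hj]

lemma SysG_ag_le {α : Type} {t t' : ℕ} {σ σ' : ℕ → α} (h : Ag t σ σ') (ht : t' ≤ t) :
    Ag t' σ σ' := fun j hj => h j (lt_of_lt_of_le hj ht)

lemma Sys.mono (h : Sys n I T Good Wn lev D)
    (h1 : ∀ k σ x q, x ∈ Wn' k σ → Good k σ x q → Good' k σ x q)
    (h2 : ∀ k σ, Wn' k σ ⊆ Wn k σ) (h3 : ∀ k σ, lev' k σ ≤ lev k σ) (h4 : D ≤ D') :
    Sys n I T Good' Wn' lev' D' := by
  obtain ⟨Ω, m, μ, X, mem, lb, hne, ha, hs, hc, hf, hm, hU⟩ := h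
  refine ⟨Ω, m, μ, X, mem, lb, hne, ha, hs, fun σ Z => ⟨(hc σ Z).1,
    (hc σ Z).2.trans (ENNReal.ofReal_le_ofReal h4)⟩, hf, hm, fun k σ U hK hW => ?_⟩
  obtain ⟨S, hS, hv, hS'⟩ := hU k σ U hK fun x hx i => h2 _ _ (hW x hx i)
  refine ⟨S, hS, le_trans ?_ hv, fun ω hω => ⟨(hS' ω hω).1, (hS' ω hω).2.1, fun i =>
    h1 _ _ _ _ (hW _ (hS' ω hω).2.1 i) ((hS' ω hω).2.2 i)⟩⟩
  gcongr
  exact h3 k σ

/-- every population is split into parts of relative weights `ω` -/
lemma Sys.split {K : Type} [Fintype K] [Nonempty K] (ω : K → ℝ) (hω : ∀ j, 0 ≤ ω j)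
    (hω1 : ∑ j, ω j ≤ 1) (h : Sys n I T Good Wn lev D) :
    Sys n (I × K) (fun k => T k.1) (fun k => Good k.1) (fun k => Wn k.1)
      (fun k σ => ω k.2 * lev k.1 σ) D := by
  classical
  obtain ⟨Ω, m, μ, X, mem, lb, hne, ha, hs, hc, hf, hm, hU⟩ := h
  let mK : MeasurableSpace K := ⊤
  have : MeasurableSingletonClass K := ⟨fun _ => trivial⟩
  set ν : Measure K := ∑ j, ENNReal.ofReal (ω j) • Measure.dirac j with hν
  have hν1 : ν univ ≤ 1 := by
    rw [hν, Measure.finsetSum_apply]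
    simp only [Measure.smul_apply, measure_univ, smul_eq_mul, mul_one]
    rw [← ENNReal.ofReal_sum_of_nonneg fun j _ => hω j]
    exact ENNReal.ofReal_le_one.2 hω1
  have hν2 : ∀ j, ν {j} = ENNReal.ofReal (ω j) := by
    intro j
    rw [hν, Measure.finsetSum_apply, Finset.sum_eq_single j]
    · simp
    · intro b _ hb
      simp [hb]
    · simp
  have : IsFiniteMeasure ν := ⟨lt_of_le_of_lt hν1 ENNReal.one_lt_top⟩
  refine ⟨Ω × K, inferInstance, μ.prod ν, fun a => X a.1, fun k σ a => mem k.1 σ a.1 ∧ a.2 = k.2,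
    fun k σ a => lb k.1 σ a.1, inferInstance, fun a => ha a.1, fun a => hs a.1, fun σ Z => ?_,
    ?_, ?_, fun k σ U hK hW => ?_⟩
  · have e : {a : Ω × K | cellOf (X a.1 σ 0) = Z} = {a | cellOf (X a σ 0) = Z} ×ˢ univ := by
      ext a; simp
    rw [e]
    refine ⟨(hc σ Z).1.prod MeasurableSet.univ, ?_⟩
    rw [Measure.prod_prod]
    calc _ ≤ ENNReal.ofReal D * 1 := mul_le_mul' (hc σ Z).2 hν1
      _ = _ := mul_one _
  · intro k k' σ a h1 h2
    exact Prod.ext (hf _ _ σ a.1 h1.1 h2.1) (h1.2.symm.trans h2.2)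
  · intro k σ σ' hA
    obtain ⟨e1, e2⟩ := hm k.1 σ σ' hA
    exact ⟨by simp only [e1], by simp only [e2]⟩
  · obtain ⟨S, hS, hv, hS'⟩ := hU k.1 σ U hK hW
    refine ⟨S ×ˢ {k.2}, hS.prod (measurableSet_singleton _), ?_, fun a h1 =>
      ⟨⟨(hS' _ h1.1).1, h1.2⟩, (hS' _ h1.1).2.1, (hS' _ h1.1).2.2⟩⟩
    rw [Measure.prod_prod, hν2, ENNReal.ofReal_mul (hω _), mul_assoc, mul_comm (μ S)]
    gcongr

/-- every population follows a plan in each coordinate -/
lemma Sys.evolve {ρ : I → Path → ℝ} (h : Sys n I T Good Wn lev D) (hT : ∀ k, T k ≤ T' k)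
    (hρ : ∀ k σ, 0 ≤ ρ k σ)
    (hP : ∀ k, Plan (T k) (T' k) (Good k) (Good' k) (Wn k) (Wn' k) (ρ k)) :
    Sys n I T' Good' Wn' (fun k σ => (∏ i, ρ k (co σ i)) * lev k σ) D := by
  classical
  obtain ⟨Ω, m, μ, X, mem, lb, hne, ha, hs, hc, hf, hm, hU⟩ := h
  choose pos out p1 p2 p3 p4 ψ p5 p6 p7 using hP
  let X' : Ω → PathD n → ℕ → Vec n := fun a σ t =>
    if h : ∃ k, mem k σ a ∧ T k ≤ t then
      fun i => pos h.choose (co σ i) (lb h.choose σ a i) (X a σ (T h.choose) i) t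
    else X a σ t
  have hX1 : ∀ a σ t k, mem k σ a → T k ≤ t →
      X' a σ t = fun i => pos k (co σ i) (lb k σ a i) (X a σ (T k) i) t := by
    intro a σ t k h1 h2
    have h : ∃ k, mem k σ a ∧ T k ≤ t := ⟨k, h1, h2⟩
    have e : h.choose = k := hf _ _ σ a h.choose_spec.1 h1
    simp only [X', dif_pos h, e]
  have hX2 : ∀ a σ t, (¬∃ k, mem k σ a ∧ T k ≤ t) → X' a σ t = X a σ t := by
    intro a σ t h
    simp only [X', dif_neg h]
  have hX3 : ∀ a σ t, (∀ k, mem k σ a → t ≤ T k) → X' a σ t = X a σ t := by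
    intro a σ t h
    by_cases h' : ∃ k, mem k σ a ∧ T k ≤ t
    · obtain ⟨k, h1, h2⟩ := h'
      have e : T k = t := le_antisymm h2 (h k h1)
      rw [hX1 a σ t k h1 h2]
      funext i
      rw [← e, p3]
    · exact hX2 a σ t h'
  refine ⟨Ω, m, μ, X', mem, fun k σ a i => out k (co σ i) (lb k σ a i), hne, ?_, ?_, ?_, hf,
    ?_, fun k σ U hK hW => ?_⟩
  · intro a t σ σ' hA
    by_cases h : ∃ k, mem k σ a ∧ T k ≤ t
    · obtain ⟨k, h1, h2⟩ := h
      have hA' : Ag (T k) σ σ' := SysG_ag_le hA h2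
      obtain ⟨e1, e2⟩ := hm k σ σ' hA'
      rw [hX1 a σ t k h1 h2, hX1 a σ' t k (by rw [e1]; exact h1) h2, e2, ha a _ σ σ' hA']
      funext i
      exact p1 k t _ _ (co_ag hA i) _ _
    · have h' : ¬∃ k, mem k σ' a ∧ T k ≤ t := by
        rintro ⟨k, h1, h2⟩
        exact h ⟨k, by rw [← (hm k σ σ' (SysG_ag_le hA h2)).1]; exact h1, h2⟩
      rw [hX2 a σ t h, hX2 a σ' t h', ha a t σ σ' hA]
  · intro a σ t i
    by_cases h : ∃ k, mem k σ a ∧ T k ≤ t
    · obtain ⟨k, h1, h2⟩ := h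
      rw [hX1 a σ t k h1 h2, hX1 a σ (t + 1) k h1 (h2.trans (Nat.le_succ t))]
      exact p4 k (co σ i) _ _ t h2
    · rw [hX2 a σ t h, hX3 a σ (t + 1) fun k h1 => ?_]
      · exact hs a σ t i
      · by_contra h2
        exact h ⟨k, h1, by omega⟩
  · intro σ Z
    have e : ∀ a, X' a σ 0 = X a σ 0 := fun a => hX3 a σ 0 fun k _ => Nat.zero_le _
    simp only [e]
    exact hc σ Z
  · intro k σ σ' hA
    obtain ⟨e1, e2⟩ := hm k σ σ' (SysG_ag_le hA (hT k))
    refine ⟨e1, ?_⟩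
    funext a i
    show out k (co σ' i) (lb k σ' a i) = out k (co σ i) (lb k σ a i)
    rw [e2, p2 k _ _ (co_ag hA i)]
  · have hV : IsCompact ((fun (x : Vec n) i => ψ k (co σ i) (x i)) '' U) :=
      hK.image (continuous_pi fun i => (p5 k (co σ i)).comp (continuous_apply i))
    obtain ⟨S, hS, hv, hS'⟩ := hU k σ _ hV (by
      rintro _ ⟨y, hy, rfl⟩ i
      exact (p7 k (co σ i) (y i) (hW y hy i)).1)
    refine ⟨S, hS, le_trans ?_ hv, fun a h1 => ?_⟩
    · have h2 := expand_vol (ρ := fun i => ρ k (co σ i)) (ψ := fun i => ψ k (co σ i))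
        (W := fun i => Wn' k (co σ i)) (fun i => hρ _ _) (fun i => p6 k (co σ i)) hW
      rw [ENNReal.ofReal_mul (Finset.prod_nonneg fun i _ => hρ _ _), mul_comm (ENNReal.ofReal _),
        mul_assoc]
      gcongr
    · obtain ⟨h2, ⟨y, hy, h3⟩, h4⟩ := hS' a h1
      have e : (fun i => out k (co σ i) (lb k σ a i)) = y := by
        funext i
        rw [← h3]
        exact (p7 k (co σ i) (y i) (hW y hy i)).2.1
      refine ⟨h2, ?_, fun i => ?_⟩
      · show (fun i => out k (co σ i) (lb k σ a i)) ∈ U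
        rw [e]; exact hy
      · show Good' k (co σ i) ((fun i => out k (co σ i) (lb k σ a i)) i) (X' a σ (T' k) i)
        rw [e, hX1 a σ (T' k) k h2 (hT k)]
        have h5 := h4 i
        rw [← h3] at h5 ⊢
        exact (p7 k (co σ i) (y i) (hW y hy i)).2.2 _ h5

/-- populations are sent to new indices and merged -/
lemma Sys.route {T2 : I' → ℕ} {Good2 : I' → Path → ℝ → ℝ → Prop} {Wn2 : I' → Path → Set ℝ}
    {lev2 : I' → PathD n → ℝ} (rt : I → PathD n → I' → Prop)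
    (rl : I → I' → PathD n → Vec n → Vec n) (h : Sys n I T Good Wn lev D)
    (hfun : ∀ k σ j j', rt k σ j → rt k σ j' → j = j')
    (htime : ∀ k σ j, rt k σ j → T k = T2 j)
    (had : ∀ k j σ σ', Ag (T2 j) σ σ' → (rt k σ' j ↔ rt k σ j) ∧ rl k j σ' = rl k j σ)
    (hmain : ∀ j σ U, IsCompact U → U.Nonempty → (∀ x ∈ U, ∀ i, x i ∈ Wn2 j (co σ i)) →
      ∃ (F : Finset I) (V : I → Set (Vec n)),
        (∀ k ∈ F, rt k σ j ∧ IsCompact (V k) ∧ ∀ x ∈ V k, (∀ i, x i ∈ Wn k (co σ i)) ∧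
          rl k j σ x ∈ U ∧
          ∀ i q, Good k (co σ i) (x i) q → Good2 j (co σ i) (rl k j σ x i) q) ∧
        ENNReal.ofReal (lev2 j σ) * volume U ≤
          ∑ k ∈ F, ENNReal.ofReal (lev k σ) * volume (V k)) :
    Sys n I' T2 Good2 Wn2 lev2 D := by
  classical
  obtain ⟨Ω, m, μ, X, mem, lb, hne, ha, hs, hc, hf, hm, hU⟩ := h
  let lb' : I' → PathD n → Ω → Vec n := fun j σ a =>
    if h : ∃ k, mem k σ a ∧ rt k σ j then rl h.choose j σ (lb h.choose σ a) else 0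
  have hl1 : ∀ j σ a k, mem k σ a → rt k σ j → lb' j σ a = rl k j σ (lb k σ a) := by
    intro j σ a k h1 h2
    have h : ∃ k, mem k σ a ∧ rt k σ j := ⟨k, h1, h2⟩
    have e : h.choose = k := hf _ _ σ a h.choose_spec.1 h1
    simp only [lb', dif_pos h, e]
  have hl2 : ∀ j σ a, (¬∃ k, mem k σ a ∧ rt k σ j) → lb' j σ a = 0 := by
    intro j σ a h
    simp only [lb', dif_neg h]
  refine ⟨Ω, m, μ, X, fun j σ a => ∃ k, mem k σ a ∧ rt k σ j, lb', hne, ha, hs, hc, ?_, ?_,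
    fun j σ U hK hW => ?_⟩
  · rintro j j' σ a ⟨k, h1, h2⟩ ⟨k', h3, h4⟩
    obtain rfl := hf k k' σ a h1 h3
    exact hfun k σ j j' h2 h4
  · intro j σ σ' hA
    have key : ∀ k, rt k σ j → mem k σ' = mem k σ ∧ lb k σ' = lb k σ := fun k h2 =>
      hm k σ σ' (by rw [htime k σ j h2]; exact hA)
    have hiff : ∀ a, (∃ k, mem k σ' a ∧ rt k σ' j) ↔ ∃ k, mem k σ a ∧ rt k σ j := by
      intro a
      constructor
      · rintro ⟨k, h1, h2⟩
        have h3 := (had k j σ σ' hA).1.1 h2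
        exact ⟨k, by rw [← (key k h3).1]; exact h1, h3⟩
      · rintro ⟨k, h1, h2⟩
        exact ⟨k, by rw [(key k h2).1]; exact h1, (had k j σ σ' hA).1.2 h2⟩
    refine ⟨funext fun a => propext (hiff a), funext fun a => ?_⟩
    by_cases h : ∃ k, mem k σ a ∧ rt k σ j
    · obtain ⟨k, h1, h2⟩ := h
      rw [hl1 j σ a k h1 h2, hl1 j σ' a k (by rw [(key k h2).1]; exact h1)
        ((had k j σ σ' hA).1.2 h2), (had k j σ σ' hA).2, (key k h2).2]
    · rw [hl2 j σ a h, hl2 j σ' a fun h' => h ((hiff a).1 h')]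
  · rcases U.eq_empty_or_nonempty with rfl | hUne
    · exact ⟨∅, MeasurableSet.empty, by simp, fun a h => h.elim⟩
    obtain ⟨F, V, hF, hsum⟩ := hmain j σ U hK hUne hW
    have h1 : ∀ k, ∃ S, k ∈ F → MeasurableSet S ∧
        ENNReal.ofReal (lev k σ) * volume (V k) ≤ μ S ∧ ∀ a ∈ S, mem k σ a ∧ lb k σ a ∈ V k ∧
          ∀ i, Good k (co σ i) (lb k σ a i) (X a σ (T k) i) := by
      intro k
      by_cases hk : k ∈ F
      · obtain ⟨S, hS⟩ := hU k σ (V k) (hF k hk).2.1 fun x hx => ((hF k hk).2.2 x hx).1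
        exact ⟨S, fun _ => hS⟩
      · exact ⟨∅, fun h => absurd h hk⟩
    choose S hS using h1
    refine ⟨⋃ k ∈ F, S k, Finset.measurableSet_biUnion F fun k hk => (hS k hk).1, ?_, ?_⟩
    · rw [measure_biUnion_finset ?_ fun k hk => (hS k hk).1]
      · exact hsum.trans (Finset.sum_le_sum fun k hk => (hS k hk).2.1)
      · intro k hk k' hk' hne'
        refine Set.disjoint_left.2 fun a h1 h2 => hne' ?_
        exact hf k k' σ a ((hS k hk).2.2 a h1).1 ((hS k' hk').2.2 a h2).1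
    · intro a h1
      simp only [mem_iUnion] at h1
      obtain ⟨k, hk, h1⟩ := h1
      obtain ⟨h2, h3, h4⟩ := (hS k hk).2.2 a h1
      obtain ⟨h5, -, h6⟩ := hF k hk
      obtain ⟨-, h7, h8⟩ := h6 _ h3
      rw [hl1 j σ a k h2 h5, ← htime k σ j h5]
      exact ⟨⟨k, h2, h5⟩, h7, fun i => h8 i _ (h4 i)⟩

/-- initial formation: label `x` of population `k ∈ F` stands at `pf k x` -/
lemma Sys.init (F : Finset I) (hF : F.Nonempty) (pf : I → ℝ → ℝ) (hm : ∀ k, Measurable (pf k))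
    {ω : ℝ} (hω : 0 ≤ ω)
    (hsep : ∀ k ∈ F, ∀ x y, ⌊pf k x / 4⌋ = ⌊pf k y / 4⌋ → |x - y| ≤ ω) :
    Sys n I (fun _ => 0) (fun k _ x q => q = pf k x) (fun k _ => {_x | k ∈ F}) (fun _ _ => 1)
      (F.card * ω ^ (n + 1)) := by
  classical
  let mK : MeasurableSpace F := ⊤
  have : MeasurableSingletonClass F := ⟨fun _ => trivial⟩
  obtain ⟨k0, hk0⟩ := hF
  refine ⟨F × Vec n, inferInstance, (Measure.count : Measure F).prod volume,
    fun a σ t i => pf a.1 (a.2 i) - 2 * ∑ s ∈ Finset.range t, sg (σ s i),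
    fun k _ a => (a.1 : I) = k, fun _ _ a => a.2, ⟨(⟨k0, hk0⟩, 0)⟩, ?_, ?_, fun σ Z => ?_, ?_,
    fun _ _ _ _ => ⟨rfl, rfl⟩, fun k σ U hK hW => ?_⟩
  · intro a t σ σ' hA
    funext i
    have e : ∑ s ∈ Finset.range t, sg (σ' s i) = ∑ s ∈ Finset.range t, sg (σ s i) :=
      Finset.sum_congr rfl fun s hs => by rw [hA s (Finset.mem_range.1 hs)]
    simp only [e]
  · intro a σ t i
    simp only [Finset.sum_range_succ]
    have e : pf a.1 (a.2 i) - 2 * ∑ s ∈ Finset.range t, sg (σ s i) -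
        (pf a.1 (a.2 i) - 2 * (∑ s ∈ Finset.range t, sg (σ s i) + sg (σ t i))) -
        2 * sg (σ t i) = 0 := by ring
    rw [e]
    simp
  · let A : F → Set (Vec n) := fun k => {x | ∀ i, ⌊pf k (x i) / 4⌋ = Z i}
    have hA : ∀ k, MeasurableSet (A k) := by
      intro k
      have e : A k = ⋂ i, (fun x : Vec n => ⌊pf k (x i) / 4⌋) ⁻¹' {Z i} := by
        ext x; simp [A]
      rw [e]
      refine MeasurableSet.iInter fun i => ?_
      exact (Measurable.floor (((hm k).comp (measurable_pi_apply i)).div_const 4))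
        (measurableSet_singleton _)
    have e : {a : F × Vec n | cellOf (fun i => pf a.1 (a.2 i) -
        2 * ∑ s ∈ Finset.range 0, sg (σ s i)) = Z} = ⋃ k : F, {k} ×ˢ A k := by
      ext a
      simp only [Finset.range_zero, Finset.sum_empty, mul_zero, sub_zero, mem_ofPred_eq,
        mem_iUnion, mem_prod, mem_singleton_iff, A]
      constructor
      · intro h
        exact ⟨a.1, rfl, fun i => congrFun h i⟩
      · rintro ⟨k, rfl, h⟩
        exact funext h
    rw [e]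
    refine ⟨MeasurableSet.iUnion fun k => (measurableSet_singleton k).prod (hA k), ?_⟩
    refine (measure_iUnion_fintype_le _ _).trans ?_
    have hb : ∀ k : F, ((Measure.count : Measure F).prod volume) ({k} ×ˢ A k) ≤
        ENNReal.ofReal (ω ^ (n + 1)) := by
      intro k
      rw [Measure.prod_prod, Measure.count_singleton, one_mul, ENNReal.ofReal_pow hω]
      refine le_trans (Real.volume_pi_le_diam_pow _) ?_
      rw [Fintype.card_fin]
      gcongr
      apply Metric.ediam_le_of_forall_dist_le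
      intro x hx y hy
      rw [dist_pi_le_iff hω]
      intro i
      exact hsep k k.2 _ _ ((hx i).trans (hy i).symm)
    refine (Finset.sum_le_sum fun k _ => hb k).trans (le_of_eq ?_)
    rw [Finset.sum_const, Finset.card_univ, Fintype.card_coe, nsmul_eq_mul,
      ENNReal.ofReal_mul (Nat.cast_nonneg _), ENNReal.ofReal_natCast]
  · intro k k' σ a h1 h2
    exact h1.symm.trans h2
  · rcases U.eq_empty_or_nonempty with rfl | ⟨x, hx⟩
    · exact ⟨∅, MeasurableSet.empty, by simp, fun a h => h.elim⟩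
    have hk : k ∈ F := hW x hx 0
    refine ⟨{(⟨k, hk⟩ : F)} ×ˢ U, (measurableSet_singleton _).prod hK.measurableSet, ?_,
      fun a h1 => ?_⟩
    · rw [Measure.prod_prod, Measure.count_singleton]
      simp
    · have e : (a.1 : I) = k := congrArg Subtype.val h1.1
      refine ⟨e, h1.2, fun i => ?_⟩
      simp [e]

end

end Pool.Agent.P.MP_767cd9_co.Q1
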