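import Pool.Agent.P.MP_767cd9_co.Q1.LevA
import Pool.Agent.P.MP_767cd9_co.Q1.SysG

/-! One round: the level of all populations is multiplied by `B / (16 M ^ 7)`. -/

namespace Pool.Agent.P.MP_767cd9_co.Q1

open Real MeasureTheory Set

noncomputable section

variable {n : ℕ}

/-- a point within half a block of block `j` finds it among two candidates -/
lemma two_cand {l j τ m : ℕ} (hl : 0 < l) (hm : 2 * m ≤ l) (h : Ext l m j τ) :
    ∃ c : Bool, (2 * τ + l) / (2 * l) - (if c then 1 else 0) = j := by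
  obtain ⟨h1, h2⟩ := h
  have a1 : j ≤ (2 * τ + l) / (2 * l) := by
    rw [Nat.le_div_iff_mul_le (by omega)]; nlinarith
  have a2 : (2 * τ + l) / (2 * l) < j + 2 := by
    rw [Nat.div_lt_iff_lt_mul (by omega)]; nlinarith
  rcases Nat.eq_or_lt_of_le a1 with h | h
  · exact ⟨false, by simpa using h.symm⟩
  · exact ⟨true, by simp only [if_true]; omega⟩

/-- roles: a bit for the child block, then a bet or a donation -/
abbrev KK (Wh : ℕ) : Type := Bool × ((Bool × Fin 8) ⊕ (Bool × Fin Wh))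

def chd (l τ : ℕ) (c : Bool) : ℕ := (2 * τ + l) / (2 * l) - (if c then 1 else 0)

def om (Wh : ℕ) (k : KK Wh) : ℝ := Sum.elim (fun _ => 1 / 64) (fun _ => 1 / (8 * (Wh : ℝ))) k.2

lemma om_facts {Wh : ℕ} (h : 0 < Wh) : (∀ k, 0 ≤ om Wh k) ∧ ∑ k, om Wh k ≤ 1 := by
  have hR : (0 : ℝ) < Wh := by exact_mod_cast h
  refine ⟨?_, ?_⟩
  · rintro ⟨c, k | k⟩ <;> simp only [om, Sum.elim_inl, Sum.elim_inr] <;> positivity
  · simp only [om, Fintype.sum_prod_type, Fintype.sum_sum_type, Sum.elim_inl, Sum.elim_inr,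
      Finset.sum_const, Finset.card_univ, Fintype.card_prod, Fintype.card_bool, Fintype.card_fin,
      nsmul_eq_mul]
    push_cast
    have : 2 * (Wh : ℝ) * (1 / (8 * (Wh : ℝ))) = 1 / 4 := by field_simp; norm_num
    rw [this]; norm_num

section
variable (q : NP n) (w l lo hi : ℕ) (sch : ℕ → ℕ → ℝ) (v : ℕ → Bool × Fin 8 → ℕ → Path → ℝ)

def vd (k : (ℕ × ℕ) × KK (q.M ^ 7 * w)) : Prop :=
  lo ≤ k.1.1 ∧ k.1.1 < hi ∧ chd l k.1.2 k.2.1 / q.B = k.1.1 ∧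
    Ext l (Sum.elim (fun _ => 2 * w) (fun _ => 2 * (q.B * w)) k.2.2) (chd l k.1.2 k.2.1) k.1.2

open Classical in
def T1 (k : (ℕ × ℕ) × KK (q.M ^ 7 * w)) : ℕ :=
  if vd q w l lo hi k then (chd l k.1.2 k.2.1 - 2) * l else (k.1.1 - 2) * (q.B * l)

def Gd1 (k : (ℕ × ℕ) × KK (q.M ^ 7 * w)) : Path → ℝ → ℝ → Prop :=
  Sum.elim (fun _ => Inv (1 / 2) w (100 * q.B * (w : ℝ) ^ 2 / l)
      (500 * (q.B : ℝ) ^ 2 * (w : ℝ) ^ 2 / l) (sch k.1.1) k.1.2 ((chd l k.1.2 k.2.1 - 2) * l))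
    (fun _ => Inv (3 / 4) (q.B * w : ℕ) (100 * ((q.B * w : ℕ) : ℝ) ^ 2 / l) 0 (sch k.1.1) k.1.2
      ((chd l k.1.2 k.2.1 - 2) * l)) k.2.2

def Wn1 (k : (ℕ × ℕ) × KK (q.M ^ 7 * w)) (σ : Path) : Set ℝ :=
  {x | vd q w l lo hi k ∧ x ∈ Win (Sum.elim (fun _ => (w : ℝ)) (fun _ => ((q.B * w : ℕ) : ℝ)) k.2.2)
    (sch k.1.1) k.1.2 ((chd l k.1.2 k.2.1 - 2) * l) σ}

def rho1 (k : (ℕ × ℕ) × KK (q.M ^ 7 * w)) (σ : Path) : ℝ :=
  Sum.elim (fun β => q.k0 * Real.exp (v (chd l k.1.2 k.2.1) β k.1.2 σ)) (fun _ => q.k0) k.2.2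

def hard (j τ : ℕ) (σ : PathD n) : Prop := ∀ β, ∑ i, v j β τ (co σ i) < q.B

def rt1 (k : (ℕ × ℕ) × KK (q.M ^ 7 * w)) (σ : PathD n) (j : ℕ × ℕ) : Prop :=
  vd q w l lo hi k ∧ chd l k.1.2 k.2.1 = j.1 ∧ Ext l (2 * w) j.1 j.2 ∧
    Sum.elim (fun _ => j.2 = k.1.2)
      (fun r : Bool × Fin (q.M ^ 7 * w) => hard q v j.1 j.2 σ ∧
        chd (q.P * w) k.1.2 r.1 = j.2 / (q.P * w) ∧ j.2 % (q.M ^ 7 * w) = r.2) k.2.2

def ps1 (j τ τ' : ℕ) (σ : Path) : ℝ → ℝ :=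
  psi (uu τ ((j - 2) * l)) (rr (sch (j / q.B)) τ σ true ((j - 2) * l))
    (rr (sch (j / q.B)) τ σ false ((j - 2) * l)) ((τ : ℝ) - τ')

def rl1 (k : (ℕ × ℕ) × KK (q.M ^ 7 * w)) (j : ℕ × ℕ) (σ : PathD n) (x : Vec n) : Vec n :=
  Sum.elim (fun _ => x)
    (fun _ i => Function.invFun (ps1 q l sch j.1 j.2 k.1.2 (co σ i)) (x i)) k.2.2

end

lemma NP.sizes (q : NP n) : 64 ≤ q.B ∧ 4000 * q.B ≤ q.P ∧ 1 ≤ q.M := by
  have h1 := q.hM
  have h2 := q.hB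
  have h3 := q.hP
  refine ⟨by omega, ?_, by omega⟩
  have a1 : 4000 ≤ q.M ^ 4 := le_trans (by omega) (Nat.le_self_pow (by norm_num) q.M)
  have a2 : q.B ≤ q.B ^ 2 := Nat.le_self_pow (by norm_num) _
  calc 4000 * q.B = q.B * 4000 := by ring
    _ ≤ q.B ^ 2 * q.M ^ 4 := Nat.mul_le_mul a2 a1
    _ ≤ _ := h3

lemma ext_parent {l m B j τ : ℕ} (hB : 0 < B) (h : Ext l m j τ) : Ext (B * l) m (j / B) τ := by
  obtain ⟨h1, h2⟩ := h
  have a1 : j / B * B ≤ j := Nat.div_mul_le_self _ _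
  have a2 : j + 1 ≤ (j / B + 1) * B := by
    have := Nat.lt_div_mul_add (a := j) hB
    nlinarith
  constructor
  · calc j / B * (B * l) = j / B * B * l := by ring
      _ ≤ j * l := Nat.mul_le_mul_right _ a1
      _ ≤ _ := h1
  · calc τ < (j + 1) * l + m := h2
      _ ≤ (j / B + 1) * B * l + m := by gcongr
      _ = _ := by ring

lemma ext_mono {l m m' j τ : ℕ} (h : Ext l m j τ) (hm : m ≤ m') : Ext l m' j τ :=
  ⟨by have := h.1; omega, by have := h.2; omega⟩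

section
variable {q : NP n} {w l lo hi : ℕ} {sch : ℕ → ℕ → ℝ} {v : ℕ → Bool × Fin 8 → ℕ → Path → ℝ}
  {lev D : ℝ}

lemma vd_two (hlo : 2 ≤ lo) {k : (ℕ × ℕ) × KK (q.M ^ 7 * w)} (h : vd q w l lo hi k) :
    2 * q.B ≤ chd l k.1.2 k.2.1 := by
  obtain ⟨h1, -, h3, -⟩ := h
  have hB := q.sizes.1
  have : 2 ≤ chd l k.1.2 k.2.1 / q.B := by omega
  exact (Nat.le_div_iff_mul_le (by omega)).mp this

lemma stage1 (hw : 0 < w) (hl : l = q.P ^ 2 * w) (hlo : 2 ≤ lo) (h1 : ∀ j t, 1 ≤ sch j t)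
    (hs : ∀ j t, (j - 2) * (q.B * l) ≤ t → sch j t = 4 * ((q.B * w : ℕ) : ℝ))
    (hv : ∀ j β τ, 2 * q.B ≤ j → Ext l (2 * w) j τ →
        Plan ((j / q.B - 2) * (q.B * l)) ((j - 2) * l)
          (Inv (1 / 2) (q.B * w : ℕ) (100 * q.B * ((q.B * w : ℕ) : ℝ) ^ 2 / (q.B * l : ℕ))
            (500 * (q.B : ℝ) ^ 2 * ((q.B * w : ℕ) : ℝ) ^ 2 / (q.B * l : ℕ)) (sch (j / q.B)) τ
            ((j / q.B - 2) * (q.B * l)))
          (Inv (1 / 2) w (100 * q.B * (w : ℝ) ^ 2 / l) (500 * (q.B : ℝ) ^ 2 * (w : ℝ) ^ 2 / l)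
            (sch (j / q.B)) τ ((j - 2) * l))
          (Win (q.B * w : ℕ) (sch (j / q.B)) τ ((j / q.B - 2) * (q.B * l)))
          (Win w (sch (j / q.B)) τ ((j - 2) * l)) (fun σ => q.k0 * Real.exp (v j β τ σ)))
    (hS : Sys n (ℕ × ℕ) (fun k => (k.1 - 2) * (q.B * l))
      (fun k σ => Inv (1 / 2) (q.B * w : ℕ) (100 * q.B * ((q.B * w : ℕ) : ℝ) ^ 2 / (q.B * l : ℕ))
        (500 * (q.B : ℝ) ^ 2 * ((q.B * w : ℕ) : ℝ) ^ 2 / (q.B * l : ℕ))
        (sch k.1) k.2 ((k.1 - 2) * (q.B * l)) σ)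
      (fun k σ => {x | lo ≤ k.1 ∧ k.1 < hi ∧ Ext (q.B * l) (2 * (q.B * w)) k.1 k.2 ∧
        x ∈ Win (q.B * w : ℕ) (sch k.1) k.2 ((k.1 - 2) * (q.B * l)) σ})
      (fun _ _ => lev) D) :
    Sys n ((ℕ × ℕ) × KK (q.M ^ 7 * w)) (T1 q w l lo hi) (Gd1 q w l sch) (Wn1 q w l lo hi sch)
      (fun k σ => (∏ i, rho1 q w l v k (co σ i)) * (om _ k.2 * lev)) D := by
  classical
  obtain ⟨hB, hP, hM⟩ := q.sizes
  have hWh : 0 < q.M ^ 7 * w := by positivity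
  have hS' := Sys.split (om (q.M ^ 7 * w)) (om_facts hWh).1 (om_facts hWh).2 hS
  have hwW : 2 * w ≤ 2 * (q.B * w) := by nlinarith
  have hpre : ∀ k : (ℕ × ℕ) × KK (q.M ^ 7 * w), vd q w l lo hi k →
      Ext l (2 * (q.B * w)) (chd l k.1.2 k.2.1) k.1.2 := by
    rintro ⟨k1, c, r | r⟩ hk
    · exact ext_mono hk.2.2.2 hwW
    · exact hk.2.2.2
  have hle : ∀ j : ℕ, (j - 2 ^ 19) * l ≤ (j - 2) * l := fun j =>
    Nat.mul_le_mul_right _ (by omega)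
  refine Sys.evolve hS' ?_ ?_ ?_
  · intro k
    unfold T1
    split_ifs with hk
    · have := (pre_plan q hw hl (vd_two hlo hk) (h1 _) (hs _) (hpre k hk) (hle _) le_rfl).1
      rwa [hk.2.2.1] at this
    · exact le_rfl
  · rintro ⟨k1, c, r | r⟩ σ
    · exact mul_nonneg q.k0_facts.1 (Real.exp_pos _).le
    · exact q.k0_facts.1
  · intro k
    by_cases hk : vd q w l lo hi k
    swap
    · exact Plan.empty fun σ => by ext x; simp [Wn1, hk]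
    have hpar := ext_parent (B := q.B) (by omega) (hpre k hk)
    rw [hk.2.2.1] at hpar
    have hT : T1 q w l lo hi k = (chd l k.1.2 k.2.1 - 2) * l := by simp [T1, hk]
    rw [hT]
    obtain ⟨k1, c, r | r⟩ := k
    · have := hv _ r _ (vd_two hlo hk) hk.2.2.2
      rw [hk.2.2.1] at this
      exact this.mono (fun _ _ _ _ h => h) (fun _ _ _ _ h => h)
        (fun σ x hx => ⟨hk.1, hk.2.1, hpar, hx⟩) (fun σ x hx => hx.2) (fun σ => le_rfl)
    · have := (pre_plan q hw hl (vd_two hlo hk) (h1 _) (hs _) (hpre _ hk) (hle _) le_rfl).2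
      rw [hk.2.2.1] at this
      exact this.mono (fun _ _ _ _ h => h) (fun _ _ _ _ h => h)
        (fun σ x hx => ⟨hk.1, hk.2.1, hpar, hx⟩) (fun σ x hx => hx.2) (fun σ => le_rfl)

lemma tb_sizes (hw : 0 < w) (hl : l = q.P ^ 2 * w) {j τ : ℕ} (hj : 2 * q.B ≤ j)
    (hτ : Ext l (2 * w) j τ) : (l : ℝ) ≤ ss τ ((j - 2) * l) ∧ 1000 * ((q.B * w : ℕ) : ℝ) ≤ l ∧
      4 * (q.B * w) ≤ q.P * w ∧ q.P * w ≤ l ∧ q.B * w ≤ τ := by
  obtain ⟨hB, hP, hM⟩ := q.sizes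
  have a1 : 4000 * (q.B * w) ≤ q.P * w := by nlinarith
  have a2 : q.P * w ≤ l := by
    rw [hl]; exact Nat.mul_le_mul_right _ (Nat.le_self_pow (by norm_num) _)
  have a3 : 64 * w ≤ q.B * w := Nat.mul_le_mul_right _ hB
  obtain ⟨j, rfl⟩ : ∃ i, j = i + 2 := ⟨j - 2, by omega⟩
  have h1 := hτ.1
  have a4 : j * l + l ≤ τ := by nlinarith
  refine ⟨?_, ?_, by omega, a2, by nlinarith⟩
  · unfold ss
    rw [Nat.add_sub_cancel]
    have : ((j * l + l : ℕ) : ℝ) ≤ τ := by exact_mod_cast a4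
    push_cast at this ⊢
    linarith
  · have : 1000 * (q.B * w) ≤ l := by omega
    exact_mod_cast this

/-- facts on one donor -/
lemma donor (hw : 0 < w) (hl : l = q.P ^ 2 * w) (hlo : 2 ≤ lo) (h1 : ∀ j t, 1 ≤ sch j t)
    {j τ τ' : ℕ} (hj1 : q.B * lo ≤ j) (hj2 : j < q.B * hi) (hτ : Ext l (2 * w) j τ)
    (hd1 : τ ≤ τ' + q.B * w) (hd2 : τ' ≤ τ + q.B * w) {σ : PathD n} (hh : hard q v j τ σ)
    {U : Set (Vec n)} (hU : IsCompact U)
    (hUW : ∀ x ∈ U, ∀ i, x i ∈ Win w (sch (j / q.B)) τ ((j - 2) * l) (co σ i)) :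
    ∃ (c : Bool) (r : Bool × Fin (q.M ^ 7 * w)),
      rt1 q w l lo hi v ((j / q.B, τ'), c, Sum.inr r) σ (j, τ) ∧
      IsCompact ((fun (x : Vec n) i => ps1 q l sch j τ τ' (co σ i) (x i)) '' U) ∧
      ∀ x ∈ (fun (x : Vec n) i => ps1 q l sch j τ τ' (co σ i) (x i)) '' U,
        (∀ i, x i ∈ Wn1 q w l lo hi sch ((j / q.B, τ'), c, Sum.inr r) (co σ i)) ∧
        rl1 q w l sch ((j / q.B, τ'), c, Sum.inr r) (j, τ) σ x ∈ U ∧
        ∀ i y, Gd1 q w l sch ((j / q.B, τ'), c, Sum.inr r) (co σ i) (x i) y →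
          Inv (1 / 2) w (100 * q.B * (w : ℝ) ^ 2 / l) (500 * (q.B : ℝ) ^ 2 * (w : ℝ) ^ 2 / l)
            (sch (j / q.B)) τ ((j - 2) * l) (co σ i)
            (rl1 q w l sch ((j / q.B, τ'), c, Sum.inr r) (j, τ) σ x i) y := by
  obtain ⟨hB, hP, hM⟩ := q.sizes
  have hj : 2 * q.B ≤ j := by nlinarith
  obtain ⟨s1, s2, s3, s4, s5⟩ := tb_sizes hw hl hj hτ
  have hWh : 0 < q.M ^ 7 * w := by positivity
  have hwW : 64 * w ≤ q.B * w := Nat.mul_le_mul_right _ hB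
  have hE0 : 0 < q.P * w := by omega
  have hext : Ext l (2 * (q.B * w)) j τ' := ⟨by have := hτ.1; omega, by have := hτ.2; omega⟩
  obtain ⟨c, hc⟩ := two_cand (by omega) (by omega) hext
  have hsub : Ext (q.P * w) (q.B * w) (τ / (q.P * w)) τ' := by
    have a1 := Nat.div_mul_le_self τ (q.P * w)
    have a2 := Nat.lt_div_mul_add (a := τ) hE0
    exact ⟨by omega, by rw [add_mul, one_mul]; omega⟩
  obtain ⟨c', hc'⟩ := two_cand hE0 (by omega) hsub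
  have hvd : ∀ r : Bool × Fin (q.M ^ 7 * w),
      vd q w l lo hi ((j / q.B, τ'), c, Sum.inr r) := by
    intro r
    refine ⟨?_, ?_, ?_, ?_⟩
    · exact (Nat.le_div_iff_mul_le (by omega)).mpr (by rw [mul_comm]; exact hj1)
    · exact (Nat.div_lt_iff_lt_mul (by omega)).mpr (by rw [mul_comm]; exact hj2)
    · simp only [chd]; rw [hc]
    · simp only [chd, Sum.elim_inr]; rw [hc]; exact hext
  have hchd : chd l τ' c = j := hc
  have hWR : (1 : ℝ) ≤ (q.B * w : ℕ) := by exact_mod_cast (by omega : 1 ≤ q.B * w)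
  have hδ : |(τ : ℝ) - τ'| ≤ (q.B * w : ℕ) := by
    have a1 : (τ : ℝ) ≤ τ' + (q.B * w : ℕ) := by exact_mod_cast hd1
    have a2 : (τ' : ℝ) ≤ τ + (q.B * w : ℕ) := by exact_mod_cast hd2
    rw [abs_le]; constructor <;> linarith
  have hlR : (0 : ℝ) < l := by linarith
  have hlt : (j - 2) * l < τ := lt_of_ss_pos (by linarith)
  have hu := uu_pos hlt
  have hrr := fun i b => rr_range (σ := co σ i) (b := b) (h1 (j / q.B)) hlt
  have hps : ∀ i, Continuous (ps1 q l sch j τ τ' (co σ i)) ∧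
      Function.Injective (ps1 q l sch j τ τ' (co σ i)) := fun i =>
    psi_facts hu (hrr i true).1.le (hrr i true).2 (hrr i false).1.le (hrr i false).2 hδ
      (by rw [uu_sq hlt.le]; linarith)
  have hw4 : 4 * (w : ℝ) ≤ (q.B * w : ℕ) := by exact_mod_cast (by omega : 4 * w ≤ q.B * w)
  refine ⟨c, (c', ⟨τ % (q.M ^ 7 * w), Nat.mod_lt _ hWh⟩), ⟨hvd _, hchd, hτ, hh, hc', rfl⟩,
    hU.image (continuous_pi fun i => (hps i).1.comp (continuous_apply i)), ?_⟩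
  rintro _ ⟨x, hx, rfl⟩
  have hrt := fun i => retarget (e1 := 100 * ((q.B * w : ℕ) : ℝ) ^ 2 / l)
    (e1' := 100 * q.B * (w : ℝ) ^ 2 / l) (h1 (j / q.B)) hWR hδ (by linarith)
    (Nat.cast_nonneg w) hw4 (by positivity) (hUW x hx i)
  have hrl : rl1 q w l sch ((j / q.B, τ'), c,
      Sum.inr (c', (⟨τ % (q.M ^ 7 * w), Nat.mod_lt _ hWh⟩ : Fin (q.M ^ 7 * w)))) (j, τ) σ
      (fun i => ps1 q l sch j τ τ' (co σ i) (x i)) = x := by
    funext i
    exact Function.leftInverse_invFun (hps i).2 _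
  rw [hrl]
  refine ⟨fun i => ⟨hvd _, ?_⟩, hx, fun i y hy => ?_⟩
  · simp only [Sum.elim_inr, hchd]
    exact (hrt i).1
  · simp only [Gd1, Sum.elim_inr, hchd] at hy
    have := (hrt i).2 y hy
    intro b
    have hb := this b
    unfold GI at hb ⊢
    have a1 : 400 * ((q.B * w : ℕ) : ℝ) ^ 2 / ss τ ((j - 2) * l) ≤
        400 * ((q.B * w : ℕ) : ℝ) ^ 2 / l := by gcongr
    have a2 : 500 * (q.B : ℝ) ^ 2 * (w : ℝ) ^ 2 / l = 100 * ((q.B * w : ℕ) : ℝ) ^ 2 / l +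
        400 * ((q.B * w : ℕ) : ℝ) ^ 2 / l := by push_cast; ring
    linarith

lemma pair_vol (hw : 0 < w) (hl : l = q.P ^ 2 * w) (h1 : ∀ j t, 1 ≤ sch j t) {j τ z : ℕ}
    (hj : 2 * q.B ≤ j) (hτ : Ext l (2 * w) j τ) (hz : z ≤ q.B * w) (σ : PathD n)
    {U : Set (Vec n)} (hU : IsCompact U) :
    volume U ≤ volume ((fun (x : Vec n) i => ps1 q l sch j τ (τ - z) (co σ i) (x i)) '' U) +
      volume ((fun (x : Vec n) i => ps1 q l sch j τ (τ + z) (co σ i) (x i)) '' U) := by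
  obtain ⟨hB, hP, hM⟩ := q.sizes
  obtain ⟨s1, s2, s3, s4, s5⟩ := tb_sizes hw hl hj hτ
  have hWR : (1 : ℝ) ≤ (q.B * w : ℕ) := by
    exact_mod_cast (by nlinarith : 1 ≤ q.B * w)
  have hlR : (0 : ℝ) < l := by linarith
  have hlt : (j - 2) * l < τ := lt_of_ss_pos (by linarith)
  have hu := uu_pos hlt
  have hu2 := uu_sq hlt.le
  have hrr := fun i b => rr_range (σ := co σ i) (b := b) (h1 (j / q.B)) hlt
  have hzR : (z : ℝ) ≤ (q.B * w : ℕ) := by exact_mod_cast hz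
  have hd := donate_psi (n := n) hu (fun i => ⟨(hrr i true).1.le, (hrr i true).2⟩)
    (fun i => ⟨(hrr i false).1.le, (hrr i false).2⟩) (Nat.cast_nonneg z) hzR
    (by rw [hu2]; linarith) hU.measurableSet
  have e1 : (τ : ℝ) - ((τ - z : ℕ) : ℝ) = z := by
    rw [Nat.cast_sub (by omega)]; ring
  have e2 : (τ : ℝ) - ((τ + z : ℕ) : ℝ) = -z := by push_cast; ring
  simp only [ps1, e1, e2]
  refine le_trans ?_ hd
  have hy : ((q.B * w : ℕ) : ℝ) / uu τ ((j - 2) * l) ^ 2 ≤ (q.B : ℝ) / (q.P : ℝ) ^ 2 := by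
    rw [hu2]
    have hwR : (0 : ℝ) < w := by exact_mod_cast hw
    have hPR : (0 : ℝ) < q.P := by exact_mod_cast (by omega : 0 < q.P)
    calc _ ≤ ((q.B * w : ℕ) : ℝ) / l := by gcongr
      _ = _ := by rw [hl]; push_cast; field_simp
  have hy0 : 0 ≤ ((q.B * w : ℕ) : ℝ) / uu τ ((j - 2) * l) ^ 2 := by positivity
  have hy1 : (q.B : ℝ) / (q.P : ℝ) ^ 2 ≤ 1 / 1000 := by
    have hPR : (1 : ℝ) ≤ q.P := by exact_mod_cast (by omega : 1 ≤ q.P)
    have : (4000 : ℝ) * q.B ≤ q.P := by exact_mod_cast hP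
    rw [div_le_div_iff₀ (by positivity) (by norm_num)]
    nlinarith
  have hq : (1 - 102 * ((q.B : ℝ) / (q.P : ℝ) ^ 2) ^ 2) ^ (n + 1) ≤
      (1 - 102 * (((q.B * w : ℕ) : ℝ) / uu τ ((j - 2) * l) ^ 2) ^ 2) ^ (n + 1) := by
    apply pow_le_pow_left₀
    · nlinarith
    · nlinarith
  have h2 := q.k0_facts.2.2
  calc volume U = ENNReal.ofReal 1 * volume U := by simp
    _ ≤ _ := by gcongr; linarith

lemma stage2 (hw : 0 < w) (hl : l = q.P ^ 2 * w) (hlo : 2 ≤ lo) (hlev : 0 ≤ lev)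
    (h1 : ∀ j t, 1 ≤ sch j t)
    (hv1 : ∀ j β τ σ σ', Ag ((j - 2) * l) σ σ' → v j β τ σ' = v j β τ σ)
    (hv3 : ∀ j τ τ' (σ : PathD n), 2 * q.B ≤ j → Ext l (2 * w) j τ → Ext l (2 * w) j τ' →
        τ / (q.P * w) = τ' / (q.P * w) → τ % (q.M ^ 7 * w) = τ' % (q.M ^ 7 * w) →
        (∀ β, ∑ i, v j β τ (co σ i) < q.B) → (∀ β, ∑ i, v j β τ' (co σ i) < q.B) → τ = τ')
    (hS : Sys n ((ℕ × ℕ) × KK (q.M ^ 7 * w)) (T1 q w l lo hi) (Gd1 q w l sch)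
      (Wn1 q w l lo hi sch) (fun k σ => (∏ i, rho1 q w l v k (co σ i)) * (om _ k.2 * lev)) D) :
    Sys n (ℕ × ℕ) (fun k => (k.1 - 2) * l)
      (fun k σ => Inv (1 / 2) w (100 * q.B * (w : ℝ) ^ 2 / l)
        (500 * (q.B : ℝ) ^ 2 * (w : ℝ) ^ 2 / l) (sch (k.1 / q.B)) k.2 ((k.1 - 2) * l) σ)
      (fun k σ => {x | q.B * lo ≤ k.1 ∧ k.1 < q.B * hi ∧ Ext l (2 * w) k.1 k.2 ∧
        x ∈ Win w (sch (k.1 / q.B)) k.2 ((k.1 - 2) * l) σ})
      (fun _ _ => lev * (q.B / (16 * (q.M : ℝ) ^ 7))) D := by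
  classical
  obtain ⟨hB, hP, hM⟩ := q.sizes
  refine Sys.route (rt1 q w l lo hi v) (rl1 q w l sch) hS ?_ ?_ ?_ ?_
  · rintro ⟨k1, c, r | r⟩ σ ⟨j, τ⟩ ⟨j', τ'⟩ ⟨a1, a2, a3, a4⟩ ⟨-, b2, b3, b4⟩
    · simp only [Sum.elim_inl] at a2 b2 a4 b4
      rw [← a2, ← b2, a4, b4]
    · simp only [Sum.elim_inr] at a2 b2 a3 b3 a4 b4
      obtain rfl : j = j' := a2.symm.trans b2
      have := vd_two hlo a1
      simp only at this
      rw [a2] at this
      rw [hv3 j τ τ' σ this a3 b3 (a4.2.1.symm.trans b4.2.1) (a4.2.2.trans b4.2.2.symm) a4.1 b4.1]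
  · rintro k σ j ⟨a1, a2, -⟩
    simp only [T1, a1, if_true, a2]
  · rintro ⟨k1, c, r | r⟩ ⟨j, τ⟩ σ σ' hag
    · exact ⟨Iff.rfl, rfl⟩
    · have e : ∀ β, ∑ i, v j β τ (co σ' i) = ∑ i, v j β τ (co σ i) := fun β =>
        Finset.sum_congr rfl fun i _ => hv1 j β τ _ _ (co_ag hag i)
      refine ⟨?_, ?_⟩
      · simp only [rt1, hard, Sum.elim_inr, e]
      · funext x i
        simp only [rl1, Sum.elim_inr, ps1, rr_congr (co_ag hag i) le_rfl]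
  rintro ⟨j, τ⟩ σ U hU ⟨x0, hx0⟩ hUW
  obtain ⟨hj1, hj2, hτ, -⟩ := hUW x0 hx0 0
  simp only at hj1 hj2 hτ hUW ⊢
  have hj : 2 * q.B ≤ j := by nlinarith
  have hUW' : ∀ x ∈ U, ∀ i, x i ∈ Win w (sch (j / q.B)) τ ((j - 2) * l) (co σ i) :=
    fun x hx i => (hUW x hx i).2.2.2
  obtain ⟨s1, s2, s3, s4, s5⟩ := tb_sizes hw hl hj hτ
  obtain ⟨k1, k2, -⟩ := q.k0_facts
  have hMR : (1 : ℝ) ≤ q.M := by exact_mod_cast hM
  have hM7 : (1 : ℝ) ≤ (q.M : ℝ) ^ 7 := one_le_pow₀ hMR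
  have hwR : (0 : ℝ) < w := by exact_mod_cast hw
  by_cases hh : hard q v j τ σ
  · have hd := fun (τ' : ℕ) (h : τ ≤ τ' + q.B * w ∧ τ' ≤ τ + q.B * w) =>
      donor (hi := hi) hw hl hlo h1 hj1 hj2 hτ h.1 h.2 hh hU hUW'
    have : Nonempty (Bool × Fin (q.M ^ 7 * w)) := ⟨(true, ⟨0, by positivity⟩)⟩
    choose! c r hd using hd
    set tz : ℕ × Bool → ℕ := fun a => if a.2 then τ - a.1 else τ + a.1 with htz
    set ix : ℕ × Bool → (ℕ × ℕ) × KK (q.M ^ 7 * w) :=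
      fun a => ((j / q.B, tz a), c (tz a), Sum.inr (r (tz a))) with hix
    set A : Finset (ℕ × Bool) := Finset.Icc 1 (q.B * w) ×ˢ Finset.univ with hA
    have hA' : ∀ a ∈ A, 1 ≤ a.1 ∧ a.1 ≤ q.B * w := fun a ha =>
      Finset.mem_Icc.mp (Finset.mem_product.mp ha).1
    refine ⟨A.image ix, fun k => (fun (x : Vec n) i => ps1 q l sch j τ k.1.2 (co σ i) (x i)) '' U,
      ?_, ?_⟩
    · intro k hk
      obtain ⟨a, ha, rfl⟩ := Finset.mem_image.mp hk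
      have := hA' a ha
      exact hd (tz a) (by simp only [htz]; split_ifs <;> omega)
    · rw [Finset.sum_image]
      swap
      · rintro ⟨a, s⟩ ha ⟨a', s'⟩ ha' he
        have h1 := hA' _ ha
        have h2 := hA' _ ha'
        have : tz (a, s) = tz (a', s') := congrArg (fun k => k.1.2) he
        simp only [htz] at this h1 h2
        cases s <;> cases s' <;> simp at this ⊢ <;> omega
      have hc : ∀ a, (∏ i, rho1 q w l v (ix a) (co σ i)) * (om _ (ix a).2 * lev) =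
          q.k0 ^ (n + 1) * (1 / (8 * ((q.M ^ 7 * w : ℕ) : ℝ)) * lev) := by
        intro a
        simp [hix, rho1, om]
      simp only [hc]
      rw [← Finset.mul_sum, hA, Finset.sum_product]
      have hs : ∑ z ∈ Finset.Icc 1 (q.B * w), volume U ≤ ∑ z ∈ Finset.Icc 1 (q.B * w),
          ∑ s : Bool, volume ((fun (x : Vec n) i =>
            ps1 q l sch j τ (ix (z, s)).1.2 (co σ i) (x i)) '' U) := by
        refine Finset.sum_le_sum fun z hz => ?_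
        rw [Fintype.sum_bool]
        exact pair_vol hw hl h1 hj hτ (Finset.mem_Icc.mp hz).2 σ hU
      refine le_trans ?_ (mul_le_mul_right hs _)
      rw [Finset.sum_const, Nat.card_Icc, Nat.add_sub_cancel, nsmul_eq_mul, ← mul_assoc,
        ← ENNReal.ofReal_natCast, ← ENNReal.ofReal_mul (by positivity)]
      refine mul_le_mul_left (ENNReal.ofReal_le_ofReal ?_) _
      calc lev * (q.B / (16 * (q.M : ℝ) ^ 7)) =
          1 / 2 * (1 / (8 * ((q.M ^ 7 * w : ℕ) : ℝ)) * lev) * ((q.B * w : ℕ) : ℝ) := by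
            push_cast; field_simp; ring
        _ ≤ _ := by gcongr
  · obtain ⟨β, hβ⟩ : ∃ β, (q.B : ℝ) ≤ ∑ i, v j β τ (co σ i) := by
      by_contra hc
      push Not at hc
      exact hh hc
    have hwW : 64 * w ≤ q.B * w := Nat.mul_le_mul_right _ hB
    obtain ⟨c, hc⟩ := two_cand (by omega) (by omega) hτ
    have hchd : chd l τ c = j := hc
    have hvd : vd q w l lo hi ((j / q.B, τ), c, Sum.inl β) := by
      refine ⟨?_, ?_, ?_, ?_⟩
      · exact (Nat.le_div_iff_mul_le (by omega)).mpr (by rw [mul_comm]; exact hj1)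
      · exact (Nat.div_lt_iff_lt_mul (by omega)).mpr (by rw [mul_comm]; exact hj2)
      · simp only [hchd]
      · simp only [hchd, Sum.elim_inl]; exact hτ
    refine ⟨{((j / q.B, τ), c, Sum.inl β)}, fun _ => U, ?_, ?_⟩
    · intro k hk
      obtain rfl := Finset.mem_singleton.mp hk
      refine ⟨⟨hvd, hchd, hτ, rfl⟩, hU, fun x hx => ⟨fun i => ⟨hvd, ?_⟩, hx, fun i y hy => ?_⟩⟩
      · simp only [Sum.elim_inl, hchd]; exact hUW' x hx i
      · simpa only [Gd1, rl1, Sum.elim_inl, hchd] using hy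
    · rw [Finset.sum_singleton]
      refine mul_le_mul_left (ENNReal.ofReal_le_ofReal ?_) _
      simp only [rho1, om, Sum.elim_inl, hchd]
      rw [Finset.prod_mul_distrib, ← Real.exp_sum, Finset.prod_const, Finset.card_univ,
        Fintype.card_fin]
      have a1 : (q.B : ℝ) ≤ Real.exp (∑ i, v j β τ (co σ i)) := by
        linarith [Real.add_one_le_exp (∑ i, v j β τ (co σ i))]
      have a2 : (8 : ℝ) ≤ (q.M : ℝ) ^ 7 := by
        have : (8 : ℝ) ≤ q.M := by exact_mod_cast le_trans (by norm_num) q.hM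
        exact this.trans (le_self_pow₀ hMR (by norm_num))
      calc lev * (q.B / (16 * (q.M : ℝ) ^ 7)) ≤ lev * (q.B / (16 * 8)) := by gcongr
        _ = 1 / 2 * q.B * (1 / 64 * lev) := by ring
        _ ≤ _ := by gcongr

end

theorem level_step (q : NP n) {w l lo hi : ℕ} {lev D : ℝ} (hw : 0 < w) (hl : l = q.P ^ 2 * w)
    (hlo : 2 ≤ lo) (hlev : 0 ≤ lev) (h : Lv n (q.B * l) (q.B * w) q.B lo hi lev D) :
    Lv n l w q.B (q.B * lo) (q.B * hi) (lev * (q.B / (16 * (q.M : ℝ) ^ 7))) D := by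
  obtain ⟨sch, h1, hs, hS⟩ := h
  obtain ⟨v, hv1, hv2, hv3⟩ := bets_all q hw hl h1 hs
  have h2 := stage2 hw hl hlo hlev h1 hv1 hv3 (stage1 hw hl hlo h1 hs hv2 hS)
  have hwR : (1 : ℝ) ≤ w := by exact_mod_cast hw
  refine ⟨fun j t => if t < (j - 2) * l then sch (j / q.B) t else 4 * (w : ℝ), ?_, ?_, ?_⟩
  · intro j t
    simp only
    split_ifs
    · exact h1 _ _
    · linarith
  · intro j t ht
    simp only
    rw [if_neg (by omega)]
  · have e : ∀ (j τ : ℕ) (σ : Path) (b : Bool),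
        rr (fun t => if t < (j - 2) * l then sch (j / q.B) t else 4 * (w : ℝ)) τ σ b ((j - 2) * l) =
          rr (sch (j / q.B)) τ σ b ((j - 2) * l) :=
      fun j τ σ b => rr_congr_sch fun t ht => if_pos ht
    refine h2.mono ?_ ?_ (fun _ _ => le_rfl) le_rfl
    · intro k σ x y _ hy
      simpa only [Inv, GI, e] using hy
    · intro k σ x hx
      simpa only [Win, WS, e] using hx

end

end Pool.Agent.P.MP_767cd9_co.Q1
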