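import Pool.Agent.P.MP_767cd9_co.Q1.Bets

/-! The pair inequality and the complete bets. -/

namespace Pool.Agent.P.MP_767cd9_co.Q1

open Real

noncomputable section

/-- weights of the bets -/
def wt (p : Par) (β : Fin 8) : ℝ :=
  ![2 * p.M * p.ε, 2 * p.M ^ 2 * p.ε, 2 * p.M ^ 3 * p.ε, 1, 1, 1, 1, 1] β

lemma Pair_one (p : Par) : 1 ≤ p.M := le_trans (by norm_num) p.hM

lemma Pair_pow (p : Par) {i : ℕ} (hi : i ≤ 5) : 2 ^ 50 * (p.M ^ i * p.ε) ≤ 1 := by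
  have h1 : p.M ^ i ≤ p.M ^ 5 := pow_le_pow_right₀ (Pair_one p) hi
  have h2 : p.M ^ i * p.ε ≤ p.M ^ 5 * p.ε := mul_le_mul_of_nonneg_right h1 p.hε.le
  have h3 : 0 ≤ p.M ^ 5 * p.ε := mul_nonneg (pow_nonneg p.M_pos.le _) p.hε.le
  have h4 := mul_le_mul_of_nonneg_right p.hM h3
  have h5 := p.eps_M
  have e : p.M * (p.M ^ 5 * p.ε) = p.M ^ 6 * p.ε := by ring
  linarith

lemma wt_facts (p : Par) : (∀ β, 0 ≤ wt p β) ∧ ∑ β, wt p β ≤ 8 := by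
  have hM := p.M_pos
  have hε := p.hε
  constructor
  · intro β
    fin_cases β <;> simp only [wt] <;> simp <;> positivity
  · rw [Fin.sum_univ_eight]
    change 2 * p.M * p.ε + 2 * p.M ^ 2 * p.ε + 2 * p.M ^ 3 * p.ε + 1 + 1 + 1 + 1 + 1 ≤ 8
    have h1 := Pair_pow p (i := 1) (by norm_num)
    have h2 := Pair_pow p (i := 2) (by norm_num)
    have h3 := Pair_pow p (i := 3) (by norm_num)
    rw [pow_one] at h1
    linarith

lemma Pair_exp {x : ℝ} (h : |x| ≤ 1 / 2) : Real.exp (x - x ^ 2) ≤ 1 + x := by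
  obtain ⟨h1, h2⟩ := abs_le.1 h
  have hp := Real.exp_pos (x - x ^ 2)
  have e : Real.exp (x - x ^ 2) * Real.exp (-(x - x ^ 2)) = 1 := by
    rw [← Real.exp_add, add_neg_cancel, Real.exp_zero]
  have key : 1 ≤ (1 + x) * Real.exp (-(x - x ^ 2)) := by
    rcases le_total 0 x with h0 | h0
    · have h3 := mul_le_mul_of_nonneg_left (Real.add_one_le_exp (-(x - x ^ 2)))
        (show 0 ≤ 1 + x by linarith)
      nlinarith [pow_nonneg h0 3]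
    · have h3 := mul_le_mul_of_nonneg_left (Real.quadratic_le_exp_of_nonneg
        (show 0 ≤ -(x - x ^ 2) by nlinarith)) (show 0 ≤ 1 + x by linarith)
      have h4 : 0 ≤ 1 + x - x ^ 2 + x ^ 3 := by nlinarith
      nlinarith [mul_nonneg (sq_nonneg x) h4]
  have h5 := mul_le_mul_of_nonneg_left key hp.le
  calc Real.exp (x - x ^ 2) ≤ Real.exp (x - x ^ 2) * ((1 + x) * Real.exp (-(x - x ^ 2))) := by
        linarith
    _ = (1 + x) * (Real.exp (x - x ^ 2) * Real.exp (-(x - x ^ 2))) := by ring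
    _ = 1 + x := by rw [e, mul_one]

lemma Pair_exp' {y : ℝ} (h0 : 0 ≤ y) (h : y ≤ 1 / 2) : Real.exp (-(2 * y)) ≤ 1 - y := by
  rw [Real.exp_neg, inv_le_comm₀ (Real.exp_pos _) (by linarith), inv_eq_one_div,
    div_le_iff₀ (by linarith)]
  have h3 := mul_le_mul_of_nonneg_right (Real.add_one_le_exp (2 * y)) (show 0 ≤ 1 - y by linarith)
  nlinarith

lemma exp_val_le {p : Par} {ρ e s : ℝ} (h : |ρ - 1| ≤ 1 / 2) (he : 0 ≤ e) (he' : e ≤ p.l / 100)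
    (hs : p.l ≤ s) : Real.exp (val p ρ e) ≤ ρ * (1 - 2 * e / s) := by
  have hl := p.l_pos
  have h1 := Pair_exp h
  have h2 : 2 * e / p.l ≤ 1 / 2 := by rw [div_le_iff₀ hl]; linarith
  have h3 := Pair_exp' (y := 2 * e / p.l) (by positivity) h2
  have h4 : 2 * e / s ≤ 2 * e / p.l := div_le_div_of_nonneg_left (by positivity) hl hs
  have e1 : val p ρ e = (ρ - 1 - (ρ - 1) ^ 2) + -(2 * (2 * e / p.l)) := by rw [val]; ring
  rw [e1, Real.exp_add]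
  exact mul_le_mul (by linarith) (by linarith) (Real.exp_pos _).le
    (by linarith [(abs_le.1 h).1])

lemma Pair_val_one (p : Par) : val p 1 0 = 0 := by simp [val]

lemma Pair_val_win (p : Par) {g : ℝ} (h0 : 0 ≤ g) (h1 : g ≤ 1 / 2) : g / 2 ≤ val p (1 + g) 0 := by
  simp only [val, add_sub_cancel_left, mul_zero, zero_div, sub_zero]
  nlinarith

lemma Pair_small (p : Par) {x : ℝ} {i : ℕ} (hx : x = p.ε ^ 2 / p.M ^ i) :
    0 ≤ x ∧ 256 * x ≤ 1 := by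
  have hM := p.M_pos
  have hε := p.hε
  have h1 : x ≤ p.ε ^ 2 := hx ▸ div_le_self (by positivity) (one_le_pow₀ (Pair_one p))
  have h2 : p.ε ≤ 1 / 256 := p.eps_le.trans (by norm_num)
  exact ⟨by rw [hx]; positivity, by nlinarith⟩

namespace Ch

variable {k : Ch} {sch : ℕ → ℝ} {τ' τ'' : ℕ}

lemma Pair_T (k : Ch) (τ' : ℕ) (b0 : Bool) (ts : Path → ℕ) (act : Path → Prop) (σ : Path)
    {m v : ℝ} (hm : 0 ≤ m)
    (hv : v = 2 * (m * k.p.M) * k.p.ε * val k.p (k.rT τ' b0 ts act σ) (k.eT τ' b0 ts act σ)) :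
    -(2 ^ 30 * (m * k.p.ε ^ 3)) ≤ v ∧ (¬ act σ → v = 0) ∧
      (act σ → winT k.p τ' σ b0 (ts σ) k.t2 → m * k.p.ε ^ 3 ≤ v) := by
  have hM := k.p.M_pos
  have hε := k.p.hε
  have hl := k.p.l_pos
  obtain ⟨g0, g1⟩ := Pair_small k.p (x := k.p.gT) (i := 1) (by rw [Par.gT, pow_one])
  have hw : 0 ≤ 2 * (m * k.p.M) * k.p.ε := by positivity
  have e : 2 * (m * k.p.M) * k.p.ε * k.p.gT = 2 * (m * k.p.ε ^ 3) := by
    rw [Par.gT]; field_simp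
  have hc : 0 ≤ m * k.p.ε ^ 3 := by positivity
  by_cases ha : act σ
  · by_cases hW : winT k.p τ' σ b0 (ts σ) k.t2
    · rw [rT, eT, if_pos ha, if_pos ha, if_pos hW, if_pos hW] at hv
      have := mul_le_mul_of_nonneg_left (Pair_val_win k.p g0 (by linarith)) hw
      exact ⟨by linarith, fun h => absurd ha h, fun _ _ => by linarith⟩
    · rw [rT, eT, if_pos ha, if_pos ha, if_neg hW, if_neg hW] at hv
      have h1 : -(2 ^ 29 * k.p.gT) ≤ val k.p (1 - 256 * k.p.gT) (2 ^ 26 * k.p.gT * k.p.l) := by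
        have e1 : 4 * (2 ^ 26 * k.p.gT * k.p.l) / k.p.l = 2 ^ 28 * k.p.gT := by
          field_simp; norm_num
        rw [val, e1]
        nlinarith
      have := mul_le_mul_of_nonneg_left h1 hw
      exact ⟨by linarith, fun h => absurd ha h, fun _ h => absurd h hW⟩
  · rw [rT, eT, if_neg ha, if_neg ha, Pair_val_one, mul_zero] at hv
    exact ⟨by linarith, fun _ => hv, fun h => absurd h ha⟩

lemma Pair_Q (k : Ch) (act q : Path → Prop) (σ : Path) :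
    0 ≤ val k.p (k.rQ act q σ) 0 ∧ (act σ ∧ q σ → k.p.gQ / 2 ≤ val k.p (k.rQ act q σ) 0) := by
  obtain ⟨g0, g1⟩ := Pair_small k.p (x := k.p.gQ) (i := 2) rfl
  by_cases ha : act σ ∧ q σ
  · rw [rQ, if_pos ha]
    have := Pair_val_win k.p g0 (by linarith)
    exact ⟨by linarith, fun _ => this⟩
  · rw [rQ, if_neg ha, Pair_val_one]
    exact ⟨le_rfl, fun h => absurd h ha⟩

lemma Pair_L (h : Cx k.p sch k.t1 k.t2) (hr : Rng k.p k.t2 k.τ) (hr' : Rng k.p k.t2 τ')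
    (h1 : k.τ ≤ τ') (h2 : τ' ≤ k.τ + k.p.E) (σ : Path) {s : ℝ} (hs : s = 1 ∨ s = -1) :
    -(2 ^ 31 * (k.p.lam * k.p.ε)) ≤ val k.p (k.rL s τ' σ) (k.eL τ' σ) ∧
      (k.aL σ → okL k.p τ' σ k.D (k.f1 σ) k.t2 (k.z1 σ τ') (k.z2 σ τ') →
        s * (k.p.lam * chi k.p (k.u1 σ) (k.z1 σ τ') (k.z2 σ τ')) - k.p.ε ^ 3 / 2 ^ 60
          ≤ val k.p (k.rL s τ' σ) (k.eL τ' σ)) := by
  have hM := k.p.M_pos
  have hε := k.p.hε
  have hl := k.p.l_pos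
  obtain ⟨a0, a1⟩ := Pair_small k.p (x := k.p.lam * k.p.ε) (i := 3) (by rw [Par.lam]; ring)
  have hlam : 0 ≤ k.p.lam := by rw [Par.lam]; positivity
  have hMe := Pair_pow k.p (i := 1) (by norm_num)
  rw [pow_one] at hMe
  set a := k.p.lam * k.p.ε with ha
  have b1 : 2 ^ 50 * (k.p.M * k.p.ε * a) ≤ a := by nlinarith
  have b0 : 0 ≤ k.p.M * k.p.ε * a := by positivity
  have b2 : 2 ^ 100 * (k.p.M * k.p.ε * a) ≤ k.p.ε ^ 3 := by
    have e : k.p.M ^ 2 * (k.p.M * k.p.ε * a) = k.p.ε ^ 3 := by rw [ha, Par.lam]; field_simp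
    have : (2 : ℝ) ^ 100 ≤ k.p.M ^ 2 := by nlinarith [k.p.hM]
    rw [← e]
    exact mul_le_mul_of_nonneg_right this b0
  have b3 : a ^ 2 ≤ k.p.M * k.p.ε * a := by
    have : k.p.lam ≤ k.p.M := by
      have : k.p.lam ≤ k.p.ε := div_le_self hε.le (one_le_pow₀ (Pair_one k.p))
      linarith [Pair_one k.p, k.p.eps_le.trans (show (1 : ℝ) / 2 ^ 100 ≤ 1 by norm_num)]
    rw [sq]
    exact mul_le_mul_of_nonneg_right (mul_le_mul_of_nonneg_right this hε.le) a0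
  have e1 : 4 * (2 ^ 30 * k.p.M * k.p.lam * k.p.w) / k.p.l = 2 ^ 32 * (k.p.M * k.p.ε * a) := by
    rw [Par.w, ha]; field_simp; norm_num
  by_cases hA : k.aL σ
  · by_cases hO : okL k.p τ' σ k.D (k.f1 σ) k.t2 (k.z1 σ τ') (k.z2 σ τ')
    · obtain ⟨-, c1, c2, -⟩ := L_cond h hr hr' h1 h2 σ hA
      have c3 := chi_abs' (p := k.p) (ub := k.u1 σ) (uu_nonneg _ _) c1 c2
      rw [rL, eL, if_pos hA, if_pos hA, if_pos hO, if_pos hO, val, e1, add_sub_cancel_left,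
        mul_assoc s]
      set y := k.p.lam * chi k.p (k.u1 σ) (k.z1 σ τ') (k.z2 σ τ') with hy
      have c4 : |y| ≤ 40 * a := by
        rw [hy, abs_mul, abs_of_nonneg hlam, ha]
        linarith [mul_le_mul_of_nonneg_left c3 hlam]
      have c5 : |s * y| ≤ 40 * a := by
        rcases hs with rfl | rfl <;> simpa using c4
      have c6 : (s * y) ^ 2 ≤ (40 * a) ^ 2 := sq_le_sq' (abs_le.1 c5).1 (abs_le.1 c5).2
      exact ⟨by nlinarith [(abs_le.1 c5).1], fun _ _ => by nlinarith⟩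
    · have e2 : 4 * (2 ^ 30 * k.p.M * k.p.lam * k.p.w + 300 * k.p.lam * k.p.ε * k.p.U ^ 2) / k.p.l
          = 2 ^ 32 * (k.p.M * k.p.ε * a) + 1200 * 2 ^ 20 * a := by
        rw [← e1, k.p.U_sq, ha]; field_simp; ring
      have e3 : 1 - 1280 * k.p.lam * k.p.ε - 1 = -(1280 * a) := by rw [ha]; ring
      rw [rL, eL, if_pos hA, if_pos hA, if_neg hO, if_neg hO, val, e2, e3]
      exact ⟨by nlinarith, fun _ h => absurd h hO⟩
  · rw [rL, eL, if_neg hA, if_neg hA, Pair_val_one]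
    exact ⟨by linarith, fun h => absurd h hA⟩

lemma Pair_idle1 (σ : Path) (ha : ¬ k.a1 σ) (β : Fin 8) (hβ : β ≠ 0) :
    val k.p (k.rho β τ' σ) (k.err β τ' σ) = 0 := by
  have h2 : ¬ k.a2 σ := fun h => ha h.1
  have h3 : ¬ k.a3 σ := fun h => h2 h.1
  have h4 : ¬ k.aT2 σ := fun h => h2 h.1
  have h5 : ¬ k.aL σ := fun h => ha h.1
  fin_cases β
  · exact absurd rfl hβ
  all_goals simp [rho, err, rT, eT, rQ, rL, eL, ha, h2, h3, h4, h5, Pair_val_one]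

lemma pair_idle (σ : Path) (ha : ¬ k.a0 σ) (β : Fin 8) :
    val k.p (k.rho β τ' σ) (k.err β τ' σ) = 0 := by
  by_cases hβ : β = 0
  · subst hβ
    simp [rho, err, rT, eT, ha, Pair_val_one]
  · exact Pair_idle1 σ (fun h => ha h.1) β hβ

lemma pair (h : Cx k.p sch k.t1 k.t2) (hr : Rng k.p k.t2 k.τ) (hr' : Rng k.p k.t2 τ')
    (hr'' : Rng k.p k.t2 τ'') (h1 : k.τ ≤ τ') (h2 : (τ' : ℝ) + k.p.M ^ 7 * k.p.w ≤ τ'')
    (h3 : τ'' ≤ k.τ + k.p.E) (σ : Path) (ha : k.a0 σ) :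
    k.p.ε ^ 3 / 2 ≤ ∑ β : Fin 8, wt k.p β *
      val k.p (k.rho β (if β = 7 then τ'' else τ') σ) (k.err β (if β = 7 then τ'' else τ') σ) := by
  have hM := k.p.M_pos
  have hε := k.p.hε
  have hl := k.p.l_pos
  have hδ : 0 ≤ k.p.M ^ 7 * k.p.w := mul_nonneg (by positivity) (by linarith [k.p.w_ge])
  have h4 : τ' ≤ τ'' := by
    have : (τ' : ℝ) ≤ τ'' := by linarith
    exact_mod_cast this
  obtain ⟨t0, -, t0'⟩ := Pair_T k τ' (!k.D) k.g k.a0 σ zero_le_one rfl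
  obtain ⟨w0, w1, w2⟩ := T_wins h hr hr' h1 (h4.trans h3) σ
  by_cases hw0 : k.w0 σ
  · rw [Finset.sum_eq_single 0 (fun β _ hβ => by
      rw [Pair_idle1 σ (fun h => h.2 hw0) β hβ, mul_zero]) (fun h => absurd (Finset.mem_univ _) h)]
    change _ ≤ 2 * k.p.M * k.p.ε * val k.p (k.rT τ' (!k.D) k.g k.a0 σ) (k.eT τ' (!k.D) k.g k.a0 σ)
    have := t0' ha (w0 hw0)
    have : 0 < k.p.ε ^ 3 := by positivity
    linarith
  have ha1 : k.a1 σ := ⟨ha, hw0⟩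
  rw [Fin.sum_univ_eight]
  change _ ≤ 2 * k.p.M * k.p.ε * val k.p (k.rT τ' (!k.D) k.g k.a0 σ) (k.eT τ' (!k.D) k.g k.a0 σ)
    + 2 * k.p.M ^ 2 * k.p.ε * val k.p (k.rT τ' k.D k.f1 k.a1 σ) (k.eT τ' k.D k.f1 k.a1 σ)
    + 2 * k.p.M ^ 3 * k.p.ε *
      val k.p (k.rT τ' (!k.D) k.f2 k.aT2 σ) (k.eT τ' (!k.D) k.f2 k.aT2 σ)
    + 1 * val k.p (k.rQ k.a1 k.q1 σ) 0 + 1 * val k.p (k.rQ k.a2 k.q2 σ) 0
    + 1 * val k.p (k.rQ k.a3 k.q3 σ) 0 + 1 * val k.p (k.rL 1 τ' σ) (k.eL τ' σ)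
    + 1 * val k.p (k.rL (-1) τ'' σ) (k.eL τ'' σ)
  obtain ⟨t1, -, t1'⟩ := Pair_T k τ' k.D k.f1 k.a1 σ hM.le rfl
  obtain ⟨t2, t2'', t2'⟩ := Pair_T k τ' (!k.D) k.f2 k.aT2 σ (sq_nonneg k.p.M) rfl
  obtain ⟨q1, q1'⟩ := Pair_Q k k.a1 k.q1 σ
  obtain ⟨q2, q2'⟩ := Pair_Q k k.a2 k.q2 σ
  obtain ⟨q3, q3'⟩ := Pair_Q k k.a3 k.q3 σ
  obtain ⟨l1, l1'⟩ := Pair_L h hr hr' h1 (h4.trans h3) σ (s := 1) (Or.inl rfl)
  obtain ⟨l2, l2'⟩ := Pair_L h hr hr'' (h1.trans h4) h3 σ (s := -1) (Or.inr rfl)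
  have c0 : 0 < k.p.ε ^ 3 := by positivity
  have c1 : 2 ^ 50 * k.p.ε ^ 3 ≤ k.p.M * k.p.ε ^ 3 := mul_le_mul_of_nonneg_right k.p.hM c0.le
  have c2 : 2 ^ 50 * (k.p.M * k.p.ε ^ 3) ≤ k.p.M ^ 2 * k.p.ε ^ 3 := by
    linarith [mul_le_mul_of_nonneg_right k.p.hM (mul_pos hM c0).le]
  by_cases hq : k.noQ σ
  · have hL := (facts σ h hr).aL_of ha1 hq.2.1
    have m1 := l1' hL (L_ok h hr hr' h1 (h4.trans h3) σ hq)
    have m2 := l2' hL (L_ok h hr hr'' (h1.trans h4) h3 σ hq)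
    obtain ⟨d1, d2⟩ := L_diff h hr hr' hr'' h1 hδ h2 h3 σ hq
    have hlam : 0 ≤ k.p.lam := by rw [Par.lam]; positivity
    have d3 := mul_le_mul_of_nonneg_left d1 hlam
    have d4 : k.p.lam * k.p.ε ^ 2 ≤ k.p.ε * k.p.ε ^ 2 := mul_le_mul_of_nonneg_right
      (div_le_self hε.le (one_le_pow₀ (Pair_one k.p))) (sq_nonneg _)
    by_cases hw1 : k.w1 σ
    · have := t1' ha1 (w1 hw1)
      have := t2'' fun h => h.2 hw1
      linarith
    by_cases hw2 : k.w2 σ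
    · have hf : k.fl2 σ := by
        have u0 : 0 ≤ k.u1 σ := uu_nonneg _ _
        have := not_le.1 hw1
        unfold fl2
        nlinarith
      have := t2' ⟨⟨ha1, hq.2.1, hf⟩, hw1⟩ (w2 hw2)
      linarith
    have d5 := mul_le_mul_of_nonneg_left (d2 hw1 hw2) hlam
    have e : k.p.lam * (k.p.M ^ 7 * k.p.w / (8 * k.p.U ^ 2))
        = k.p.M ^ 2 * (k.p.M ^ 2 * k.p.ε ^ 3) / 2 ^ 23 := by
      rw [k.p.U_sq, Par.lam, Par.w]; field_simp; norm_num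
    have c3 : (2 : ℝ) ^ 100 ≤ k.p.M ^ 2 := by nlinarith [k.p.hM]
    have c4 := mul_le_mul_of_nonneg_right c3 (mul_pos (pow_pos hM 2) c0).le
    linarith
  · have hG : 0 ≤ k.p.gQ := by rw [Par.gQ]; positivity
    have g1 : 2 ^ 50 * (k.p.lam * k.p.ε) ≤ k.p.gQ := by
      have e : k.p.M * (k.p.lam * k.p.ε) = k.p.gQ := by rw [Par.lam, Par.gQ]; field_simp
      rw [← e]
      exact mul_le_mul_of_nonneg_right k.p.hM (by rw [Par.lam]; positivity)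
    have g2 : 2 ^ 50 * (k.p.M ^ 2 * k.p.ε ^ 3) ≤ k.p.gQ := by
      have e : k.p.M ^ 4 * k.p.ε * k.p.gQ = k.p.M ^ 2 * k.p.ε ^ 3 := by rw [Par.gQ]; field_simp
      linarith [mul_le_mul_of_nonneg_right (Pair_pow k.p (i := 4) (by norm_num)) hG]
    have g3 : k.p.gQ / 2 ≤ val k.p (k.rQ k.a1 k.q1 σ) 0 + val k.p (k.rQ k.a2 k.q2 σ) 0
        + val k.p (k.rQ k.a3 k.q3 σ) 0 := by
      by_cases n1 : k.q1 σ
      · linarith [q1' ⟨ha1, n1⟩]
      by_cases n2 : k.a2 σ ∧ k.q2 σ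
      · linarith [q2' n2]
      by_cases n3 : k.a3 σ ∧ k.q3 σ
      · linarith [q3' n3]
      exact absurd ⟨ha1, n1, n2, n3⟩ hq
    linarith

end Ch

lemma Pair_ok {p : Par} {sch : ℕ → ℝ} {t1 t2 tb τ : ℕ} (h : Cx p sch t1 t2) (hr : Rng p t2 τ)
    (htb : (t2 : ℝ) + 255 * p.l = tb) (hsch : ∀ t, t2 ≤ t → t < tb → sch t = 4 * p.W) :
    Ok p.W p.w p.e1 sch τ t2 tb ∧ t2 ≤ tb ∧ p.l ≤ ss τ tb ∧ 8 * uu τ tb ≤ uu τ t2 := by
  have hl := p.l_pos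
  have h0 := h.ok hr
  have s1 : p.l ≤ ss τ tb := by rw [ss]; linarith [hr.1]
  have s2 : 64 * ss τ tb ≤ ss τ t2 := by rw [ss, ss]; linarith [hr.1, hr.2]
  refine ⟨⟨h0.hW, h0.hW0, h0.hW1, ?_, ?_, h.h1, hsch⟩, ?_, s1, ?_⟩
  · have a1 := p.W_le_H
    have a2 : 4 * (p.H : ℝ) ≤ p.E := by exact_mod_cast p.H_le
    have a3 := mul_le_mul_of_nonneg_right
      (p.eps_le.trans (show (1 : ℝ) / 2 ^ 100 ≤ 1 by norm_num)) hl.le
    linarith [p.E_eq, h0.hW]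
  · have e : p.e1 * p.l = 100 * p.W ^ 2 := by rw [Par.e1]; field_simp
    have a1 : 0 ≤ p.e1 := by rw [Par.e1]; positivity
    nlinarith [mul_le_mul_of_nonneg_left s1 a1, sq_nonneg p.W]
  · have : (t2 : ℝ) ≤ tb := by linarith
    exact_mod_cast this
  · rw [uu, uu]
    refine Real.le_sqrt_of_sq_le ?_
    rw [mul_pow, Real.sq_sqrt (by linarith)]
    linarith

/-- The bets, continued by the recovery up to time `tb`; `v` is the logarithm of the gain. -/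
theorem bets {p : Par} {sch : ℕ → ℝ} {t1 t2 tb τ0 : ℕ} (h : Cx p sch t1 t2) (hr : Rng p t2 τ0)
    (htb : (t2 : ℝ) + 255 * p.l = tb) (hsch : ∀ t, t2 ≤ t → t < tb → sch t = 4 * p.W) :
    ∃ v : Bool × Fin 8 → ℕ → Path → ℝ,
      (∀ β τ σ σ', Ag t2 σ σ' → v β τ σ' = v β τ σ) ∧
      (∀ β τ, Rng p t2 τ → τ0 ≤ τ → τ ≤ τ0 + p.E →
        Plan t1 tb (Inv (3 / 4) p.W p.e1 0 sch τ t1) (Inv (3 / 4) p.w p.e1 0 sch τ tb)
          (Win p.W sch τ t1) (Win p.w sch τ tb) (fun σ => Real.exp (v β τ σ))) ∧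
      ∀ τ τ', Rng p t2 τ → Rng p t2 τ' → τ0 ≤ τ → (τ : ℝ) + p.M ^ 7 * p.w ≤ τ' →
        τ' ≤ τ0 + p.E → ∀ σ, p.ε ^ 3 / 2 ≤
          ∑ β : Bool × Fin 8, wt p β.2 * v β (if β.2 = 7 then τ' else τ) σ := by
  refine ⟨fun β τ σ => val p ((Ch.mk p t1 t2 τ0 β.1).rho β.2 τ (trunc t2 σ))
    ((Ch.mk p t1 t2 τ0 β.1).err β.2 τ (trunc t2 σ)), fun β τ σ σ' hA => by
      simp only [trunc_congr hA], fun β τ hτ h1 h2 => ?_, fun τ τ' hτ hτ' h1 h2 h3 σ => ?_⟩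
  · obtain ⟨hO, h2b, hs, hu⟩ := Pair_ok h hτ htb hsch
    have hB := Ch.bet_bounds (k := Ch.mk p t1 t2 τ0 β.1) h hr hτ h1 h2 β.2
    have P1 := Plan.trunc (Ch.bet_plan (k := Ch.mk p t1 t2 τ0 β.1) h hr hτ h1 h2 β.2)
      (fun σ σ' hA => Inv_congr hA h.le) (fun σ σ' hA => Win_congr hA h.le)
      (fun σ σ' hA => Win_congr hA le_rfl)
    have P2 := recov_plan (R := p.w)
      (e := fun σ => (Ch.mk p t1 t2 τ0 β.1).err β.2 τ (trunc t2 σ)) hO h2b hu hO.hW0 hO.hW1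
      (fun σ => ⟨(hB _).2.1, (hB _).2.2.trans (by
        change p.l / 100 ≤ _
        linarith [p.l_pos])⟩)
      (fun σ σ' hA => by rw [trunc_congr (hA.mono h2b)])
    have P3 := Plan.comp (P1.mono (fun _ _ _ _ hq => hq)
      (fun σ x q _ hq => by rwa [Inv_congr (trunc_ag t2 σ) le_rfl] at hq)
      (fun _ => subset_rfl) (fun _ => subset_rfl) (fun _ => le_rfl)) P2 h.le h2b
      (fun σ => by linarith [(abs_le.1 (hB (trunc t2 σ)).1).1])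
    have ht : t1 < τ := h.le.trans_lt hτ.lt
    refine P3.mono (fun σ x q _ hq b => le_trans ?_ (hq b)) (fun _ _ _ _ hq => hq)
      (fun _ => subset_rfl) (fun _ => subset_rfl)
      (fun σ => exp_val_le (hB _).1 (hB _).2.1 (hB _).2.2 hs)
    exact sub_le_sub_right (GG_mono le_rfl hO.hW1 (uu_pos ht) (rr_range h.h1 ht).2) _
  · have hc : 0 < p.ε ^ 3 := pow_pos p.hε 3
    have A := fun D => Ch.pair (k := Ch.mk p t1 t2 τ0 D) h hr hτ hτ' h1 h2 h3 (trunc t2 σ)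
    have B : ∀ D, 0 ≤ ∑ β : Fin 8, wt p β *
        val p ((Ch.mk p t1 t2 τ0 D).rho β (if β = 7 then τ' else τ) (trunc t2 σ))
          ((Ch.mk p t1 t2 τ0 D).err β (if β = 7 then τ' else τ) (trunc t2 σ)) := fun D => by
      by_cases ha : (Ch.mk p t1 t2 τ0 D).a0 (trunc t2 σ)
      · exact le_trans (by change 0 ≤ p.ε ^ 3 / 2; linarith) (A D ha)
      · exact Finset.sum_nonneg fun β _ =>
          (mul_eq_zero_of_right _ (Ch.pair_idle _ ha β)).ge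
    rw [Fintype.sum_prod_type, Fintype.sum_bool]
    rcases (Ch.facts (k := Ch.mk p t1 t2 τ0 true) (trunc t2 σ) h hr).gE with hg | hg
    · exact le_add_of_le_of_nonneg (A true hg) (B false)
    · exact le_add_of_nonneg_of_le (B true) (A false hg)

end

end Pool.Agent.P.MP_767cd9_co.Q1
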