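import Pool.Agent.P.MP_767cd9_co.Q1.Times

/-! The chain of stopping times for a reference target `τ` and a direction `D`. -/

namespace Pool.Agent.P.MP_767cd9_co.Q1

open Real

noncomputable section

/-- data of the chain -/
structure Ch where
  p : Par
  t1 : ℕ
  t2 : ℕ
  τ : ℕ
  D : Bool

namespace Ch

variable (k : Ch) (σ : Path)

def g : ℕ := first (fun t => k.p.E ≤ cnt σ true k.t1 t ∨ k.p.E ≤ cnt σ false k.t1 t) k.t1 k.t2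
def a0 : Prop := k.p.E ≤ cnt σ k.D k.t1 (k.g σ)
def f1 : ℕ := tF k.p k.τ σ k.D (k.g σ) (k.g σ) k.t2 ((1 + k.p.ε) * uu k.τ (k.g σ))
def w0 : Prop := (1 + k.p.ε) * uu k.τ (k.g σ) ≤ dsp k.τ σ k.D (k.g σ) (k.f1 σ)
def a1 : Prop := k.a0 σ ∧ ¬ k.w0 σ
def u1 : ℝ := uu k.τ (k.f1 σ)
def tC : ℕ := tQ k.p k.τ σ (!k.D) (k.f1 σ) k.t2 (k.u1 σ / 2)
def tP : ℕ := tQ k.p k.τ σ (!k.D) (k.f1 σ) k.t2 ((1 - k.p.ε) * k.u1 σ)
def q1 : Prop := k.p.H ≤ cnt σ k.D (k.f1 σ) (k.tP σ)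
def aL : Prop := k.a1 σ ∧ cnt σ k.D (k.f1 σ) (k.tC σ) < k.p.H
def f2 : ℕ := tF k.p k.τ σ (!k.D) (k.f1 σ) (k.tP σ) k.t2 ((3 / 2 + 3 * k.p.ε) * k.u1 σ)
def P2 : ℝ := dsp k.τ σ (!k.D) (k.f1 σ) (k.f2 σ)
def fl2 : Prop := k.P2 σ < (3 / 2 + 3 * k.p.ε) * k.u1 σ
def w1 : Prop := (1 + k.p.ε) * k.u1 σ ≤ k.P2 σ
def late : Prop := (1 + 10 * k.p.ε) * k.u1 σ ≤ k.P2 σ
def a2 : Prop := k.a1 σ ∧ ¬ k.q1 σ ∧ k.fl2 σ
def u2 : ℝ := uu k.τ (k.f2 σ)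
def tN : ℕ := tQ k.p k.τ σ k.D (k.f2 σ) k.t2 ((1 - k.p.ε) * k.u2 σ)
def q2 : Prop := k.p.H ≤ cnt σ (!k.D) (k.f2 σ) (k.tN σ)
def f3 : ℕ := tF k.p k.τ σ k.D (k.f2 σ) (k.tN σ) k.t2 ((1 + 20 * k.p.ε) * k.u2 σ)
def N3 : ℝ := dsp k.τ σ k.D (k.f2 σ) (k.f3 σ)
def fl3 : Prop := k.N3 σ < (1 + 20 * k.p.ε) * k.u2 σ
def w2 : Prop := (1 + k.p.ε) * k.u2 σ ≤ k.N3 σ
def a3 : Prop := k.a2 σ ∧ ¬ k.late σ ∧ ¬ k.q2 σ ∧ k.fl3 σ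
def u3 : ℝ := uu k.τ (k.f3 σ)
def t4 : ℕ := tQ k.p k.τ σ (!k.D) (k.f3 σ) k.t2 ((1 - k.p.ε) * k.u3 σ)
def q3 : Prop := k.p.H ≤ cnt σ k.D (k.f3 σ) (k.t4 σ)
def aLeft : Prop := k.a2 σ ∧ k.late σ

open Classical in
def tR : ℕ := if k.aLeft σ then k.f2 σ else k.f3 σ

open Classical in
def z1 (τ' : ℕ) : ℝ :=
  if k.aLeft σ then
    2 * uu τ' (k.f1 σ) - dsp τ' σ (!k.D) (k.f1 σ) (k.f2 σ) - (1 + 2 * k.p.ε) * k.u2 σ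
  else if k.a3 σ then dsp τ' σ k.D (k.f1 σ) (k.f3 σ) - k.p.yb
  else if k.fl2 σ then (1 / 2 + 2 * k.p.ε) * k.u1 σ else -((1 / 2 - 2 * k.p.ε) * k.u1 σ)

open Classical in
def z2 (τ' : ℕ) : ℝ :=
  if k.aLeft σ then 2 * uu τ' (k.f1 σ) - dsp τ' σ (!k.D) (k.f1 σ) (k.f2 σ) + k.p.yb
  else if k.a3 σ then dsp τ' σ k.D (k.f1 σ) (k.f3 σ) + (1 + 2 * k.p.ε) * k.u3 σ
  else if k.fl2 σ then (1 / 2 + 2 * k.p.ε) * k.u1 σ + 4 * k.p.U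
  else (1 / 2 - 2 * k.p.ε) * k.u1 σ

variable {k} {sch : ℕ → ℝ}

/-- order of the times -/
lemma order (h : k.t1 ≤ k.t2) : k.t1 ≤ k.g σ ∧ k.g σ ≤ k.f1 σ ∧ k.f1 σ ≤ k.tC σ ∧
    k.tC σ ≤ k.tP σ ∧ k.tP σ ≤ k.f2 σ ∧ k.f2 σ ≤ k.tN σ ∧ k.tN σ ≤ k.f3 σ ∧ k.f3 σ ≤ k.t4 σ ∧
    k.t4 σ ≤ k.t2 ∧ k.f2 σ ≤ k.tR σ ∧ k.tR σ ≤ k.f3 σ := by
  have hg : k.g σ ≤ k.t2 := first_le
  have hf1 : k.f1 σ ≤ k.t2 := first_le
  have hP : k.tP σ ≤ k.t2 := first_le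
  have hf2 : k.f2 σ ≤ k.t2 := first_le
  have hN : k.tN σ ≤ k.t2 := first_le
  have hf3 : k.f3 σ ≤ k.t2 := first_le
  have h1 : k.f2 σ ≤ k.tN σ := first_ge hf2
  have h2 : k.tN σ ≤ k.f3 σ := first_ge hN
  have hu : 0 ≤ k.u1 σ := uu_nonneg _ _
  have he : k.p.ε ≤ 1 / 2 := le_trans k.p.eps_le (by norm_num)
  refine ⟨first_ge h, first_ge hg, first_ge hf1, tQ_mono (by nlinarith) hf1, first_ge hP, h1, h2,
    first_ge hf3, first_le, ?_, ?_⟩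
  · unfold tR
    split_ifs
    · exact le_rfl
    · exact h1.trans h2
  · unfold tR
    split_ifs
    · exact h1.trans h2
    · exact le_rfl

lemma Pipe_and {T : Path → ℕ} {q q' : Path → Prop} (h : At T q) (h' : At T q') :
    At T (fun σ => q σ ∧ q' σ) := h.map₂ h' fun x y => x ∧ y

lemma Pipe_not {T : Path → ℕ} {q : Path → Prop} (h : At T q) : At T (fun σ => ¬ q σ) :=
  h.map fun x => ¬ x

open Classical in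
lemma Pipe_ite {γ : Type} {T : Path → ℕ} {q : Path → Prop} {f f' : Path → γ} (hq : At T q)
    (h : At T f) (h' : At T f') : At T (fun σ => if q σ then f σ else f' σ) := by
  intro σ σ' hA
  have e1 := hq σ σ' hA
  have e2 := h σ σ' hA
  have e3 := h' σ σ' hA
  by_cases hσ : q σ
  · have hσ' : q σ' := e1 ▸ hσ
    simp only [hσ, hσ', if_true, e2]
  · have hσ' : ¬ q σ' := e1 ▸ hσ
    simp only [hσ, hσ', if_false, e3]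

open Classical in
lemma Pipe_ite_stop {γ : Type} {T T' : Path → ℕ} {q : Path → Prop} {f f' : Path → γ}
    (hq : At T q) (hT : ∀ σ, T σ ≤ T' σ) (h : At T f) (h' : At T' f') :
    At (fun σ => if q σ then T σ else T' σ) (fun σ => if q σ then f σ else f' σ) := by
  intro σ σ' hA
  by_cases hσ : q σ
  · have hA' : Ag (T σ) σ σ' := by simpa only [hσ, if_true] using hA
    have hσ' : q σ' := hq σ σ' hA' ▸ hσ
    simp only [hσ, hσ', if_true, h σ σ' hA']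
  · have hA' : Ag (T' σ) σ σ' := by simpa only [hσ, if_false] using hA
    have hσ' : ¬ q σ' := hq σ σ' (hA'.mono (hT σ)) ▸ hσ
    simp only [hσ, hσ', if_false, h' σ σ' hA']

lemma Pipe_g (h : k.t1 ≤ k.t2) : At k.g k.g := by
  refine first_stop (T := fun _ => k.t1)
    (q := fun σ t => k.p.E ≤ cnt σ true k.t1 t ∨ k.p.E ≤ cnt σ false k.t1 t)
    (At.const _ _) (fun _ => h) ?_
  intro σ σ' t hA _
  simp only [cnt_congr hA le_rfl]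

lemma Pipe_f1 (h : k.t1 ≤ k.t2) : At k.f1 k.f1 :=
  tF_stop k.p (T := k.g) (T0 := k.g) (θ := fun σ => (1 + k.p.ε) * uu k.τ (k.g σ)) (Pipe_g h)
    (fun _ => first_le) (Pipe_g h) ((Pipe_g h).map fun t => (1 + k.p.ε) * uu k.τ t)

lemma Pipe_u1 (h : k.t1 ≤ k.t2) : At k.f1 k.u1 := (Pipe_f1 h).map fun t => uu k.τ t

lemma Pipe_tC (h : k.t1 ≤ k.t2) : At k.tC k.tC :=
  tQ_stop k.p (T := k.f1) (θ := fun σ => k.u1 σ / 2) (Pipe_f1 h) (fun _ => first_le)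
    ((Pipe_u1 h).map fun x => x / 2)

lemma Pipe_tP (h : k.t1 ≤ k.t2) : At k.tP k.tP :=
  tQ_stop k.p (T := k.f1) (θ := fun σ => (1 - k.p.ε) * k.u1 σ) (Pipe_f1 h) (fun _ => first_le)
    ((Pipe_u1 h).map fun x => (1 - k.p.ε) * x)

lemma Pipe_o1 (h : k.t1 ≤ k.t2) (σ : Path) : k.f1 σ ≤ k.tP σ :=
  (order σ h).2.2.1.trans (order σ h).2.2.2.1

lemma Pipe_o2 (h : k.t1 ≤ k.t2) (σ : Path) : k.f1 σ ≤ k.f2 σ :=
  (Pipe_o1 h σ).trans (order σ h).2.2.2.2.1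

lemma Pipe_o3 (h : k.t1 ≤ k.t2) (σ : Path) : k.f2 σ ≤ k.f3 σ :=
  (order σ h).2.2.2.2.2.1.trans (order σ h).2.2.2.2.2.2.1

lemma Pipe_f2 (h : k.t1 ≤ k.t2) : At k.f2 k.f2 :=
  tF_stop k.p (T := k.tP) (T0 := k.f1) (θ := fun σ => (3 / 2 + 3 * k.p.ε) * k.u1 σ) (Pipe_tP h)
    (fun _ => first_le) ((Pipe_f1 h).mono (Pipe_o1 h))
    (((Pipe_u1 h).mono (Pipe_o1 h)).map fun x => (3 / 2 + 3 * k.p.ε) * x)

lemma Pipe_u2 (h : k.t1 ≤ k.t2) : At k.f2 k.u2 := (Pipe_f2 h).map fun t => uu k.τ t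

lemma Pipe_tN (h : k.t1 ≤ k.t2) : At k.tN k.tN :=
  tQ_stop k.p (T := k.f2) (θ := fun σ => (1 - k.p.ε) * k.u2 σ) (Pipe_f2 h) (fun _ => first_le)
    ((Pipe_u2 h).map fun x => (1 - k.p.ε) * x)

lemma Pipe_f3 (h : k.t1 ≤ k.t2) : At k.f3 k.f3 :=
  tF_stop k.p (T := k.tN) (T0 := k.f2) (θ := fun σ => (1 + 20 * k.p.ε) * k.u2 σ) (Pipe_tN h)
    (fun _ => first_le) ((Pipe_f2 h).mono fun σ => (order σ h).2.2.2.2.2.1)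
    (((Pipe_u2 h).mono fun σ => (order σ h).2.2.2.2.2.1).map fun x => (1 + 20 * k.p.ε) * x)

lemma Pipe_u3 (h : k.t1 ≤ k.t2) : At k.f3 k.u3 := (Pipe_f3 h).map fun t => uu k.τ t

lemma Pipe_t4 (h : k.t1 ≤ k.t2) : At k.t4 k.t4 :=
  tQ_stop k.p (T := k.f3) (θ := fun σ => (1 - k.p.ε) * k.u3 σ) (Pipe_f3 h) (fun _ => first_le)
    ((Pipe_u3 h).map fun x => (1 - k.p.ε) * x)

lemma Pipe_a0 (h : k.t1 ≤ k.t2) : At k.g k.a0 :=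
  (At.cnt (b := k.D) (T0 := fun _ => k.t1) (At.const _ _) (Pipe_g h) fun _ => le_rfl).map
    fun n => k.p.E ≤ n

lemma Pipe_a1 (h : k.t1 ≤ k.t2) : At k.f1 k.a1 := by
  have hg : At k.f1 k.g := (Pipe_g h).mono fun σ => (order σ h).2.1
  have h0 : At k.f1 k.w0 :=
    hg.map₂ (At.dsp (τ := k.τ) (b := k.D) hg (Pipe_f1 h) fun _ => le_rfl)
      fun t x => (1 + k.p.ε) * uu k.τ t ≤ x
  exact Pipe_and ((Pipe_a0 h).mono fun σ => (order σ h).2.1) (Pipe_not h0)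

lemma Pipe_aL (h : k.t1 ≤ k.t2) : At k.tC k.aL :=
  Pipe_and ((Pipe_a1 h).mono fun σ => (order σ h).2.2.1)
    ((At.cnt (b := k.D) ((Pipe_f1 h).mono fun σ => (order σ h).2.2.1) (Pipe_tC h)
      fun _ => le_rfl).map fun n => n < k.p.H)

lemma Pipe_q1 (h : k.t1 ≤ k.t2) : At k.tP k.q1 :=
  (At.cnt (b := k.D) ((Pipe_f1 h).mono (Pipe_o1 h)) (Pipe_tP h) fun _ => le_rfl).map
    fun n => k.p.H ≤ n

lemma Pipe_P2 (h : k.t1 ≤ k.t2) (τ' : ℕ) :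
    At k.f2 (fun σ => dsp τ' σ (!k.D) (k.f1 σ) (k.f2 σ)) :=
  At.dsp ((Pipe_f1 h).mono (Pipe_o2 h)) (Pipe_f2 h) fun _ => le_rfl

lemma Pipe_fl2 (h : k.t1 ≤ k.t2) : At k.f2 k.fl2 :=
  (Pipe_P2 h k.τ).map₂ ((Pipe_u1 h).mono (Pipe_o2 h)) fun x y => x < (3 / 2 + 3 * k.p.ε) * y

lemma Pipe_w1 (h : k.t1 ≤ k.t2) : At k.f2 k.w1 :=
  (Pipe_P2 h k.τ).map₂ ((Pipe_u1 h).mono (Pipe_o2 h)) fun x y => (1 + k.p.ε) * y ≤ x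

lemma Pipe_late (h : k.t1 ≤ k.t2) : At k.f2 k.late :=
  (Pipe_P2 h k.τ).map₂ ((Pipe_u1 h).mono (Pipe_o2 h)) fun x y => (1 + 10 * k.p.ε) * y ≤ x

lemma Pipe_a2 (h : k.t1 ≤ k.t2) : At k.f2 k.a2 :=
  Pipe_and ((Pipe_a1 h).mono (Pipe_o2 h))
    (Pipe_and (Pipe_not ((Pipe_q1 h).mono fun σ => (order σ h).2.2.2.2.1)) (Pipe_fl2 h))

lemma Pipe_aLeft (h : k.t1 ≤ k.t2) : At k.f2 k.aLeft := Pipe_and (Pipe_a2 h) (Pipe_late h)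

lemma Pipe_q2 (h : k.t1 ≤ k.t2) : At k.tN k.q2 :=
  (At.cnt (b := !k.D) ((Pipe_f2 h).mono fun σ => (order σ h).2.2.2.2.2.1) (Pipe_tN h)
    fun _ => le_rfl).map fun n => k.p.H ≤ n

lemma Pipe_fl3 (h : k.t1 ≤ k.t2) : At k.f3 k.fl3 :=
  (At.dsp (τ := k.τ) (b := k.D) ((Pipe_f2 h).mono (Pipe_o3 h)) (Pipe_f3 h)
    fun _ => le_rfl).map₂ ((Pipe_u2 h).mono (Pipe_o3 h)) fun x y => x < (1 + 20 * k.p.ε) * y

lemma Pipe_a3 (h : k.t1 ≤ k.t2) : At k.f3 k.a3 :=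
  Pipe_and ((Pipe_a2 h).mono (Pipe_o3 h))
    (Pipe_and (Pipe_not ((Pipe_late h).mono (Pipe_o3 h)))
      (Pipe_and (Pipe_not ((Pipe_q2 h).mono fun σ => (order σ h).2.2.2.2.2.2.1)) (Pipe_fl3 h)))

/-- stopping times -/
lemma stops (h : k.t1 ≤ k.t2) : At k.g k.g ∧ At k.f1 k.f1 ∧ At k.tC k.tC ∧ At k.tP k.tP ∧
    At k.f2 k.f2 ∧ At k.tN k.tN ∧ At k.f3 k.f3 ∧ At k.t4 k.t4 ∧ At k.tR k.tR :=
  ⟨Pipe_g h, Pipe_f1 h, Pipe_tC h, Pipe_tP h, Pipe_f2 h, Pipe_tN h, Pipe_f3 h, Pipe_t4 h,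
    Pipe_ite_stop (Pipe_aLeft h) (Pipe_o3 h) (Pipe_f2 h) (Pipe_f3 h)⟩

/-- when the flags are known -/
lemma flags (h : k.t1 ≤ k.t2) (τ' : ℕ) : At k.g k.a0 ∧ At k.f1 k.a1 ∧ At k.tC k.aL ∧
    At k.f2 k.a2 ∧ At k.f2 k.w1 ∧ At k.f3 k.a3 ∧ At k.tC k.u1 ∧
    At k.tR (fun σ => k.z1 σ τ') ∧ At k.tR (fun σ => k.z2 σ τ') := by
  have h13 : ∀ σ, k.f1 σ ≤ k.f3 σ := fun σ => (Pipe_o2 h σ).trans (Pipe_o3 h σ)
  have hA : At k.f2 (fun σ => 2 * uu τ' (k.f1 σ) - dsp τ' σ (!k.D) (k.f1 σ) (k.f2 σ)) :=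
    ((Pipe_f1 h).mono (Pipe_o2 h)).map₂ (Pipe_P2 h τ') fun t x => 2 * uu τ' t - x
  have hB : At k.f3 (fun σ => dsp τ' σ k.D (k.f1 σ) (k.f3 σ)) :=
    At.dsp ((Pipe_f1 h).mono h13) (Pipe_f3 h) fun _ => le_rfl
  have hu : At k.f3 k.u1 := (Pipe_u1 h).mono h13
  have hfl : At k.f3 k.fl2 := (Pipe_fl2 h).mono (Pipe_o3 h)
  refine ⟨Pipe_a0 h, Pipe_a1 h, Pipe_aL h, Pipe_a2 h, Pipe_w1 h, Pipe_a3 h,
    (Pipe_u1 h).mono fun σ => (order σ h).2.2.1, ?_, ?_⟩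
  · exact Pipe_ite_stop (Pipe_aLeft h) (Pipe_o3 h)
      (hA.map₂ (Pipe_u2 h) fun x y => x - (1 + 2 * k.p.ε) * y)
      (Pipe_ite (Pipe_a3 h) (hB.map fun x => x - k.p.yb)
        (Pipe_ite hfl (hu.map fun x => (1 / 2 + 2 * k.p.ε) * x)
          (hu.map fun x => -((1 / 2 - 2 * k.p.ε) * x))))
  · exact Pipe_ite_stop (Pipe_aLeft h) (Pipe_o3 h) (hA.map fun x => x + k.p.yb)
      (Pipe_ite (Pipe_a3 h) (hB.map₂ (Pipe_u3 h) fun x y => x + (1 + 2 * k.p.ε) * y)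
        (Pipe_ite hfl (hu.map fun x => (1 / 2 + 2 * k.p.ε) * x + 4 * k.p.U)
          (hu.map fun x => (1 / 2 - 2 * k.p.ε) * x)))

/-- what is known about the reference displacements -/
structure Facts (k : Ch) (σ : Path) : Prop where
  gE : k.p.E ≤ cnt σ true k.t1 (k.g σ) ∨ k.p.E ≤ cnt σ false k.t1 (k.g σ)
  u1_ge : k.p.U / 3 ≤ k.u1 σ
  u2_ge : 24 / 100 * k.u1 σ ≤ k.u2 σ
  u3_ge : 49 / 100 * k.u2 σ ≤ k.u3 σ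
  u2_le : k.u2 σ ≤ k.u1 σ
  u3_le : k.u3 σ ≤ k.u2 σ
  fc1 : k.a1 σ → FC k.p σ (!k.D) k.t1 k.t1 (k.f1 σ)
  fc2 : k.a2 σ → FC k.p σ k.D k.t1 (k.tP σ) (k.f2 σ)
  fc3 : k.a3 σ → FC k.p σ (!k.D) k.t1 (k.tN σ) (k.f3 σ)
  cC : cnt σ k.D (k.f1 σ) (k.tC σ) ≤ k.p.H
  cP : cnt σ k.D (k.f1 σ) (k.tP σ) ≤ k.p.H
  cN : cnt σ (!k.D) (k.f2 σ) (k.tN σ) ≤ k.p.H
  c4 : cnt σ k.D (k.f3 σ) (k.t4 σ) ≤ k.p.H
  dC : dsp k.τ σ (!k.D) (k.f1 σ) (k.tC σ) ≤ k.u1 σ / 2 + 64 / k.p.U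
  dC' : k.aL σ → k.u1 σ / 2 ≤ dsp k.τ σ (!k.D) (k.f1 σ) (k.tC σ)
  dP : dsp k.τ σ (!k.D) (k.f1 σ) (k.tP σ) ≤ (1 - 3 / 4 * k.p.ε) * k.u1 σ
  dP' : ¬ k.q1 σ → (1 - k.p.ε) * k.u1 σ ≤ dsp k.τ σ (!k.D) (k.f1 σ) (k.tP σ)
  dN : dsp k.τ σ k.D (k.f2 σ) (k.tN σ) ≤ (1 - 3 / 4 * k.p.ε) * k.u2 σ
  dN' : ¬ k.q2 σ → (1 - k.p.ε) * k.u2 σ ≤ dsp k.τ σ k.D (k.f2 σ) (k.tN σ)
  d4 : dsp k.τ σ (!k.D) (k.f3 σ) (k.t4 σ) ≤ (1 - 3 / 4 * k.p.ε) * k.u3 σ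
  d4' : ¬ k.q3 σ → (1 - k.p.ε) * k.u3 σ ≤ dsp k.τ σ (!k.D) (k.f3 σ) (k.t4 σ)
  P2_le : k.P2 σ ≤ 2 * k.u1 σ
  N3_le : k.N3 σ ≤ 2 * k.u2 σ
  N2_le : ¬ k.q1 σ → dsp k.τ σ k.D (k.f1 σ) (k.f2 σ) ≤
    (k.P2 σ - (1 - k.p.ε) * k.u1 σ) / 1000 + k.p.ε * k.u1 σ / 1000
  u2_eq : 2 * k.u2 σ = 2 * k.u1 σ - k.P2 σ - dsp k.τ σ k.D (k.f1 σ) (k.f2 σ)
  aL_of : k.a1 σ → ¬ k.q1 σ → k.aL σ

/-- sizes of the junk terms -/
lemma Pipe_num (p : Par) : p.ε ≤ 1 / 10 ^ 6 ∧ 64 / p.U ≤ p.ε * p.U / 10 ^ 6 ∧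
    (p.H : ℝ) / p.U ≤ p.ε * p.U / 10 ^ 9 ∧ (p.E : ℝ) / p.U ≤ p.ε * p.U / 10 ^ 6 ∧
    0 ≤ 64 / p.M ∧ 64 / p.M ≤ 1 / 10 ^ 6 := by
  have he : p.ε ≤ 1 / 10 ^ 6 := le_trans p.eps_le (by norm_num)
  have hε := p.hε
  have hU := p.hU
  have hM := p.hM
  have hM0 := p.M_pos
  have hεU : 0 < p.ε * p.U := mul_pos hε hU
  have hE : (p.E : ℝ) / p.U = p.ε * p.U / 2 ^ 20 := by
    rw [p.hE]
    field_simp
  have hHE : (p.H : ℝ) * 2 ^ 50 ≤ p.E := by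
    rw [← p.hH]
    exact mul_le_mul_of_nonneg_left hM (Nat.cast_nonneg _)
  refine ⟨he, ?_, ?_, ?_, by positivity, ?_⟩
  · refine p.step_small.trans ?_
    have : p.ε * p.U / 2 ^ 14 * p.ε ≤ p.ε * p.U / 2 ^ 14 * (1 / 10 ^ 6) :=
      mul_le_mul_of_nonneg_left he (by positivity)
    linarith
  · have h1 : (p.H : ℝ) / p.U ≤ (p.E / 2 ^ 50) / p.U :=
      div_le_div_of_nonneg_right (by linarith) hU.le
    have h2 : ((p.E : ℝ) / 2 ^ 50) / p.U = (p.E / p.U) / 2 ^ 50 := by ring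
    rw [h2, hE] at h1
    linarith
  · rw [hE]
    linarith
  · rw [div_le_iff₀ hM0]
    linarith

/-- a run up to the level `(1 - ε) u` -/
lemma Pipe_Q {p : Par} {t1 t2 τ a T : ℕ} {b : Bool} {σ : Path} (h : Cx p sch t1 t2)
    (hr : Rng p t2 τ) (h1 : t1 ≤ a) (h2 : a ≤ t2) (hu : p.U / 30 ≤ uu τ a)
    (hT : T = tQ p τ σ b a t2 ((1 - p.ε) * uu τ a)) :
    cnt σ (!b) a T ≤ p.H ∧ dsp τ σ b a T ≤ (1 - 3 / 4 * p.ε) * uu τ a ∧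
      (¬ p.H ≤ cnt σ (!b) a T → (1 - p.ε) * uu τ a ≤ dsp τ σ b a T) := by
  obtain ⟨he, hs, -, -, -, -⟩ := Pipe_num p
  have hε := p.hε
  have hU := p.hU
  have hu0 : 0 ≤ uu τ a := uu_nonneg _ _
  have hεu : p.ε * (p.U / 30) ≤ p.ε * uu τ a := mul_le_mul_of_nonneg_left hu hε.le
  have hεU : 0 < p.ε * p.U := mul_pos hε hU
  obtain ⟨-, -, c1, c2, c3⟩ := tQ_spec h hr h1 h2 (mul_nonneg (by linarith) hu0) hT
  refine ⟨c1, by linarith, fun hn => ?_⟩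
  exact (c3 (by linarith)).resolve_right hn

/-- the run continued until a flip or the level `θ` -/
lemma Pipe_F {p : Par} {t1 t2 τ a T F : ℕ} {b : Bool} {σ : Path} {θ : ℝ} (h : Cx p sch t1 t2)
    (hr : Rng p t2 τ) (h1 : t1 ≤ a) (h2 : a ≤ t2) (hu : p.U / 30 ≤ uu τ a)
    (hT : T = tQ p τ σ b a t2 ((1 - p.ε) * uu τ a)) (hθ : uu τ a ≤ θ)
    (hF : F = tF p τ σ b a T t2 θ) :
    dsp τ σ b a F ≤ θ + p.ε * p.U / 10 ^ 6 ∧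
      dsp τ σ (!b) a F ≤ (dsp τ σ b a F - dsp τ σ b a T) / 10 ^ 6 + p.ε * p.U / 10 ^ 6 ∧
      dsp τ σ b a T ≤ dsp τ σ b a F ∧
      (p.U / 60 ≤ uu τ F → dsp τ σ b a F < θ → ¬ p.H ≤ cnt σ (!b) a T →
        FC p σ (!b) t1 T F) := by
  obtain ⟨he, hs, hH, hE, hM0, hM⟩ := Pipe_num p
  obtain ⟨c1, c2, c3⟩ := Pipe_Q h hr h1 h2 hu hT
  have hε := p.hε
  have hU := p.hU
  have hu0 : 0 ≤ uu τ a := uu_nonneg _ _
  have hεu : 0 ≤ p.ε * uu τ a := mul_nonneg hε.le hu0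
  have hεU : 0 < p.ε * p.U := mul_pos hε hU
  have haT : a ≤ T := hT ▸ first_ge h2
  have hT2 : T ≤ t2 := hT ▸ first_le
  obtain ⟨d1, d2, d3, d4, d5⟩ := tF_spec h hr h1 haT hT2 hF
  have e1 : dsp τ σ b a F = dsp τ σ b a T + dsp τ σ b T F := dsp_add haT d1
  have e2 : dsp τ σ (!b) a F = dsp τ σ (!b) a T + dsp τ σ (!b) T F := dsp_add haT d1
  have e3 : 0 ≤ dsp τ σ b T F := dsp_nonneg
  have e4 : dsp τ σ (!b) a T ≤ 64 * ((p.H : ℝ) / p.U) := by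
    refine (Cx.dsp_le hr hT2).trans ?_
    rw [mul_div_assoc]
    have : ((cnt σ (!b) a T : ℕ) : ℝ) ≤ p.H := by exact_mod_cast c1
    exact mul_le_mul_of_nonneg_left (div_le_div_of_nonneg_right this hU.le) (by norm_num)
  have e5 : 64 / p.M * dsp τ σ b T F ≤ 1 / 10 ^ 6 * dsp τ σ b T F :=
    mul_le_mul_of_nonneg_right hM e3
  have e6 : 128 * (p.H : ℝ) / p.U = 128 * ((p.H : ℝ) / p.U) := mul_div_assoc _ _ _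
  refine ⟨d3.trans (max_le (by linarith) (by linarith)), by linarith, by linarith,
    fun k1 k2 k3 => ?_⟩
  have hFl : Flip p σ b T F := (d5 k1).resolve_left (not_le.mpr k2)
  have hHE : p.H ≤ p.E := by
    have := p.H_le
    omega
  refine tF_fc h1 haT hT2 le_rfl hF hFl ?_ (c1.trans hHE)
  have f1 := c3 k3
  have f2 : dsp τ σ b a T ≤ 64 * ((cnt σ b a T : ℝ) / p.U) := by
    rw [← mul_div_assoc]
    exact Cx.dsp_le hr hT2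
  have f3 : p.ε * uu τ a ≤ 1 / 10 ^ 6 * uu τ a := mul_le_mul_of_nonneg_right he hu0
  have f4 : p.ε * p.U ≤ 1 / 10 ^ 6 * p.U := mul_le_mul_of_nonneg_right he hU.le
  have f5 : (p.E : ℝ) / p.U ≤ (cnt σ b a T : ℝ) / p.U := by linarith
  have f6 : (p.E : ℝ) ≤ cnt σ b a T := by
    rwa [div_le_div_iff_of_pos_right hU] at f5
  exact_mod_cast f6

/-- before `g` both directions are rare -/
lemma Pipe_cnt_g (h : k.t1 ≤ k.t2) (b : Bool) : cnt σ b k.t1 (k.g σ) ≤ k.p.E := by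
  have h1 : k.t1 ≤ k.g σ := (order σ h).1
  rcases h1.eq_or_lt with e | e
  · rw [← e, cnt_self]
    exact Nat.zero_le _
  · obtain ⟨t, ht⟩ : ∃ t, k.g σ = t + 1 := ⟨k.g σ - 1, by omega⟩
    have h2 : k.t1 ≤ t := by omega
    have h3 : t < k.g σ := by omega
    have h4 := first_min h2 h3
    simp only [not_or, not_le] at h4
    have h5 : cnt σ b k.t1 t < k.p.E := by
      cases b
      · exact h4.2
      · exact h4.1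
    rw [ht, cnt_succ h2]
    split_ifs <;> omega

lemma Pipe_gE (h : Cx k.p sch k.t1 k.t2) :
    k.p.E ≤ cnt σ true k.t1 (k.g σ) ∨ k.p.E ≤ cnt σ false k.t1 (k.g σ) := by
  have h2 : k.g σ ≤ k.t2 := first_le
  rcases h2.eq_or_lt with e | e
  · have h3 : cnt σ true k.t1 k.t2 + cnt σ (!true) k.t1 k.t2 = k.t2 - k.t1 := cnt_sum h.le
    have h4 : k.t1 + 2 * k.p.E ≤ k.t2 := by
      have h5 := h.ht
      have h6 := k.p.E_eq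
      have h7 := k.p.l_pos
      have h8 : k.p.ε * k.p.l ≤ 1 / 10 ^ 6 * k.p.l :=
        mul_le_mul_of_nonneg_right (Pipe_num k.p).1 h7.le
      have h9 : (k.t1 : ℝ) + 2 * k.p.E ≤ k.t2 := by linarith
      exact_mod_cast h9
    rw [e]
    simp only [Bool.not_true] at h3
    omega
  · exact first_spec e

lemma Pipe_ug (h : Cx k.p sch k.t1 k.t2) (hr : Rng k.p k.t2 k.τ) :
    69 / 100 * k.p.U ≤ uu k.τ (k.g σ) := by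
  obtain ⟨he, -, -, hE, -, -⟩ := Pipe_num k.p
  have hU := k.p.hU
  have h1 : k.t1 ≤ k.g σ := (order σ h.le).1
  have h2 : k.g σ ≤ k.t2 := first_le
  have h3 : ∀ b, dsp k.τ σ b k.t1 (k.g σ) ≤ 64 * ((k.p.E : ℝ) / k.p.U) := by
    intro b
    refine (Cx.dsp_le hr h2).trans ?_
    rw [mul_div_assoc]
    have : ((cnt σ b k.t1 (k.g σ) : ℕ) : ℝ) ≤ k.p.E := by exact_mod_cast Pipe_cnt_g σ h.le b
    exact mul_le_mul_of_nonneg_left (div_le_div_of_nonneg_right this hU.le) (by norm_num)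
  have h4 := dsp_sum (τ := k.τ) (σ := σ) (b := true) h1
  have h5 := h3 true
  have h6 := h3 (!true)
  have h7 := h.uu_t1 hr
  have h8 : k.p.ε * k.p.U ≤ 1 / 10 ^ 6 * k.p.U := mul_le_mul_of_nonneg_right he hU.le
  linarith

lemma Pipe_first (h : Cx k.p sch k.t1 k.t2) (hr : Rng k.p k.t2 k.τ) :
    k.p.U / 3 ≤ k.u1 σ ∧ (k.a1 σ → FC k.p σ (!k.D) k.t1 k.t1 (k.f1 σ)) := by
  obtain ⟨he, hs, hH, -, hM0, hM⟩ := Pipe_num k.p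
  have hU := k.p.hU
  have hε := k.p.hε
  have h1 : k.t1 ≤ k.g σ := (order σ h.le).1
  have h2 : k.g σ ≤ k.t2 := first_le
  have hg := Pipe_ug σ h hr
  have hg' : uu k.τ (k.g σ) ≤ k.p.U := h.uu_le hr h1
  have hF : k.f1 σ = tF k.p k.τ σ k.D (k.g σ) (k.g σ) k.t2 ((1 + k.p.ε) * uu k.τ (k.g σ)) := rfl
  obtain ⟨d1, -, d3, d4, d5⟩ := tF_spec h hr h1 le_rfl h2 hF
  have e0 : k.p.ε * uu k.τ (k.g σ) ≤ 1 / 10 ^ 6 * uu k.τ (k.g σ) :=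
    mul_le_mul_of_nonneg_right he (uu_nonneg _ _)
  have e1 : 0 ≤ k.p.ε * uu k.τ (k.g σ) := mul_nonneg hε.le (uu_nonneg _ _)
  have e2 : k.p.ε * k.p.U ≤ 1 / 10 ^ 6 * k.p.U := mul_le_mul_of_nonneg_right he hU.le
  have e3 : 0 < 64 / k.p.U := by positivity
  have e4 : dsp k.τ σ k.D (k.g σ) (k.f1 σ) ≤ (1 + k.p.ε) * uu k.τ (k.g σ) + 64 / k.p.U := by
    refine d3.trans (max_le le_rfl ?_)
    rw [dsp_self]
    linarith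
  have e5 : 64 / k.p.M * dsp k.τ σ k.D (k.g σ) (k.f1 σ) ≤
      1 / 10 ^ 6 * dsp k.τ σ k.D (k.g σ) (k.f1 σ) := mul_le_mul_of_nonneg_right hM dsp_nonneg
  have e6 : 128 * (k.p.H : ℝ) / k.p.U = 128 * ((k.p.H : ℝ) / k.p.U) := mul_div_assoc _ _ _
  have e7 := dsp_sum (τ := k.τ) (σ := σ) (b := k.D) d1
  have hu : k.p.U / 3 ≤ uu k.τ (k.f1 σ) := by linarith
  refine ⟨hu, fun ha => ?_⟩
  have hFl : Flip k.p σ k.D (k.g σ) (k.f1 σ) := (d5 (by linarith)).resolve_left ha.2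
  exact tF_fc le_rfl h1 h2 h1 hF hFl ha.1 (Pipe_cnt_g σ h.le _)

lemma facts (h : Cx k.p sch k.t1 k.t2) (hr : Rng k.p k.t2 k.τ) : Facts k σ := by
  obtain ⟨he, hs, -, -, -, -⟩ := Pipe_num k.p
  have hU := k.p.hU
  have hε := k.p.hε
  obtain ⟨o1, o2, o3, o4, o5, o6, o7, o8, o9, -, -⟩ := order σ h.le
  obtain ⟨hu1, fc1⟩ := Pipe_first σ h hr
  have eU : k.p.ε * k.p.U ≤ 1 / 10 ^ 6 * k.p.U := mul_le_mul_of_nonneg_right he hU.le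
  have eU0 : 0 < k.p.ε * k.p.U := mul_pos hε hU
  have n1 : 0 ≤ k.u1 σ := uu_nonneg _ _
  have n2 : 0 ≤ k.u2 σ := uu_nonneg _ _
  have e1 : k.p.ε * k.u1 σ ≤ 1 / 10 ^ 6 * k.u1 σ := mul_le_mul_of_nonneg_right he n1
  have e1' : k.p.ε * (k.p.U / 3) ≤ k.p.ε * k.u1 σ := mul_le_mul_of_nonneg_left hu1 hε.le
  have e2 : k.p.ε * k.u2 σ ≤ 1 / 10 ^ 6 * k.u2 σ := mul_le_mul_of_nonneg_right he n2
  have e2' : 0 ≤ k.p.ε * k.u2 σ := mul_nonneg hε.le n2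
  have a1 : k.t1 ≤ k.f1 σ := by omega
  have b1 : k.f1 σ ≤ k.t2 := by omega
  have g1 : k.p.U / 30 ≤ k.u1 σ := by linarith
  obtain ⟨-, -, cC, dC, dC'⟩ := tQ_spec (T := k.tC σ) (b := !k.D) (σ := σ) (θ := k.u1 σ / 2) h hr
    a1 b1 (by linarith) rfl
  obtain ⟨cP, dP, dP'⟩ := Pipe_Q (T := k.tP σ) (b := !k.D) (σ := σ) h hr a1 b1 g1 rfl
  obtain ⟨p1, p2, p3, p4⟩ := Pipe_F (T := k.tP σ) (F := k.f2 σ) (b := !k.D) (σ := σ)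
    (θ := (3 / 2 + 3 * k.p.ε) * k.u1 σ) h hr a1 b1 g1 rfl
    (show k.u1 σ ≤ _ by linarith) rfl
  have s1 := dsp_sum (τ := k.τ) (σ := σ) (b := k.D) (show k.f1 σ ≤ k.f2 σ by omega)
  rw [Bool.not_not] at cC dC' cP dP' p2 p4
  have m1 : 0 ≤ dsp k.τ σ (!k.D) (k.f1 σ) (k.tP σ) := dsp_nonneg
  have r1 : uu k.τ (k.f1 σ) = k.u1 σ := rfl
  have r2 : uu k.τ (k.f2 σ) = k.u2 σ := rfl
  have r3 : uu k.τ (k.f3 σ) = k.u3 σ := rfl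
  have rP : dsp k.τ σ (!k.D) (k.f1 σ) (k.f2 σ) = k.P2 σ := rfl
  have rN : dsp k.τ σ k.D (k.f2 σ) (k.f3 σ) = k.N3 σ := rfl
  rw [r1] at dC' dP dP'
  rw [r1, r2, rP] at s1
  rw [rP] at p1 p2 p3
  have hu2 : 24 / 100 * k.u1 σ ≤ k.u2 σ := by linarith
  have a2 : k.t1 ≤ k.f2 σ := by omega
  have b2 : k.f2 σ ≤ k.t2 := by omega
  have g2 : k.p.U / 30 ≤ k.u2 σ := by linarith
  obtain ⟨cN, dN, dN'⟩ := Pipe_Q (T := k.tN σ) (b := k.D) (σ := σ) h hr a2 b2 g2 rfl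
  obtain ⟨q1, q2, q3, q4⟩ := Pipe_F (T := k.tN σ) (F := k.f3 σ) (b := k.D) (σ := σ)
    (θ := (1 + 20 * k.p.ε) * k.u2 σ) h hr a2 b2 g2 rfl
    (show k.u2 σ ≤ _ by linarith) rfl
  have s2 := dsp_sum (τ := k.τ) (σ := σ) (b := k.D) (show k.f2 σ ≤ k.f3 σ by omega)
  have m2 : 0 ≤ dsp k.τ σ k.D (k.f2 σ) (k.tN σ) := dsp_nonneg
  rw [r2, r3, rN] at s2
  rw [rN] at q1 q2 q3
  have hu3 : 49 / 100 * k.u2 σ ≤ k.u3 σ := by linarith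
  have a3 : k.t1 ≤ k.f3 σ := by omega
  have b3 : k.f3 σ ≤ k.t2 := by omega
  have g3 : k.p.U / 30 ≤ k.u3 σ := by linarith
  obtain ⟨c4, d4, d4'⟩ := Pipe_Q (T := k.t4 σ) (b := !k.D) (σ := σ) h hr a3 b3 g3 rfl
  rw [Bool.not_not] at c4 d4'
  exact
    { gE := Pipe_gE σ h
      u1_ge := hu1
      u2_ge := hu2
      u3_ge := hu3
      u2_le := uu_anti (by omega)
      u3_le := uu_anti (by omega)
      fc1 := fc1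
      fc2 := fun ha => p4 (show _ ≤ k.u2 σ by linarith) ha.2.2 ha.2.1
      fc3 := fun ha => q4 (show _ ≤ k.u3 σ by linarith) ha.2.2.2 ha.2.2.1
      cC := cC
      cP := cP
      cN := cN
      c4 := c4
      dC := dC
      dC' := fun ha => (dC' (by linarith)).resolve_right (not_le.mpr ha.2)
      dP := dP
      dP' := dP'
      dN := dN
      dN' := dN'
      d4 := d4
      d4' := d4'
      P2_le := by linarith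
      N3_le := by linarith
      N2_le := fun hq => by
        have := dP' hq
        linarith
      u2_eq := by linarith
      aL_of := fun ha hq => ⟨ha, lt_of_le_of_lt (cnt_mono o4) (not_le.mp hq)⟩ }

end Ch

end

end Pool.Agent.P.MP_767cd9_co.Q1
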