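import Pool.Agent.P.MP_767cd9_co.Q1.Traj

/-! Changing the target time. -/

namespace Pool.Agent.P.MP_767cd9_co.Q1

open Real

noncomputable section

section
variable {u u' r r' rA rB δ W W1 e1 e1' X X' x y v : ℝ}

lemma Retarget_abs_mul {a b A B : ℝ} (ha : |a| ≤ A) (hb : |b| ≤ B) : |a * b| ≤ A * B := by
  rw [abs_mul]
  exact mul_le_mul ha hb (abs_nonneg _) ((abs_nonneg _).trans ha)

lemma Retarget_th_scale {k : ℝ} (hk : 0 ≤ k) (e h : ℝ) : th (k * e) (k * h) = k * th e h := by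
  unfold th
  rw [mul_min_of_nonneg _ _ hk, mul_max_of_nonneg _ _ hk, mul_zero, mul_sub]

lemma Retarget_hh_scale {k : ℝ} (hk : 0 < k) (W u r X : ℝ) :
    hh (k ^ 2 * W) (k * u) r (k * X) = k ^ 2 * hh W u r X := by
  unfold hh
  have e1 : k * u * (2 * (k * u) - k * X) / r = k ^ 2 * (u * (2 * u - X) / r) := by ring
  have e2 : 2 * (k * X - k * u) / (k * u) = 2 * (X - u) / u := by
    rw [← mul_sub, mul_left_comm, mul_div_mul_left _ _ hk.ne']
  rw [e1, e2, mul_assoc (k ^ 2), ← mul_min_of_nonneg _ _ (sq_nonneg k)]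
  ring

lemma Retarget_GG_scale {k : ℝ} (hk : 0 < k) (c W e u r X : ℝ) :
    GG c (k ^ 2 * W) (k ^ 2 * e) (k * u) r (k * X) = k ^ 2 * GG c W e u r X := by
  unfold GG
  by_cases h : X ≤ u
  · rw [if_pos h, if_pos (mul_le_mul_of_nonneg_left h hk.le)]
    ring
  · rw [if_neg h, if_neg fun h1 => h (le_of_mul_le_mul_left h1 hk), Retarget_hh_scale hk,
      Retarget_th_scale (sq_nonneg k)]

lemma Retarget_Fr_scale {k : ℝ} (hk : 0 < k) (r n : ℝ) : Fr k r (k * n) = Fr 1 r n / k := by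
  unfold Fr
  have e1 : 2 * (k * n) / k = 2 * n / 1 := by field_simp
  have e2 : 2 * (k + k * n) = 2 * (1 + n) * k := by ring
  rw [e1, e2, div_div]

lemma Retarget_xi_scale {k : ℝ} (hk : 0 < k) (rA rB x : ℝ) :
    xi k rA rB (k * x) = xi 1 rA rB x / k := by
  unfold xi
  have e1 : max (k * x - k) 0 = k * max (x - 1) 0 := by
    rw [mul_max_of_nonneg _ _ hk.le, mul_zero, mul_sub, mul_one]
  have e2 : max (k - k * x) 0 = k * max (1 - x) 0 := by
    rw [mul_max_of_nonneg _ _ hk.le, mul_zero, mul_sub, mul_one]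
  rw [e1, e2, Retarget_Fr_scale hk, Retarget_Fr_scale hk]
  ring

lemma Retarget_sqrt_scale {k : ℝ} (hk : 0 < k) (d : ℝ) :
    √(k ^ 2 - k ^ 2 * d) = k * √(1 - d) := by
  have e : k ^ 2 - k ^ 2 * d = k ^ 2 * (1 - d) := by ring
  rw [e, Real.sqrt_mul (sq_nonneg k), Real.sqrt_sq hk.le]

lemma Retarget_bz_scale {k : ℝ} (hk : 0 < k) (d : ℝ) :
    bz k (k ^ 2 * d) = 1 - √(1 - d) - d / 2 := by
  unfold bz
  rw [Retarget_sqrt_scale hk]
  field_simp

lemma Retarget_psi_scale {k : ℝ} (hk : 0 < k) (rA rB d x : ℝ) :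
    psi k rA rB (k ^ 2 * d) (k * x) =
      k * ((1 - (1 - √(1 - d) - d / 2)) * x - d * xi 1 rA rB x) := by
  unfold psi
  rw [Retarget_bz_scale hk, Retarget_xi_scale hk]
  field_simp

/-- The cut off function of the profile. -/
def Retarget_ph (n : ℝ) : ℝ := max 0 (min 1 (2 * n / 1 - 1 / 2))

lemma Retarget_ph_nonneg (n : ℝ) : 0 ≤ Retarget_ph n := le_max_left _ _

lemma Retarget_ph_le_one (n : ℝ) : Retarget_ph n ≤ 1 := max_le zero_le_one (min_le_left _ _)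

lemma Retarget_ph_le {n : ℝ} (hn : 0 ≤ n) : Retarget_ph n ≤ 2 * n :=
  max_le (by linarith) ((min_le_right _ _).trans (by linarith))

lemma Retarget_ph_zero {n : ℝ} (hn : n ≤ 1 / 4) : Retarget_ph n = 0 :=
  max_eq_left ((min_le_right _ _).trans (by linarith))

lemma Retarget_ph_one {n : ℝ} (hn : 3 / 4 ≤ n) : Retarget_ph n = 1 := by
  unfold Retarget_ph
  rw [min_eq_left (by linarith), max_eq_right zero_le_one]

lemma Retarget_ph_lip (n n' : ℝ) : |Retarget_ph n - Retarget_ph n'| ≤ 2 * |n - n'| := by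
  unfold Retarget_ph
  rw [max_comm 0, max_comm 0]
  refine (abs_max_sub_max_le_abs _ _ _).trans ((abs_min_sub_min_le_max _ _ _ _).trans ?_)
  have e : 2 * n / 1 - 1 / 2 - (2 * n' / 1 - 1 / 2) = 2 * (n - n') := by ring
  rw [sub_self, abs_zero, e, abs_mul, abs_two]
  exact max_le (by positivity) le_rfl

lemma Retarget_Fr_eq (r n : ℝ) :
    Fr 1 r n = (1 + 3 * ((1 - r) * Retarget_ph n)) / 2 * (1 + n)⁻¹ := by
  unfold Fr Retarget_ph
  rw [mul_assoc, ← div_eq_mul_inv, div_div]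

lemma Retarget_s {r : ℝ} (h0 : 0 ≤ r) (h1 : r ≤ 1) (n : ℝ) :
    0 ≤ (1 - r) * Retarget_ph n ∧ (1 - r) * Retarget_ph n ≤ Retarget_ph n :=
  ⟨mul_nonneg (by linarith) (Retarget_ph_nonneg n),
    mul_le_of_le_one_left (Retarget_ph_nonneg n) (by linarith)⟩

lemma Retarget_Fr_lip {r n n' : ℝ} (h0 : 0 ≤ r) (h1 : r ≤ 1) (hn : 0 ≤ n) (hn' : 0 ≤ n') :
    |Fr 1 r n - Fr 1 r n'| ≤ 5 * |n - n'| := by
  have a1 : |(1 + n)⁻¹| ≤ 1 := by
    rw [abs_of_nonneg (by positivity)]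
    exact inv_le_one_of_one_le₀ (by linarith)
  have a2 : |(1 + n')⁻¹| ≤ 1 := by
    rw [abs_of_nonneg (by positivity)]
    exact inv_le_one_of_one_le₀ (by linarith)
  have a3 : |1 - r| ≤ 1 := abs_le.2 ⟨by linarith, by linarith⟩
  obtain ⟨s1, s2⟩ := Retarget_s h0 h1 n'
  have a4 : |1 + 3 * ((1 - r) * Retarget_ph n')| ≤ 4 :=
    abs_le.2 ⟨by linarith, by linarith [Retarget_ph_le_one n']⟩
  have b1 := Retarget_abs_mul (Retarget_abs_mul a3 (Retarget_ph_lip n n')) a1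
  have b2 := Retarget_abs_mul a4 (Retarget_abs_mul (Retarget_abs_mul a1 a2) (le_refl |n - n'|))
  have e : Fr 1 r n - Fr 1 r n' =
      3 / 2 * ((1 - r) * (Retarget_ph n - Retarget_ph n') * (1 + n)⁻¹) -
        1 / 2 * ((1 + 3 * ((1 - r) * Retarget_ph n')) * ((1 + n)⁻¹ * (1 + n')⁻¹ * (n - n'))) := by
    rw [Retarget_Fr_eq, Retarget_Fr_eq]
    field_simp
    ring
  rw [e]
  rw [abs_le] at b1 b2 ⊢
  constructor <;> linarith [b1.1, b1.2, b2.1, b2.2]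

lemma Retarget_xi_lip {rA rB : ℝ} (hA : 0 ≤ rA) (hA' : rA ≤ 1) (hB : 0 ≤ rB) (hB' : rB ≤ 1)
    (x y : ℝ) : |xi 1 rA rB x - xi 1 rA rB y| ≤ 10 * |x - y| := by
  have h1 := Retarget_Fr_lip hA hA' (le_max_right (x - 1) 0) (le_max_right (y - 1) 0)
  have h2 := Retarget_Fr_lip hB hB' (le_max_right (1 - x) 0) (le_max_right (1 - y) 0)
  have h3 := abs_max_sub_max_le_abs (x - 1) (y - 1) 0
  have h4 := abs_max_sub_max_le_abs (1 - x) (1 - y) 0
  rw [sub_sub_sub_cancel_right] at h3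
  rw [sub_sub_sub_cancel_left, abs_sub_comm y] at h4
  unfold xi
  rw [abs_le] at h1 h2 ⊢
  constructor <;> linarith [h1.1, h1.2, h2.1, h2.2]

lemma xi_lip (hu : 0 < u) (hA : 0 ≤ rA) (hA' : rA ≤ 1) (hB : 0 ≤ rB) (hB' : rB ≤ 1) (x y : ℝ) :
    |xi u rA rB x - xi u rA rB y| ≤ 10 / u ^ 2 * |x - y| := by
  obtain ⟨x, rfl⟩ : ∃ x', x = u * x' := ⟨x / u, by field_simp⟩
  obtain ⟨y, rfl⟩ : ∃ y', y = u * y' := ⟨y / u, by field_simp⟩
  rw [Retarget_xi_scale hu, Retarget_xi_scale hu, ← sub_div, abs_div, ← mul_sub, abs_mul,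
    abs_of_pos hu]
  refine (div_le_div_of_nonneg_right (Retarget_xi_lip hA hA' hB hB' x y) hu.le).trans_eq ?_
  field_simp

lemma xi_flip (hu : 0 < u) : xi u rB rA (2 * u - x) = 1 / u - xi u rA rB x := by
  unfold xi
  have e1 : 2 * u - x - u = u - x := by ring
  have e2 : u - (2 * u - x) = x - u := by ring
  have _ := hu
  rw [e1, e2]
  ring

lemma bz_bounds (hu : 0 < u) (hδ : |δ| ≤ u ^ 2 / 2) :
    0 ≤ bz u δ ∧ bz u δ ≤ δ ^ 2 / (2 * u ^ 4) := by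
  obtain ⟨d, rfl⟩ : ∃ d, δ = u ^ 2 * d := ⟨δ / u ^ 2, by field_simp⟩
  have hu2 : 0 < u ^ 2 := by positivity
  have h1 : d ≤ 1 := by
    have h2 := (le_abs_self _).trans hδ
    nlinarith
  have h2 := Real.sq_sqrt (sub_nonneg.2 h1)
  have h3 := Real.sqrt_nonneg (1 - d)
  have e : (u ^ 2 * d) ^ 2 / (2 * u ^ 4) = d ^ 2 / 2 := by field_simp
  rw [Retarget_bz_scale hu, e]
  generalize √(1 - d) = t at h2 h3
  obtain rfl : d = 1 - t ^ 2 := by linarith
  constructor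
  · nlinarith [sq_nonneg (1 - t)]
  · nlinarith [mul_nonneg (sq_nonneg (1 - t)) (mul_nonneg h3 (by linarith : 0 ≤ t + 2))]

lemma psi_flip (hu : 0 < u) :
    psi u rB rA δ (2 * u - x) = 2 * √(u ^ 2 - δ) - psi u rA rB δ x := by
  unfold psi
  rw [xi_flip hu]
  unfold bz
  field_simp
  ring

lemma Retarget_Fr_zero (r : ℝ) : Fr 1 r 0 = 1 / 2 := by
  rw [Retarget_Fr_eq, Retarget_ph_zero (by norm_num)]
  norm_num

lemma Retarget_lo {r rB X : ℝ} (hB : 0 ≤ rB) (hB' : rB ≤ 1) (hX : X ≤ 1) :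
    |xi 1 r rB X| ≤ 2 ∧ |2 * X * xi 1 r rB X - 1| ≤ 6 * (1 - X) := by
  obtain ⟨n, rfl⟩ : ∃ n, X = 1 - n := ⟨1 - X, by ring⟩
  have hn : 0 ≤ n := by linarith
  have e : xi 1 r rB (1 - n) = 1 - Fr 1 rB n := by
    unfold xi
    rw [max_eq_right (by linarith), Retarget_Fr_zero, sub_sub_cancel, max_eq_left hn]
    ring
  obtain ⟨s1, s2⟩ := Retarget_s hB hB' n
  have s3 := Retarget_ph_le_one n
  have s4 := Retarget_ph_le hn
  have hp : 0 < 1 + n := by linarith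
  have e2 : Fr 1 rB n * (1 + n) = (1 + 3 * ((1 - rB) * Retarget_ph n)) / 2 := by
    rw [Retarget_Fr_eq, mul_assoc, inv_mul_cancel₀ hp.ne', mul_one]
  rw [e, sub_sub_cancel]
  generalize Fr 1 rB n = F at e2
  generalize (1 - rB) * Retarget_ph n = s at e2 s1 s2
  have f0 : 0 ≤ F := le_of_mul_le_mul_right (by linarith) hp
  have f1 : F ≤ 2 := le_of_mul_le_mul_right (by linarith) hp
  have e3 : (2 * (1 - n) * (1 - F) - 1) * (1 + n) = -(2 * n ^ 2 + 3 * s * (1 - n)) := by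
    linear_combination (-2 * (1 - n)) * e2
  have p1 := mul_nonneg s1 hn
  have p2 := mul_le_mul_of_nonneg_right (s2.trans s4) hn
  refine ⟨abs_le.2 ⟨by linarith, by linarith⟩, abs_le.2 ⟨?_, ?_⟩⟩
  · refine le_of_mul_le_mul_right ?_ hp
    rw [e3]
    nlinarith [sq_nonneg n]
  · refine le_of_mul_le_mul_right ?_ hp
    rw [e3]
    nlinarith [sq_nonneg n]

lemma Retarget_hi {r rB X : ℝ} (h0 : 0 ≤ r) (h1 : r ≤ 1) (hX : 1 ≤ X) :
    |xi 1 r rB X| ≤ 2 ∧ 2 * X * xi 1 r rB X - 1 = 3 * ((1 - r) * Retarget_ph (X - 1)) := by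
  have e : xi 1 r rB X = Fr 1 r (X - 1) := by
    unfold xi
    rw [max_eq_left (by linarith), max_eq_right (by linarith), Retarget_Fr_zero]
    ring
  obtain ⟨s1, s2⟩ := Retarget_s h0 h1 (X - 1)
  have s3 := Retarget_ph_le_one (X - 1)
  have hp : 0 < X := by linarith
  have e2 : Fr 1 r (X - 1) * X = (1 + 3 * ((1 - r) * Retarget_ph (X - 1))) / 2 := by
    rw [Retarget_Fr_eq, add_sub_cancel, mul_assoc, inv_mul_cancel₀ hp.ne', mul_one]
  rw [e]
  generalize Fr 1 r (X - 1) = F at e2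
  have f0 : 0 ≤ F := le_of_mul_le_mul_right (by linarith) hp
  have f1 : F ≤ 2 := le_of_mul_le_mul_right (by linarith) hp
  exact ⟨abs_le.2 ⟨by linarith, f1⟩, by linarith⟩

lemma Retarget_t {t d y : ℝ} (ht : 0 ≤ t) (h : t ^ 2 = 1 - d) (hd : |d| ≤ y) (hy : 1000 * y ≤ 1) :
    |1 - t| ≤ 51 / 100 * y := by
  obtain ⟨d1, d2⟩ := abs_le.1 hd
  have h1 : 99 / 100 ≤ t := by
    by_contra h2
    nlinarith [not_le.1 h2]
  have hy0 : 0 ≤ y := (abs_nonneg d).trans hd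
  have hp : 0 < 1 + t := by linarith
  have p := mul_le_mul_of_nonneg_left h1 hy0
  exact abs_le.2 ⟨le_of_mul_le_mul_right (by nlinarith) hp, le_of_mul_le_mul_right (by nlinarith) hp⟩

lemma Retarget_q {t d y r r' : ℝ} (ht0 : 0 < t) (ht : |1 - t| ≤ 51 / 100 * y) (hr : 0 < r)
    (hr1 : r ≤ 1) (hr' : 0 < r')
    (hc : (0 ≤ d ∧ r' ≤ r ∧ r * t ≤ r') ∨ (d ≤ 0 ∧ r ≤ r' ∧ r' ≤ r * t)) :
    |r - r'| ≤ 51 / 100 * y ∧ |t * r / r' - 1| ≤ 51 / 100 * y := by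
  have h1 : |r| ≤ 1 := abs_le.2 ⟨by linarith, hr1⟩
  obtain ⟨a1, a2⟩ := abs_le.1 (Retarget_abs_mul h1 ht)
  obtain ⟨b1, b2⟩ := abs_le.1 ht
  have hy : 0 ≤ y := by linarith
  rcases hc with ⟨-, c1, c2⟩ | ⟨-, c1, c2⟩
  · have q1 : t * r / r' ≤ 1 := (div_le_one hr').2 (by linarith)
    have q2 : t ≤ t * r / r' := (le_div_iff₀ hr').2 (mul_le_mul_of_nonneg_left c1 ht0.le)
    exact ⟨abs_le.2 ⟨by linarith, by linarith⟩, abs_le.2 ⟨by linarith, by linarith⟩⟩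
  · have q1 : 1 ≤ t * r / r' := (one_le_div hr').2 (by linarith)
    have q2 : t * r / r' ≤ t := (div_le_iff₀ hr').2 (mul_le_mul_of_nonneg_left c1 ht0.le)
    exact ⟨abs_le.2 ⟨by linarith, by linarith⟩, abs_le.2 ⟨by linarith, by linarith⟩⟩

lemma Retarget_Zlo {Z g d y : ℝ} (hd : |d| ≤ y) (hy : 1000 * y ≤ 1) (hg : |g| ≤ 101 / 100 * y)
    (hZ : -(y / 2) ≤ Z) : -(13 / 10 * y) ≤ Z * (1 + g) - 3 * d / 4 := by
  obtain ⟨d1, d2⟩ := abs_le.1 hd
  obtain ⟨g1, g2⟩ := abs_le.1 hg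
  have hy0 : 0 ≤ y := by linarith
  have p1 := mul_le_mul_of_nonneg_right hZ (show 0 ≤ 1 + g by linarith)
  have p2 := mul_le_mul_of_nonneg_left (show g ≤ 1 / 100 by linarith) hy0
  linarith

lemma Retarget_edge {Z Z' g d y q r r' : ℝ} (hd : |d| ≤ y) (hy : 1000 * y ≤ 1)
    (hg : |g| ≤ 101 / 100 * y) (hZ : -(y / 2) ≤ Z) (hZ' : Z' = Z * (1 + g) - 3 * d / 4)
    (hq : |q - 1| ≤ 51 / 100 * y) (hqZ : q * Z' ≤ y) (hrr : |r - r'| ≤ 51 / 100 * y)
    (hr : 0 ≤ r) (hr1 : r ≤ 1) (hr' : 0 ≤ r') (hr1' : r' ≤ 1) :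
    4 * (1 - r) * Z - 3 * d * (1 - r) ≤ 4 * (1 - r') * (q * Z') + 16 * y ^ 2 := by
  have z1 := Retarget_Zlo hd hy hg hZ
  rw [← hZ'] at z1
  obtain ⟨d1, d2⟩ := abs_le.1 hd
  obtain ⟨g1, g2⟩ := abs_le.1 hg
  obtain ⟨q1, q2⟩ := abs_le.1 hq
  have hy0 : 0 ≤ y := by linarith
  have z2 : Z' ≤ 101 / 100 * y := by
    by_contra h
    have h1 := not_le.1 h
    have h2 := mul_le_mul_of_nonneg_right (show 999 / 1000 ≤ q by linarith)
      (show 0 ≤ Z' by linarith)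
    linarith
  have z3 : Z ≤ 18 / 10 * y := by
    by_contra h
    have h1 := not_le.1 h
    have h2 := mul_le_mul_of_nonneg_left (show 998 / 1000 ≤ 1 + g by linarith)
      (show 0 ≤ Z by linarith)
    linarith
  have a1 : |Z| ≤ 18 / 10 * y := abs_le.2 ⟨by linarith, z3⟩
  have a2 : |Z'| ≤ 13 / 10 * y := abs_le.2 ⟨z1, by linarith⟩
  have a3 : |1 - r| ≤ 1 := abs_le.2 ⟨by linarith, by linarith⟩
  have a4 : |1 - r'| ≤ 1 := abs_le.2 ⟨by linarith, by linarith⟩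
  have b1 := (abs_le.1 (Retarget_abs_mul a3 (Retarget_abs_mul a1 hg))).1
  have b2 := (abs_le.1 (Retarget_abs_mul a2 (Retarget_abs_mul a4 hq))).1
  have b3 := (abs_le.1 (Retarget_abs_mul a2 hrr)).1
  have e : 4 * (1 - r) * Z - 3 * d * (1 - r) = 4 * (1 - r') * (q * Z') -
      4 * ((1 - r) * (Z * g)) - 4 * (Z' * ((1 - r') * (q - 1))) - 4 * (Z' * (r - r')) := by
    rw [hZ']
    ring
  linarith [sq_nonneg y]

lemma Retarget_mid {m m' φ d y w r r' : ℝ} (hd : |d| ≤ y) (hw : 4 * w ≤ y) (hm0 : 0 ≤ m)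
    (hm1 : m ≤ 1) (hφ0 : 0 ≤ φ) (hφ : φ ≤ m) (hm : m - 8 * y ≤ m')
    (hrr : |r - r'| ≤ 51 / 100 * y) (hr1 : r ≤ 1) (hr' : 0 ≤ r') (hr1' : r' ≤ 1) :
    4 * (1 - r) * (w * m) - 3 * d * ((1 - r) * φ) ≤ 4 * (1 - r') * (y * m') + 35 * y ^ 2 := by
  obtain ⟨d1, d2⟩ := abs_le.1 hd
  have hy0 : 0 ≤ y := by linarith
  have a0 : 0 ≤ 1 - r := by linarith
  have a1 : 0 ≤ 1 - r' := by linarith
  have p1 := mul_le_mul_of_nonneg_right hw (mul_nonneg a0 hm0)
  have p2 := mul_le_mul_of_nonneg_right d1 (mul_nonneg a0 hφ0)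
  have p3 := mul_le_mul_of_nonneg_left hφ (mul_nonneg a0 hy0)
  have p4 := mul_le_mul_of_nonneg_left hm (mul_nonneg a1 hy0)
  have p5 := mul_nonneg hr' (sq_nonneg y)
  have p6 := mul_le_mul_of_nonneg_right (abs_le.1 hrr).1 (mul_nonneg hy0 hm0)
  have p7 := mul_le_mul_of_nonneg_left hm1 (sq_nonneg y)
  linarith [sq_nonneg y]

lemma Retarget_core {t d y w e1 e1' r r' rB X X' : ℝ} (ht0 : 0 ≤ t) (ht : t ^ 2 = 1 - d)
    (hd : |d| ≤ y) (hy : 1000 * y ≤ 1) (hw0 : 0 ≤ w) (hw : 4 * w ≤ y) (he : 0 ≤ e1)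
    (hr : 0 < r) (hr1 : r ≤ 1) (hr' : 0 < r') (hr1' : r' ≤ 1) (hB : 0 ≤ rB) (hB' : rB ≤ 1)
    (hc : (0 ≤ d ∧ r' ≤ r ∧ r * t ≤ r') ∨ (d ≤ 0 ∧ r ≤ r' ∧ r' ≤ r * t))
    (hY : -(2 * w * r) ≤ 2 - X) (hX : -(1 / 100) ≤ X)
    (hX' : X' = (1 - (1 - t - d / 2)) * X - d * xi 1 r rB X) :
    -(2 * y * r' / t) ≤ 2 * t - X' ∧
      GG (1 / 2) w e1' 1 r X + d + X' ^ 2 - X ^ 2 ≤ GG (3 / 4) y e1 t r' X' + e1 + 400 * y ^ 2 := by
  have hy0 : 0 ≤ y := (abs_nonneg d).trans hd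
  have hτ := Retarget_t ht0 ht hd hy
  obtain ⟨τ1, τ2⟩ := abs_le.1 hτ
  have htp : 0 < t := by linarith
  obtain ⟨hrr, hq⟩ := Retarget_q htp hτ hr hr1 hr' hc
  obtain ⟨β, hβ⟩ : ∃ β, β = 1 - t - d / 2 := ⟨_, rfl⟩
  have hβe : β = (1 - t) * (1 - t) / 2 := by linear_combination hβ + (-1 / 2) * ht
  have β0 : 0 ≤ β := by rw [hβe]; exact div_nonneg (mul_self_nonneg _) zero_le_two
  have β1 : β ≤ y / 1000 := by
    have h1 := (le_abs_self _).trans (Retarget_abs_mul hτ hτ)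
    have h2 := mul_le_mul_of_nonneg_left hy hy0
    linarith
  have hwr : w * r ≤ w := mul_le_of_le_one_right hw0 hr1
  have hX2 : X ≤ 2 + y / 2 := by linarith
  obtain ⟨ξ, hξ⟩ : ∃ ξ, ξ = xi 1 r rB X := ⟨_, rfl⟩
  rw [← hβ, ← hξ] at hX'
  have hξ2 : |ξ| ≤ 2 := by
    rw [hξ]
    rcases le_total X 1 with h | h
    · exact (Retarget_lo hB hB' h).1
    · exact (Retarget_hi hr.le hr1 h).1
  have hη : |X - X'| ≤ 201 / 100 * y := by
    have a1 : |β| ≤ y / 1000 := abs_le.2 ⟨by linarith, β1⟩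
    have a2 : |X| ≤ 3 := abs_le.2 ⟨by linarith, by linarith⟩
    obtain ⟨b1, b2⟩ := abs_le.1 (Retarget_abs_mul a1 a2)
    obtain ⟨b3, b4⟩ := abs_le.1 (Retarget_abs_mul hd hξ2)
    exact abs_le.2 ⟨by linarith, by linarith⟩
  have hsq : d + X' ^ 2 - X ^ 2 ≤ -(d * (2 * X * ξ - 1)) + 5 * y ^ 2 := by
    have a1 := (le_abs_self _).trans (Retarget_abs_mul hη hη)
    have a2 := mul_nonneg β0 (sq_nonneg X)
    have e : d + X' ^ 2 - X ^ 2 =
        -(d * (2 * X * ξ - 1)) - 2 * (β * X ^ 2) + (X - X') * (X - X') := by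
      rw [hX']
      ring
    linarith [sq_nonneg y]
  obtain ⟨η1, η2⟩ := abs_le.1 hη
  have hwin : 0 ≤ 2 * y * r' / t := by positivity
  have hy2 := sq_nonneg y
  rcases le_or_gt X 1 with h1 | h1
  · have a1 := (Retarget_lo (r := r) hB hB' h1).2
    rw [← hξ] at a1
    have a2 := (abs_le.1 (Retarget_abs_mul hd a1)).1
    refine ⟨by linarith, ?_⟩
    have e3 : GG (1 / 2) w e1' 1 r X = 1 / 2 * (X - 1) ^ 2 := if_pos h1
    rw [e3]
    rcases le_or_gt X' t with h2 | h2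
    · have e2 : GG (3 / 4) y e1 t r' X' = 3 / 4 * (X' - t) ^ 2 := if_pos h2
      have a3 : |X' - t - (X - 1)| ≤ 3 * y := abs_le.2 ⟨by linarith, by linarith⟩
      have a4 : |X - 1| ≤ 1 - X := abs_le.2 ⟨by linarith, by linarith⟩
      have a5 := (abs_le.1 (Retarget_abs_mul a3 a4)).1
      rw [e2]
      linarith [sq_nonneg (X' - t - (X - 1)), sq_nonneg (1 - X - 21 * y)]
    · have a3 := GG_nonneg (c := 3 / 4) (e1 := e1) (X := X') (by norm_num) htp hr' hr1' hy0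
        (by linarith)
      have a4 : |X - 1| ≤ 3 * y := abs_le.2 ⟨by linarith, by linarith⟩
      have a5 := (le_abs_self _).trans (Retarget_abs_mul a4 a4)
      have a6 := mul_le_mul_of_nonneg_left (show 1 - X ≤ 3 * y by linarith) hy0
      linarith
  · have a1 := (Retarget_hi (rB := rB) hr.le hr1 h1.le).2
    rw [← hξ] at a1
    rw [a1] at hsq
    have hXp : 0 < X := by linarith
    obtain ⟨Z, hZ⟩ : ∃ Z, Z = (2 - X) / r := ⟨_, rfl⟩
    have hZr : Z * r = 2 - X := by rw [hZ, div_mul_cancel₀ _ hr.ne']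
    have hZ0 : -(y / 2) ≤ Z := by
      refine le_of_mul_le_mul_right ?_ hr
      have h2 := mul_le_mul_of_nonneg_right hw hr.le
      linarith
    obtain ⟨g, hg⟩ : ∃ g, g = d * ((4 - 3 * r) / (4 * X)) - β := ⟨_, rfl⟩
    have hg1 : |g| ≤ 101 / 100 * y := by
      have b1 : |(4 - 3 * r) / (4 * X)| ≤ 1 := by
        rw [abs_of_nonneg (div_nonneg (by linarith) (by linarith)), div_le_one (by linarith)]
        linarith
      obtain ⟨b2, b3⟩ := abs_le.1 (Retarget_abs_mul hd b1)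
      exact abs_le.2 ⟨by linarith, by linarith⟩
    have hedge : 7 / 4 ≤ X → 2 * t - X' = r * (Z * (1 + g) - 3 * d / 4) := fun h2 => by
      rw [Retarget_ph_one (by linarith)] at a1
      have b1 : ξ = (4 - 3 * r) / (2 * X) := by
        rw [eq_div_iff (by linarith)]
        linarith
      have b2 : t = 1 - d / 2 - β := by linarith
      rw [hX', hZ, hg, b1, b2]
      field_simp
      ring
    have hnew : GG (1 / 2) w e1' 1 r X ≤ 4 * (1 - r) * min Z (w * min 1 (2 * (X - 1))) := by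
      have b1 : GG (1 / 2) w e1' 1 r X = th e1' (hh w 1 r X) := if_neg (not_le.2 h1)
      rw [b1]
      refine (th_le _ _).trans_eq ?_
      rw [hh, hZ, one_mul, mul_one, div_one]
    have a0 : 0 ≤ 4 * (1 - r) := by linarith
    constructor
    · rcases le_total X (7 / 4) with h2 | h2
      · linarith
      · have b1 := mul_le_mul_of_nonneg_left (Retarget_Zlo hd hy hg1 hZ0) hr.le
        have b2 : t * r ≤ 3 / 2 * r' := (div_le_iff₀ hr').1 (by linarith [(abs_le.1 hq).2])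
        have b3 : 13 / 10 * y * r ≤ 2 * y * r' / t := by
          rw [le_div_iff₀ htp]
          have b4 := mul_le_mul_of_nonneg_left b2 hy0
          have b5 := mul_nonneg hy0 hr'.le
          linarith
        rw [hedge h2]
        linarith
    · have m0 : 0 ≤ min 1 (2 * (X - 1)) := le_min zero_le_one (by linarith)
      have n1 := mul_le_mul_of_nonneg_left (min_le_left Z (w * min 1 (2 * (X - 1)))) a0
      have n2 := mul_le_mul_of_nonneg_left (min_le_right Z (w * min 1 (2 * (X - 1)))) a0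
      rcases le_or_gt X' t with h2 | h2
      · have b1 := GG_nonneg (c := 3 / 4) (e1 := e1) (X := X') (by norm_num) htp hr' hr1' hy0
          (by linarith)
        rw [Retarget_ph_zero (by linarith)] at hsq
        have b2 : min 1 (2 * (X - 1)) ≤ 6 * y := (min_le_right _ _).trans (by linarith)
        have b3 := mul_le_mul hw b2 m0 hy0
        have b4 := mul_nonneg hr.le (mul_nonneg hw0 m0)
        linarith
      · have b1 : hh y t r' X' - e1 ≤ GG (3 / 4) y e1 t r' X' :=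
          (le_th he _).trans_eq (if_neg (not_le.2 h2)).symm
        unfold hh at b1
        rcases le_total (t * (2 * t - X') / r') (y * min 1 (2 * (X' - t) / t)) with h3 | h3
        · rw [min_eq_left h3] at b1
          have b2 : t * (2 * t - X') / r' ≤ y :=
            h3.trans (mul_le_of_le_one_right hy0 (min_le_left _ _))
          have b3 : 7 / 4 ≤ X := by
            by_contra b4
            have b5 := (div_le_iff₀ hr').1 b2
            have b6 := mul_le_of_le_one_right hy0 hr1'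
            have b7 := mul_le_mul (show 1 / 2 ≤ t by linarith)
              (show 1 / 5 ≤ 2 * t - X' by linarith [not_le.1 b4]) (by norm_num) ht0
            linarith
          have e : t * (2 * t - X') / r' = t * r / r' * (Z * (1 + g) - 3 * d / 4) := by
            rw [hedge b3]
            ring
          rw [e] at b1 b2
          have b4 := Retarget_edge hd hy hg1 hZ0 rfl hq b2 hrr hr.le hr1 hr'.le hr1'
          rw [Retarget_ph_one (by linarith)] at hsq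
          linarith
        · rw [min_eq_right h3] at b1
          have b2 : 2 * (X - 1) - 8 * y ≤ 2 * (X' - t) / t := by
            rw [le_div_iff₀ htp]
            have b3 : |2 * (X - 1) - 8 * y| ≤ 3 := abs_le.2 ⟨by linarith, by linarith⟩
            have b4 := (abs_le.1 (Retarget_abs_mul b3 hτ)).1
            linarith
          have b3 : min 1 (2 * (X - 1)) - 8 * y ≤ min 1 (2 * (X' - t) / t) :=
            le_min (by linarith [min_le_left 1 (2 * (X - 1))])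
              (by linarith [min_le_right 1 (2 * (X - 1))])
          have b4 := Retarget_mid hd hw m0 (min_le_left _ _) (Retarget_ph_nonneg (X - 1))
            (le_min (Retarget_ph_le_one _) (Retarget_ph_le (by linarith))) b3 hrr hr1 hr'.le hr1'
          linarith

/-- one side: `X` is the label of the receiver (state `r`), `X'` that of the donor (state `r'`) -/
lemma retarget_half (hu : 0 < u) (hu' : u' = √(u ^ 2 - δ)) (hW : 1 ≤ W) (hδ : |δ| ≤ W)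
    (hs : 1000 * W ≤ u ^ 2) (hW0 : 0 ≤ W1) (hW1 : 4 * W1 ≤ W) (he : 0 ≤ e1)
    (hr : 0 < r) (hr1 : r ≤ 1) (hr' : 0 < r') (hr1' : r' ≤ 1) (hB : 0 ≤ rB) (hB' : rB ≤ 1)
    (hc : (0 ≤ δ ∧ r' ≤ r ∧ r * u' ≤ r' * u) ∨ (δ ≤ 0 ∧ r ≤ r' ∧ r' * u ≤ r * u'))
    (hY : -(2 * W1 * r / u) ≤ 2 * u - X) (hX : -(u / 100) ≤ X) (hX' : X' = psi u r rB δ X) :
    -(2 * W * r' / u') ≤ 2 * u' - X' ∧
      (GG (3 / 4) W e1 u' r' X' ≤ v + X' ^ 2 →
        GG (1 / 2) W1 e1' u r X - (e1 + 400 * W ^ 2 / u ^ 2) ≤ v - δ + X ^ 2) := by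
  have hu2 : 0 < u ^ 2 := by positivity
  obtain ⟨d, rfl⟩ : ∃ d, δ = u ^ 2 * d := ⟨δ / u ^ 2, by field_simp⟩
  obtain ⟨y, rfl⟩ : ∃ y, W = u ^ 2 * y := ⟨W / u ^ 2, by field_simp⟩
  obtain ⟨w, rfl⟩ : ∃ w, W1 = u ^ 2 * w := ⟨W1 / u ^ 2, by field_simp⟩
  obtain ⟨e1, rfl⟩ : ∃ e, e1 = u ^ 2 * e := ⟨e1 / u ^ 2, by field_simp⟩
  obtain ⟨e1', rfl⟩ : ∃ e, e1' = u ^ 2 * e := ⟨e1' / u ^ 2, by field_simp⟩
  obtain ⟨X, rfl⟩ : ∃ z, X = u * z := ⟨X / u, by field_simp⟩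
  rw [Retarget_sqrt_scale hu] at hu'
  rw [Retarget_psi_scale hu] at hX'
  rw [abs_mul, abs_of_pos hu2] at hδ
  have hd : |d| ≤ y := le_of_mul_le_mul_left hδ hu2
  have hy : 1000 * y ≤ 1 := le_of_mul_le_mul_left (by linarith) hu2
  have ht := Real.sq_sqrt (show 0 ≤ 1 - d by linarith [le_abs_self d])
  have ht0 := Real.sqrt_nonneg (1 - d)
  generalize √(1 - d) = t at hu' hX' ht ht0
  have hc' : (0 ≤ d ∧ r' ≤ r ∧ r * t ≤ r') ∨ (d ≤ 0 ∧ r ≤ r' ∧ r' ≤ r * t) := by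
    rw [hu'] at hc
    rcases hc with ⟨c1, c2, c3⟩ | ⟨c1, c2, c3⟩
    · exact Or.inl ⟨le_of_mul_le_mul_left (by linarith) hu2, c2,
        le_of_mul_le_mul_left (by linarith) hu⟩
    · exact Or.inr ⟨le_of_mul_le_mul_left (by linarith) hu2, c2,
        le_of_mul_le_mul_left (by linarith) hu⟩
  have e0 : 2 * (u ^ 2 * w) * r / u = u * (2 * w * r) := by field_simp
  rw [e0] at hY
  obtain ⟨k1, k2⟩ := Retarget_core (e1' := e1') (X := X) ht0 ht hd hy
    (le_of_mul_le_mul_left (by linarith) hu2 : 0 ≤ w) (le_of_mul_le_mul_left (by linarith) hu2)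
    (le_of_mul_le_mul_left (by linarith) hu2 : 0 ≤ e1) hr hr1 hr' hr1' hB hB' hc'
    (le_of_mul_le_mul_left (by linarith) hu) (le_of_mul_le_mul_left (by linarith) hu) rfl
  generalize (1 - (1 - t - d / 2)) * X - d * xi 1 r rB X = Z at hX' k1 k2
  have _ := hW
  have e2 : 2 * (u ^ 2 * y) * r' / (u * t) = u * (2 * y * r' / t) := by
    rw [← div_div]
    field_simp
  have e3 : 400 * (u ^ 2 * y) ^ 2 / u ^ 2 = u ^ 2 * (400 * y ^ 2) := by field_simp
  have e4 := Retarget_GG_scale hu (1 / 2) w e1' 1 r X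
  rw [mul_one] at e4
  rw [hu', hX', e2, e3, e4, Retarget_GG_scale hu]
  have k3 := mul_le_mul_of_nonneg_left k1 hu.le
  have k4 := mul_le_mul_of_nonneg_left k2 hu2.le
  exact ⟨by linarith, fun h => by linarith⟩

end

/-- receiver `τ`, donor `τ'` -/
lemma retarget {W W1 e1 e1' x : ℝ} {sch : ℕ → ℝ} {τ τ' t : ℕ} {σ : Path} (h1 : ∀ t, 1 ≤ sch t)
    (hW : 1 ≤ W) (hδ : |(τ : ℝ) - τ'| ≤ W) (hs : 1000 * W ≤ ss τ t) (hW0 : 0 ≤ W1)
    (hW1 : 4 * W1 ≤ W) (he : 0 ≤ e1) (hx : x ∈ Win W1 sch τ t σ) :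
    psi (uu τ t) (rr sch τ σ true t) (rr sch τ σ false t) ((τ : ℝ) - τ') x ∈ Win W sch τ' t σ ∧
      ∀ q, Inv (3 / 4) W e1 0 sch τ' t σ
          (psi (uu τ t) (rr sch τ σ true t) (rr sch τ σ false t) ((τ : ℝ) - τ') x) q →
        Inv (1 / 2) W1 e1' (e1 + 400 * W ^ 2 / ss τ t) sch τ t σ x q := by
  have e : ss τ' t = ss τ t - ((τ : ℝ) - τ') := by
    unfold ss
    ring
  have ht : t < τ := lt_of_ss_pos (by linarith)
  have ht' : t < τ' := lt_of_ss_pos (by linarith [le_abs_self ((τ : ℝ) - τ')])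
  have hu := uu_pos ht
  have hu2 := uu_sq ht.le
  have hu' : uu τ' t = √(uu τ t ^ 2 - ((τ : ℝ) - τ')) := by rw [hu2, ← e, uu]
  have hr := fun b => rr_range (σ := σ) (b := b) h1 ht
  have hr' := fun b => rr_range (σ := σ) (b := b) h1 ht'
  have hc : ∀ b, (0 ≤ (τ : ℝ) - τ' ∧ rr sch τ' σ b t ≤ rr sch τ σ b t ∧
      rr sch τ σ b t * uu τ' t ≤ rr sch τ' σ b t * uu τ t) ∨
      ((τ : ℝ) - τ' ≤ 0 ∧ rr sch τ σ b t ≤ rr sch τ' σ b t ∧
        rr sch τ' σ b t * uu τ t ≤ rr sch τ σ b t * uu τ' t) := fun b => by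
    rcases le_total τ' τ with h | h
    · exact Or.inl ⟨sub_nonneg.2 (Nat.cast_le.2 h), rr_cmp h1 h ht'⟩
    · exact Or.inr ⟨sub_nonpos.2 (Nat.cast_le.2 h), rr_cmp h1 h ht⟩
  have hsm : ∀ b, 2 * W1 * rr sch τ σ b t / uu τ t ≤ uu τ t / 100 := fun b => by
    rw [div_le_iff₀ hu]
    have h2 := mul_le_of_le_one_right hW0 (hr b).2
    nlinarith
  have w1 : -(2 * W1 * rr sch τ σ true t / uu τ t) ≤ 2 * uu τ t - x := hx true
  have w2 : -(2 * W1 * rr sch τ σ false t / uu τ t) ≤ 2 * uu τ t - (2 * uu τ t - x) := hx false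
  rw [← hu2] at hs ⊢
  have kA := fun v => retarget_half (e1' := e1') (v := v) hu hu' hW hδ hs hW0 hW1 he (hr true).1
    (hr true).2 (hr' true).1 (hr' true).2 (hr false).1.le (hr false).2 (hc true) w1
    (by linarith [hsm false]) rfl
  have kB := fun v => retarget_half (e1' := e1') (v := v) hu hu' hW hδ hs hW0 hW1 he (hr false).1
    (hr false).2 (hr' false).1 (hr' false).2 (hr true).1.le (hr true).2 (hc false) w2
    (by linarith [hsm true]) rfl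
  rw [psi_flip hu, ← hu'] at kB
  refine ⟨fun b => ?_, fun q hq b => ?_⟩
  · cases b
    · exact (kB 0).1
    · exact (kA 0).1
  · have e2 : -ss τ t - sg b * q = -ss τ' t - sg b * q - ((τ : ℝ) - τ') := by
      rw [e]
      ring
    have h2 := hq b
    unfold GI at h2 ⊢
    rw [sub_zero] at h2
    rw [e2]
    cases b
    · exact (kB _).2 h2
    · exact (kA _).2 h2

end

end Pool.Agent.P.MP_767cd9_co.Q1
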