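import Pool.Agent.P.MP_767cd9_co.Q1.Stop

/-! Properties of the stopping times `tQ` and `tF`. -/

namespace Pool.Agent.P.MP_767cd9_co.Q1

open Real

noncomputable section

variable {p : Par} {sch : ℕ → ℝ} {t1 t2 τ a a0 T : ℕ} {b : Bool} {σ : Path} {θ θ' : ℝ}

lemma tQ_mono (hθ : θ ≤ θ') (ha : a ≤ t2) : tQ p τ σ b a t2 θ ≤ tQ p τ σ b a t2 θ' := by
  unfold tQ
  rcases (first_le (q := fun t => θ' ≤ dsp τ σ b a t ∨ p.H ≤ cnt σ (!b) a t) (a := a)
    (c := t2)).eq_or_lt with h | h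
  · rw [h]
    exact first_le
  · exact first_le_of (first_ge ha) ((first_spec h).imp_left hθ.trans)

lemma Times_cnt_succ {s : ℕ} (h : a ≤ s) : cnt σ b a (s + 1) ≤ cnt σ b a s + 1 := by
  rw [cnt_succ h]
  split_ifs <;> omega

lemma Times_dsp_succ {s : ℕ} (hr : Rng p t2 τ) (h : a ≤ s) (hs : s + 1 ≤ t2) :
    dsp τ σ b a (s + 1) ≤ dsp τ σ b a s + 64 / p.U := by
  have h1 := Cx.dsp_le (σ := σ) (b := b) (a := s) hr hs
  have h2 := Times_cnt_succ (σ := σ) (b := b) (le_refl s)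
  rw [cnt_self, zero_add] at h2
  have h3 : (cnt σ b s (s + 1) : ℝ) ≤ 1 := by exact_mod_cast h2
  have h4 : 64 * (cnt σ b s (s + 1) : ℝ) / p.U ≤ 64 / p.U :=
    div_le_div_of_nonneg_right (by linarith) p.hU.le
  rw [dsp_add h (Nat.le_succ s)]
  linarith

lemma Times_H_small (p : Par) : 64 * (p.H : ℝ) / p.U ≤ p.U / 630 := by
  have h1 : (4 : ℝ) * p.H ≤ p.E := by exact_mod_cast p.H_le
  have h2 := p.E_eq
  have h3 : p.ε * p.l ≤ 1 * p.l :=
    mul_le_mul_of_nonneg_right (p.eps_le.trans (by norm_num)) p.l_pos.le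
  have h4 := p.U_sq
  have h5 := p.l_pos
  rw [div_le_div_iff₀ p.hU (by norm_num)]
  nlinarith

lemma tQ_spec (h : Cx p sch t1 t2) (hr : Rng p t2 τ) (h1 : t1 ≤ a) (h2 : a ≤ t2) (hθ : 0 ≤ θ)
    (hT : T = tQ p τ σ b a t2 θ) :
    a ≤ T ∧ T ≤ t2 ∧ cnt σ (!b) a T ≤ p.H ∧ dsp τ σ b a T ≤ θ + 64 / p.U ∧
      (p.U / 60 ≤ uu τ a - θ / 2 → θ ≤ dsp τ σ b a T ∨ p.H ≤ cnt σ (!b) a T) := by
  have hU := p.hU
  have ha : a ≤ T := hT ▸ first_ge h2
  have hc : T ≤ t2 := hT ▸ first_le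
  have hmin : ∀ s, a ≤ s → s < T → dsp τ σ b a s < θ ∧ cnt σ (!b) a s < p.H := fun s hs hs' => by
    have h3 := first_min hs (hT ▸ hs' : s < tQ p τ σ b a t2 θ)
    exact ⟨not_le.1 fun h4 => h3 (.inl h4), not_le.1 fun h4 => h3 (.inr h4)⟩
  have key : cnt σ (!b) a T ≤ p.H ∧ dsp τ σ b a T ≤ θ + 64 / p.U := by
    rcases ha.eq_or_lt with h3 | h3
    · rw [← h3, cnt_self, dsp_self]
      exact ⟨Nat.zero_le _, by positivity⟩
    · obtain ⟨s, rfl⟩ : ∃ s, T = s + 1 := ⟨T - 1, by omega⟩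
      obtain ⟨h4, h5⟩ := hmin s (by omega) (by omega)
      have h6 := Times_cnt_succ (σ := σ) (b := !b) (a := a) (s := s) (by omega)
      have h7 := Times_dsp_succ (σ := σ) (b := b) (a := a) (s := s) hr (by omega) hc
      exact ⟨by omega, by linarith⟩
  refine ⟨ha, hc, key.1, key.2, fun hu => ?_⟩
  rcases hc.eq_or_lt with h3 | h3
  · left
    by_contra h4
    have h5 := dsp_sum (τ := τ) (σ := σ) (b := b) ha
    have h6 := Cx.dsp_le (σ := σ) (b := !b) (a := a) hr hc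
    have h7 : (cnt σ (!b) a T : ℝ) ≤ p.H := by exact_mod_cast key.1
    have h8 : 64 * (cnt σ (!b) a T : ℝ) / p.U ≤ 64 * p.H / p.U :=
      div_le_div_of_nonneg_right (by linarith) hU.le
    have h9 := Times_H_small p
    have h10 := Cx.uu_t2 hr
    rw [← h3] at h10
    rw [not_le] at h4
    linarith
  · subst hT
    exact first_spec h3

/-- without a flip the counter steps are rare -/
lemma noflip_cnt {t : ℕ} (hn : ∀ j, a ≤ j → j ≤ t → ¬ Flip p σ b a j) :
    ∀ a', a ≤ a' → a' ≤ t → p.M * (cnt σ (!b) a' t : ℝ) ≤ cnt σ b a' t + p.E := by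
  intro a' h1 h2
  induction hk : t - a' using Nat.strong_induction_on generalizing a' with
  | _ k ih =>
    have hM := p.M_pos
    have small : ∀ s, a' ≤ s → s ≤ t → cnt σ b a' s ≤ p.E →
        p.M * (cnt σ (!b) a' s : ℝ) ≤ p.E := fun s hs hs' hE => by
      have h3 : cnt σ (!b) a' s ≤ p.H := by
        by_contra h4
        exact hn s (h1.trans hs) hs' ⟨a', h1, hs, by omega, hE⟩
      have h4 : (cnt σ (!b) a' s : ℝ) ≤ p.H := by exact_mod_cast h3
      rw [← p.hH, mul_comm]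
      exact mul_le_mul_of_nonneg_right h4 hM.le
    by_cases hE : cnt σ b a' t ≤ p.E
    · have h3 := small t h2 le_rfl hE
      have h4 : (0 : ℝ) ≤ cnt σ b a' t := Nat.cast_nonneg _
      linarith
    · obtain ⟨s, hs, hs', he⟩ := cnt_exists_left (σ := σ) (b := b) (m := p.E) h2 (by omega)
      have h3 : a' < s := by
        refine lt_of_le_of_ne hs fun h4 => ?_
        rw [← h4, cnt_self] at he
        have := p.H_pos
        have := p.H_le
        omega
      have h4 := ih (t - s) (by omega) s (h1.trans hs) hs' rfl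
      have h5 := small s hs hs' he.le
      rw [cnt_add hs hs', cnt_add hs hs', he]
      push_cast
      linarith

lemma Times_noflip (hn : ∀ j, a ≤ j → j < T → ¬ Flip p σ b a j) {m : ℕ} (h1 : a ≤ m)
    (h2 : m ≤ T) : p.M * (cnt σ (!b) m T : ℝ) ≤ cnt σ b m T + p.E + p.M := by
  have hM := p.M_pos
  rcases h2.eq_or_lt with h3 | h3
  · rw [← h3, cnt_self, cnt_self]
    simp only [Nat.cast_zero, mul_zero]
    positivity
  · obtain ⟨s, rfl⟩ : ∃ s, T = s + 1 := ⟨T - 1, by omega⟩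
    have h4 := noflip_cnt (t := s) (fun j hj hj' => hn j hj (by omega)) m h1 (by omega)
    have h5 : (cnt σ (!b) m (s + 1) : ℝ) ≤ cnt σ (!b) m s + 1 := by
      exact_mod_cast Times_cnt_succ (by omega)
    have h6 : (cnt σ b m s : ℝ) ≤ cnt σ b m (s + 1) := by
      exact_mod_cast cnt_mono (Nat.le_succ s)
    nlinarith

lemma tF_spec (h : Cx p sch t1 t2) (hr : Rng p t2 τ) (h0 : t1 ≤ a0) (h1 : a0 ≤ a) (h2 : a ≤ t2)
    (hT : T = tF p τ σ b a0 a t2 θ) :
    a ≤ T ∧ T ≤ t2 ∧ dsp τ σ b a0 T ≤ max (θ + 64 / p.U) (dsp τ σ b a0 a) ∧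
      dsp τ σ (!b) a T ≤ 64 / p.M * dsp τ σ b a T + 128 * p.H / p.U ∧
      (p.U / 60 ≤ uu τ T → θ ≤ dsp τ σ b a0 T ∨ Flip p σ b a T) := by
  have hU := p.hU
  have hM := p.M_pos
  have ha : a ≤ T := hT ▸ first_ge h2
  have hc : T ≤ t2 := hT ▸ first_le
  have hmin : ∀ s, a ≤ s → s < T → dsp τ σ b a0 s < θ ∧ ¬ Flip p σ b a s := fun s hs hs' => by
    have h3 := first_min hs (hT ▸ hs' : s < tF p τ σ b a0 a t2 θ)
    exact ⟨not_le.1 fun h4 => h3 (.inl h4), fun h4 => h3 (.inr h4)⟩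
  refine ⟨ha, hc, ?_, ?_, fun hu => ?_⟩
  · rcases ha.eq_or_lt with h3 | h3
    · rw [← h3]
      exact le_max_right _ _
    · obtain ⟨s, rfl⟩ : ∃ s, T = s + 1 := ⟨T - 1, by omega⟩
      have h4 := (hmin s (by omega) (by omega)).1
      have h5 := Times_dsp_succ (σ := σ) (b := b) (a := a0) (s := s) hr (by omega) hc
      exact le_max_of_le_left (by linarith)
  · have h3 := Times_noflip (fun j hj hj' => (hmin j hj hj').2) le_rfl ha
    have h4 := Cx.dsp_le (σ := σ) (b := !b) (a := a) hr hc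
    have h5 := h.le_dsp (σ := σ) (b := b) hr (h0.trans h1) hc
    have h6 : (1 : ℝ) ≤ p.H := by exact_mod_cast p.H_pos
    have h7 : (cnt σ (!b) a T : ℝ) ≤ cnt σ b a T / p.M + 2 * p.H := by
      rw [div_add' _ _ _ hM.ne', le_div_iff₀ hM]
      have h8 := p.hH
      nlinarith
    have h8 : 64 * (cnt σ (!b) a T : ℝ) / p.U ≤ 64 * (cnt σ b a T / p.M + 2 * p.H) / p.U :=
      div_le_div_of_nonneg_right (by linarith) hU.le
    have h9 : 64 * (cnt σ b a T / p.M + 2 * p.H) / p.U =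
        64 / p.M * (cnt σ b a T / p.U) + 128 * p.H / p.U := by ring
    have h10 : 64 / p.M * (cnt σ b a T / p.U) ≤ 64 / p.M * dsp τ σ b a T :=
      mul_le_mul_of_nonneg_left h5 (by positivity)
    linarith
  · rcases hc.eq_or_lt with h3 | h3
    · have h4 := Cx.uu_t2 hr
      rw [← h3] at h4
      linarith
    · subst hT
      exact first_spec h3

/-- a flip gives a flip certificate -/
lemma tF_fc {t0 a' : ℕ} (h0 : t1 ≤ t0) (h1 : t0 ≤ a) (h2 : a ≤ t2) (ha' : a' ≤ a)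
    (hT : T = tF p τ σ b a0 a t2 θ) (hF : Flip p σ b a T) (hE : p.E ≤ cnt σ b t0 a)
    (hE' : cnt σ (!b) t0 a ≤ p.E) : FC p σ (!b) t1 a' T := by
  have hM := p.M_pos
  have ha : a ≤ T := hT ▸ first_ge h2
  have hmin : ∀ s, a ≤ s → s < T → ¬ Flip p σ b a s := fun s hs hs' h4 =>
    first_min hs (hT ▸ hs' : s < tF p τ σ b a0 a t2 θ) (.inr h4)
  obtain ⟨t', h3, h4, h5, h6⟩ := hF
  obtain ⟨s, hs, hs', he⟩ := cnt_exists_right (σ := σ) (b := b) (m := p.E) (h1.trans h3)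
    (hE.trans (cnt_mono h3))
  have key : ∀ m, s ≤ m → a ≤ m → m ≤ T → cnt σ (!b) m T ≤ p.E := fun m hm hm' hm'' => by
    have h7 := Times_noflip hmin hm' hm''
    have h8 : cnt σ b m T ≤ 2 * p.E := by
      have h9 := cnt_anti (σ := σ) (b := b) (c := T) hm
      rw [cnt_add hs' h4] at h9
      omega
    have h9 : (cnt σ b m T : ℝ) ≤ 2 * p.E := by exact_mod_cast h8
    have h10 := p.hH
    have h11 : (cnt σ (!b) m T : ℝ) ≤ 3 * p.H + 1 :=
      le_of_mul_le_mul_left (by nlinarith) hM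
    have h12 : cnt σ (!b) m T ≤ 3 * p.H + 1 := by exact_mod_cast h11
    have := p.H_pos
    have := p.H_le
    omega
  refine ⟨s, t', h0.trans hs, hs', ha'.trans h3, h4, ?_, h5, ?_, ?_⟩
  · rw [Bool.not_not, he]
  · rwa [Bool.not_not]
  · rcases le_total s a with h7 | h7
    · have h8 := key a h7 le_rfl ha
      have h9 := cnt_anti (σ := σ) (b := !b) (c := a) hs
      rw [cnt_add h7 ha]
      omega
    · have h8 := key s le_rfl h7 (hs'.trans h4)
      omega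

end

end Pool.Agent.P.MP_767cd9_co.Q1
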