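import Pool.Agent.P.MP_767cd9_co.Q1.LevB
import Pool.Agent.P.MP_767cd9_co.Q1.Glue

/-! First and last level, choice of the parameters. -/

namespace Pool.Agent.P.MP_767cd9_co.Q1

open Real MeasureTheory Set

noncomputable section

variable {n : ℕ}

/-- the initial position satisfies the invariant at time `0` -/
lemma TopL_inv0 {W e1 e x : ℝ} {sch : ℕ → ℝ} {τ : ℕ} {σ : Path} (he : 0 ≤ e) :
    Inv (1 / 2) W e1 e sch τ 0 σ x (pp τ (x - √τ)) := by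
  have hu : uu τ 0 = √τ := by simp [uu, ss]
  have hs : ss τ 0 = √τ ^ 2 := by rw [Real.sq_sqrt (Nat.cast_nonneg τ)]; simp [ss]
  have h0 : ∀ u X : ℝ, th e1 (hh W u 1 X) ≤ 0 := fun u X => by
    have : hh W u 1 X = 0 := by simp [hh]
    rw [this]; exact min_le_left _ _
  intro b
  unfold GI GG pp
  rw [hu, hs]
  have hr : rr sch τ σ b 0 = 1 := rfl
  rw [hr]
  generalize √(τ : ℝ) = u
  cases b
  · simp only [lab, sg, Bool.false_eq_true, if_false]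
    split_ifs with h
    · rw [abs_of_nonneg (by linarith)]; nlinarith [sq_nonneg (x - u)]
    · rw [abs_of_nonpos (by linarith)]; nlinarith [h0 u (2 * u - x)]
  · simp only [lab, sg, if_true]
    split_ifs with h
    · rw [abs_of_nonpos (by linarith)]; nlinarith [sq_nonneg (x - u)]
    · rw [abs_of_nonneg (by linarith)]; nlinarith [h0 u x]

/-- the index set of the first level -/
def TopL_F (l w : ℕ) : Finset (ℕ × ℕ) :=
  (Finset.Ico 2 6).biUnion fun j =>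
    (Finset.Ico (j * l - 2 * w) ((j + 1) * l + 2 * w)).image fun τ => (j, τ)

lemma TopL_mem {l w : ℕ} {k : ℕ × ℕ} :
    k ∈ TopL_F l w ↔ 2 ≤ k.1 ∧ k.1 < 6 ∧ Ext l (2 * w) k.1 k.2 := by
  obtain ⟨j, τ⟩ := k
  simp only [TopL_F, Finset.mem_biUnion, Finset.mem_Ico, Finset.mem_image, Prod.mk.injEq, Ext]
  constructor
  · rintro ⟨j', ⟨h1, h2⟩, τ', ⟨h3, h4⟩, rfl, rfl⟩
    exact ⟨h1, h2, by omega, h4⟩
  · rintro ⟨h1, h2, h3, h4⟩
    exact ⟨j, ⟨h1, h2⟩, τ, ⟨by omega, h4⟩, rfl, rfl⟩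

lemma TopL_card {l w : ℕ} (hl : 1000 * w ≤ l) : (TopL_F l w).card ≤ 8 * l := by
  refine le_trans (Finset.card_biUnion_le_card_mul _ _ (2 * l) fun j _ => ?_) ?_
  · refine le_trans Finset.card_image_le ?_
    rw [Nat.card_Ico, add_mul, one_mul]
    omega
  · rw [Nat.card_Ico]; omega

/-- time left at the start of the round -/
lemma TopL_ss {l m j τ : ℕ} (hj : 2 ≤ j) (h : Ext l m j τ) :
    2 * (l : ℝ) - m ≤ ss τ ((j - 2) * l) ∧ ss τ ((j - 2) * l) ≤ 3 * (l : ℝ) + m := by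
  obtain ⟨i, rfl⟩ : ∃ i, j = i + 2 := ⟨j - 2, by omega⟩
  obtain ⟨h1, h2⟩ := h
  have h1' : (((i + 2) * l : ℕ) : ℝ) ≤ ((τ + m : ℕ) : ℝ) := by exact_mod_cast h1
  have h2' : (τ : ℝ) ≤ (((i + 2 + 1) * l + m : ℕ) : ℝ) := by exact_mod_cast h2.le
  rw [Nat.add_sub_cancel]
  unfold ss
  push_cast at *
  constructor <;> linarith

/-- the initial formation `pp s (x - √s)`, idle until the first round -/
lemma lv_top {l w B : ℕ} (hw : 0 < w) (hB : 1 ≤ B) (hl : 1000 * w ≤ l) :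
    Lv n l w B 2 6 1 (8 * l * (2 / √l) ^ (n + 1)) := by
  have hw' : (1 : ℝ) ≤ w := by exact_mod_cast hw
  have hB' : (1 : ℝ) ≤ B := by exact_mod_cast hB
  have hl' : 1000 * (w : ℝ) ≤ l := by exact_mod_cast hl
  have hl0 : (0 : ℝ) < l := by linarith
  have he0 : (0 : ℝ) ≤ 500 * (B : ℝ) ^ 2 * (w : ℝ) ^ 2 / l := by positivity
  refine ⟨fun _ _ => 4 * (w : ℝ), fun _ _ => by linarith, fun _ _ _ => rfl, ?_⟩
  have hF : (TopL_F l w).Nonempty :=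
    ⟨(2, 2 * l), TopL_mem.2 ⟨le_rfl, by norm_num, by unfold Ext; constructor <;> omega⟩⟩
  have h0 := Sys.init (n := n) (TopL_F l w) hF (fun k x => pp k.2 (x - √k.2))
    (fun k => by unfold pp; fun_prop) (ω := 2 / √l) (by positivity) (fun k hk x y hxy => by
      obtain ⟨h1, _, h3, _⟩ := TopL_mem.1 hk
      have h4 : l ≤ k.2 := by nlinarith
      have h5 : 4 * ((l : ℝ) / 4) ≤ k.2 := by
        have : (l : ℝ) ≤ k.2 := by exact_mod_cast h4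
        linarith
      have h6 := cell_diam (by positivity) h5 hxy
      have h7 : √((l : ℝ) / 4) = √l / 2 := by
        rw [Real.sqrt_div hl0.le, show (4 : ℝ) = 2 ^ 2 by norm_num, Real.sqrt_sq (by norm_num)]
      rw [h7, show x - √k.2 - (y - √k.2) = x - y by ring, one_div_div] at h6
      exact h6)
  have h1 := h0.mono
    (Good' := fun k σ => Inv (1 / 2) w (100 * B * (w : ℝ) ^ 2 / l)
      (500 * (B : ℝ) ^ 2 * (w : ℝ) ^ 2 / l) (fun _ => 4 * (w : ℝ)) k.2 0 σ)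
    (Wn' := fun k σ => {x | k ∈ TopL_F l w ∧ x ∈ Win w (fun _ => 4 * (w : ℝ)) k.2 0 σ})
    (lev' := fun _ _ => 1) (D' := 8 * l * (2 / √l) ^ (n + 1))
    (fun k σ x q _ hq => by rw [hq]; exact TopL_inv0 he0) (fun k σ x hx => hx.1)
    (fun _ _ => le_rfl) (by
      have : ((TopL_F l w).card : ℝ) ≤ 8 * l := by exact_mod_cast TopL_card hl
      gcongr)
  have h2 := h1.evolve (T' := fun k => (k.1 - 2) * l) (ρ := fun _ _ => 1)
    (Good' := fun k σ => Inv (1 / 2) w (100 * B * (w : ℝ) ^ 2 / l)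
      (500 * (B : ℝ) ^ 2 * (w : ℝ) ^ 2 / l) (fun _ => 4 * (w : ℝ)) k.2 ((k.1 - 2) * l) σ)
    (Wn' := fun k σ => {x | 2 ≤ k.1 ∧ k.1 < 6 ∧ Ext l (2 * w) k.1 k.2 ∧
        x ∈ Win w (fun _ => 4 * (w : ℝ)) k.2 ((k.1 - 2) * l) σ})
    (fun _ => Nat.zero_le _) (fun _ _ => zero_le_one) (fun k => by
      by_cases hk : k ∈ TopL_F l w
      · obtain ⟨k1, _, k3⟩ := TopL_mem.1 hk
        have hs := (TopL_ss k1 k3).1
        push_cast at hs
        have hok : Ok w w (100 * B * (w : ℝ) ^ 2 / l) (fun _ => 4 * (w : ℝ)) k.2 0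
            ((k.1 - 2) * l) := by
          refine ⟨hw', by linarith, le_rfl, by linarith, ?_, fun _ => by linarith,
            fun _ _ _ => rfl⟩
          rw [div_mul_eq_mul_div, le_div_iff₀ hl0]
          have e1 : (l : ℝ) ≤ B * ss k.2 ((k.1 - 2) * l) := by nlinarith
          have e2 : (0 : ℝ) ≤ (w : ℝ) ^ 2 := by positivity
          nlinarith [mul_le_mul_of_nonneg_left e1 e2, mul_nonneg e2 hl0.le]
        exact (idle_plan hok (Nat.zero_le _) (by norm_num) (by norm_num) he0 (by linarith)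
          le_rfl).mono (fun _ _ _ _ h => h) (fun _ _ _ _ h => h) (fun _ _ hx => ⟨hk, hx⟩)
          (fun _ _ hx => hx.2.2.2) (fun _ => le_rfl)
      · refine Plan.empty fun σ => eq_empty_of_forall_notMem fun x hx => hk ?_
        exact TopL_mem.2 ⟨hx.1, hx.2.1, hx.2.2.1⟩)
  exact h2.mono (fun _ _ _ _ _ h => h) (fun _ _ => Subset.rfl) (fun _ _ => by simp) le_rfl

lemma TopL_ext {l τ : ℕ} (hl : 0 < l) (m : ℕ) : Ext l m (τ / l) τ := by
  have h1 := Nat.div_mul_le_self τ l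
  have h2 := Nat.lt_div_mul_add (a := τ) hl
  unfold Ext
  rw [add_mul, one_mul]
  constructor <;> omega

/-- delivery -/
lemma lv_bottom {l B k L : ℕ} {lev D : ℝ} (hk : 1 ≤ k) (hl : 1000 ≤ l) (hL : 2 * L = k * l)
    (h : Lv n l 1 B (k * 2) (k * 6) lev D) : FG n L (500 * B ^ 2 + 30 * l) lev D := by
  obtain ⟨sch, h1, -, h⟩ := h
  have hl0 : 0 < l := by omega
  have hl' : (1000 : ℝ) ≤ l := by exact_mod_cast hl
  have key : ∀ j τ : ℕ, k * 2 ≤ j → j = τ / l → (j - 2) * l < τ ∧ 1 ≤ uu τ ((j - 2) * l) ∧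
      uu τ ((j - 2) * l) ^ 2 = ss τ ((j - 2) * l) ∧ ss τ ((j - 2) * l) ≤ 3 * (l : ℝ) := by
    intro j τ hj hjτ
    have hs := TopL_ss (by omega : 2 ≤ j) (hjτ ▸ TopL_ext (τ := τ) hl0 0)
    push_cast at hs
    have hlt := lt_of_ss_pos (show 0 < ss τ ((j - 2) * l) by linarith)
    exact ⟨hlt, Real.le_sqrt_of_sq_le (by linarith), uu_sq hlt.le, by linarith⟩
  have h2 := h.mono (Good' := fun _ _ _ q => |q| ≤ 500 * (B : ℝ) ^ 2 + 9 * l)
    (Wn' := fun κ _ => {x | k * 2 ≤ κ.1 ∧ κ.1 < k * 6 ∧ κ.1 = κ.2 / l ∧ x ∈ Icc (0 : ℝ) 1})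
    (lev' := fun _ _ => lev) (D' := D)
    (fun κ σ x q hx hq => by
      obtain ⟨x1, -, x3, x4, x5⟩ := hx
      obtain ⟨a1, a2, a3, a4⟩ := key κ.1 κ.2 x1 x3
      have he : 500 * (B : ℝ) ^ 2 * ((1 : ℕ) : ℝ) ^ 2 / l ≤ 500 * (B : ℝ) ^ 2 := by
        rw [div_le_iff₀ (by linarith)]
        have : (0 : ℝ) ≤ (B : ℝ) ^ 2 := by positivity
        push_cast
        nlinarith
      have hG : ∀ b X, X ≤ 2 * uu κ.2 ((κ.1 - 2) * l) →
          0 ≤ GG (1 / 2) ((1 : ℕ) : ℝ) (100 * B * ((1 : ℕ) : ℝ) ^ 2 / l) (uu κ.2 ((κ.1 - 2) * l))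
            (rr (sch κ.1) κ.2 σ b ((κ.1 - 2) * l)) X := fun b X hX =>
        GG_nonneg (by norm_num) (by linarith) (rr_range (h1 κ.1) a1).1 (rr_range (h1 κ.1) a1).2
          (by positivity) hX
      have q1 := hq true
      have q2 := hq false
      simp only [GI, lab, sg, Bool.false_eq_true, if_false, if_true] at q1 q2
      have g1 := hG true x (by linarith)
      have g2 := hG false (2 * uu κ.2 ((κ.1 - 2) * l) - x) (by linarith)
      rw [abs_le]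
      constructor <;> nlinarith)
    (fun κ σ x hx => by
      obtain ⟨x1, x2, x3, x4, x5⟩ := hx
      obtain ⟨a1, a2, a3, a4⟩ := key κ.1 κ.2 x1 x3
      refine ⟨x1, x2, x3 ▸ TopL_ext (τ := κ.2) hl0 _, fun b => ?_⟩
      have hr := (rr_range (σ := σ) (b := b) (h1 κ.1) a1).1
      have : 0 ≤ 2 * ((1 : ℕ) : ℝ) * rr (sch κ.1) κ.2 σ b ((κ.1 - 2) * l) /
          uu κ.2 ((κ.1 - 2) * l) := by positivity
      unfold WS lab
      split_ifs <;> linarith)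
    (fun _ _ => le_rfl) le_rfl
  have h3 := h2.evolve (T' := fun κ => max ((κ.1 - 2) * l) κ.2) (ρ := fun _ _ => 1)
    (fun _ => le_max_left _ _) (fun _ _ => zero_le_one)
    (fun κ => Plan.drift (le_max_left _ _))
  have hmax : ∀ τ : ℕ, max ((τ / l - 2) * l) τ = τ := fun τ =>
    max_eq_right (le_trans (Nat.mul_le_mul_right _ (Nat.sub_le _ _)) (Nat.div_mul_le_self τ l))
  refine h3.route (fun κ _ i => κ = (4 * i / l, 4 * i)) (fun _ _ _ x => x) ?_ ?_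
    (fun _ _ _ _ _ => ⟨Iff.rfl, rfl⟩) ?_
  · intro κ _ i i' e e'
    have := congrArg Prod.snd (e.symm.trans e')
    simp only at this
    omega
  · rintro κ _ i rfl
    exact hmax _
  · intro i σ U hU _ hUW
    refine ⟨{(4 * i / l, 4 * i)}, fun _ => U, fun κ hκ => ?_, by simp⟩
    obtain rfl := Finset.mem_singleton.1 hκ
    refine ⟨rfl, hU, fun x hx => ?_⟩
    obtain ⟨i1, i2, -⟩ := hUW x hx 0
    have j1 : k * 2 ≤ 4 * i / l := by
      rw [Nat.le_div_iff_mul_le hl0]; nlinarith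
    have j2 : 4 * i / l < k * 6 := by
      rw [Nat.div_lt_iff_lt_mul hl0]; nlinarith
    refine ⟨fun c => ⟨j1, j2, rfl, (hUW x hx c).2.2⟩, hx, fun c q hq => ?_⟩
    obtain ⟨-, -, -, a4⟩ := key _ _ j1 rfl
    simp only [hmax] at hq
    unfold ss at a4
    push_cast at *
    linarith

lemma TopL_iter (q : NP n) (K : ℕ) : ∀ w : ℕ, 0 < w →
    Lv n (q.P ^ 2 * w) w q.B (q.B ^ K * 2) (q.B ^ K * 6) ((q.B / (16 * (q.M : ℝ) ^ 7)) ^ K)
      (8 * (q.P ^ 2 * w * q.B ^ K : ℕ) * (2 / √(q.P ^ 2 * w * q.B ^ K : ℕ)) ^ (n + 1)) := by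
  have hM : 1000 ≤ q.M := le_trans (by norm_num) q.hM
  have hB : 1000 ≤ q.B := hM.trans q.hB
  have hP : 1000 ≤ q.P := by
    refine le_trans ?_ q.hP
    have h1 : 1 ≤ q.M ^ 4 := Nat.one_le_pow _ _ (by omega)
    nlinarith
  induction K with
  | zero =>
    intro w hw
    simp only [pow_zero, one_mul, mul_one]
    exact lv_top hw (by omega) (Nat.mul_le_mul_right _ (by nlinarith))
  | succ K ih =>
    intro w hw
    have h := ih (q.B * w) (by positivity)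
    rw [show q.P ^ 2 * (q.B * w) * q.B ^ K = q.P ^ 2 * w * q.B ^ (K + 1) by ring,
      show q.P ^ 2 * (q.B * w) = q.B * (q.P ^ 2 * w) by ring] at h
    have h1 : 1 ≤ q.B ^ K := Nat.one_le_pow _ _ (by omega)
    have h2 := level_step q hw rfl (by omega) (by positivity) h
    rw [show q.B * (q.B ^ K * 2) = q.B ^ (K + 1) * 2 by ring,
      show q.B * (q.B ^ K * 6) = q.B ^ (K + 1) * 6 by ring, ← pow_succ] at h2
    exact h2

lemma lv_iter (q : NP n) (K : ℕ) :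
    Lv n (q.P ^ 2) 1 q.B (q.B ^ K * 2) (q.B ^ K * 6) ((q.B / (16 * (q.M : ℝ) ^ 7)) ^ K)
      (8 * (q.P ^ 2 * q.B ^ K : ℕ) * (2 / √(q.P ^ 2 * q.B ^ K : ℕ)) ^ (n + 1)) := by
  have h := TopL_iter q K 1 one_pos
  simp only [mul_one] at h
  exact h

/-- choice of the integer parameters -/
lemma TopL_np {M N : ℕ} (hM : 2 ^ 50 ≤ M) (h64 : 64 ∣ M) (hN : 1 ≤ N) :
    ∃ (n : ℕ) (q : NP n), q.M = M ∧ q.B = M ^ N := by
  have hM0 : 0 < M := lt_of_lt_of_le (by norm_num) hM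
  obtain ⟨n, hn⟩ : ∃ n, n + 1 = 64 * M ^ N * (M ^ (3 * N + 4)) ^ 3 :=
    ⟨_, Nat.succ_pred_eq_of_pos (by positivity)⟩
  refine ⟨n, ⟨M, M ^ N, M ^ (3 * N + 4), hM, Nat.le_self_pow (by omega) _,
    h64.trans (dvd_pow_self _ (by omega)), dvd_pow_self _ (by omega), ?_, hn.ge, ?_⟩, rfl, rfl⟩
  · rw [← pow_mul, ← pow_add]
    exact Nat.pow_le_pow_right hM0 (by omega)
  · rw [hn]
    have h1 : 10 ^ 6 * 64 ≤ M ^ 4 :=
      le_trans (le_trans (by norm_num) hM) (Nat.le_self_pow (by norm_num) _)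
    calc 10 ^ 6 * (64 * M ^ N * (M ^ (3 * N + 4)) ^ 3) * (M ^ N) ^ 2
        = 10 ^ 6 * 64 * (M ^ (3 * N) * (M ^ (3 * N + 4)) ^ 3) := by ring
      _ ≤ M ^ 4 * (M ^ (3 * N) * (M ^ (3 * N + 4)) ^ 3) := Nat.mul_le_mul_right _ h1
      _ = (M ^ (3 * N + 4)) ^ 4 := by ring

lemma TopL_main (q : NP n) {c : ℝ} (hc : 0 < c) (hBc : 16 * (q.M : ℝ) ^ 7 ≤ (q.B : ℝ) ^ c)
    (L0 : ℕ) : ∃ (L : ℕ) (lev D : ℝ), L0 ≤ L ∧ 0 < lev ∧ 0 ≤ D ∧
      FG n L (500 * q.B ^ 2 + 30 * q.P ^ 2) lev D ∧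
      D / lev ≤ 8 * (q.P : ℝ) ^ 2 * 2 ^ (n + 1) * (L : ℝ) ^ c * (1 / √L) ^ (n + 1) := by
  have hM : 1000 ≤ q.M := le_trans (by norm_num) q.hM
  have hB : 1000 ≤ q.B := hM.trans q.hB
  have hP : 1000 ≤ q.P := by
    refine le_trans ?_ q.hP
    have h1 : 1 ≤ q.M ^ 4 := Nat.one_le_pow _ _ (by omega)
    nlinarith
  have hP2 : 1000 ≤ q.P ^ 2 := by nlinarith
  obtain ⟨b, hb⟩ := q.h64
  obtain ⟨L, hL⟩ : ∃ L, 2 * L = q.B ^ (L0 + 1) * q.P ^ 2 :=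
    ⟨q.B ^ L0 * (32 * b) * q.P ^ 2, by rw [pow_succ q.B L0, hb]; ring⟩
  set K := L0 + 1 with hK
  have hBK : K < q.B ^ K := Nat.lt_pow_self (by omega)
  have hLB : q.B ^ K ≤ L := by nlinarith
  have hM' : (0 : ℝ) < q.M := by exact_mod_cast (by omega : 0 < q.M)
  have hB' : (0 : ℝ) < q.B := by exact_mod_cast (by omega : 0 < q.B)
  have hL' : (0 : ℝ) < L := by exact_mod_cast (by omega : 0 < L)
  have hfg := lv_bottom (by omega) hP2 hL (lv_iter q K)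
  rw [mul_comm (q.P ^ 2), ← hL] at hfg
  refine ⟨L, _, _, by omega, by positivity, by positivity, hfg, ?_⟩
  have e1 : (2 / √((2 * L : ℕ) : ℝ)) ^ (n + 1) ≤ 2 ^ (n + 1) * (1 / √(L : ℝ)) ^ (n + 1) := by
    rw [← mul_pow, mul_one_div]
    have : √(L : ℝ) ≤ √((2 * L : ℕ) : ℝ) := Real.sqrt_le_sqrt (by push_cast; linarith)
    have h0 : 0 < √(L : ℝ) := Real.sqrt_pos.2 hL'
    gcongr
  have e2 : (16 * (q.M : ℝ) ^ 7) ^ K ≤ (L : ℝ) ^ c := by
    calc (16 * (q.M : ℝ) ^ 7) ^ K ≤ ((q.B : ℝ) ^ c) ^ K := by gcongr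
      _ = ((q.B : ℝ) ^ K) ^ c := by
        rw [← Real.rpow_natCast, ← Real.rpow_mul hB'.le, mul_comm, Real.rpow_mul hB'.le,
          Real.rpow_natCast]
      _ ≤ (L : ℝ) ^ c := Real.rpow_le_rpow (by positivity) (by exact_mod_cast hLB) hc.le
  have e3 : ((2 * L : ℕ) : ℝ) = (q.B : ℝ) ^ K * (q.P : ℝ) ^ 2 := by rw [hL]; push_cast; rfl
  calc 8 * ((2 * L : ℕ) : ℝ) * (2 / √((2 * L : ℕ) : ℝ)) ^ (n + 1) /
        (q.B / (16 * (q.M : ℝ) ^ 7)) ^ K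
      = 8 * (q.P : ℝ) ^ 2 * (16 * (q.M : ℝ) ^ 7) ^ K * (2 / √((2 * L : ℕ) : ℝ)) ^ (n + 1) := by
        generalize (2 / √((2 * L : ℕ) : ℝ)) ^ (n + 1) = y
        rw [e3, div_pow]
        field_simp
    _ ≤ 8 * (q.P : ℝ) ^ 2 * (L : ℝ) ^ c * (2 ^ (n + 1) * (1 / √(L : ℝ)) ^ (n + 1)) := by gcongr
    _ = _ := by ring

theorem fg_all {c : ℝ} (hc : 0 < c) : ∃ (n K : ℕ) (C : ℝ), ∀ L0 : ℕ, ∃ (L : ℕ) (lev D : ℝ),
    L0 ≤ L ∧ 0 < lev ∧ 0 ≤ D ∧ FG n L K lev D ∧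
      D / lev ≤ C * (L : ℝ) ^ c * (1 / √L) ^ (n + 1) := by
  obtain ⟨M, hM, h64⟩ : ∃ M : ℕ, 2 ^ 50 ≤ M ∧ 64 ∣ M := ⟨2 ^ 50, le_rfl, by norm_num⟩
  obtain ⟨N, hN⟩ := exists_nat_ge (8 / c)
  have hN8 : 8 ≤ (N : ℝ) * c := (div_le_iff₀ hc).1 hN
  have hN1 : 1 ≤ N := by
    rcases Nat.eq_zero_or_pos N with rfl | h
    · norm_num at hN8
    · exact h
  obtain ⟨n, q, hqM, hqB⟩ := TopL_np hM h64 hN1
  refine ⟨n, _, _, TopL_main q hc ?_⟩
  have hM' : (16 : ℝ) ≤ M := by exact_mod_cast le_trans (by norm_num) hM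
  rw [hqM, hqB]
  push_cast
  calc 16 * (M : ℝ) ^ 7 ≤ M * (M : ℝ) ^ 7 := by gcongr
    _ = (M : ℝ) ^ ((8 : ℕ) : ℝ) := by rw [Real.rpow_natCast]; ring
    _ ≤ (M : ℝ) ^ ((N : ℝ) * c) :=
      Real.rpow_le_rpow_of_exponent_le (by linarith) (by exact_mod_cast hN8)
    _ = ((M : ℝ) ^ N) ^ c := by rw [Real.rpow_mul (by linarith), Real.rpow_natCast]

end

end Pool.Agent.P.MP_767cd9_co.Q1
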