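import Pool.Agent.P.MP_767cd9_co.Q1.Gstep

/-! Switch lemmas and propagation of the invariant along half trajectories. -/

namespace Pool.Agent.P.MP_767cd9_co.Q1

open Real

noncomputable section

section
variable {c W e1 u r X Z : ℝ}

lemma Traj_le (h : X ≤ u) : GG c W e1 u r X = c * (X - u) ^ 2 := if_pos h

lemma Traj_gt (h : u < X) : GG c W e1 u r X = th e1 (hh W u r X) := if_neg (not_le.2 h)

lemma Traj_mu_mono (hu : 0 < u) (hW : 0 ≤ W) (h : Z ≤ X) :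
    W * min 1 (2 * (Z - u) / u) ≤ W * min 1 (2 * (X - u) / u) :=
  mul_le_mul_of_nonneg_left
    (min_le_min_left _ (div_le_div_of_nonneg_right (by linarith) hu.le)) hW

lemma Traj_hh_up (hu : 0 < u) (hr : 0 < r) (hr1 : r ≤ 1) (hW : 0 ≤ W) (hs : 16 * W ≤ u ^ 2)
    (hd : X ≤ Z) : hh W u r Z ≤ hh W u r X + u * (Z - X) / 2 := by
  have h0 : 0 ≤ 2 * (Z - X) / u := div_nonneg (by linarith) hu.le
  have h1 : u * (2 * u - Z) / r ≤ u * (2 * u - X) / r :=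
    div_le_div_of_nonneg_right (mul_le_mul_of_nonneg_left (by linarith) hu.le) hr.le
  have h2 : min 1 (2 * (Z - u) / u) ≤ min 1 (2 * (X - u) / u) + 2 * (Z - X) / u := by
    rw [← min_add_add_right]
    refine min_le_min (by linarith) (le_of_eq ?_)
    ring
  have h3 : W * (2 * (Z - X) / u) ≤ u * (Z - X) / 8 := by
    rw [← mul_div_assoc, div_le_iff₀ hu]
    nlinarith [mul_le_mul_of_nonneg_right hs (sub_nonneg.2 hd)]
  have h4 : 0 ≤ u * (Z - X) / 8 := by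
    have := mul_nonneg hu.le (sub_nonneg.2 hd)
    linarith
  have h5 : min (u * (2 * u - Z) / r) (W * min 1 (2 * (Z - u) / u)) ≤
      min (u * (2 * u - X) / r) (W * min 1 (2 * (X - u) / u)) + u * (Z - X) / 8 := by
    rw [← min_add_add_right]
    refine min_le_min (by linarith) ?_
    have := mul_le_mul_of_nonneg_left h2 hW
    linarith
  unfold hh
  have h6 := mul_le_mul_of_nonneg_left h5 (show 0 ≤ 4 * (1 - r) by linarith)
  have h7 : 4 * (1 - r) * (u * (Z - X) / 8) ≤ 4 * (u * (Z - X) / 8) :=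
    mul_le_mul_of_nonneg_right (by linarith) h4
  linarith

/-- new label `Z` on the far side of the centre -/
lemma sw_in (hc0 : 0 ≤ c) (hc : c ≤ 1) (hu : 0 < u) (hr : 0 < r) (hr1 : r ≤ 1) (hW : 0 ≤ W)
    (hZ : Z ≤ u) (hZ' : -u ≤ Z) (hX : -u ≤ X) (hd : |Z - X| ≤ u) :
    GG c W e1 u r Z - Z ^ 2 - 6 * u * |Z - X| ≤ GG c W e1 u r X - X ^ 2 := by
  rw [Traj_le hZ]
  rcases le_or_gt X u with h | h
  · rw [Traj_le h]
    have h1 : (Z - X) * (c * (Z + X - 2 * u) - (X + Z)) ≤ |Z - X| * (6 * u) := by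
      refine (le_abs_self _).trans ?_
      rw [abs_mul]
      refine mul_le_mul_of_nonneg_left (abs_le.2 ⟨?_, ?_⟩) (abs_nonneg _) <;> nlinarith
    nlinarith
  · rw [abs_of_nonpos (by linarith)] at hd ⊢
    have h1 := GG_nonneg (c := c) (e1 := e1) (X := X) hc0 hu hr hr1 hW (by linarith)
    have h2 : c * (Z - u) ^ 2 ≤ (Z - u) ^ 2 := by nlinarith [sq_nonneg (Z - u)]
    have h3 : (u - Z) * (u - Z) ≤ 2 * u * (X - Z) :=
      mul_le_mul (by linarith) (by linarith) (by linarith) (by linarith)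
    have h4 : (X - Z) * (X + Z) ≤ (X - Z) * (3 * u) :=
      mul_le_mul_of_nonneg_left (by linarith) (by linarith)
    nlinarith

/-- the same, the cost being absorbed in the constant -/
lemma sw_abs (hc0 : 1 / 8 ≤ c) (hc : c ≤ 1) (hu : 0 < u) (hr : 0 < r) (hr1 : r ≤ 1) (hW : 0 ≤ W)
    (hZ : Z ≤ u) (hZ' : -u ≤ Z) (hX : -u ≤ X) (hd : 48 * u * |Z - X| ≤ (Z - u) ^ 2) :
    GG (c - 1 / 8) W e1 u r Z - Z ^ 2 ≤ GG c W e1 u r X - X ^ 2 := by
  have h0 : (Z - u) ^ 2 ≤ (2 * u) ^ 2 := sq_le_sq' (by linarith) (by linarith)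
  have h1 : |Z - X| ≤ u := by
    by_contra h
    have := mul_lt_mul_of_pos_left (not_le.1 h) hu
    nlinarith
  have h2 := sw_in (e1 := e1) (by linarith) hc hu hr hr1 hW hZ hZ' hX h1
  rw [Traj_le hZ] at h2 ⊢
  linarith

/-- increasing the own label is free -/
lemma sw_up (hc0 : 1 / 2 ≤ c) (hu : 0 < u) (hr : 0 < r) (hr1 : r ≤ 1) (hW : 0 ≤ W)
    (hs : 16 * W ≤ u ^ 2) (hX : -(u / 4) ≤ X) (hd : X ≤ Z) :
    GG c W e1 u r Z - Z ^ 2 ≤ GG c W e1 u r X - X ^ 2 := by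
  have key : ∀ Z, X ≤ Z → Z ≤ u → c * (Z - u) ^ 2 - Z ^ 2 ≤ c * (X - u) ^ 2 - X ^ 2 := by
    intro Z h1 h2
    have h3 : 1 / 2 * (2 * u - X - Z) ≤ c * (2 * u - X - Z) :=
      mul_le_mul_of_nonneg_right hc0 (by linarith)
    have h4 : 0 ≤ (Z - X) * (c * (2 * u - X - Z) + Z + X) :=
      mul_nonneg (by linarith) (by linarith)
    nlinarith
  rcases le_or_gt Z u with h | h
  · rw [Traj_le h, Traj_le (hd.trans h)]
    exact key Z hd h
  rw [Traj_gt h]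
  rcases le_or_gt X u with h' | h'
  · rw [Traj_le h']
    have h1 := key u h' le_rfl
    have h2 := Traj_hh_up hu hr hr1 hW hs h.le
    have h3 : hh W u r u ≤ 0 := by
      unfold hh
      refine mul_nonpos_of_nonneg_of_nonpos (by linarith) ((min_le_right _ _).trans ?_)
      simp
    have h4 := th_le e1 (hh W u r Z)
    nlinarith [mul_pos hu (sub_pos.2 h), sq_nonneg (Z - u)]
  · rw [Traj_gt h']
    have h0 : 0 ≤ u * (Z - X) := mul_nonneg hu.le (sub_nonneg.2 hd)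
    have h1 := th_lip (e := e1) (by linarith) (Traj_hh_up hu hr hr1 hW hs hd)
    have h2 : (Z - X) * u ≤ (Z - X) * (Z + X) :=
      mul_le_mul_of_nonneg_left (by linarith) (sub_nonneg.2 hd)
    nlinarith

lemma sw_mid (hu : 0 < u) (hr : 0 < r) (hr1 : r ≤ 1) (hW : 0 ≤ W)
    (hZ : u < Z) (hd : Z ≤ X) (hY : W ≤ u * (2 * u - X)) :
    GG c W e1 u r Z - Z ^ 2 - 4 * u * (X - Z) ≤ GG c W e1 u r X - X ^ 2 := by
  rw [Traj_gt hZ, Traj_gt (hZ.trans_le hd)]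
  have hX : X ≤ 2 * u := by
    by_contra h
    have := mul_neg_of_pos_of_neg hu (show 2 * u - X < 0 by linarith)
    linarith
  have h1 : W * min 1 (2 * (X - u) / u) ≤ u * (2 * u - X) / r := by
    have h2 : W * min 1 (2 * (X - u) / u) ≤ W * 1 :=
      mul_le_mul_of_nonneg_left (min_le_left _ _) hW
    have h3 : u * (2 * u - X) ≤ u * (2 * u - X) / r :=
      le_div_self (hW.trans hY) hr hr1
    linarith
  have h2 : hh W u r Z ≤ hh W u r X + 0 := by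
    unfold hh
    rw [add_zero, min_eq_right h1]
    exact mul_le_mul_of_nonneg_left ((min_le_right _ _).trans (Traj_mu_mono hu hW hd))
      (by linarith)
  have h3 := th_lip (e := e1) le_rfl h2
  have h4 : (X - Z) * (X + Z) ≤ (X - Z) * (4 * u) :=
    mul_le_mul_of_nonneg_left (by linarith) (sub_nonneg.2 hd)
  nlinarith

lemma sw_edge (hu : 0 < u) (hr : 1 / 2 ≤ r) (hr1 : r ≤ 1) (hW : 0 ≤ W)
    (hZ : u < Z) (hd : Z ≤ X) (hX : X ≤ 9 * u / 4) :
    GG c W e1 u r Z - Z ^ 2 - 9 * u * (X - Z) ≤ GG c W e1 u r X - X ^ 2 := by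
  rw [Traj_gt hZ, Traj_gt (hZ.trans_le hd)]
  have hr0 : 0 < r := by linarith
  have h0 : 0 ≤ u * (X - Z) := mul_nonneg hu.le (sub_nonneg.2 hd)
  have h1 : min (u * (2 * u - Z) / r) (W * min 1 (2 * (Z - u) / u)) ≤
      min (u * (2 * u - X) / r) (W * min 1 (2 * (X - u) / u)) + u * (X - Z) / r := by
    rw [← min_add_add_right]
    refine min_le_min (le_of_eq (by ring)) ?_
    have := Traj_mu_mono hu hW hd
    have := div_nonneg h0 hr0.le
    linarith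
  have h2 : 4 * (1 - r) * (u * (X - Z) / r) ≤ 4 * (u * (X - Z)) := by
    rw [← mul_div_assoc, div_le_iff₀ hr0]
    nlinarith [mul_nonneg h0 (show 0 ≤ 2 * r - 1 by linarith)]
  have h3 : hh W u r Z ≤ hh W u r X + 4 * (u * (X - Z)) := by
    unfold hh
    have := mul_le_mul_of_nonneg_left h1 (show 0 ≤ 4 * (1 - r) by linarith)
    linarith
  have h4 := th_lip (e := e1) (by linarith) h3
  have h5 : (X - Z) * (X + Z) ≤ (X - Z) * (5 * u) :=
    mul_le_mul_of_nonneg_left (by linarith) (sub_nonneg.2 hd)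
  nlinarith

/-- any small move near the centre -/
lemma sw_any (hc0 : 1 / 2 ≤ c) (hc : c ≤ 1) (hu : 0 < u) (hr : 0 < r) (hr1 : r ≤ 1) (hW : 0 ≤ W)
    (hs : 16 * W ≤ u ^ 2) (hZ : |Z - u| ≤ u / 2) (hd : |Z - X| ≤ u / 4) :
    GG c W e1 u r Z - Z ^ 2 - 6 * u * |Z - X| ≤ GG c W e1 u r X - X ^ 2 := by
  obtain ⟨h1, h2⟩ := abs_le.1 hZ
  obtain ⟨h3, h4⟩ := abs_le.1 hd
  rcases le_or_gt Z u with h | h
  · exact sw_in (by linarith) hc hu hr hr1 hW h (by linarith) (by linarith) (by linarith)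
  have h0 : 0 ≤ u * |Z - X| := mul_nonneg hu.le (abs_nonneg _)
  rcases le_or_gt X Z with h' | h'
  · have := sw_up (e1 := e1) hc0 hu hr hr1 hW hs (by linarith) h'
    linarith
  · have h5 : u * (u / 4) ≤ u * (2 * u - X) := mul_le_mul_of_nonneg_left (by linarith) hu.le
    have := sw_mid (c := c) (e1 := e1) hu hr hr1 hW h h'.le (by nlinarith)
    rw [abs_of_nonpos (by linarith)] at h0 ⊢
    linarith

/-- fallback: dilation about the centre -/
lemma sw_fb {η : ℝ} (hc0 : 1 / 2 ≤ c) (hc : c ≤ 1) (hu : 0 < u) (hr : 0 < r) (hr1 : r ≤ 1)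
    (hW : 0 ≤ W) (hs : 16 * W ≤ u ^ 2) (hη : 0 ≤ η) (hη' : η ≤ u / 100)
    (hZ : -(u / 4) ≤ Z) (hZ' : Z ≤ 9 * u / 4) (hd : |X - (u + (1 - 2 * η / u) * (Z - u))| ≤ η) :
    GG c W e1 u r Z - Z ^ 2 - 30 * u * η ≤ GG c W e1 u r X - X ^ 2 ∧
      ∀ y, 0 ≤ y → -y ≤ 2 * u - Z → -y ≤ 2 * u - X := by
  obtain ⟨s, hs'⟩ : ∃ s, s = (Z - u) / u := ⟨_, rfl⟩
  have e0 : u + (1 - 2 * η / u) * (Z - u) = Z - 2 * η * s := by
    rw [hs']
    field_simp
    ring
  rw [e0] at hd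
  obtain ⟨h1, h2⟩ := abs_le.1 hd
  have h3 : s ≤ 2 := by
    rw [hs', div_le_iff₀ hu]
    linarith
  have h4 : -2 ≤ s := by
    rw [hs', le_div_iff₀ hu]
    linarith
  have h5 : η * s ≤ η * 2 := mul_le_mul_of_nonneg_left h3 hη
  have h6 : η * -2 ≤ η * s := mul_le_mul_of_nonneg_left h4 hη
  have h7 : |Z - X| ≤ 5 * η := abs_le.2 ⟨by linarith, by linarith⟩
  obtain ⟨h8, h9⟩ := abs_le.1 h7
  have h10 : u * |Z - X| ≤ u * (5 * η) := mul_le_mul_of_nonneg_left h7 hu.le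
  have h11 : u / 2 ≤ Z - u → X ≤ Z := by
    intro h
    have : 1 / 2 ≤ s := by
      rw [hs', le_div_iff₀ hu]
      linarith
    have := mul_le_mul_of_nonneg_left this hη
    linarith
  refine ⟨?_, fun y hy hy' => ?_⟩
  · rcases le_or_gt Z u with h | h
    · have := sw_in (e1 := e1) (X := X) (by linarith) hc hu hr hr1 hW h (by linarith)
        (by linarith) (by linarith)
      linarith
    rcases le_or_gt (u / 2) (Z - u) with h' | h'
    · have := sw_up (e1 := e1) hc0 hu hr hr1 hW hs (by linarith) (h11 h')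
      have := mul_nonneg hu.le hη
      linarith
    · have := sw_any (e1 := e1) (Z := Z) (X := X) hc0 hc hu hr hr1 hW hs
        (abs_le.2 ⟨by linarith, by linarith⟩) (by linarith)
      linarith
  · rcases le_or_gt (u / 2) (Z - u) with h' | h'
    · have := h11 h'
      linarith
    · linarith

end

section
variable {cc W W1 e1 e R y : ℝ} {sch : ℕ → ℝ} {τ a a0 c t t' f : ℕ} {σ : Path} {b : Bool}
  {X V : ℕ → ℝ}

lemma Ok.lt (h : Ok W W1 e1 sch τ a c) : c < τ := by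
  have := h.hW
  have := h.hs
  exact lt_of_ss_pos (by linarith)

lemma Ok.mono (h : Ok W W1 e1 sch τ a c) {a' c' : ℕ} (ha : a ≤ a') (hc : c' ≤ c) :
    Ok W W1 e1 sch τ a' c' := by
  have h1 : ss τ c ≤ ss τ c' := ss_anti hc
  have h2 := h.hW
  have h3 := h.hs
  have h4 := h.he
  have h5 : 0 ≤ e1 := by
    by_contra h6
    have := mul_neg_of_neg_of_pos (not_le.1 h6) (show 0 < ss τ c by linarith)
    nlinarith
  exact ⟨h.hW, h.hW0, h.hW1, h3.trans h1, h4.trans (mul_le_mul_of_nonneg_left h1 h5), h.h1,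
    fun t h6 h7 => h.hsch t (ha.trans h6) (h7.trans_le hc)⟩

lemma Ok.uu_sq (h : Ok W W1 e1 sch τ a c) (ht : t ≤ c) :
    0 < uu τ t ∧ 1000 * W ≤ uu τ t ^ 2 ∧ 16 * W1 ≤ uu τ t ^ 2 ∧ 16 * W1 ^ 2 ≤ e1 * uu τ t ^ 2 := by
  have h' := h.mono le_rfl ht
  have h1 := h'.hs
  have h2 := h'.he
  have h3 := h.hW
  have h4 := h.hW0
  have h5 := h.hW1
  rw [Q1.uu_sq h'.lt.le]
  refine ⟨uu_pos h'.lt, h1, by linarith, ?_⟩
  nlinarith

lemma WS.mono {R' X : ℝ} (h : WS R sch τ σ b t X) (h1 : ∀ t, 1 ≤ sch t) (ht : t < τ)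
    (hR : R ≤ R') : WS R' sch τ σ b t X := by
  unfold WS at h ⊢
  have h2 := (rr_range (σ := σ) (b := b) h1 ht).1
  have h3 : 2 * R * rr sch τ σ b t / uu τ t ≤ 2 * R' * rr sch τ σ b t / uu τ t :=
    div_le_div_of_nonneg_right (mul_le_mul_of_nonneg_right (by linarith) h2.le) (uu_nonneg _ _)
  linarith

/-- the window lies within `u / 100` of the edge -/
lemma Ok.ws_small (h : Ok W W1 e1 sch τ a c) (ht : t ≤ c) (hR0 : 0 ≤ R) (hR : R ≤ W) {X : ℝ}
    (hw : WS R sch τ σ b t X) : X ≤ 2 * uu τ t + uu τ t / 100 := by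
  obtain ⟨h1, h2, -⟩ := h.uu_sq ht
  obtain ⟨h3, h4⟩ := rr_range (σ := σ) (b := b) h.h1 (ht.trans_lt h.lt)
  unfold WS at hw
  have h5 : 2 * R * rr sch τ σ b t / uu τ t ≤ uu τ t / 100 := by
    rw [div_le_iff₀ h1]
    have := mul_le_mul_of_nonneg_left h4 hR0
    nlinarith
  linarith

lemma HT.mono (h : HT τ σ b a c X V) {a' c' : ℕ} (ha : a ≤ a') (hc : c' ≤ c) :
    HT τ σ b a' c' X V := by
  exact fun t h1 h2 => h t (ha.trans h1) (h2.trans_le hc)

lemma Traj_win_step (h : Ok W W1 e1 sch τ a c) (h0 : a0 ≤ t) (ha : a ≤ t) (hc : t + 1 ≤ c)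
    (hR0 : 0 ≤ R) (hR : R ≤ W) (hw : WS R sch τ σ b (t + 1) (y - dsp τ σ b a0 (t + 1))) :
    WS R sch τ σ b t (y - dsp τ σ b a0 t) := by
  obtain ⟨h1, h2, -⟩ := h.uu_sq hc
  obtain ⟨h3, -⟩ := h.uu_sq (Nat.le_of_succ_le hc)
  have hlt : t < τ := (Nat.lt_of_succ_le hc).trans h.lt
  obtain ⟨h4, h5⟩ := rr_range (σ := σ) (b := b) h.h1 hlt
  unfold WS at hw ⊢
  rw [dsp_succ h0, rr] at hw
  by_cases hb : σ t = b
  · rw [if_pos hb, if_pos hb, dd] at hw
    have e0 : 2 * R * (rr sch τ σ b t * uu τ (t + 1) / uu τ t) / uu τ (t + 1) =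
        2 * R * rr sch τ σ b t / uu τ t := by
      field_simp
    rw [e0] at hw
    linarith
  · rw [if_neg hb, if_neg hb, add_zero, h.hsch t ha hc] at hw
    exact win_trail h1 h3 (uu_succ hlt) h4 h5 h.hW h2 hR0 hR hw

/-- the window pulls back along natural trajectories -/
lemma win_back (h : Ok W W1 e1 sch τ a c) (h0 : a0 ≤ t) (ha : a ≤ t) (ht : t ≤ t') (hc : t' ≤ c)
    (hR0 : 0 ≤ R) (hR : R ≤ W) (hw : WS R sch τ σ b t' (y - dsp τ σ b a0 t')) :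
    WS R sch τ σ b t (y - dsp τ σ b a0 t) := by
  induction t', ht using Nat.le_induction with
  | base => exact hw
  | succ j hj ih =>
    exact ih (Nat.le_of_succ_le hc) (Traj_win_step h (h0.trans hj) (ha.trans hj) hc hR0 hR hw)

lemma G_path (h : Ok W W1 e1 sch τ a c) (hc0 : 0 ≤ cc) (hc1 : cc ≤ 1) (h0 : a0 ≤ t) (ha : a ≤ t)
    (ht : t ≤ t') (hc : t' ≤ c) (hw : WS W sch τ σ b t' (y - dsp τ σ b a0 t')) :
    GG cc W1 e1 (uu τ t') (rr sch τ σ b t') (y - dsp τ σ b a0 t') - (y - dsp τ σ b a0 t') ^ 2 ≤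
      GG cc W1 e1 (uu τ t) (rr sch τ σ b t) (y - dsp τ σ b a0 t) - (y - dsp τ σ b a0 t) ^ 2 +
        4 * (cnt σ b t t' : ℝ) := by
  induction t', ht using Nat.le_induction with
  | base => simp [cnt_self]
  | succ j hj ih =>
    have hW := h.hW
    have hw' := Traj_win_step h (h0.trans hj) (ha.trans hj) hc (by linarith) le_rfl hw
    have ih' := ih (Nat.le_of_succ_le hc) hw'
    obtain ⟨h1, h2, -⟩ := h.uu_sq hc
    obtain ⟨h3, -⟩ := h.uu_sq (Nat.le_of_succ_le hc)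
    have hlt : j < τ := (Nat.lt_of_succ_le hc).trans h.lt
    obtain ⟨h4, h5⟩ := rr_range (σ := σ) (b := b) h.h1 hlt
    have huu := uu_succ hlt
    rw [dsp_succ (h0.trans hj), cnt_succ hj, rr]
    by_cases hb : σ j = b
    · rw [if_pos hb, if_pos hb, if_pos hb, dd, ← sub_sub]
      have h6 : 1 ≤ uu τ (j + 1) := by
        by_contra h7
        nlinarith [not_le.1 h7]
      have h7 := G_lead (e1 := e1) (X := y - dsp τ σ b a0 j) hc0 hc1 h6 h3 huu h4 h5 h.hW0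
      push_cast
      nlinarith
    · rw [if_neg hb, if_neg hb, if_neg hb, add_zero, add_zero, h.hsch j (ha.trans hj) hc]
      have h6 := (h.mono le_rfl hc).he
      rw [← uu_sq (hc.trans h.lt.le)] at h6
      have h7 := G_trail hc0 h1 h3 huu h4 h5 hW h.hW0 h.hW1 h2 h6 hw'
      linarith

lemma HT_lower (h : HT τ σ b t t' X V) (ht : t ≤ t') :
    V t + 4 * (cnt σ b t t' : ℝ) ≤ V t' ∨
      ∃ j, t ≤ j ∧ j < t' ∧ ss τ j - 2 * uu τ j * X j + 4 * (cnt σ b j t' : ℝ) ≤ V t' := by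
  induction t', ht using Nat.le_induction with
  | base => simp [cnt_self]
  | succ k hk ih =>
    have h1 := h k hk (Nat.lt_succ_self k)
    have h2 : ∀ j, j ≤ k → 4 * (cnt σ b j (k + 1) : ℝ) =
        4 * (cnt σ b j k : ℝ) + if σ k = b then 4 else 0 := by
      intro j hj
      rw [cnt_succ hj]
      split_ifs
      · push_cast
        ring
      · simp
    rcases min_cases (V k) (ss τ k - 2 * uu τ k * X k) with h3 | h3
    · rw [h3.1] at h1
      rcases ih (h.mono le_rfl (Nat.le_succ k)) with h4 | ⟨j, h4, h5, h6⟩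
      · left
        rw [h2 t hk]
        linarith
      · refine Or.inr ⟨j, h4, h5.trans (Nat.lt_succ_self k), ?_⟩
        rw [h2 j h5.le]
        linarith
    · rw [h3.1] at h1
      refine Or.inr ⟨k, hk, Nat.lt_succ_self k, ?_⟩
      rw [h2 k le_rfl, cnt_self]
      simpa using h1

lemma Traj_cap (h : Ok W W1 e1 sch τ a c) (hc0 : 0 ≤ cc) (hc1 : cc ≤ 1) (h0 : a0 ≤ t) (ha : a ≤ t)
    (ht : t ≤ t') (hc : t' ≤ c) (hw : WS W sch τ σ b t' (y - dsp τ σ b a0 t')) :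
    GG cc W1 e1 (uu τ t') (rr sch τ σ b t') (y - dsp τ σ b a0 t') - (y - dsp τ σ b a0 t') ^ 2 ≤
      ss τ t - 2 * uu τ t * (y - dsp τ σ b a0 t) + 4 * (cnt σ b t t' : ℝ) := by
  have h1 := G_path h hc0 hc1 h0 ha ht hc hw
  obtain ⟨h2, -, -, h3⟩ := h.uu_sq (ht.trans hc)
  have hlt : t < τ := (ht.trans hc).trans_lt h.lt
  obtain ⟨h4, h5⟩ := rr_range (σ := σ) (b := b) h.h1 hlt
  have h6 := GG_le_sq (X := y - dsp τ σ b a0 t) hc1 h2 h4 h5 h.hW0 h3
  rw [← uu_sq hlt.le]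
  linarith

/-- the invariant propagates along a natural segment -/
lemma HT_G (h : Ok W W1 e1 sch τ a c) (hc0 : 0 ≤ cc) (hc1 : cc ≤ 1) (he : 0 ≤ e) (h0 : a0 ≤ t)
    (ha : a ≤ t) (ht : t ≤ t') (hc : t' ≤ c) (hH : HT τ σ b t t' X V)
    (hX : ∀ j, t ≤ j → j < t' → X j = y - dsp τ σ b a0 j)
    (hw : WS W sch τ σ b t' (y - dsp τ σ b a0 t'))
    (hI : GI cc W1 e1 e sch τ σ b t (y - dsp τ σ b a0 t) (V t)) :
    GI cc W1 e1 e sch τ σ b t' (y - dsp τ σ b a0 t') (V t') := by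
  unfold GI at hI ⊢
  rcases HT_lower hH ht with h1 | ⟨j, h1, h2, h3⟩
  · have := G_path h hc0 hc1 h0 ha ht hc hw
    linarith
  · have := Traj_cap h hc0 hc1 (h0.trans h1) (ha.trans h1) h2.le hc hw
    rw [hX j h1 h2] at h3
    linarith

/-- a switch on the side that has just been leading -/
lemma lead_sw {Z P0 m0 g0 x2 y0 ν : ℝ} (h : Ok W W1 e1 sch τ a c) (hc0 : 1 / 2 ≤ cc)
    (hc1 : cc ≤ 1) (he : 0 ≤ e) (h0 : a0 ≤ t) (ha : a ≤ t) (ht : t ≤ f) (hc : f ≤ c)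
    (hH : HT τ σ b t f X V) (hX : ∀ j, t ≤ j → j < f → X j = y - dsp τ σ b a0 j)
    (hw : WS W sch τ σ b f (y - dsp τ σ b a0 f))
    (hI : GI cc W1 e1 e sch τ σ b t (y - dsp τ σ b a0 t) (V t))
    (hP : P0 ≤ dsp τ σ b t f) (hm0 : 0 < m0) (hm : m0 ≤ Z - uu τ f)
    (hN : dsp τ σ (!b) t f ≤ m0 / 2) (hr : 1 / 2 ≤ rr sch τ σ b f)
    (hg : 4 * W1 * (1 - rr sch τ σ b f) ≤ g0) (hgx : g0 ≤ x2 * P0) (hy0 : 0 ≤ y0) (hyx : y0 ≤ x2)
    (hν0 : 0 ≤ ν) (hν : ν ≤ 1 / 4) (hνP : 12 * uu τ f * ν ≤ P0)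
    (hcap : g0 + 4 * uu τ f * |Z - (y - dsp τ σ b a0 f)| ≤ m0 ^ 2 / 2)
    (hη : |Z - (y - dsp τ σ b a0 f)| ≤ ν * (|2 * uu τ f - Z| + y0))
    (hZ : -x2 ≤ 2 * uu τ f - Z) (hx : x2 ≤ uu τ f / 16) :
    GI cc W1 e1 (e + 30 * uu τ f * ν * x2) sch τ σ b f Z (V f) := by
  have hG := HT_G h (by linarith) hc1 he h0 ha ht hc hH hX hw hI
  obtain ⟨hu, -, hs, -⟩ := h.uu_sq hc
  have hlt : f < τ := hc.trans_lt h.lt
  obtain ⟨hr0, hr1⟩ := rr_range (σ := σ) (b := b) h.h1 hlt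
  have hW0 := h.hW0
  have hx0 : 0 ≤ x2 := hy0.trans hyx
  have hE : 0 ≤ uu τ f * (ν * x2) := mul_nonneg hu.le (mul_nonneg hν0 hx0)
  have hdsp : ∀ j, t ≤ j → j ≤ f →
      y - dsp τ σ b a0 j = y - dsp τ σ b a0 f + dsp τ σ b j f := by
    intro j h1 h2
    rw [dsp_add (h0.trans h1) h2]
    ring
  unfold GI at hG hI ⊢
  obtain ⟨X0, hX0⟩ : ∃ X0, X0 = y - dsp τ σ b a0 f := ⟨_, rfl⟩
  rw [← hX0] at hG hη hcap hdsp
  rcases le_or_gt X0 Z with hle | hgt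
  · have h1 : |2 * uu τ f - Z| ≤ uu τ f := abs_le.2 ⟨by linarith, by linarith⟩
    have h2 : ν * (|2 * uu τ f - Z| + y0) ≤ 1 / 4 * (2 * uu τ f) :=
      mul_le_mul hν (by linarith) (by positivity) (by norm_num)
    have h3 := le_abs_self (Z - X0)
    have h4 := sw_up (e1 := e1) (X := X0) hc0 hu hr0 hr1 hW0 hs (by linarith) hle
    linarith
  rw [abs_of_nonpos (by linarith : Z - X0 ≤ 0)] at hη hcap
  have hη4 : ν * (X0 - Z) ≤ 1 / 4 * (X0 - Z) := mul_le_mul_of_nonneg_right hν (by linarith)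
  rcases lt_or_ge (2 * uu τ f - X0) x2 with hY | hY
  · have h1 : |2 * uu τ f - Z| ≤ x2 + (X0 - Z) := abs_le.2 ⟨by linarith, by linarith⟩
    have h2 : ν * (|2 * uu τ f - Z| + y0) ≤ ν * (x2 + (X0 - Z) + x2) :=
      mul_le_mul_of_nonneg_left (by linarith) hν0
    have h3 : 0 ≤ ν * x2 := mul_nonneg hν0 hx0
    have h4 : X0 - Z ≤ 3 * (ν * x2) := by linarith
    have h5 : ν * x2 ≤ 1 / 4 * x2 := mul_le_mul_of_nonneg_right hν hx0
    have h6 := sw_edge (c := cc) (e1 := e1) hu hr hr1 hW0 (by linarith) hgt.le (by linarith)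
    have h7 := mul_le_mul_of_nonneg_left h4 hu.le
    linarith
  have hY0 : 0 ≤ 2 * uu τ f - X0 := hx0.trans hY
  rw [abs_of_nonneg (by linarith : 0 ≤ 2 * uu τ f - Z)] at hη
  have h1 : ν * (2 * uu τ f - Z + y0) ≤ ν * (2 * (2 * uu τ f - X0) + (X0 - Z)) :=
    mul_le_mul_of_nonneg_left (by linarith) hν0
  have h2 : 0 ≤ ν * (2 * uu τ f - X0) := mul_nonneg hν0 hY0
  have h3 : X0 - Z ≤ 3 * (ν * (2 * uu τ f - X0)) := by linarith
  have h4 := GG_le_of_gt (c := cc) (e1 := e1) (X := Z) hu hr0 hr1 hW0 (by linarith)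
  have h5 : (X0 - Z) * (X0 + Z) ≤ (X0 - Z) * (4 * uu τ f) :=
    mul_le_mul_of_nonneg_left (by linarith) (by linarith)
  suffices hkey : g0 + 4 * uu τ f * (X0 - Z) - e ≤ V f + X0 ^ 2 by linarith
  rcases HT_lower hH ht with h6 | ⟨j, h6, h7, h8⟩
  · have h7 := cnt_lower (σ := σ) (b := b) ht hlt.le
    have h8 := dsp_sum (τ := τ) (σ := σ) (b := b) ht
    have h9 := dsp_nonneg (τ := τ) (σ := σ) (b := !b) (a := t) (t := f)
    have hlt' : t < τ := ht.trans_lt hlt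
    obtain ⟨h10, h11⟩ := rr_range (σ := σ) (b := b) h.h1 hlt'
    rw [hdsp t le_rfl ht] at hI
    have h12 := GG_nonneg (c := cc) (e1 := e1) (X := X0 + dsp τ σ b t f) (by linarith)
      (uu_pos hlt') h10 h11 hW0 (by linarith)
    have hP0 : 0 ≤ P0 := le_trans (by positivity) hνP
    have h13 : x2 * P0 ≤ (2 * uu τ f - X0) * dsp τ σ b t f := mul_le_mul hY hP hP0 hY0
    have h14 : 12 * uu τ f * ν * (2 * uu τ f - X0) ≤ dsp τ σ b t f * (2 * uu τ f - X0) :=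
      mul_le_mul_of_nonneg_right (hνP.trans hP) hY0
    have h15 := mul_le_mul_of_nonneg_left h3 hu.le
    linarith
  · have h9 := cnt_lower (σ := σ) (b := b) h7.le hlt.le
    have h10 := dsp_sum (τ := τ) (σ := σ) (b := b) h7.le
    have h11 := dsp_nonneg (τ := τ) (σ := σ) (b := b) (a := j) (t := f)
    have h12 := dsp_anti (τ := τ) (σ := σ) (b := !b) (c := f) h6
    rw [hX j h6 h7, hdsp j h6 h7.le, ← uu_sq (h7.trans hlt).le] at h8
    have h13 : (3 * m0 / 4) ^ 2 ≤ (X0 + dsp τ σ b j f - uu τ j) ^ 2 :=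
      pow_le_pow_left₀ (by linarith) (by linarith) 2
    have h14 := mul_nonneg h11 hY0
    have h15 := sq_nonneg m0
    linarith

/-- recovery of the full slack away from the edge -/
lemma recov_strong (h : Ok W W1 e1 sch τ a c) (hac : a ≤ c) (hu : 8 * uu τ c ≤ uu τ a)
    (he0 : 0 ≤ e) (he : e ≤ ss τ c / 80) (hH : HT τ σ b a c X V)
    (hX : ∀ j, a ≤ j → j < c → X j = y - dsp τ σ b a j)
    (hY : y - dsp τ σ b a c ≤ 3 / 2 * uu τ c) (hY' : -uu τ c ≤ y - dsp τ σ b a c)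
    (hI : GI (1 / 2) W1 e1 e sch τ σ b a y (V a)) :
    GI 1 W1 e1 0 sch τ σ b c (y - dsp τ σ b a c) (V c) := by
  obtain ⟨hu0, -, -, hs⟩ := h.uu_sq le_rfl
  have hlt := h.lt
  obtain ⟨hr0, hr1⟩ := rr_range (σ := σ) (b := b) h.h1 hlt
  have hW0 := h.hW0
  have hW := h.hW
  unfold GI at hI ⊢
  rcases HT_lower hH hac with h1 | ⟨j, h1, h2, h3⟩
  · have h2 := GG_le_sq (c := 1) (X := y - dsp τ σ b a c) le_rfl hu0 hr0 hr1 hW0 hs
    have h3 := cnt_lower (σ := σ) (b := b) hac hlt.le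
    have h4 := dsp_sum (τ := τ) (σ := σ) (b := b) hac
    have h5 := dsp_nonneg (τ := τ) (σ := σ) (b := !b) (a := a) (t := c)
    have h6 := dsp_nonneg (τ := τ) (σ := σ) (b := b) (a := a) (t := c)
    rw [← uu_sq hlt.le] at he
    obtain ⟨P, hP⟩ : ∃ P, P = dsp τ σ b a c := ⟨_, rfl⟩
    obtain ⟨u, hu'⟩ : ∃ u, u = uu τ c := ⟨_, rfl⟩
    rw [← hP] at h2 h3 h4 h6 hY hY' ⊢
    rw [← hu'] at h2 h3 h4 hY hY' he hu hu0 ⊢
    have hY0 : 0 ≤ 2 * u - (y - P) := by linarith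
    have huu := mul_pos hu0 hu0
    rcases le_or_gt (3 * u) P with h7 | h7
    · have hlt' : a < τ := hac.trans_lt hlt
      obtain ⟨h8, h9⟩ := rr_range (σ := σ) (b := b) h.h1 hlt'
      have h10 := GG_nonneg (c := 1 / 2) (e1 := e1) (X := y) (by norm_num) (uu_pos hlt') h8 h9 hW0
        (by linarith)
      have h11 := mul_le_mul_of_nonneg_right h7 hY0
      have h12 : 0 ≤ (3 / 2 * u - (y - P)) * (y - P + u) := mul_nonneg (by linarith) (by linarith)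
      have h13 : 0 ≤ u * (3 / 2 * u - (y - P)) := mul_nonneg hu0.le (by linarith)
      nlinarith
    · rw [Traj_le (by linarith)] at hI
      have h8 : (7 * u / 2) ^ 2 ≤ (uu τ a - y) ^ 2 :=
        pow_le_pow_left₀ (by linarith) (by linarith) 2
      have h9 : (y - P - u) ^ 2 ≤ (2 * u) ^ 2 := sq_le_sq' (by linarith) (by linarith)
      have h10 := mul_nonneg h6 hY0
      nlinarith
  · have hw : WS W sch τ σ b c (y - dsp τ σ b a c) := by
      unfold WS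
      have : 0 ≤ 2 * W * rr sch τ σ b c / uu τ c := by positivity
      linarith
    have := Traj_cap h zero_le_one le_rfl h1 h1 h2.le le_rfl hw
    rw [hX j h1 h2] at h3
    linarith

end

end

end Pool.Agent.P.MP_767cd9_co.Q1
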