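import Pool.Agent.P.MP_767cd9_co.Q1.Retarget

/-! Volume estimates. -/

namespace Pool.Agent.P.MP_767cd9_co.Q1

open Real MeasureTheory Set

noncomputable section

variable {n : ℕ}

lemma Vol_exp {F : Vec n → Vec n} {U : Set (Vec n)}
    (h : ∀ x ∈ U, ∀ y ∈ U, dist x y ≤ dist (F x) (F y)) : volume U ≤ volume (F '' U) := by
  have hinj : InjOn F U := fun x hx y hy e =>
    dist_le_zero.mp ((h x hx y hy).trans_eq (by rw [e, dist_self]))
  have hL : LipschitzOnWith 1 (Function.invFunOn F U) (F '' U) := by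
    refine LipschitzOnWith.of_dist_le_mul ?_
    rintro _ ⟨x, hx, rfl⟩ _ ⟨y, hy, rfl⟩
    rw [hinj.leftInvOn_invFunOn hx, hinj.leftInvOn_invFunOn hy, NNReal.coe_one, one_mul]
    exact h x hx y hy
  have h1 := hL.hausdorffMeasure_image_le (d := (Fintype.card (Fin (n + 1)) : ℝ)) (Nat.cast_nonneg _)
  rwa [hausdorffMeasure_pi_real, hinj.leftInvOn_invFunOn.image_image, ENNReal.coe_one,
    ENNReal.one_rpow, one_mul] at h1

/-- a product of expanding maps expands the volume -/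
lemma expand_vol {ρ : Fin (n + 1) → ℝ} {ψ : Fin (n + 1) → ℝ → ℝ} {W : Fin (n + 1) → Set ℝ}
    (hρ : ∀ i, 0 ≤ ρ i) (h : ∀ i, ∀ y ∈ W i, ∀ y' ∈ W i, ρ i * |y - y'| ≤ |ψ i y - ψ i y'|)
    {U : Set (Vec n)} (hU : ∀ x ∈ U, ∀ i, x i ∈ W i) :
    ENNReal.ofReal (∏ i, ρ i) * volume U ≤ volume ((fun (x : Vec n) i => ψ i (x i)) '' U) := by
  by_cases h0 : ∃ i, ρ i = 0
  · obtain ⟨i, hi⟩ := h0
    rw [Finset.prod_eq_zero (Finset.mem_univ i) hi, ENNReal.ofReal_zero, zero_mul]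
    exact zero_le
  have hp : ∀ i, 0 < ρ i := fun i => (hρ i).lt_of_ne fun e => h0 ⟨i, e.symm⟩
  have h1 := Vol_exp (F := fun (x : Vec n) i => ψ i (x i) / ρ i) (U := U) fun x hx y hy => by
    refine (dist_pi_le_iff dist_nonneg).mpr fun i => le_trans ?_ (dist_le_pi_dist _ _ i)
    rw [Real.dist_eq, Real.dist_eq, ← sub_div, abs_div, abs_of_pos (hp i), le_div_iff₀' (hp i)]
    exact h i _ (hU x hx i) _ (hU y hy i)
  have e : (fun (x : Vec n) i => ψ i (x i)) '' U = Matrix.toLin' (Matrix.diagonal ρ) ''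
      ((fun (x : Vec n) i => ψ i (x i) / ρ i) '' U) := by
    rw [image_image]
    refine image_congr fun x _ => funext fun i => ?_
    rw [Matrix.toLin'_apply, Matrix.mulVec_diagonal, mul_div_cancel₀ _ (hp i).ne']
  rw [e, Measure.addHaar_image_linearMap, LinearMap.det_toLin', Matrix.det_diagonal,
    abs_of_nonneg (Finset.prod_nonneg fun i _ => hρ i)]
  exact mul_le_mul_right h1 _

lemma Vol_lip {ξ : ℝ → ℝ} {K : ℝ} (hK : 0 ≤ K) (hξ : ∀ x y, |ξ x - ξ y| ≤ K * |x - y|) :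
    LipschitzWith ⟨K, hK⟩ ξ :=
  LipschitzWith.of_dist_le_mul hξ

lemma Vol_inj {ξ : ℝ → ℝ} {K a d : ℝ} (hξ : ∀ x y, |ξ x - ξ y| ≤ K * |x - y|)
    (ha : |d| * K < a) : Function.Injective fun x => a * x + d * ξ x := by
  intro x y e
  have e1 : a * (x - y) = -(d * (ξ x - ξ y)) := by
    have e : a * x + d * ξ x = a * y + d * ξ y := e
    linarith
  have e2 := congrArg abs e1
  rw [abs_neg, abs_mul, abs_mul] at e2
  have h1 := mul_le_mul_of_nonneg_left (hξ x y) (abs_nonneg d)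
  have h2 := mul_le_mul_of_nonneg_right (le_abs_self a) (abs_nonneg (x - y))
  by_contra hne
  have h3 := mul_lt_mul_of_pos_right ha (abs_pos.mpr (sub_ne_zero.mpr hne))
  linarith

lemma Vol_low {ξ : Fin (n + 1) → ℝ → ℝ} {K a d : ℝ}
    (hξ : ∀ i x y, |ξ i x - ξ i y| ≤ K * |x - y|) (ha : |d| * K < a) {V : Set (Vec n)}
    (hV : MeasurableSet V) (hd : ∀ x ∈ V, ∀ i, DifferentiableAt ℝ (ξ i) (x i)) :
    ∫⁻ x in V, ENNReal.ofReal (∏ i, (a + d * deriv (ξ i) (x i))) ≤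
      volume ((fun (x : Vec n) i => a * x i + d * ξ i (x i)) '' V) := by
  have h1 := lintegral_abs_det_fderiv_le_addHaar_image volume
    (f := fun (x : Vec n) i => a * x i + d * ξ i (x i))
    (f' := fun x => ContinuousLinearMap.pi fun i =>
      ((a + d * deriv (ξ i) (x i)) • (1 : ℝ →L[ℝ] ℝ)).comp (ContinuousLinearMap.proj i)) hV
    (fun x hx => HasFDerivAt.hasFDerivWithinAt (hasFDerivAt_pi.mpr fun i => by
      have h2 : HasDerivAt (fun t => a * t + d * ξ i t) (a * 1 + d * deriv (ξ i) (x i)) (x i) :=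
        ((hasDerivAt_id _).const_mul a).add ((hd x hx i).hasDerivAt.const_mul d)
      refine (HasFDerivAt.comp (f := fun f : Vec n => f i) x h2.hasFDerivAt
        (hasFDerivAt_apply i x)).congr_fderiv ?_
      ext v
      simp [mul_comm]))
    (fun x _ y _ e => funext fun i => Vol_inj (hξ i) ha (congrFun e i))
  refine le_trans (lintegral_mono fun x => ENNReal.ofReal_le_ofReal ?_) h1
  refine le_trans (le_of_eq ?_) (le_abs_self _)
  rw [ContinuousLinearMap.det_pi]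
  refine Finset.prod_congr rfl fun i _ => ?_
  simp [ContinuousLinearMap.det]

/-- symmetric donors: the first order terms cancel -/
lemma donate {ξ : Fin (n + 1) → ℝ → ℝ} {K a a' δ q : ℝ} (hK : 0 ≤ K) (hδ : 0 ≤ δ)
    (hξ : ∀ i x y, |ξ i x - ξ i y| ≤ K * |x - y|) (ha : δ * K < a) (ha' : δ * K < a')
    (hq0 : 0 ≤ q) (hq : ∀ s, |s| ≤ K → q ^ 2 ≤ (a - δ * s) * (a' + δ * s))
    {U : Set (Vec n)} (hU : MeasurableSet U) :
    ENNReal.ofReal (2 * q ^ (n + 1)) * volume U ≤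
      volume ((fun (x : Vec n) i => a * x i - δ * ξ i (x i)) '' U) +
        volume ((fun (x : Vec n) i => a' * x i + δ * ξ i (x i)) '' U) := by
  obtain ⟨V, hVe⟩ : ∃ V, V = U ∩ {x : Vec n | ∀ i, DifferentiableAt ℝ (ξ i) (x i)} := ⟨_, rfl⟩
  have hV : MeasurableSet V := by
    rw [hVe, ofPred_forall]
    exact hU.inter (MeasurableSet.iInter fun i =>
      (measurableSet_of_differentiableAt ℝ (ξ i)).preimage (measurable_pi_apply i))
  have hd : ∀ x ∈ V, ∀ i, DifferentiableAt ℝ (ξ i) (x i) := fun x hx => (hVe ▸ hx).2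
  have hVU : V ⊆ U := hVe ▸ inter_subset_left
  have hae : ∀ᵐ x : Vec n, ∀ i, DifferentiableAt ℝ (ξ i) (x i) := ae_all_iff.mpr fun i =>
    (Measure.quasiMeasurePreserving_eval (fun _ => volume) i).ae
      (Vol_lip hK (hξ i)).ae_differentiableAt_real
  have hvol : volume U ≤ volume V :=
    hVe ▸ measure_mono_ae (hae.mono fun x hx hxU => ⟨hxU, hx⟩)
  have h1 := Vol_low (d := -δ) hξ (by rwa [abs_neg, abs_of_nonneg hδ]) hV hd (a := a)
  have h2 := Vol_low (d := δ) hξ (by rwa [abs_of_nonneg hδ]) hV hd (a := a')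
  simp only [neg_mul, ← sub_eq_add_neg] at h1
  refine le_trans ?_ (add_le_add (h1.trans (measure_mono (image_mono hVU)))
    (h2.trans (measure_mono (image_mono hVU))))
  have hm : Measurable fun x : Vec n => ∏ i, (a - δ * deriv (ξ i) (x i)) :=
    Finset.measurable_prod _ fun i _ =>
      measurable_const.sub (((measurable_deriv (ξ i)).comp (measurable_pi_apply i)).const_mul δ)
  rw [← lintegral_add_left hm.ennreal_ofReal]
  refine (mul_le_mul_right hvol _).trans ?_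
  rw [← setLIntegral_const]
  refine lintegral_mono fun x => ?_
  have hs : ∀ i, |deriv (ξ i) (x i)| ≤ K := fun i => norm_deriv_le_of_lipschitz (Vol_lip hK (hξ i))
  have hs' : ∀ i, |δ * deriv (ξ i) (x i)| ≤ δ * K := fun i => by
    rw [abs_mul, abs_of_nonneg hδ]
    exact mul_le_mul_of_nonneg_left (hs i) hδ
  have p1 : 0 ≤ ∏ i, (a - δ * deriv (ξ i) (x i)) :=
    Finset.prod_nonneg fun i _ => by linarith [(abs_le.mp (hs' i)).2]
  have p2 : 0 ≤ ∏ i, (a' + δ * deriv (ξ i) (x i)) :=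
    Finset.prod_nonneg fun i _ => by linarith [(abs_le.mp (hs' i)).1]
  have p3 : (q ^ (n + 1)) ^ 2 ≤
      (∏ i, (a - δ * deriv (ξ i) (x i))) * ∏ i, (a' + δ * deriv (ξ i) (x i)) := by
    rw [← Finset.prod_mul_distrib, ← pow_mul, mul_comm, pow_mul, ← Fin.prod_const]
    exact Finset.prod_le_prod (fun i _ => sq_nonneg q) fun i _ => hq _ (hs i)
  rw [← ENNReal.ofReal_add p1 p2]
  refine ENNReal.ofReal_le_ofReal (abs_le_of_sq_le_sq' ?_ (add_nonneg p1 p2)).2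
  nlinarith [sq_nonneg (∏ i, (a - δ * deriv (ξ i) (x i)) - ∏ i, (a' + δ * deriv (ξ i) (x i)))]

lemma Vol_bz {u δ W : ℝ} (hu : 0 < u) (hδ : |δ| ≤ W) (hs : 1000 * W ≤ u ^ 2) :
    0 ≤ W / u ^ 2 ∧ W / u ^ 2 ≤ 1 / 1000 ∧ 0 ≤ bz u δ ∧ bz u δ ≤ (W / u ^ 2) ^ 2 / 2 ∧
      |δ| * (10 / u ^ 2) ≤ 10 * (W / u ^ 2) := by
  have hW := (abs_nonneg δ).trans hδ
  have hu2 : 0 < u ^ 2 := by positivity
  obtain ⟨h1, h2⟩ := bz_bounds hu (δ := δ) (by linarith)
  refine ⟨by positivity, by rw [div_le_div_iff₀ hu2 (by norm_num)]; linarith, h1, h2.trans ?_, ?_⟩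
  · rw [show (W / u ^ 2) ^ 2 / 2 = W ^ 2 / (2 * u ^ 4) by field_simp, ← sq_abs δ]
    gcongr
  · rw [show 10 * (W / u ^ 2) = W * (10 / u ^ 2) by ring]
    gcongr

lemma psi_facts {u rA rB δ W : ℝ} (hu : 0 < u) (hA : 0 ≤ rA) (hA' : rA ≤ 1) (hB : 0 ≤ rB)
    (hB' : rB ≤ 1) (hδ : |δ| ≤ W) (hs : 1000 * W ≤ u ^ 2) :
    Continuous (psi u rA rB δ) ∧ Function.Injective (psi u rA rB δ) := by
  obtain ⟨h0, h1, -, h2, h3⟩ := Vol_bz hu hδ hs
  have hL := xi_lip hu hA hA' hB hB'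
  have hc := (Vol_lip (by positivity) hL).continuous
  refine ⟨(continuous_const.mul continuous_id).sub (continuous_const.mul hc), ?_⟩
  have h4 := Vol_inj (a := 1 - bz u δ) (d := -δ) hL (by rw [abs_neg]; nlinarith)
  simp only [neg_mul, ← sub_eq_add_neg] at h4
  exact h4

lemma donate_psi {u δ W : ℝ} {rA rB : Fin (n + 1) → ℝ} (hu : 0 < u)
    (hA : ∀ i, 0 ≤ rA i ∧ rA i ≤ 1) (hB : ∀ i, 0 ≤ rB i ∧ rB i ≤ 1) (hδ : 0 ≤ δ) (hδ' : δ ≤ W)
    (hs : 1000 * W ≤ u ^ 2) {U : Set (Vec n)} (hU : MeasurableSet U) :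
    ENNReal.ofReal (2 * (1 - 102 * (W / u ^ 2) ^ 2) ^ (n + 1)) * volume U ≤
      volume ((fun (x : Vec n) i => psi u (rA i) (rB i) δ (x i)) '' U) +
        volume ((fun (x : Vec n) i => psi u (rA i) (rB i) (-δ) (x i)) '' U) := by
  obtain ⟨h0, h1, a1, a2, h3⟩ := Vol_bz hu (δ := δ) (by rwa [abs_of_nonneg hδ]) hs
  obtain ⟨-, -, b1, b2, -⟩ := Vol_bz hu (δ := -δ) (by rwa [abs_neg, abs_of_nonneg hδ]) hs
  rw [abs_of_nonneg hδ] at h3
  generalize W / u ^ 2 = y at *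
  have hy : y ^ 2 ≤ y / 1000 := by nlinarith
  simp only [psi, neg_mul, sub_neg_eq_add]
  refine donate (ξ := fun i => xi u (rA i) (rB i)) (K := 10 / u ^ 2) (by positivity) hδ
    (fun i => xi_lip hu (hA i).1 (hA i).2 (hB i).1 (hB i).2) (by linarith) (by linarith)
    (by linarith) (fun s hs => ?_) hU
  have ht : |δ * s| ≤ 10 * y := by
    rw [abs_mul, abs_of_nonneg hδ]
    exact (mul_le_mul_of_nonneg_left hs hδ).trans h3
  generalize δ * s = t at ht
  generalize bz u δ = b at *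
  generalize bz u (-δ) = b' at *
  obtain ⟨t1, t2⟩ := abs_le.mp ht
  have k1 : t ^ 2 ≤ (10 * y) ^ 2 := sq_le_sq' t1 t2
  have k2 : (1 - 102 * y ^ 2) ^ 2 ≤ 1 - 102 * y ^ 2 := by nlinarith [sq_nonneg y]
  have k3 : 0 ≤ b * b' := mul_nonneg a1 b1
  have k4 : 0 ≤ b' * (1 + t) := mul_nonneg b1 (by linarith)
  have k5 : 0 ≤ b * (1 - t) := mul_nonneg a1 (by linarith)
  nlinarith

end

end Pool.Agent.P.MP_767cd9_co.Q1
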